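import Pool.Agent.H92F.AlgA

/-! The derivation `y d/dx` on `k[x][y]/(y ^ 2 - f)` in characteristic 5. -/

set_option autoImplicit false
open Polynomial QuadraticAlgebra

noncomputable section
namespace CL5.Alg

variable {k : Type*} [Field k]

/-- the derivation `y d/dx` -/
def del (f : k[X]) : QuadraticAlgebra k[X] f 0 →+ QuadraticAlgebra k[X] f 0 where
  toFun z := ⟨derivative z.im * f + 3 * z.im * derivative f, derivative z.re⟩
  map_zero' := by ext : 1 <;> simp
  map_add' a b := by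
    ext : 1
    · simp only [re_add, im_add, map_add]; ring
    · simp only [re_add, im_add, map_add]

theorem del_re (f : k[X]) (z : QuadraticAlgebra k[X] f 0) :
    (del f z).re = derivative z.im * f + 3 * z.im * derivative f := rfl

theorem del_im (f : k[X]) (z : QuadraticAlgebra k[X] f 0) : (del f z).im = derivative z.re := rfl

/-- the derivation `f ^ 5 d/dx` -/
def dd (f : k[X]) : QuadraticAlgebra k[X] f 0 →+ QuadraticAlgebra k[X] f 0 :=
  (AddMonoidHom.mulLeft (⟨0, f ^ 4⟩ : QuadraticAlgebra k[X] f 0)).comp (del f)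

theorem dd_apply (f : k[X]) (z : QuadraticAlgebra k[X] f 0) :
    dd f z = ⟨0, f ^ 4⟩ * del f z := rfl

variable [CharP k 5]

theorem five_poly : (5 : k[X]) = 0 := by exact_mod_cast CharP.cast_eq_zero k[X] 5

theorem charO (f : k[X]) : CharP (QuadraticAlgebra k[X] f 0) 5 :=
  charP_of_injective_algebraMap (R := k[X]) algebraMap_injective 5

theorem five_O (f : k[X]) : (5 : QuadraticAlgebra k[X] f 0) = 0 := by
  have := charO f
  exact_mod_cast CharP.cast_eq_zero (QuadraticAlgebra k[X] f 0) 5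

theorem del_mul (f : k[X]) (a b : QuadraticAlgebra k[X] f 0) :
    del f (a * b) = del f a * b + a * del f b := by
  ext : 1
  · simp only [del_re, del_im, re_add, re_mul, im_mul, zero_mul, add_zero, map_add, derivative_mul]
    linear_combination (0 : k[X]) * five_poly (k := k)
  · simp only [del_re, del_im, im_add, re_mul, im_mul, zero_mul, add_zero, map_add, derivative_mul]
    linear_combination (-(derivative f * a.im * b.im)) * five_poly (k := k)

theorem dd_mul (f : k[X]) (a b : QuadraticAlgebra k[X] f 0) :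
    dd f (a * b) = dd f a * b + a * dd f b := by
  simp only [dd_apply, del_mul]; ring

theorem der_pow5 (a : k[X]) : derivative (a ^ 5) = 0 := by
  rw [derivative_pow]
  have : (C ((5 : ℕ) : k) : k[X]) = 0 := by rw [CharP.cast_eq_zero k 5, map_zero]
  rw [this, zero_mul, zero_mul]

theorem der_pow5_mul (a b : k[X]) : derivative (a ^ 5 * b) = a ^ 5 * derivative b := by
  rw [derivative_mul, der_pow5, zero_mul, zero_add]

theorem dd_mk (f A B : k[X]) : dd f ⟨A, B * f ^ 2⟩ =
    ⟨f ^ 5 * derivative A, f ^ 5 * derivative B * f ^ 2⟩ := by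
  have h2 : derivative (f ^ 2) = 2 * f * derivative f := by
    rw [sq, derivative_mul]; ring
  ext : 1
  · simp only [dd_apply, del_re, del_im, re_mul]; ring
  · simp only [dd_apply, del_re, del_im, im_mul, derivative_mul, h2]
    linear_combination (B * f ^ 6 * derivative f) * five_poly (k := k)

theorem dd_four (f A B : k[X]) : dd f (dd f (dd f (dd f ⟨A, B * f ^ 2⟩))) =
    ⟨f ^ 20 * derivative^[4] A, f ^ 20 * derivative^[4] B * f ^ 2⟩ := by
  simp only [dd_mk, der_pow5_mul, Function.iterate_succ, Function.iterate_zero, Function.comp_apply,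
    id_eq]
  ext : 1
  · show f ^ 5 * (f ^ 5 * (f ^ 5 * (f ^ 5 * _))) = f ^ 20 * _
    ring
  · show f ^ 5 * (f ^ 5 * (f ^ 5 * (f ^ 5 * _))) * f ^ 2 = f ^ 20 * _ * f ^ 2
    ring

theorem der_five_times (A : k[X]) : derivative (derivative^[4] A) = 0 := by
  rw [← Function.iterate_succ_apply' derivative 4 A]
  ext m
  rw [coeff_iterate_derivative, coeff_zero, nsmul_eq_mul]
  have : ((m + 5).descFactorial 5 : k) = 0 :=
    (CharP.cast_eq_zero_iff k 5 _).2
      ((Nat.dvd_factorial (by norm_num) le_rfl).trans (Nat.factorial_dvd_descFactorial _ 5))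
  rw [Nat.succ_eq_add_one, this, zero_mul]

theorem pow5 {f : k[X]} (z : QuadraticAlgebra k[X] f 0) :
    z ^ 5 = ⟨z.re ^ 5, z.im ^ 5 * f ^ 2⟩ := by
  have e : z ^ 5 = z * z * z * z * z := by ring
  rw [e]
  ext : 1
  · simp only [re_mul, im_mul]
    linear_combination (2 * z.re ^ 3 * z.im ^ 2 * f + z.re * z.im ^ 4 * f ^ 2) * five_poly (k := k)
  · simp only [re_mul, im_mul]
    linear_combination (z.re ^ 4 * z.im + 2 * z.re ^ 2 * z.im ^ 3 * f) * five_poly (k := k)

theorem dd_five {f : k[X]} (hf : f ≠ 0) (z : QuadraticAlgebra k[X] f 0) :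
    dd f (dd f (dd f (dd f (dd f z)))) = 0 := by
  have hc : ∀ z : QuadraticAlgebra k[X] f 0, dd f (algebraMap k[X] _ f ^ 5 * z) =
      algebraMap k[X] _ f ^ 5 * dd f z := fun z => by
    rw [dd_mul, der_five (dd_mul f) (five_O f), zero_mul, zero_add]
  have e : algebraMap k[X] (QuadraticAlgebra k[X] f 0) f ^ 5 * z =
      ⟨f ^ 5 * z.re, (f ^ 3 * z.im) * f ^ 2⟩ := by
    rw [← map_pow]
    ext : 1
    · simp only [re_mul, algebraMap_re, algebraMap_im]; ring
    · simp only [im_mul, algebraMap_re, algebraMap_im]; ring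
  have h1 : algebraMap k[X] (QuadraticAlgebra k[X] f 0) f ^ 5 *
      dd f (dd f (dd f (dd f (dd f z)))) = 0 := by
    rw [← hc, ← hc, ← hc, ← hc, ← hc, e, dd_four, dd_mk]
    have e20 : f ^ 20 = (f ^ 4) ^ 5 := by ring
    rw [e20, der_pow5_mul, der_pow5_mul, der_five_times, der_five_times]
    ext : 1 <;> simp
  rw [← map_pow] at h1
  have h2 := congrArg QuadraticAlgebra.re h1
  have h3 := congrArg QuadraticAlgebra.im h1
  simp only [re_mul, im_mul, algebraMap_re, algebraMap_im, zero_mul, mul_zero, add_zero, re_zero,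
    im_zero, mul_eq_zero, pow_eq_zero_iff (show 5 ≠ 0 by norm_num), hf, false_or] at h2 h3
  ext : 1
  · exact h2
  · exact h3

theorem jac_val {f : k[X]} (u : QuadraticAlgebra k[X] f 0) :
    ((⟨0, f ^ 4⟩ : QuadraticAlgebra k[X] f 0) * u) ^ 5 +
      dd f (dd f (dd f (dd f (⟨0, f ^ 4⟩ * u)))) =
    ⟨f ^ 25 * (u.im ^ 5 + derivative^[4] u.im),
      f ^ 22 * (derivative^[4] (u.re * f ^ 2) + u.re ^ 5)⟩ := by
  have e : (⟨0, f ^ 4⟩ : QuadraticAlgebra k[X] f 0) * u =
      ⟨f ^ 5 * u.im, (u.re * f ^ 2) * f ^ 2⟩ := by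
    ext : 1
    · simp only [re_mul]; ring
    · simp only [im_mul]; ring
  have e4 : derivative^[4] (f ^ 5 * u.im) = f ^ 5 * derivative^[4] u.im := by
    simp only [der_pow5_mul, Function.iterate_succ, Function.iterate_zero, Function.comp_apply,
      id_eq]
  rw [e, dd_four, pow5, e4]
  ext : 1
  · simp only [re_add]; ring
  · simp only [im_add]; ring

omit [CharP k 5] in
theorem eq_zero_of_pow5 {b : k[X]} (h : b ^ 5 + derivative^[4] b = 0) : b = 0 := by
  by_contra hb
  have e : b ^ 5 = -derivative^[4] b := eq_neg_of_add_eq_zero_left h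
  have h1 := congrArg natDegree e
  rw [natDegree_pow, natDegree_neg] at h1
  have h2 := natDegree_iterate_derivative b 4
  have h3 : b.natDegree = 0 := by omega
  rw [iterate_derivative_eq_zero (by omega), neg_zero] at e
  exact hb (pow_eq_zero_iff (by norm_num) |>.1 e)

theorem log_iff {f : k[X]} (hf : f ≠ 0) [IsDomain (QuadraticAlgebra k[X] f 0)]
    (u : QuadraticAlgebra k[X] f 0) : (∃ α, α ≠ 0 ∧ del f α = u * α) ↔
      u.im = 0 ∧ derivative^[4] (u.re * f ^ 2) + u.re ^ 5 = 0 := by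
  have y0 : (⟨0, f ^ 4⟩ : QuadraticAlgebra k[X] f 0) ≠ 0 := fun h =>
    pow_ne_zero 4 hf (congrArg QuadraticAlgebra.im h)
  constructor
  · rintro ⟨α, h0, h⟩
    have h1 : dd f α = (⟨0, f ^ 4⟩ * u) * α := by rw [dd_apply, h, mul_assoc]
    have h2 := jac_dir (D := ⇑(dd f)) (map_add (dd f)) (dd_mul f) (five_O f) h1
    rw [dd_five hf] at h2
    have h2' := (mul_eq_zero.1 h2.symm).resolve_right h0
    rw [jac_val u] at h2'
    obtain ⟨h3, h4⟩ := (QuadraticAlgebra.mk.injEq _ _ _ _).mp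
      (h2'.trans (show (0 : QuadraticAlgebra k[X] f 0) = ⟨0, 0⟩ from rfl))
    exact ⟨eq_zero_of_pow5 ((mul_eq_zero.1 h3).resolve_left (pow_ne_zero _ hf)),
      (mul_eq_zero.1 h4).resolve_left (pow_ne_zero _ hf)⟩
  · rintro ⟨h1, h2⟩
    obtain ⟨α, h0, h⟩ := jac_ex (D := ⇑(dd f)) (map_add (dd f)) (dd_mul f) (five_O f)
      (w := ⟨0, f ^ 4⟩ * u) (by
      rw [jac_val, h1, h2]
      ext : 1 <;> simp)
    rw [dd_apply, mul_assoc] at h
    exact ⟨α, h0, mul_left_cancel₀ y0 h⟩

variable [Finite k]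

theorem root5 {a : k[X]} (h : derivative a = 0) : ∃ b : k[X], a = b ^ 5 := by
  have : Fact (Nat.Prime 5) := ⟨by norm_num⟩
  refine ⟨(contract 5 a).map ((frobeniusEquiv k 5).symm : k →+* k), ?_⟩
  rw [← map_frobenius_expand (p := 5), map_expand, Polynomial.map_map]
  have e : (frobenius k 5).comp ((frobeniusEquiv k 5).symm : k →+* k) = RingHom.id k := by
    ext x; simp
  rw [e, Polynomial.map_id, expand_contract 5 h (by norm_num)]

theorem ker_del {f : k[X]} (hf : Squarefree f) (γ : QuadraticAlgebra k[X] f 0) (h : del f γ = 0) :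
    ∃ β, γ = β ^ 5 := by
  have h1 : derivative γ.im * f + 3 * γ.im * derivative f = 0 := congrArg QuadraticAlgebra.re h
  have h2 : derivative γ.re = 0 := congrArg QuadraticAlgebra.im h
  obtain ⟨a, ha⟩ := root5 h2
  have h3 : derivative (γ.im * f ^ 3) = 0 := by
    have e : f ^ 3 = f * f * f := by ring
    rw [e]
    simp only [derivative_mul]
    linear_combination (f * f) * h1
  obtain ⟨c, hc⟩ := root5 h3
  obtain ⟨b, rfl⟩ : f ∣ c := (hf.dvd_pow_iff_dvd (n := 5) (by norm_num)).1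
    ⟨γ.im * f ^ 2, by rw [← hc]; ring⟩
  refine ⟨⟨a, b⟩, ?_⟩
  rw [pow5]
  ext : 1
  · exact ha
  · apply mul_right_cancel₀ (pow_ne_zero 3 hf.ne_zero)
    rw [hc]; ring

theorem prime_del {f : k[X]} (hf : Squarefree f) [IsDomain (QuadraticAlgebra k[X] f 0)]
    (P : Ideal (QuadraticAlgebra k[X] f 0)) (hP : P.IsPrime) (P0 : P ≠ ⊥) :
    ∃ t ∈ P, del f t ∉ P := by
  have key : ∀ a : k[X], a.Separable → algebraMap k[X] _ a ∈ P →
      algebraMap k[X] _ (derivative a) ∈ P → False := by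
    rintro a ⟨s, t, hst⟩ h1 h2
    apply hP.ne_top
    rw [Ideal.eq_top_iff_one, ← map_one (algebraMap k[X] _), ← hst, map_add, map_mul, map_mul]
    exact P.add_mem (P.mul_mem_left _ h1) (P.mul_mem_left _ h2)
  by_cases hy : (⟨0, 1⟩ : QuadraticAlgebra k[X] f 0) ∈ P
  · refine ⟨_, hy, fun h => key f (PerfectField.separable_iff_squarefree.2 hf) ?_ ?_⟩
    · have e : algebraMap k[X] (QuadraticAlgebra k[X] f 0) f = ⟨0, 1⟩ * ⟨0, 1⟩ := by
        ext : 1 <;> simp
      rw [e]; exact P.mul_mem_left _ hy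
    · have e : algebraMap k[X] (QuadraticAlgebra k[X] f 0) (derivative f) =
          algebraMap k[X] _ 2 * del f ⟨0, 1⟩ := by
        ext : 1
        · simp only [re_mul, algebraMap_re, algebraMap_im, del_re, del_im, derivative_one]
          linear_combination (-derivative f) * five_poly (k := k)
        · simp only [im_mul, algebraMap_re, algebraMap_im, del_re, del_im, derivative_zero]
          ring
      rw [e]; exact P.mul_mem_left _ h
  · have hQ : (P.comap (algebraMap k[X] _)).IsPrime := Ideal.IsPrime.comap _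
    have hQ0 : P.comap (algebraMap k[X] _) ≠ ⊥ := Ideal.IsIntegral.comap_ne_bot k[X] P0
    obtain ⟨p, hp⟩ := (IsPrincipalIdealRing.principal (P.comap (algebraMap k[X] _))).principal
    have hp' : P.comap (algebraMap k[X] _) = Ideal.span {p} := hp
    have p0 : p ≠ 0 := by
      rintro rfl
      exact hQ0 (hp'.trans (Ideal.span_singleton_eq_bot.2 rfl))
    have hpr : Prime p := (Ideal.span_singleton_prime p0).1 (hp' ▸ hQ)
    have hm : algebraMap k[X] _ p ∈ P :=
      Ideal.mem_comap.1 (hp' ▸ Ideal.mem_span_singleton_self p)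
    refine ⟨_, hm, fun h => key p (PerfectField.separable_of_irreducible hpr.irreducible) hm ?_⟩
    have e : del f (algebraMap k[X] _ p) = algebraMap k[X] _ (derivative p) * ⟨0, 1⟩ := by
      ext : 1 <;> simp [del_re, del_im]
    rw [e] at h
    exact (hP.mem_or_mem h).resolve_right hy

omit [Finite k] in
theorem card_units_odd {f : k[X]}
    (h : ∀ e : (QuadraticAlgebra k[X] f 0)ˣ, ∃ c : k,
      (e : QuadraticAlgebra k[X] f 0) = algebraMap k[X] _ (C c)) :
    Nat.card {u : QuadraticAlgebra k[X] f 0 //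
      ∃ ε : (QuadraticAlgebra k[X] f 0)ˣ, del f ε = u * ε} = 1 := by
  rw [Nat.card_eq_one_iff_exists]
  refine ⟨⟨0, 1, by rw [Units.val_one, der_one (del_mul f), zero_mul]⟩, ?_⟩
  rintro ⟨u, ε, hε⟩
  obtain ⟨c, hc⟩ := h ε
  have : del f ε = 0 := by rw [hc]; ext : 1 <;> simp [del_re, del_im]
  rw [this, eq_comm, Units.mul_left_eq_zero] at hε
  exact Subtype.ext hε

theorem card_units_even {f : k[X]} (hf : Squarefree f) (hn : 0 < f.natDegree)
    (e0 : (QuadraticAlgebra k[X] f 0)ˣ)
    (h0 : ∀ a : k[X], (e0 : QuadraticAlgebra k[X] f 0) ≠ algebraMap _ _ a)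
    (h : ∀ e : (QuadraticAlgebra k[X] f 0)ˣ, ∃ (c : k) (j : ℤ),
      (e : QuadraticAlgebra k[X] f 0) = algebraMap _ _ (C c) *
        ((e0 ^ j : (QuadraticAlgebra k[X] f 0)ˣ) : QuadraticAlgebra k[X] f 0)) :
    Nat.card {u : QuadraticAlgebra k[X] f 0 //
      ∃ ε : (QuadraticAlgebra k[X] f 0)ˣ, del f ε = u * ε} = 5 := by
  let L : (QuadraticAlgebra k[X] f 0)ˣ →* Multiplicative (QuadraticAlgebra k[X] f 0) :=
    MonoidHom.mk' (fun e => Multiplicative.ofAdd (del f e * (e⁻¹ : (QuadraticAlgebra k[X] f 0)ˣ)))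
      fun a b => by
        rw [← ofAdd_add, Units.val_mul, del_mul, mul_inv, Units.val_mul]
        congr 1
        linear_combination (del f a * (a⁻¹ : (QuadraticAlgebra k[X] f 0)ˣ)) * b.mul_inv +
          (del f b * (b⁻¹ : (QuadraticAlgebra k[X] f 0)ˣ)) * a.mul_inv
  have hL : ∀ e, del f (e : (QuadraticAlgebra k[X] f 0)ˣ) = (L e).toAdd * e := fun e => by
    show _ = del f e * (e⁻¹ : (QuadraticAlgebra k[X] f 0)ˣ) * e
    rw [mul_assoc, Units.inv_mul, mul_one]
  have hall : ∀ e : (QuadraticAlgebra k[X] f 0)ˣ, ∃ j : ℤ,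
      del f e = (j • (L e0).toAdd) * e := fun e => by
    obtain ⟨c, j, hc⟩ := h e
    have hc0 : del f (algebraMap k[X] _ (C c)) = 0 := by ext : 1 <;> simp [del_re, del_im]
    refine ⟨j, ?_⟩
    rw [hc, del_mul, hc0, hL, map_zpow, toAdd_zpow]; ring
  have hne : (L e0).toAdd ≠ 0 := by
    intro hz
    have hdv : ∀ (r : ℕ) (e : (QuadraticAlgebra k[X] f 0)ˣ),
        f ^ r ∣ (e : QuadraticAlgebra k[X] f 0).im := by
      intro r
      induction r with
      | zero => intro e; rw [pow_zero]; exact one_dvd _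
      | succ r ih =>
        intro e
        obtain ⟨j, hj⟩ := hall e
        rw [hz, smul_zero, zero_mul] at hj
        obtain ⟨β, hβ⟩ := ker_del hf _ hj
        obtain ⟨b, rfl⟩ : IsUnit β := (isUnit_pow_iff (n := 5) (by norm_num)).1 (hβ ▸ e.isUnit)
        obtain ⟨t, ht⟩ := ih b
        rw [hβ, pow5]
        exact ⟨t * (b : QuadraticAlgebra k[X] f 0).im ^ 4 * f, by
          show (b : QuadraticAlgebra k[X] f 0).im ^ 5 * f ^ 2 = _
          linear_combination ((b : QuadraticAlgebra k[X] f 0).im ^ 4 * f ^ 2) * ht⟩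
    have him : (e0 : QuadraticAlgebra k[X] f 0).im = 0 := by
      by_contra hi
      have := natDegree_le_of_dvd (hdv ((e0 : QuadraticAlgebra k[X] f 0).im.natDegree + 1) e0) hi
      rw [natDegree_pow] at this
      nlinarith
    exact h0 (e0 : QuadraticAlgebra k[X] f 0).re (by ext : 1 <;> simp [him])
  have : Fact (Nat.Prime 5) := ⟨by norm_num⟩
  have ho : addOrderOf (L e0).toAdd = 5 := addOrderOf_eq_prime (by
    rw [nsmul_eq_mul]
    have := five_O f
    push_cast
    rw [this, zero_mul]) hne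
  rw [← ho, ← Nat.card_zmultiples]
  refine Nat.card_congr (Equiv.subtypeEquivRight fun u => ⟨?_, ?_⟩)
  · rintro ⟨ε, hε⟩
    obtain ⟨j, hj⟩ := hall ε
    rw [hε, Units.mul_left_inj] at hj
    exact ⟨j, hj.symm⟩
  · rintro ⟨j, rfl⟩
    exact ⟨e0 ^ j, by rw [hL, map_zpow, toAdd_zpow]⟩

theorem card_sol {f : k[X]} (hf : Squarefree f) [IsDedekindDomain (QuadraticAlgebra k[X] f 0)] :
    Nat.card {g : k[X] // derivative^[4] (g * f ^ 2) + g ^ 5 = 0} =
      Nat.card {c : CommRing.Pic (QuadraticAlgebra k[X] f 0) // c ^ 5 = 1} *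
        Nat.card {u : QuadraticAlgebra k[X] f 0 //
          ∃ ε : (QuadraticAlgebra k[X] f 0)ˣ, del f ε = u * ε} := by
  have := charO f
  have e1 : Nat.card {c : CommRing.Pic (QuadraticAlgebra k[X] f 0) // c ^ 5 = 1} =
      Nat.card {c : ClassGroup (QuadraticAlgebra k[X] f 0) // c ^ 5 = 1} :=
    (Nat.card_congr ((ClassGroup.equivPic _).toEquiv.subtypeEquiv fun c => by
      rw [MulEquiv.toEquiv_eq_coe, MulEquiv.coe_toEquiv, ← map_pow, MulEquiv.map_eq_one_iff])).symm
  rw [e1, ← count (del_mul f) (prime_del hf) (ker_del hf)]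
  exact Nat.card_congr
    { toFun := fun g => ⟨⟨g.1, 0⟩, (log_iff hf.ne_zero _).2 ⟨rfl, g.2⟩⟩
      invFun := fun u => ⟨u.1.re, ((log_iff hf.ne_zero _).1 u.2).2⟩
      left_inv := fun _ => rfl
      right_inv := fun u => Subtype.ext (by
        ext : 1
        · rfl
        · exact ((log_iff hf.ne_zero _).1 u.2).1.symm) }

end CL5.Alg
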