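import Mathlib

set_option autoImplicit false

namespace CL5.Alg

open Polynomial QuadraticAlgebra

variable {k : Type*} [Field k]

lemma ded_frac {f : k[X]} (hf : Squarefree f) (b : FractionRing k[X]) (c : k[X])
    (h : algebraMap k[X] (FractionRing k[X]) f * b ^ 2 = algebraMap k[X] (FractionRing k[X]) c) :
    ∃ v : k[X], algebraMap k[X] (FractionRing k[X]) v = b := by
  have e := (IsFractionRing.num_mul_den_eq_num_iff_eq' (A := k[X]) (x := b) (y := b)).2 rfl
  have hc := IsFractionRing.num_den_reduced k[X] b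
  set p := IsFractionRing.num k[X] b
  set q : k[X] := (IsFractionRing.den k[X] b : k[X])
  have e2 : f * p ^ 2 = c * q ^ 2 := by
    apply IsFractionRing.injective k[X] (FractionRing k[X])
    rw [map_mul, map_mul, map_pow, map_pow, ← e, ← h]
    ring
  have h1 : q ^ 2 ∣ f := by
    have : IsCoprime (q ^ 2) (p ^ 2) := hc.symm.isCoprime.pow
    exact this.dvd_of_dvd_mul_right ⟨c, by rw [e2]; ring⟩
  obtain ⟨u, hu⟩ : IsUnit q := hf q (by rwa [← sq])
  refine ⟨p * ↑u⁻¹, ?_⟩
  rw [map_mul, ← e, ← hu, mul_assoc, ← map_mul, Units.mul_inv, map_one, mul_one]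

lemma ded_fact {f : k[X]} (hf : Squarefree f) (hn : 0 < f.natDegree) :
    Fact (∀ r : FractionRing k[X], r ^ 2 ≠ algebraMap k[X] (FractionRing k[X]) f + 0 * r) := by
  refine ⟨fun r hr => ?_⟩
  rw [zero_mul, add_zero] at hr
  have hi : IsIntegral k[X] r := IsIntegral.of_pow (n := 2) (by norm_num)
    (by rw [hr]; exact isIntegral_algebraMap)
  obtain ⟨v, rfl⟩ := IsIntegrallyClosed.isIntegral_iff.1 hi
  rw [← map_pow] at hr
  have e := IsFractionRing.injective k[X] (FractionRing k[X]) hr
  have hu : IsUnit v := hf v (by rw [← e, sq])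
  have : IsUnit f := by rw [← e]; exact hu.pow 2
  have := natDegree_eq_zero_of_isUnit this
  omega

/-- The embedding into the quadratic algebra over the fraction field. -/
noncomputable def dedPhi (f : k[X]) : QuadraticAlgebra k[X] f 0 →ₐ[k[X]]
    QuadraticAlgebra (FractionRing k[X]) (algebraMap k[X] (FractionRing k[X]) f) 0 :=
  lift ⟨omega, by ext <;> simp [Algebra.algebraMap_eq_smul_one]⟩

lemma dedPhi_apply (f : k[X]) (z : QuadraticAlgebra k[X] f 0) :
    dedPhi f z = ⟨algebraMap k[X] (FractionRing k[X]) z.re,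
      algebraMap k[X] (FractionRing k[X]) z.im⟩ := by
  ext <;> simp [dedPhi, Algebra.algebraMap_eq_smul_one]

lemma dedPhi_inj (f : k[X]) : Function.Injective (dedPhi f) := by
  intro z w h
  rw [dedPhi_apply, dedPhi_apply] at h
  injection h with h1 h2
  ext1
  · exact IsFractionRing.injective k[X] (FractionRing k[X]) h1
  · exact IsFractionRing.injective k[X] (FractionRing k[X]) h2

set_option linter.unusedVariables false in
theorem isDomain (h2 : (2 : k) ≠ 0) (f : k[X]) (hf : Squarefree f) (hn : 0 < f.natDegree) :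
    IsDomain (QuadraticAlgebra k[X] f 0) := by
  have := ded_fact hf hn
  exact (dedPhi_inj f).isDomain (dedPhi f).toRingHom

lemma ded_int (h2 : (2 : k) ≠ 0) {f : k[X]} (hf : Squarefree f)
    (z : QuadraticAlgebra (FractionRing k[X]) (algebraMap k[X] (FractionRing k[X]) f) 0)
    (hz : IsIntegral k[X] z) : ∃ y, dedPhi f y = z := by
  let st : QuadraticAlgebra (FractionRing k[X]) (algebraMap k[X] (FractionRing k[X]) f) 0
      →ₐ[k[X]] QuadraticAlgebra (FractionRing k[X]) (algebraMap k[X] (FractionRing k[X]) f) 0 :=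
    { starRingEnd _ with
      commutes' := fun r => by
        show star _ = _
        ext <;> simp [Algebra.algebraMap_eq_smul_one] }
  have hs : IsIntegral k[X] (star z) := hz.map st
  have inj : Function.Injective (algebraMap (FractionRing k[X])
      (QuadraticAlgebra (FractionRing k[X]) (algebraMap k[X] (FractionRing k[X]) f) 0)) :=
    algebraMap_injective
  have ht : IsIntegral k[X] (trace z) := by
    rw [← isIntegral_algebraMap_iff inj, algebraMap_trace_eq_add_star]
    exact hz.add hs
  have hn : IsIntegral k[X] z.norm := by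
    rw [← isIntegral_algebraMap_iff inj, algebraMap_norm_eq_mul_star]
    exact hz.mul hs
  obtain ⟨t, ht⟩ := IsIntegrallyClosed.isIntegral_iff.1 ht
  obtain ⟨n, hn⟩ := IsIntegrallyClosed.isIntegral_iff.1 hn
  rw [trace_def] at ht
  rw [norm_def] at hn
  have e2 : (C (2⁻¹ : k) * 2 : k[X]) = 1 := by
    rw [show (2 : k[X]) = C 2 from rfl, ← Polynomial.C_mul, inv_mul_cancel₀ h2, Polynomial.C_1]
  have e3 := congrArg (algebraMap k[X] (FractionRing k[X])) e2
  rw [map_mul, map_ofNat, map_one] at e3
  have hre : algebraMap k[X] (FractionRing k[X]) (C (2⁻¹ : k) * t) = z.re := by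
    rw [map_mul, ht]
    linear_combination z.re * e3
  obtain ⟨v, hv⟩ := ded_frac hf z.im ((C (2⁻¹ : k) * t) ^ 2 - n) (by
    rw [map_sub, map_pow, hre, hn]; ring)
  exact ⟨⟨C (2⁻¹ : k) * t, v⟩, by rw [dedPhi_apply]; ext <;> simp only [hre, hv]⟩

theorem isDedekind (h2 : (2 : k) ≠ 0) (f : k[X]) (hf : Squarefree f) (hn : 0 < f.natDegree) :
    IsDedekindDomain (QuadraticAlgebra k[X] f 0) := by
  have := ded_fact hf hn
  have := isDomain h2 f hf hn
  let _ : Algebra (QuadraticAlgebra k[X] f 0)
      (QuadraticAlgebra (FractionRing k[X]) (algebraMap k[X] (FractionRing k[X]) f) 0) :=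
    (dedPhi f).toRingHom.toAlgebra
  have : IsScalarTower k[X] (QuadraticAlgebra k[X] f 0)
      (QuadraticAlgebra (FractionRing k[X]) (algebraMap k[X] (FractionRing k[X]) f) 0) :=
    IsScalarTower.of_algebraMap_eq fun r => ((dedPhi f).commutes r).symm
  have hic : IsIntegralClosure (QuadraticAlgebra k[X] f 0) k[X]
      (QuadraticAlgebra (FractionRing k[X]) (algebraMap k[X] (FractionRing k[X]) f) 0) :=
    ⟨dedPhi_inj f, fun {x} => ⟨ded_int h2 hf x, by
      rintro ⟨y, rfl⟩
      exact (Algebra.IsIntegral.isIntegral (R := k[X]) y).map (dedPhi f)⟩⟩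
  have := IsIntegralClosure.isFractionRing_of_finite_extension k[X] (FractionRing k[X])
    (QuadraticAlgebra (FractionRing k[X]) (algebraMap k[X] (FractionRing k[X]) f) 0)
    (QuadraticAlgebra k[X] f 0)
  have : IsNoetherianRing (QuadraticAlgebra k[X] f 0) := IsNoetherianRing.of_finite k[X] _
  have : Ring.DimensionLEOne (QuadraticAlgebra k[X] f 0) :=
    Ring.DimensionLEOne.of_isIntegral k[X] _
  have : IsIntegrallyClosed (QuadraticAlgebra k[X] f 0) :=
    (isIntegrallyClosed_iff
      (QuadraticAlgebra (FractionRing k[X]) (algebraMap k[X] (FractionRing k[X]) f) 0)).2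
      fun {x} hx => hic.isIntegral_iff.1 (isIntegral_trans (R := k[X]) x hx)
  exact {}

end CL5.Alg
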