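import Mathlib

/-! h92f: a non-constant unit of `k[X][y]/(y^2 - f)` for `f` monic of even degree. -/

set_option autoImplicit false
open Polynomial

namespace CL5.Alg

variable {k : Type*} [Field k]

theorem ux_sqrt (h2 : (2 : k) ≠ 0) {F : k[X]} (hF : F.Monic) {d : ℕ} (hd : F.natDegree = 2 * d)
    (j : ℕ) (hj : j ≤ d) : ∃ s : k[X], s.Monic ∧ s.natDegree = d ∧
      (F - s ^ 2).degree < (2 * d - j : ℕ) := by
  induction j with
  | zero =>
    refine ⟨X ^ d, monic_X_pow d, natDegree_X_pow d, ?_⟩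
    have e : F.degree = ((X ^ d : k[X]) ^ 2).degree := by
      rw [← pow_mul, degree_X_pow, degree_eq_natDegree hF.ne_zero, hd, mul_comm]
    have := degree_sub_lt_left e hF.ne_zero (by
      rw [hF.leadingCoeff, ((monic_X_pow d).pow 2).leadingCoeff])
    rwa [degree_eq_natDegree hF.ne_zero, hd] at this
  | succ j ih =>
    obtain ⟨s, hs, hsd, hR⟩ := ih (by omega)
    obtain ⟨e, rfl⟩ : ∃ e, d = e + (j + 1) := ⟨d - (j + 1), by omega⟩
    have e1 : 2 * (e + (j + 1)) - j = (e + (j + 1)) + e + 1 := by omega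
    have e2 : 2 * (e + (j + 1)) - (j + 1) = (e + (j + 1)) + e := by omega
    rw [e1] at hR
    rw [e2]
    set R := F - s ^ 2 with hRd
    have ht : (R /ₘ s).natDegree ≤ e := by
      rw [natDegree_divByMonic R hs, hsd]
      have : R.natDegree ≤ (e + (j + 1)) + e := natDegree_le_iff_degree_le.2 (by
        rw [Nat.cast_add_one] at hR
        exact Order.le_of_lt_succ (by
          rwa [show Order.succ (((e + (j + 1) + e : ℕ)) : WithBot ℕ) =
            ((e + (j + 1) + e : ℕ) : WithBot ℕ) + 1 from rfl]))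
      omega
    have ht2 : (C (2⁻¹ : k) * (R /ₘ s)).natDegree ≤ e := (natDegree_C_mul_le _ _).trans ht
    set t := C (2⁻¹ : k) * (R /ₘ s) with htd
    have hlt : t.degree < s.degree := degree_lt_degree (by omega)
    refine ⟨s + t, hs.add_of_left hlt, by rw [natDegree_add_eq_left_of_degree_lt hlt, hsd], ?_⟩
    have h22 : (2 : k[X]) * C (2⁻¹ : k) = 1 := by
      rw [show (2 : k[X]) = C 2 from rfl, ← C_mul, mul_inv_cancel₀ h2, C_1]
    have e3 : F - (s + t) ^ 2 = R %ₘ s - t ^ 2 := by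
      have := modByMonic_add_div R s
      rw [htd]
      linear_combination -hRd - this - (s * (R /ₘ s)) * h22
    rw [e3]
    refine (degree_sub_le _ _).trans_lt (max_lt ?_ ?_)
    · refine (degree_modByMonic_lt R hs).trans_le ?_
      rw [degree_eq_natDegree hs.ne_zero, hsd]
      exact_mod_cast Nat.le_add_right _ _
    · refine degree_le_natDegree.trans_lt ?_
      have := natDegree_pow_le (p := t) (n := 2)
      exact_mod_cast (by omega : (t ^ 2).natDegree < e + (j + 1) + e)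

theorem ux_norm_ne {f : k[X]} (hs : Squarefree f) (h0 : 0 < f.natDegree) {a b : k[X]}
    (hb : b ≠ 0) : a ^ 2 - f * b ^ 2 ≠ 0 := by
  intro h
  have h1 : b ^ 2 ∣ a ^ 2 := ⟨f, by linear_combination h⟩
  obtain ⟨c, rfl⟩ := (UniqueFactorizationMonoid.pow_dvd_pow_iff_dvd (n := 2) (by norm_num)).1 h1
  have h2 : f = c * c := by
    apply mul_left_cancel₀ (pow_ne_zero 2 hb)
    linear_combination -h
  have h3 : IsUnit f := h2 ▸ (hs c h2.symm.dvd).mul (hs c h2.symm.dvd)
  rw [natDegree_eq_zero_of_isUnit h3] at h0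
  exact lt_irrefl _ h0

theorem ux_small (h2 : (2 : k) ≠ 0) {f : k[X]} (hf : f.Monic) (hs : Squarefree f) {m : ℕ}
    (hm : f.natDegree = 2 * m) (h0 : 0 < m) (M : ℕ) : ∃ a b : k[X], b ≠ 0 ∧ b.natDegree ≤ M ∧
      (a ^ 2 - f * b ^ 2).natDegree + M < b.natDegree + m := by
  classical
  have hF : (f * X ^ (4 * M)).Monic := hf.mul (monic_X_pow _)
  obtain ⟨s, hs1, hs2, hs3⟩ := ux_sqrt h2 hF (d := m + 2 * M) (by
    rw [hf.natDegree_mul (monic_X_pow _), natDegree_X_pow, hm]; ring) _ le_rfl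
  have e0 : 2 * (m + 2 * M) - (m + 2 * M) = m + 2 * M := by omega
  rw [e0] at hs3
  let φ : (Fin (M + 1) → k) →ₗ[k] (Fin M → k) := LinearMap.pi fun i =>
    (lcoeff k (M + i)).comp ((LinearMap.mulRight k s).comp (ofFn (M + 1)))
  obtain ⟨c, hc, c0⟩ := (Submodule.ne_bot_iff _).1 (LinearMap.ker_ne_bot_of_finrank_lt (f := φ)
    (by simp))
  have b0 : ofFn (M + 1) c ≠ 0 := fun h => c0 (injective_ofFn (M + 1) (by rw [h, map_zero]))
  have bM : (ofFn (M + 1) c).natDegree ≤ M := Nat.lt_succ_iff.1 (ofFn_natDegree_lt (by omega) c)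
  have hco : ∀ i : Fin M, (ofFn (M + 1) c * s).coeff (M + i) = 0 := fun i => congrFun hc i
  generalize ofFn (M + 1) c = b at b0 bM hco
  have hdiv := modByMonic_add_div (b * s) (X ^ (2 * M))
  have hr1 := degree_modByMonic_lt (b * s) (monic_X_pow (R := k) (2 * M))
  rw [degree_X_pow] at hr1
  set r := (b * s) %ₘ X ^ (2 * M)
  set a := (b * s) /ₘ X ^ (2 * M)
  have hr : r.degree < M := by
    rw [degree_lt_iff_coeff_zero] at hr1 ⊢
    intro i hi
    by_cases h : 2 * M ≤ i
    · exact hr1 i h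
    · have h3 := hco ⟨i - M, by omega⟩
      rw [← hdiv, coeff_add, show M + (i - M) = i by omega, coeff_X_pow_mul', if_neg h,
        add_zero] at h3
      exact h3
  refine ⟨a, b, b0, bM, ?_⟩
  have n0 := ux_norm_ne (a := a) hs (by omega) b0
  have e : X ^ (4 * M) * (a ^ 2 - f * b ^ 2) =
      -(b * b * (f * X ^ (4 * M) - s ^ 2)) - (b * s + b * s) * r + r * r := by
    have e4 : (X : k[X]) ^ (4 * M) = X ^ (2 * M) * X ^ (2 * M) := by rw [← pow_add]; congr 1; ring
    rw [e4]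
    linear_combination (X ^ (2 * M) * a + b * s - r) * hdiv
  have hlt : ∀ (p q : k[X]) (i j : ℕ), p.natDegree ≤ i → q.degree < j →
      (p * q).degree < (i + j : ℕ) := by
    intro p q i j hp hq
    by_cases q0 : q = 0
    · rw [q0, mul_zero, degree_zero]; exact WithBot.bot_lt_coe _
    · have := (natDegree_lt_iff_degree_lt q0).2 hq
      refine degree_le_natDegree.trans_lt ?_
      have h4 := natDegree_mul_le (p := p) (q := q)
      exact_mod_cast (by omega : (p * q).natDegree < i + j)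
  have hmono : ∀ (p : k[X]) (i j : ℕ), p.degree < i → i ≤ j → p.degree < j := fun p i j h1 h3 =>
    h1.trans_le (by exact_mod_cast h3)
  have hrM : r.natDegree ≤ M := natDegree_le_iff_degree_le.2 hr.le
  have hd : ((X : k[X]) ^ (4 * M) * (a ^ 2 - f * b ^ 2)).degree <
      ((b.natDegree + m + 3 * M : ℕ) : WithBot ℕ) := by
    rw [e]
    refine (degree_add_le _ _).trans_lt (max_lt ((degree_sub_le _ _).trans_lt (max_lt ?_ ?_)) ?_)
    · rw [degree_neg]
      exact hmono _ _ _ (hlt _ _ _ _ natDegree_mul_le hs3) (by omega)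
    · have h5 : (b * s + b * s).natDegree ≤ b.natDegree + (m + 2 * M) :=
        natDegree_add_le_of_degree_le (hs2 ▸ natDegree_mul_le) (hs2 ▸ natDegree_mul_le)
      exact hmono _ _ _ (hlt _ _ _ _ h5 hr) (by omega)
    · exact hmono _ _ _ (hlt _ _ _ _ hrM hr) (by omega)
  have h6 := (natDegree_lt_iff_degree_lt (mul_ne_zero (pow_ne_zero _ X_ne_zero) n0)).2 hd
  rw [natDegree_mul (pow_ne_zero _ X_ne_zero) n0, natDegree_X_pow] at h6
  omega

theorem exists_unit [Finite k] (h2 : (2 : k) ≠ 0) {f : k[X]} (hf : f.Monic) (hs : Squarefree f)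
    (hn : Even f.natDegree) (h0 : 0 < f.natDegree) :
    ∃ e : (QuadraticAlgebra k[X] f 0)ˣ, (e : QuadraticAlgebra k[X] f 0).im ≠ 0 := by
  obtain ⟨m, hm⟩ := hn
  choose a b b0 bM hab using ux_small h2 hf hs (m := m) (by omega) (by omega)
  have n0 : ∀ M, a M ^ 2 - f * b M ^ 2 ≠ 0 := fun M => ux_norm_ne hs h0 (b0 M)
  have nm : ∀ M, (a M ^ 2 - f * b M ^ 2).degree < m := fun M =>
    (natDegree_lt_iff_degree_lt (n0 M)).1 (by have := hab M; have := bM M; omega)
  have : Finite (degreeLT k m) := Finite.of_equiv _ (degreeLTEquiv k m).toEquiv.symm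
  let G : ℕ → degreeLT k m × degreeLT k m × degreeLT k m := fun M =>
    (⟨_, mem_degreeLT.2 (nm M)⟩,
      ⟨a M % (a M ^ 2 - f * b M ^ 2), mem_degreeLT.2 ((degree_mod_lt _ (n0 M)).trans (nm M))⟩,
      ⟨b M % (a M ^ 2 - f * b M ^ 2), mem_degreeLT.2 ((degree_mod_lt _ (n0 M)).trans (nm M))⟩)
  obtain ⟨y, hy⟩ := Finite.exists_infinite_fiber G
  have hy' : (G ⁻¹' {y}).Infinite := Set.infinite_coe_iff.1 hy
  obtain ⟨i, hi⟩ := hy'.nonempty
  obtain ⟨j, hj, hij⟩ := hy'.exists_gt (i + m)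
  have hG : G j = G i := (Set.mem_singleton_iff.1 hj).trans (Set.mem_singleton_iff.1 hi).symm
  have g1 : a j ^ 2 - f * b j ^ 2 = a i ^ 2 - f * b i ^ 2 := congrArg (fun z => z.1.1) hG
  have g2 : a j % (a j ^ 2 - f * b j ^ 2) = a i % (a i ^ 2 - f * b i ^ 2) :=
    congrArg (fun z => z.2.1.1) hG
  have g3 : b j % (a j ^ 2 - f * b j ^ 2) = b i % (a i ^ 2 - f * b i ^ 2) :=
    congrArg (fun z => z.2.2.1) hG
  have hlt : (b i).natDegree < (b j).natDegree := by
    have := hab j; have := bM i; omega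
  rw [g1] at g2 g3
  have ni := n0 i
  have b0i := b0 i
  generalize a i = a1 at *
  generalize a j = a2 at *
  generalize b i = b1 at *
  generalize b j = b2 at *
  obtain ⟨ν, hν⟩ : ∃ ν, ν = a1 ^ 2 - f * b1 ^ 2 := ⟨_, rfl⟩
  rw [← hν] at g1 g2 g3 ni
  obtain ⟨p, hp⟩ : ∃ p, a2 = a1 + ν * p := ⟨a2 / ν - a1 / ν, by
    linear_combination EuclideanDomain.div_add_mod a1 ν - EuclideanDomain.div_add_mod a2 ν + g2⟩
  obtain ⟨t, ht⟩ : ∃ t, b2 = b1 + ν * t := ⟨b2 / ν - b1 / ν, by
    linear_combination EuclideanDomain.div_add_mod b1 ν - EuclideanDomain.div_add_mod b2 ν + g3⟩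
  have hu : ν * (1 + p * a1 - f * t * b1) = a2 * a1 - f * b2 * b1 := by
    rw [hp, ht]; linear_combination hν
  have hv : ν * (t * a1 - p * b1) = b2 * a1 - a2 * b1 := by rw [hp, ht]; ring
  generalize 1 + p * a1 - f * t * b1 = u at hu
  generalize t * a1 - p * b1 = v at hv
  have h1 : u * u - f * v * v = 1 := by
    apply mul_left_cancel₀ (mul_ne_zero ni ni)
    linear_combination (ν * u + (a2 * a1 - f * b2 * b1)) * hu -
      f * (ν * v + (b2 * a1 - a2 * b1)) * hv + (a1 ^ 2 - f * b1 ^ 2) * g1 - ν * hν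
  refine ⟨Units.mkOfMulEqOne ⟨u, v⟩ ⟨u, -v⟩ ?_, fun hv0 => ?_⟩
  · ext : 1
    · simp only [QuadraticAlgebra.re_mul, QuadraticAlgebra.re_one]; linear_combination h1
    · simp only [QuadraticAlgebra.im_mul, QuadraticAlgebra.im_one]; ring
  · have hv1 : v = 0 := hv0
    rw [hv1, mul_zero, sub_zero] at h1
    have h3 : b2 = u * b1 := by
      apply mul_left_cancel₀ ni
      rw [hv1] at hv
      linear_combination (-b1) * hu - a1 * hv + b2 * hν
    have h4 : u.natDegree = 0 := natDegree_eq_zero_of_isUnit (IsUnit.of_mul_eq_one u h1)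
    have h5 := natDegree_mul_le (p := u) (q := b1)
    rw [← h3] at h5
    omega

end CL5.Alg
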