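import Pool.Agent.H92F.UnitD
import Pool.Agent.H92F.UnitEx

/-! h92f: units of `k[X][y]/(y^2 - f)` (row UNIT). -/

set_option autoImplicit false
open Polynomial

namespace CL5.Alg

variable {k : Type*} [Field k] [Finite k]

theorem unit_even_gen (h2 : (2 : k) ≠ 0) {f : k[X]} (hf : f.Monic) (hs : Squarefree f)
    (hn : Even f.natDegree) (h0 : 0 < f.natDegree) :
    ∃ e0 : (QuadraticAlgebra k[X] f 0)ˣ,
      (∀ a : k[X], (e0 : QuadraticAlgebra k[X] f 0) ≠
        algebraMap k[X] (QuadraticAlgebra k[X] f 0) a) ∧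
      ∀ e : (QuadraticAlgebra k[X] f 0)ˣ, ∃ (c : k) (j : ℤ), (e : QuadraticAlgebra k[X] f 0) =
        algebraMap k[X] (QuadraticAlgebra k[X] f 0) (C c) *
          ((e0 ^ j : (QuadraticAlgebra k[X] f 0)ˣ) : QuadraticAlgebra k[X] f 0) :=
  unit_struct h2 hf h0 (exists_unit h2 hf hs hn h0)

theorem unit_even [CharP k 5] {f : k[X]} (hf : f.Monic) (hs : Squarefree f)
    (hn : Even f.natDegree) (h0 : 0 < f.natDegree) :
    ∃ e0 : (QuadraticAlgebra k[X] f 0)ˣ,
      (∀ a : k[X], (e0 : QuadraticAlgebra k[X] f 0) ≠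
        algebraMap k[X] (QuadraticAlgebra k[X] f 0) a) ∧
      ∀ e : (QuadraticAlgebra k[X] f 0)ˣ, ∃ (c : k) (j : ℤ), (e : QuadraticAlgebra k[X] f 0) =
        algebraMap k[X] (QuadraticAlgebra k[X] f 0) (C c) *
          ((e0 ^ j : (QuadraticAlgebra k[X] f 0)ˣ) : QuadraticAlgebra k[X] f 0) := by
  refine unit_even_gen (fun h => ?_) hf hs hn h0
  have := (CharP.cast_eq_zero_iff k 5 2).1 (by exact_mod_cast h)
  omega

end CL5.Alg
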