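import Pool.Agent.H92F.Car
import Pool.Agent.H92F.AlgB
import Pool.Agent.H92F.Ded
import Pool.Agent.H92F.Unit

/-! h92f: logarithmic forms and the class group (row ALG). -/

set_option autoImplicit false
open Polynomial Finset UniqueFactorizationMonoid EuclideanDomain Filter Topology
open scoped Classical

noncomputable section
namespace CL5

variable {k : Type*} [Field k] [Fintype k]

variable [CharP k 5]

theorem card_Sol {f : k[X]} (hf : f.Monic) (hs : Squarefree f) (h1 : 1 ≤ f.natDegree) :
    (Sol f).card = uu f.natDegree *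
      Nat.card {c : CommRing.Pic (QuadraticAlgebra k[X] f 0) // c ^ 5 = 1} := by
  have h2 : (2 : k) ≠ 0 := by
    intro h
    have := (CharP.cast_eq_zero_iff k 5 2).1 (by exact_mod_cast h)
    omega
  have := Alg.isDedekind h2 f hs h1
  have e : (Sol f).card = Nat.card {g : k[X] // derivative^[4] (g * f ^ 2) + g ^ 5 = 0} := by
    rw [← Nat.card_eq_finsetCard]
    exact Nat.card_congr (Equiv.subtypeEquivRight fun g => mem_Sol' hf)
  rw [e, Alg.card_sol hs, mul_comm, uu]
  congr 1
  split_ifs with h
  · obtain ⟨e0, h0, hall⟩ := Alg.unit_even hf hs h h1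
    exact Alg.card_units_even hs h1 e0 h0 hall
  · exact Alg.card_units_odd (Alg.unit_odd hf hs (Nat.not_even_iff_odd.1 h))

end CL5
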