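import Mathlib

/-! Logarithmic derivatives and 5-torsion of the class group of a Dedekind domain of
characteristic 5 with a derivation. -/

set_option autoImplicit false
open scoped nonZeroDivisors

namespace CL5.Alg

section Der
variable {R : Type*} [CommRing R] {δ : R →+ R}

theorem der_one (hδ : ∀ a b, δ (a * b) = δ a * b + a * δ b) : δ 1 = 0 := by
  have := hδ 1 1
  simp only [mul_one, one_mul] at this
  linear_combination -this

theorem der_pow (hδ : ∀ a b, δ (a * b) = δ a * b + a * δ b) (a : R) (n : ℕ) :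
    δ (a ^ (n + 1)) = (n + 1 : R) * a ^ n * δ a := by
  induction n with
  | zero => simp
  | succ n ih => rw [pow_succ, hδ, ih]; push_cast; ring

theorem der_five (hδ : ∀ a b, δ (a * b) = δ a * b + a * δ b) (h5 : (5 : R) = 0) (a : R) :
    δ (a ^ 5) = 0 := by
  have := der_pow hδ a 4
  rw [this]
  linear_combination (a ^ 4 * δ a) * h5

/-- Jacobson's formula for `p = 5`, direct half. -/
theorem jac_dir {D : R → R} (ha : ∀ a b, D (a + b) = D a + D b)
    (hD : ∀ a b, D (a * b) = D a * b + a * D b) (h5 : (5 : R) = 0) {α w : R}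
    (h : D α = w * α) : D (D (D (D (D α)))) = (w ^ 5 + D (D (D (D w)))) * α := by
  have e2 : D (D α) = (w * w + D w) * α := by rw [h, hD, h]; ring
  have e3 : D (D (D α)) = (w * w * w + (w * D w + w * D w + w * D w) + D (D w)) * α := by
    rw [e2]; simp only [hD, ha, h]; ring
  rw [e3]
  simp only [hD, ha, h]
  linear_combination (α * (2 * w ^ 3 * D w + 3 * w * D w ^ 2 + 2 * w ^ 2 * D (D w) +
    2 * D w * D (D w) + w * D (D (D w)))) * h5

/-- Jacobson's formula for `p = 5`, existence half. -/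
theorem jac_ex [Nontrivial R] {D : R → R} (ha : ∀ a b, D (a + b) = D a + D b)
    (hD : ∀ a b, D (a * b) = D a * b + a * D b) (h5 : (5 : R) = 0)
    {w : R} (h : w ^ 5 + D (D (D (D w))) = 0) : ∃ α : R, α ≠ 0 ∧ D α = w * α := by
  have h1 : D 1 = 0 := by
    have := hD 1 1
    simp only [mul_one, one_mul] at this
    linear_combination -this
  have hs : ∀ a b, D (a - b) = D a - D b := fun a b => by
    have := ha (a - b) b
    rw [sub_add_cancel] at this
    linear_combination -this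
  have h0 : D 0 = 0 := by
    have := hs 0 0
    rwa [sub_self, sub_self] at this
  let T : R → R := fun β => D β - w * β
  have hT : T (T (T (T (T 1)))) = 0 := by
    simp only [T, hD, ha, hs, h1, h0, mul_one]
    linear_combination (-1 : R) * h + (2 * w ^ 3 * D w - 3 * w * D w ^ 2 - 2 * w ^ 2 * D (D w) +
      2 * D w * D (D w) + w * D (D (D w))) * h5
  by_contra hne
  have key : ∀ β, T β = 0 → β = 0 := fun β hβ => by
    by_contra h0
    exact hne ⟨β, h0, sub_eq_zero.1 hβ⟩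
  exact one_ne_zero (key _ (key _ (key _ (key _ (key _ hT)))))

end Der

section Ded
variable {R : Type*} [CommRing R] [IsDedekindDomain R] {δ : R →+ R}

theorem dvd_of_pow (hδ : ∀ a b, δ (a * b) = δ a * b + a * δ b) (h5 : (5 : R) = 0) {α : R}
    (hα : α ≠ 0) {I : Ideal R} (hI : I ^ 5 = Ideal.span {α}) : α ∣ δ α := by
  by_contra hnd
  have hne : (Ideal.span {α}).colon {δ α} ≠ ⊤ := by
    intro h
    have : (1 : R) ∈ (Ideal.span {α}).colon {δ α} := h ▸ Submodule.mem_top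
    rw [Submodule.mem_colon_singleton, one_smul, Ideal.mem_span_singleton] at this
    exact hnd this
  obtain ⟨P, hP, hle⟩ := Ideal.exists_le_maximal _ hne
  have I0 : I ≠ ⊥ := by
    rintro rfl
    rw [Ideal.bot_pow (by norm_num), eq_comm, Ideal.span_singleton_eq_bot] at hI
    exact hα hI
  have hlt : ¬ I ≤ I * P := by
    intro h
    have h1 : I * P = I * ⊤ := by
      rw [Ideal.mul_top]; exact le_antisymm Ideal.mul_le_left h
    exact hP.ne_top (mul_left_cancel₀ I0 h1)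
  obtain ⟨t, htI, htP⟩ := SetLike.not_le_iff_exists.1 hlt
  obtain ⟨J, hJ⟩ : I ∣ Ideal.span {t} := Ideal.dvd_iff_le.2 ((Ideal.span_singleton_le_iff_mem _).2 htI)
  have h5m : t ^ 5 ∈ Ideal.span {α} := hI ▸ Ideal.pow_mem_pow htI 5
  obtain ⟨s, hs⟩ := Ideal.mem_span_singleton.1 h5m
  have hsP : s ∈ P := by
    apply hle
    rw [Submodule.mem_colon_singleton, smul_eq_mul, Ideal.mem_span_singleton]
    have := der_five hδ h5 t
    rw [hs, hδ] at this
    exact ⟨-δ s, by linear_combination this⟩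
  have h1 : I ^ 5 * J ^ 5 = I ^ 5 * Ideal.span {s} := by
    rw [← mul_pow, ← hJ, hI, Ideal.span_singleton_pow, Ideal.span_singleton_mul_span_singleton, hs]
  have h2 : J ^ 5 ≤ P := by
    rw [mul_left_cancel₀ (pow_ne_zero 5 I0) h1]
    exact (Ideal.span_singleton_le_iff_mem _).2 hsP
  have h3 : J ≤ P := hP.isPrime.le_of_pow_le h2
  apply htP
  rw [← Ideal.span_singleton_le_iff_mem, hJ]
  exact Ideal.mul_mono_right h3

theorem five_dvd [CharP R 5] (hδ : ∀ a b, δ (a * b) = δ a * b + a * δ b) {α u : R}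
    (h : δ α = u * α) {P J : Ideal R} (hP : P.IsPrime) (P0 : P ≠ ⊥) {t : R} (ht : t ∈ P)
    (ht' : δ t ∉ P) {e : ℕ} (he : Ideal.span {α} = P ^ e * J) (hJ : ¬ J ≤ P) : 5 ∣ e := by
  rcases e with _ | e
  · exact dvd_zero _
  obtain ⟨J', hJ'⟩ : P ∣ Ideal.span {t} := Ideal.dvd_iff_le.2 ((Ideal.span_singleton_le_iff_mem _).2 ht)
  have t0 : t ≠ 0 := by rintro rfl; exact ht' (by simp)
  have hJP : ¬ J' ≤ P := by
    intro hle
    have h2 : t ∈ P * P := by
      rw [← Ideal.span_singleton_le_iff_mem, hJ']; exact Ideal.mul_mono_right hle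
    apply ht'
    refine Submodule.mul_induction_on h2 (C := fun x => δ x ∈ P) (fun a ha b hb => ?_)
      (fun a b ha hb => ?_)
    · rw [hδ]; exact P.add_mem (P.mul_mem_left _ hb) (P.mul_mem_right _ ha)
    · rw [map_add]; exact P.add_mem ha hb
  obtain ⟨s0, hs0, hs0P⟩ := SetLike.not_le_iff_exists.1 hJP
  obtain ⟨j, hj, hjP⟩ := SetLike.not_le_iff_exists.1 hJ
  have hsP : s0 ^ (e + 1) ∉ P := fun h => hs0P (hP.mem_of_pow_mem _ h)
  have hmem : s0 ^ (e + 1) * α ∈ Ideal.span {t ^ (e + 1)} := by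
    rw [← Ideal.span_singleton_pow, hJ', mul_pow, mul_comm (P ^ (e + 1))]
    refine Ideal.mul_mem_mul (Ideal.pow_mem_pow hs0 _) ?_
    have : α ∈ P ^ (e + 1) * J := he ▸ Ideal.mem_span_singleton_self α
    exact Ideal.mul_le_left this
  obtain ⟨r, hr⟩ := Ideal.mem_span_singleton.1 hmem
  have hrP : r ∉ P := by
    intro hrP
    have h1 : P ^ (e + 1) * (Ideal.span {s0 ^ (e + 1)} * J) =
        P ^ (e + 1) * (J' ^ (e + 1) * Ideal.span {r}) := by
      rw [← mul_assoc (P ^ (e + 1)) (J' ^ (e + 1)), ← mul_pow, ← hJ', Ideal.span_singleton_pow,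
        Ideal.span_singleton_mul_span_singleton, ← hr, ← Ideal.span_singleton_mul_span_singleton, he]
      ring
    have h2 := mul_left_cancel₀ (pow_ne_zero _ P0) h1
    have h3 : s0 ^ (e + 1) * j ∈ J' ^ (e + 1) * Ideal.span {r} :=
      h2 ▸ Ideal.mul_mem_mul (Ideal.mem_span_singleton_self _) hj
    have h4 : s0 ^ (e + 1) * j ∈ P :=
      ((Ideal.span_singleton_le_iff_mem _).2 hrP) (Ideal.mul_le_right h3)
    exact (hP.mem_or_mem h4).elim hsP hjP
  generalize s0 ^ (e + 1) = s at hr hsP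
  have h1 := congrArg δ hr
  rw [hδ, hδ, der_pow hδ, h] at h1
  have h2 : t ^ e * (((e + 1 : ℕ) : R) * (s * δ t * r)) =
      t ^ e * (t * ((δ s + s * u) * r - s * δ r)) := by
    push_cast
    linear_combination (-s) * h1 + (δ s + s * u) * hr
  have h3 := mul_left_cancel₀ (pow_ne_zero e t0) h2
  have h4 : ((e + 1 : ℕ) : R) * (s * δ t * r) ∈ P := h3 ▸ P.mul_mem_right _ ht
  have h5 : ((e + 1 : ℕ) : R) ∈ P := by
    rcases hP.mem_or_mem h4 with h | h
    · exact h
    · rcases hP.mem_or_mem h with h | h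
      · exact ((hP.mem_or_mem h).elim hsP ht').elim
      · exact (hrP h).elim
  by_contra hnd
  exact hP.ne_top (P.eq_top_of_isUnit_mem h5 ((CharP.isUnit_natCast_iff (by norm_num)).2 hnd))

theorem pow_of_dvd [CharP R 5] (hδ : ∀ a b, δ (a * b) = δ a * b + a * δ b)
    (hP : ∀ P : Ideal R, P.IsPrime → P ≠ ⊥ → ∃ t ∈ P, δ t ∉ P) {α u : R} (hα : α ≠ 0)
    (h : δ α = u * α) : ∃ I : Ideal R, I ^ 5 = Ideal.span {α} := by
  classical
  have h0 : Ideal.span {α} ≠ 0 := by
    rw [Ne, Ideal.zero_eq_bot, Ideal.span_singleton_eq_bot]; exact hα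
  have hc : ∀ P ∈ UniqueFactorizationMonoid.normalizedFactors (Ideal.span {α}),
      5 ∣ (UniqueFactorizationMonoid.normalizedFactors (Ideal.span {α})).count P := by
    intro P hPm
    have hpr : Prime P := UniqueFactorizationMonoid.prime_of_normalized_factor P hPm
    have hP1 : P.IsPrime := Ideal.isPrime_of_prime hpr
    obtain ⟨t, ht, ht'⟩ := hP P hP1 hpr.ne_zero
    obtain ⟨J, hJ1, hJ2⟩ := Ideal.eq_prime_pow_mul_coprime h0 P (hpm := hP1.isMaximal hpr.ne_zero)
    refine five_dvd hδ h hP1 hpr.ne_zero ht ht' hJ2 fun hle => hP1.ne_top ?_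
    rw [← hJ1, sup_eq_left.2 hle]
  obtain ⟨m, hm⟩ := Multiset.exists_smul_of_dvd_count _ hc
  refine ⟨m.prod, ?_⟩
  rw [← Multiset.prod_nsmul, ← hm]
  exact Ideal.prod_normalizedFactors_eq_self h0

/-- The logarithmic derivatives that lie in `R`. -/
def LogD (δ : R →+ R) (hδ : ∀ a b, δ (a * b) = δ a * b + a * δ b) (h5 : (5 : R) = 0) :
    AddSubgroup R where
  carrier := {u | ∃ α : R, α ≠ 0 ∧ δ α = u * α}
  zero_mem' := ⟨1, one_ne_zero, by rw [der_one hδ, zero_mul]⟩
  add_mem' := by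
    rintro u v ⟨α, h0, h⟩ ⟨β, h0', h'⟩
    exact ⟨α * β, mul_ne_zero h0 h0', by rw [hδ, h, h']; ring⟩
  neg_mem' := by
    rintro u ⟨α, h0, h⟩
    refine ⟨α ^ 4, pow_ne_zero _ h0, ?_⟩
    rw [der_pow hδ α 3, h]
    linear_combination (u * α ^ 4) * h5

theorem count [CharP R 5] (hδ : ∀ a b, δ (a * b) = δ a * b + a * δ b)
    (hP : ∀ P : Ideal R, P.IsPrime → P ≠ ⊥ → ∃ t ∈ P, δ t ∉ P)
    (hker : ∀ γ : R, δ γ = 0 → ∃ β, γ = β ^ 5) :
    Nat.card {u : R // ∃ α : R, α ≠ 0 ∧ δ α = u * α} =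
      Nat.card {c : ClassGroup R // c ^ 5 = 1} *
        Nat.card {u : R // ∃ ε : Rˣ, δ ε = u * ε} := by
  have h5 : (5 : R) = 0 := by exact_mod_cast CharP.cast_eq_zero R 5
  let Rel : R → ClassGroup R → Prop := fun u c => ∃ (α : R) (I : (Ideal R)⁰), α ≠ 0 ∧
    δ α = u * α ∧ (I : Ideal R) ^ 5 = Ideal.span {α} ∧ c = ClassGroup.mk0 I
  have rel5 : ∀ u c, Rel u c → c ^ 5 = 1 := by
    rintro u c ⟨α, I, -, -, hI, rfl⟩
    rw [← map_pow, ClassGroup.mk0_eq_one_iff (I ^ 5).2]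
    exact ⟨α, by rw [SubmonoidClass.coe_pow, hI]⟩
  have relmul : ∀ u c v d, Rel u c → Rel v d → Rel (u + v) (c * d) := by
    rintro u c v d ⟨α, I, h0, h1, h2, rfl⟩ ⟨β, J, g0, g1, g2, rfl⟩
    refine ⟨α * β, I * J, mul_ne_zero h0 g0, by rw [hδ, h1, g1]; ring, ?_, (map_mul _ _ _).symm⟩
    rw [Submonoid.coe_mul, mul_pow, h2, g2, Ideal.span_singleton_mul_span_singleton]
  have rel0 : ∀ c, Rel 0 c → c = 1 := by
    rintro c ⟨α, I, h0, h1, h2, rfl⟩
    rw [zero_mul] at h1
    obtain ⟨β, rfl⟩ := hker α h1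
    rw [← Ideal.span_singleton_pow] at h2
    have e : (I : Ideal R) = Ideal.span {β} :=
      associated_iff_eq.1 (associated_of_dvd_dvd
        ((UniqueFactorizationMonoid.pow_dvd_pow_iff_dvd (n := 5) (by norm_num)).1 h2.dvd)
        ((UniqueFactorizationMonoid.pow_dvd_pow_iff_dvd (n := 5) (by norm_num)).1 h2.symm.dvd))
    rw [ClassGroup.mk0_eq_one_iff I.2]
    exact ⟨β, e⟩
  have uniq : ∀ u c d, Rel u c → Rel u d → c = d := by
    intro u c d hc hd
    have h1 := relmul _ _ _ _ hc (relmul _ _ _ _ hd (relmul _ _ _ _ hd (relmul _ _ _ _ hd hd)))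
    have e : u + (u + (u + (u + u))) = 0 := by linear_combination u * h5
    rw [e] at h1
    have h2 := rel0 _ h1
    have h3 := rel5 _ _ hd
    calc c = c * d ^ 5 := by rw [h3, mul_one]
      _ = c * (d * (d * (d * d))) * d := by simp only [pow_succ, pow_zero, one_mul, mul_assoc]
      _ = d := by rw [h2, one_mul]
  have ex : ∀ u : LogD δ hδ h5, ∃ c, Rel u c := by
    rintro ⟨u, α, h0, h1⟩
    obtain ⟨I, hI⟩ := pow_of_dvd hδ hP h0 h1
    have I0 : I ∈ (Ideal R)⁰ := by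
      rw [mem_nonZeroDivisors_iff_ne_zero]
      rintro rfl
      rw [zero_pow (by norm_num), eq_comm, Ideal.zero_eq_bot, Ideal.span_singleton_eq_bot] at hI
      exact h0 hI
    exact ⟨_, α, ⟨I, I0⟩, h0, h1, hI, rfl⟩
  choose φ hφ using ex
  let Φ : Multiplicative (LogD δ hδ h5) →* ClassGroup R := MonoidHom.mk'
    (fun u => φ u.toAdd) fun u v => uniq _ _ _ (hφ _) (relmul _ _ _ _ (hφ _) (hφ _))
  have e1 : Nat.card {u : R // ∃ α : R, α ≠ 0 ∧ δ α = u * α} =
      Nat.card (Multiplicative (LogD δ hδ h5)) := rfl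
  have e2 : Nat.card {c : ClassGroup R // c ^ 5 = 1} = Nat.card Φ.range := by
    refine Nat.card_congr (Equiv.subtypeEquivRight fun c => ⟨fun hc => ?_, ?_⟩)
    · obtain ⟨I, rfl⟩ := ClassGroup.mk0_surjective c
      rw [← map_pow, ClassGroup.mk0_eq_one_iff (I ^ 5).2] at hc
      obtain ⟨α, hα⟩ := hc
      have hα' : (I : Ideal R) ^ 5 = Ideal.span {α} := by rw [← SubmonoidClass.coe_pow]; exact hα
      have h0 : α ≠ 0 := by
        rintro rfl
        rw [Ideal.span_singleton_eq_bot.2 rfl] at hα'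
        exact pow_ne_zero 5 (nonZeroDivisors.ne_zero I.2) hα'
      obtain ⟨u, hu⟩ := dvd_of_pow hδ h5 h0 hα'
      rw [mul_comm] at hu
      exact ⟨Multiplicative.ofAdd ⟨u, α, h0, hu⟩, 
        uniq u _ _ (hφ ⟨u, α, h0, hu⟩) ⟨α, I, h0, hu, hα', rfl⟩⟩
    · rintro ⟨u, rfl⟩
      exact rel5 _ _ (hφ _)
  have e3 : Nat.card {u : R // ∃ ε : Rˣ, δ ε = u * ε} = Nat.card Φ.ker := by
    have hu : ∀ (u : R) (ε : Rˣ), δ ε = u * ε → Rel u 1 := fun u ε h =>
      ⟨ε, 1, ε.ne_zero, h, by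
        rw [OneMemClass.coe_one, one_pow, Ideal.one_eq_top, Ideal.span_singleton_eq_top.2 ε.isUnit],
        (map_one _).symm⟩
    have hm : ∀ u : {u : R // ∃ ε : Rˣ, δ ε = u * ε}, u.1 ∈ LogD δ hδ h5 := fun u => by
      obtain ⟨ε, h⟩ := u.2
      exact ⟨ε, ε.ne_zero, h⟩
    refine Nat.card_congr
      { toFun := fun u => ⟨Multiplicative.ofAdd ⟨u.1, hm u⟩, by
          obtain ⟨ε, h⟩ := u.2
          exact uniq u.1 _ _ (hφ ⟨u.1, hm u⟩) (hu _ _ h)⟩
        invFun := fun v => ⟨(v.1.toAdd : R), by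
          obtain ⟨α, I, h0, h1, h2, h3⟩ := hφ v.1.toAdd
          have h4 : ClassGroup.mk0 I = 1 := h3.symm.trans v.2
          rw [ClassGroup.mk0_eq_one_iff I.2] at h4
          obtain ⟨β, hβ⟩ := h4
          have hβ' : (I : Ideal R) = Ideal.span {β} := hβ
          rw [hβ', Ideal.span_singleton_pow, Ideal.span_singleton_eq_span_singleton] at h2
          obtain ⟨ε, hε⟩ := h2
          refine ⟨ε, ?_⟩
          have b0 : β ^ 5 ≠ 0 := by
            intro h; rw [h, zero_mul] at hε; exact h0 hε.symm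
          apply mul_left_cancel₀ b0
          rw [← hε, hδ, der_five hδ h5] at h1
          linear_combination h1⟩
        left_inv := fun _ => rfl
        right_inv := fun _ => rfl }
  rw [e1, e2, e3, ← Subgroup.index_ker, Subgroup.index_mul_card]

end Ded

end CL5.Alg
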