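import Mathlib

set_option autoImplicit false
open Polynomial UniqueFactorizationMonoid EuclideanDomain Finset

namespace Pool.Agent.MP_d0fd9b_nt.H92F.K5

variable {k : Type*} [Field k] [Fintype k] [DecidableEq k]

omit [DecidableEq k] in
theorem card_mon (B : Finset k[X]) (t : ℕ) (hB : ∀ g ∈ B, g.Monic ∧ g.natDegree = t) :
    B.card ≤ Fintype.card k ^ t := by
  classical
  have h : B.card ≤ (Finset.univ : Finset (Fin t → k)).card := by
    refine Finset.card_le_card_of_injOn (fun g => fun i : Fin t => g.coeff i) (fun _ _ => by simp) ?_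
    intro g hg g' hg' h
    obtain ⟨h1, h2⟩ := hB g hg
    obtain ⟨h1', h2'⟩ := hB g' hg'
    ext i
    rcases lt_trichotomy i t with hi | hi | hi
    · exact congrFun h ⟨i, hi⟩
    · rw [hi]
      have e1 : g.coeff t = 1 := by rw [← h2]; exact h1
      have e2 : g'.coeff t = 1 := by rw [← h2']; exact h1'
      rw [e1, e2]
    · rw [coeff_eq_zero_of_natDegree_lt (by omega), coeff_eq_zero_of_natDegree_lt (by omega)]
  simpa using h

omit [DecidableEq k] in
theorem card_mon_dvd (B : Finset k[X]) (t : ℕ) (c : k[X]) (hc : c.Monic)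
    (hB : ∀ g ∈ B, g.Monic ∧ g.natDegree = t ∧ c ∣ g) :
    (B.card : ℝ) ≤ (Fintype.card k : ℝ) ^ t / (Fintype.card k : ℝ) ^ c.natDegree := by
  classical
  have hq : (0 : ℝ) < Fintype.card k := by exact_mod_cast Fintype.card_pos
  rcases B.eq_empty_or_nonempty with rfl | ⟨g0, hg0⟩
  · simp only [card_empty, Nat.cast_zero]; positivity
  have hle : c.natDegree ≤ t := by
    obtain ⟨h1, h2, h3⟩ := hB g0 hg0
    rw [← h2]; exact natDegree_le_of_dvd h3 h1.ne_zero
  have hmul : ∀ g ∈ B, c * (g /ₘ c) = g := by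
    intro g hg
    obtain ⟨-, -, h3⟩ := hB g hg
    have := modByMonic_add_div g c
    rwa [(modByMonic_eq_zero_iff_dvd hc).2 h3, zero_add] at this
  have h1 : B.card = (B.image (fun g => g /ₘ c)).card := by
    refine (Finset.card_image_of_injOn ?_).symm
    intro g hg g' hg' h
    rw [← hmul g hg, ← hmul g' hg']
    exact congrArg (fun z => c * z) h
  have h2 : (B.image (fun g => g /ₘ c)).card ≤ Fintype.card k ^ (t - c.natDegree) := by
    refine card_mon _ _ ?_
    intro z hz
    obtain ⟨g, hg, rfl⟩ := Finset.mem_image.1 hz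
    obtain ⟨a1, a2, -⟩ := hB g hg
    refine ⟨hc.of_mul_monic_left (by rw [hmul g hg]; exact a1), ?_⟩
    rw [natDegree_divByMonic g hc, a2]
  rw [le_div_iff₀ (by positivity), h1]
  have h3 : ((B.image (fun g => g /ₘ c)).card : ℝ) ≤ (Fintype.card k : ℝ) ^ (t - c.natDegree) := by
    exact_mod_cast h2
  calc _ ≤ (Fintype.card k : ℝ) ^ (t - c.natDegree) * (Fintype.card k : ℝ) ^ c.natDegree := by gcongr
    _ = _ := by rw [← pow_add, Nat.sub_add_cancel hle]

omit [Fintype k] in
theorem euler (F : k[X] → ℝ) (hF : ∀ c, 0 ≤ F c) (h1 : F 1 ≤ 1) (w : k[X] → ℕ → ℝ) (a : k[X] → ℝ)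
    (hw0 : ∀ p j, 0 ≤ w p j)
    (hmul : ∀ p c : k[X], ∀ j, Irreducible p → p.Monic → c.Monic → ¬ p ∣ c → F (p ^ j * c) ≤ w p j * F c)
    (hsum : ∀ p : k[X], Irreducible p → p.Monic → ∀ J, ∑ j ∈ range J, w p j ≤ a p)
    (P : Finset k[X]) (hP : ∀ p ∈ P, Irreducible p ∧ p.Monic) :
    ∀ C : Finset k[X], (∀ c ∈ C, c.Monic ∧ ∀ p : k[X], Irreducible p → p.Monic → p ∣ c → p ∈ P) →
      ∑ c ∈ C, F c ≤ ∏ p ∈ P, a p := by
  induction P using Finset.induction_on with
  | empty =>
    intro C hC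
    have hsub : C ⊆ {1} := by
      intro c hc
      obtain ⟨m, h⟩ := hC c hc
      rw [Finset.mem_singleton]
      by_contra hne
      have hu : ¬ IsUnit c := fun hu => hne (m.eq_one_of_isUnit hu)
      obtain ⟨p, p1, p2, p3⟩ := Polynomial.exists_monic_irreducible_factor c hu
      simpa using h p p2 p1 p3
    calc _ ≤ ∑ c ∈ ({1} : Finset k[X]), F c :=
          Finset.sum_le_sum_of_subset_of_nonneg hsub (fun _ _ _ => hF _)
      _ ≤ _ := by simpa using h1
  | insert p P hp ih =>
    intro C hC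
    obtain ⟨pi, pm⟩ := hP p (Finset.mem_insert_self _ _)
    have hex : ∀ c : k[X], ∃ x : ℕ × k[X], c ∈ C → ¬ p ∣ x.2 ∧ c = p ^ x.1 * x.2 := by
      intro c
      by_cases hc : c ∈ C
      · obtain ⟨n, b, h⟩ := WfDvdMonoid.max_power_factor (hC c hc).1.ne_zero pi
        exact ⟨(n, b), fun _ => h⟩
      · exact ⟨(0, 0), fun h => absurd h hc⟩
    choose φ hφ using hex
    have hmon : ∀ c ∈ C, (φ c).2.Monic := by
      intro c hc
      exact (pm.pow (φ c).1).of_mul_monic_left (by rw [← (hφ c hc).2]; exact (hC c hc).1)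
    have hinj : Set.InjOn φ C := by
      intro c hc c' hc' h
      rw [(hφ c hc).2, (hφ c' hc').2, h]
    set J := C.sup (fun c => (φ c).1) + 1 with hJ
    set C' := C.image (fun c => (φ c).2) with hC'
    have hsub : C.image φ ⊆ range J ×ˢ C' := by
      intro x hx
      obtain ⟨c, hc, rfl⟩ := Finset.mem_image.1 hx
      refine Finset.mem_product.2 ⟨Finset.mem_range.2 ?_, Finset.mem_image_of_mem _ hc⟩
      have := Finset.le_sup (f := fun c => (φ c).1) hc
      omega
    have hih := ih (fun r hr => hP r (Finset.mem_insert_of_mem hr)) C' (by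
      intro z hz
      obtain ⟨c, hc, rfl⟩ := Finset.mem_image.1 hz
      refine ⟨hmon c hc, fun r r1 r2 r3 => ?_⟩
      have : r ∈ insert p P := (hC c hc).2 r r1 r2 (by rw [(hφ c hc).2]; exact Dvd.dvd.mul_left r3 _)
      rcases Finset.mem_insert.1 this with rfl | h
      · exact absurd r3 (hφ c hc).1
      · exact h)
    have hs0 : 0 ≤ ∑ z ∈ C', F z := Finset.sum_nonneg fun _ _ => hF _
    have ha0 : 0 ≤ a p := le_trans (by simp) (hsum p pi pm 0)
    rw [Finset.prod_insert hp]
    calc ∑ c ∈ C, F c ≤ ∑ c ∈ C, w p (φ c).1 * F (φ c).2 := by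
          refine Finset.sum_le_sum fun c hc => ?_
          conv_lhs => rw [(hφ c hc).2]
          exact hmul p _ _ pi pm (hmon c hc) (hφ c hc).1
      _ = ∑ x ∈ C.image φ, w p x.1 * F x.2 := by rw [Finset.sum_image hinj]
      _ ≤ ∑ x ∈ range J ×ˢ C', w p x.1 * F x.2 :=
          Finset.sum_le_sum_of_subset_of_nonneg hsub (fun _ _ _ => mul_nonneg (hw0 _ _) (hF _))
      _ = (∑ j ∈ range J, w p j) * ∑ z ∈ C', F z := by
          rw [Finset.sum_product, Finset.sum_mul_sum]
      _ ≤ a p * ∑ z ∈ C', F z := by gcongr; exact hsum p pi pm J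
      _ ≤ _ := by gcongr

theorem geom_le (x : ℝ) (h0 : 0 ≤ x) (h1 : x ≤ 3 / 4) (J : ℕ) : ∑ j ∈ range J, x ^ j ≤ 4 := by
  have h : ∀ J : ℕ, ∑ j ∈ range J, x ^ j ≤ 4 - 4 * x ^ J := by
    intro J
    induction J with
    | zero => simp
    | succ J ih =>
      rw [Finset.sum_range_succ, pow_succ]
      have : 0 ≤ x ^ J := pow_nonneg h0 J
      nlinarith
  have := h J
  have : 0 ≤ x ^ J := pow_nonneg h0 J
  linarith

omit [DecidableEq k] in
theorem s_ge : (4 / 3 : ℝ) ≤ Real.sqrt (Fintype.card k) := by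
  have h : (2 : ℝ) ≤ Fintype.card k := by exact_mod_cast Fintype.one_lt_card
  exact Real.le_sqrt_of_sq_le (by linarith)

omit [DecidableEq k] in
theorem s_inv_le : (Real.sqrt (Fintype.card k))⁻¹ ≤ 3 / 4 := by
  have h := s_ge (k := k)
  rw [inv_le_comm₀ (by linarith) (by norm_num)]
  linarith

omit [DecidableEq k] in
theorem s_sq : Real.sqrt (Fintype.card k) ^ 2 = Fintype.card k := Real.sq_sqrt (by positivity)

omit [Fintype k] in
theorem natDegree_rad_pow_mul (p c : k[X]) (j : ℕ) (hj : j ≠ 0) (pi : Irreducible p) (pm : p.Monic)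
    (h : ¬ p ∣ c) : (radical (p ^ j * c)).natDegree = p.natDegree + (radical c).natDegree := by
  have hc : IsRelPrime (p ^ j) c := ((pi.isRelPrime_iff_not_dvd).2 h).pow_left
  rw [radical_mul hc, radical_pow_of_prime pi.prime hj, pm.normalize_eq_self,
    natDegree_mul pm.ne_zero radical_ne_zero]

/-- (K5a) the sum of `|c|^(-1/2) |rad c|^(-1)` over any finite set of monic polynomials is bounded. -/
theorem sstar (C : Finset k[X]) (hC : ∀ c ∈ C, c.Monic) :
    ∑ c ∈ C, (Real.sqrt (Fintype.card k) ^ c.natDegree *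
      (Fintype.card k : ℝ) ^ (radical c).natDegree)⁻¹ ≤ Real.exp 16 := by
  set s := Real.sqrt (Fintype.card k : ℝ) with hs
  set q : ℝ := (Fintype.card k : ℝ) with hq
  have hs1 : 4 / 3 ≤ s := s_ge
  have hs0 : 0 < s := by linarith
  have hq0 : 0 < q := by rw [hq]; exact_mod_cast Fintype.card_pos
  have hsi : s⁻¹ ≤ 3 / 4 := s_inv_le
  set P := C.biUnion (fun c => (normalizedFactors c).toFinset) with hPdef
  have hP : ∀ p ∈ P, Irreducible p ∧ p.Monic := by
    intro p hp
    obtain ⟨c, hc, h⟩ := Finset.mem_biUnion.1 hp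
    have := (Polynomial.mem_normalizedFactors_iff (hC c hc).ne_zero).1 (Multiset.mem_toFinset.1 h)
    exact ⟨this.1, this.2.1⟩
  have h1 := euler (k := k) (fun c => (s ^ c.natDegree * q ^ (radical c).natDegree)⁻¹)
    (fun c => by positivity) (by simp)
    (fun p j => if j = 0 then 1 else ((s ^ p.natDegree)⁻¹) ^ j * (q ^ p.natDegree)⁻¹)
    (fun p => 1 + 4 * ((s ^ p.natDegree)⁻¹ * (q ^ p.natDegree)⁻¹))
    (fun p j => by split_ifs <;> positivity)
    (by
      intro p c j pi pm cm h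
      by_cases hj : j = 0
      · simp [hj]
      · rw [if_neg hj, natDegree_rad_pow_mul p c j hj pi pm h, (pm.pow j).natDegree_mul cm,
          pm.natDegree_pow]
        apply le_of_eq
        rw [pow_add, pow_add, mul_comm j, pow_mul, inv_pow]
        field_simp)
    (by
      intro p pi pm J
      have hd : 0 < p.natDegree := pi.natDegree_pos
      have hx0 : 0 ≤ (s ^ p.natDegree)⁻¹ := by positivity
      have hx1 : (s ^ p.natDegree)⁻¹ ≤ 3 / 4 := by
        refine le_trans ?_ hsi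
        exact inv_anti₀ hs0 (le_self_pow₀ (by linarith) hd.ne')
      rcases J with _ | J
      · simp only [range_zero, sum_empty]; positivity
      · rw [Finset.sum_range_succ', if_pos rfl, add_comm]
        simp only [Nat.add_eq_zero_iff, one_ne_zero, and_false, if_false, pow_succ]
        have := geom_le _ hx0 hx1 J
        have e : ∑ j ∈ range J, (s ^ p.natDegree)⁻¹ ^ j * (s ^ p.natDegree)⁻¹ * (q ^ p.natDegree)⁻¹
            = (∑ j ∈ range J, (s ^ p.natDegree)⁻¹ ^ j) * ((s ^ p.natDegree)⁻¹ * (q ^ p.natDegree)⁻¹) := by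
          rw [Finset.sum_mul]; exact Finset.sum_congr rfl fun _ _ => by ring
        rw [e]
        gcongr)
    P hP C (by
      intro c hc
      refine ⟨hC c hc, fun p p1 p2 p3 => Finset.mem_biUnion.2 ⟨c, hc, ?_⟩⟩
      exact Multiset.mem_toFinset.2
        ((Polynomial.mem_normalizedFactors_iff (hC c hc).ne_zero).2 ⟨p1, p2, p3⟩))
  refine h1.trans ?_
  have h2 : ∏ p ∈ P, (1 + 4 * ((s ^ p.natDegree)⁻¹ * (q ^ p.natDegree)⁻¹)) ≤
      Real.exp (∑ p ∈ P, 4 * ((s ^ p.natDegree)⁻¹ * (q ^ p.natDegree)⁻¹)) := by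
    rw [Real.exp_sum]
    refine Finset.prod_le_prod (fun _ _ => by positivity) fun p _ => ?_
    rw [add_comm]; exact Real.add_one_le_exp _
  refine h2.trans (Real.exp_le_exp.2 ?_)
  set D := P.sup natDegree + 1 with hD
  have hmaps : ∀ p ∈ P, p.natDegree ∈ range D := fun p hp => by
    have := Finset.le_sup (f := natDegree) hp
    exact Finset.mem_range.2 (by omega)
  rw [← Finset.sum_fiberwise_of_maps_to hmaps]
  calc _ ≤ ∑ d ∈ range D, 4 * (s⁻¹) ^ d := by
        refine Finset.sum_le_sum fun d _ => ?_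
        have hc := card_mon (P.filter (fun p => p.natDegree = d)) d (fun g hg => by
          obtain ⟨a, b⟩ := Finset.mem_filter.1 hg
          exact ⟨(hP g a).2, b⟩)
        have hc' : ((P.filter (fun p => p.natDegree = d)).card : ℝ) ≤ q ^ d := by
          rw [hq]; exact_mod_cast hc
        rw [Finset.sum_congr rfl (g := fun _ => 4 * ((s ^ d)⁻¹ * (q ^ d)⁻¹))
          (fun p hp => by rw [(Finset.mem_filter.1 hp).2]), Finset.sum_const, nsmul_eq_mul]
        calc _ ≤ q ^ d * (4 * ((s ^ d)⁻¹ * (q ^ d)⁻¹)) := by gcongr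
          _ = _ := by rw [inv_pow]; field_simp
    _ = 4 * ∑ d ∈ range D, (s⁻¹) ^ d := by rw [Finset.mul_sum]
    _ ≤ 4 * 4 := by gcongr; exact geom_le _ (by positivity) hsi D
    _ = 16 := by norm_num

omit [DecidableEq k] in
theorem card_box (B : Finset k[X]) (t : ℕ) (hB : ∀ g ∈ B, g.natDegree ≤ t) :
    B.card ≤ Fintype.card k ^ (t + 1) := by
  classical
  have h : B.card ≤ (Finset.univ : Finset (Fin (t + 1) → k)).card := by
    refine Finset.card_le_card_of_injOn (fun g => fun i : Fin (t + 1) => g.coeff i) (fun _ _ => by simp) ?_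
    intro g hg g' hg' h
    have h2 := hB g hg
    have h2' := hB g' hg'
    ext i
    rcases lt_or_ge i (t + 1) with hi | hi
    · exact congrFun h ⟨i, hi⟩
    · rw [coeff_eq_zero_of_natDegree_lt (by omega), coeff_eq_zero_of_natDegree_lt (by omega)]
  simpa using h

omit [DecidableEq k] in
theorem card_deg_dvd (B : Finset k[X]) (t : ℕ) (c : k[X]) (hc : c.Monic)
    (hB : ∀ g ∈ B, g ≠ 0 ∧ g.natDegree ≤ t ∧ c ∣ g) :
    (B.card : ℝ) ≤ (Fintype.card k : ℝ) ^ (t + 1) / (Fintype.card k : ℝ) ^ c.natDegree := by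
  classical
  have hq : (0 : ℝ) < Fintype.card k := by exact_mod_cast Fintype.card_pos
  rcases B.eq_empty_or_nonempty with rfl | ⟨g0, hg0⟩
  · simp only [card_empty, Nat.cast_zero]; positivity
  have hle : c.natDegree ≤ t := by
    obtain ⟨h1, h2, h3⟩ := hB g0 hg0
    exact (natDegree_le_of_dvd h3 h1).trans h2
  have hmul : ∀ g ∈ B, c * (g /ₘ c) = g := by
    intro g hg
    obtain ⟨-, -, h3⟩ := hB g hg
    have := modByMonic_add_div g c
    rwa [(modByMonic_eq_zero_iff_dvd hc).2 h3, zero_add] at this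
  have h1 : B.card = (B.image (fun g => g /ₘ c)).card := by
    refine (Finset.card_image_of_injOn ?_).symm
    intro g hg g' hg' h
    rw [← hmul g hg, ← hmul g' hg']
    exact congrArg (fun z => c * z) h
  have h2 : (B.image (fun g => g /ₘ c)).card ≤ Fintype.card k ^ (t - c.natDegree + 1) := by
    refine card_box _ _ ?_
    intro z hz
    obtain ⟨g, hg, rfl⟩ := Finset.mem_image.1 hz
    obtain ⟨-, a2, -⟩ := hB g hg
    rw [natDegree_divByMonic g hc]; omega
  rw [le_div_iff₀ (by positivity), h1]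
  have h3 : ((B.image (fun g => g /ₘ c)).card : ℝ) ≤ (Fintype.card k : ℝ) ^ (t - c.natDegree + 1) := by
    exact_mod_cast h2
  calc _ ≤ (Fintype.card k : ℝ) ^ (t - c.natDegree + 1) * (Fintype.card k : ℝ) ^ c.natDegree := by gcongr
    _ = _ := by rw [← pow_add]; congr 1; omega

/-- (K5b) the sum of `L1 g` over nonzero `g` of degree at most `t`. -/
theorem sum_L1 (B : Finset k[X]) (t : ℕ) (hB : ∀ g ∈ B, g ≠ 0 ∧ g.natDegree ≤ t)
    (D : k[X] → Finset k[X]) (hD : ∀ g ∈ B, ∀ c ∈ D g, c.Monic ∧ c ∣ g) :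
    ∑ g ∈ B, ∑ c ∈ D g, Real.sqrt (Fintype.card k) ^ c.natDegree /
        (Fintype.card k : ℝ) ^ (radical c).natDegree
      ≤ Real.exp 16 * (Fintype.card k : ℝ) ^ (t + 1) := by
  set s := Real.sqrt (Fintype.card k : ℝ) with hs
  have hss : s ^ 2 = Fintype.card k := s_sq
  have hs1 : 4 / 3 ≤ s := s_ge
  set q : ℝ := (Fintype.card k : ℝ) with hq
  have hs0 : 0 < s := by linarith
  have hq0 : 0 < q := by rw [hq]; exact_mod_cast Fintype.card_pos
  set C := B.biUnion D with hC
  have hCm : ∀ c ∈ C, c.Monic := fun c hc => by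
    obtain ⟨g, hg, h⟩ := Finset.mem_biUnion.1 hc
    exact (hD g hg c h).1
  have e1 : ∑ g ∈ B, ∑ c ∈ D g, s ^ c.natDegree / q ^ (radical c).natDegree
      = ∑ c ∈ C, ∑ g ∈ B.filter (fun g => c ∈ D g), s ^ c.natDegree / q ^ (radical c).natDegree := by
    refine Finset.sum_comm' ?_
    intro g c
    simp only [hC, Finset.mem_filter, Finset.mem_biUnion]
    constructor
    · rintro ⟨a, b⟩; exact ⟨⟨a, b⟩, g, a, b⟩
    · rintro ⟨⟨a, b⟩, -⟩; exact ⟨a, b⟩
  rw [e1]
  calc _ ≤ ∑ c ∈ C, (s ^ c.natDegree * q ^ (radical c).natDegree)⁻¹ * q ^ (t + 1) := by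
        refine Finset.sum_le_sum fun c hc => ?_
        have h := card_deg_dvd (B.filter (fun g => c ∈ D g)) t c (hCm c hc) (fun g hg => by
          obtain ⟨a, b⟩ := Finset.mem_filter.1 hg
          exact ⟨(hB g a).1, (hB g a).2, (hD g a c b).2⟩)
        rw [Finset.sum_const, nsmul_eq_mul]
        calc _ ≤ q ^ (t + 1) / q ^ c.natDegree * (s ^ c.natDegree / q ^ (radical c).natDegree) := by
              gcongr
          _ = _ := by
              have : q ^ c.natDegree = s ^ c.natDegree * s ^ c.natDegree := by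
                rw [← hss, ← pow_mul, ← pow_add]; congr 1; omega
              rw [this]; field_simp
    _ = (∑ c ∈ C, (s ^ c.natDegree * q ^ (radical c).natDegree)⁻¹) * q ^ (t + 1) := by
        rw [Finset.sum_mul]
    _ ≤ _ := by gcongr; exact sstar C hCm

omit [Fintype k] in
/-- `sq g * rad (sq g)` divides `g`. -/
theorem sq_mul_rad_dvd (g : k[X]) (hg : g ≠ 0) : divRadical g * radical (divRadical g) ∣ g := by
  conv_rhs => rw [← divRadical_mul_radical (a := g)]
  exact mul_dvd_mul_left _ (radical_dvd_radical (divRadical_dvd_self g) hg)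

/-- (K5b) the sum of `|sq g|^(1/2)` over nonzero `g` of degree at most `t`. -/
theorem sum_sq (B : Finset k[X]) (t : ℕ) (hB : ∀ g ∈ B, g ≠ 0 ∧ g.natDegree ≤ t) :
    ∑ g ∈ B, Real.sqrt (Fintype.card k) ^ (divRadical g).natDegree
      ≤ Real.exp 16 * (Fintype.card k : ℝ) ^ (t + 1) := by
  set s := Real.sqrt (Fintype.card k : ℝ) with hs
  have hss : s ^ 2 = Fintype.card k := s_sq
  have hs1 : 4 / 3 ≤ s := s_ge
  set q : ℝ := (Fintype.card k : ℝ) with hq
  have hs0 : 0 < s := by linarith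
  have hq0 : 0 < q := by rw [hq]; exact_mod_cast Fintype.card_pos
  set φ : k[X] → k[X] := fun g => normalize (divRadical g) with hφ
  set C := B.image φ with hC
  have hne : ∀ g ∈ B, divRadical g ≠ 0 := fun g hg => divRadical_ne_zero (hB g hg).1
  have hCm : ∀ c ∈ C, c.Monic := fun c hc => by
    obtain ⟨g, hg, rfl⟩ := Finset.mem_image.1 hc
    exact monic_normalize (hne g hg)
  have hdeg : ∀ g ∈ B, (divRadical g).natDegree = (φ g).natDegree := fun g _ =>
    natDegree_eq_of_degree_eq (degree_eq_degree_of_associated (associated_normalize _))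
  rw [← Finset.sum_fiberwise_of_maps_to (fun g hg => Finset.mem_image_of_mem φ hg)]
  calc _ ≤ ∑ c ∈ C, (s ^ c.natDegree * q ^ (radical c).natDegree)⁻¹ * q ^ (t + 1) := by
        refine Finset.sum_le_sum fun c hc => ?_
        have hrm : (radical c).Monic := by
          unfold radical
          refine monic_prod_of_monic _ _ fun p hp => ?_
          exact ((Polynomial.mem_normalizedFactors_iff (hCm c hc).ne_zero).1 (mem_primeFactors.1 hp)).2.1
        have h := card_deg_dvd (B.filter (fun g => φ g = c)) t (c * radical c) ((hCm c hc).mul hrm)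
          (fun g hg => by
            obtain ⟨a, b⟩ := Finset.mem_filter.1 hg
            refine ⟨(hB g a).1, (hB g a).2, dvd_trans ?_ (sq_mul_rad_dvd g (hB g a).1)⟩
            have hass : Associated c (divRadical g) := by rw [← b]; exact normalize_associated _
            rw [radical_eq_of_associated hass]
            exact mul_dvd_mul_right hass.dvd _)
        rw [Finset.sum_congr rfl (g := fun _ => s ^ c.natDegree) (fun g hg => by
          obtain ⟨a, b⟩ := Finset.mem_filter.1 hg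
          rw [hdeg g a, b]), Finset.sum_const, nsmul_eq_mul]
        calc _ ≤ q ^ (t + 1) / q ^ (c * radical c).natDegree * s ^ c.natDegree := by gcongr
          _ = _ := by
              have : q ^ c.natDegree = s ^ c.natDegree * s ^ c.natDegree := by
                rw [← hss, ← pow_mul, ← pow_add]; congr 1; omega
              rw [(hCm c hc).natDegree_mul hrm, pow_add q c.natDegree, this]; field_simp
    _ = (∑ c ∈ C, (s ^ c.natDegree * q ^ (radical c).natDegree)⁻¹) * q ^ (t + 1) := by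
        rw [Finset.sum_mul]
    _ ≤ _ := by gcongr; exact sstar C hCm

omit [DecidableEq k] in
/-- weights `q^((m - deg g)/2)` cost only a constant. -/
theorem box_weight (Φ : k[X] → ℝ) (S : ℝ) (hS : 0 ≤ S) (B : Finset k[X]) (m : ℕ)
    (hB : ∀ g ∈ B, g.natDegree < m)
    (h : ∀ t, ∑ g ∈ B.filter (fun g => g.natDegree = t), Φ g ≤ S * (Fintype.card k : ℝ) ^ (t + 1)) :
    ∑ g ∈ B, Real.sqrt (Fintype.card k) ^ (m - g.natDegree) * Φ g
      ≤ 4 * Fintype.card k * S * (Fintype.card k : ℝ) ^ m := by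
  set s := Real.sqrt (Fintype.card k : ℝ) with hs
  have hss : s ^ 2 = Fintype.card k := s_sq
  have hs1 : 4 / 3 ≤ s := s_ge
  have hsi : s⁻¹ ≤ 3 / 4 := s_inv_le
  set q : ℝ := (Fintype.card k : ℝ) with hq
  have hs0 : 0 < s := by linarith
  have hq0 : 0 < q := by rw [hq]; exact_mod_cast Fintype.card_pos
  have hmaps : ∀ g ∈ B, g.natDegree ∈ range (m + 1) := fun g hg =>
    Finset.mem_range.2 (by have := hB g hg; omega)
  rw [← Finset.sum_fiberwise_of_maps_to hmaps]
  calc _ ≤ ∑ t ∈ range (m + 1), (q * S * q ^ m) * (s⁻¹) ^ (m + 1 - 1 - t) := by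
        refine Finset.sum_le_sum fun t ht => ?_
        have ht' : t ≤ m := by have := Finset.mem_range.1 ht; omega
        rw [Finset.sum_congr rfl (g := fun g => s ^ (m - t) * Φ g)
          (fun g hg => by rw [(Finset.mem_filter.1 hg).2]), ← Finset.mul_sum]
        calc _ ≤ s ^ (m - t) * (S * q ^ (t + 1)) := by gcongr; exact h t
          _ = _ := by
            have e : q ^ m = s ^ (m - t) * s ^ (m - t) * q ^ t := by
              rw [← hss, ← pow_mul, ← pow_mul, ← pow_add, ← pow_add]; congr 1; omega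
            rw [Nat.add_sub_cancel, e, inv_pow, pow_succ]; field_simp
    _ = (q * S * q ^ m) * ∑ t ∈ range (m + 1), (s⁻¹) ^ t := by
        rw [← Finset.mul_sum, Finset.sum_range_reflect (fun t => (s⁻¹) ^ t)]
    _ ≤ (q * S * q ^ m) * 4 := by gcongr; exact geom_le _ (by positivity) hsi _
    _ = _ := by ring

/-- (K5c) weighted sum of `L1` over a box. -/
theorem box_L1 (B : Finset k[X]) (m : ℕ) (hB : ∀ g ∈ B, g ≠ 0 ∧ g.natDegree < m)
    (D : k[X] → Finset k[X]) (hD : ∀ g ∈ B, ∀ c ∈ D g, c.Monic ∧ c ∣ g) :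
    ∑ g ∈ B, Real.sqrt (Fintype.card k) ^ (m - g.natDegree) *
        ∑ c ∈ D g, Real.sqrt (Fintype.card k) ^ c.natDegree / (Fintype.card k : ℝ) ^ (radical c).natDegree
      ≤ 4 * Fintype.card k * Real.exp 16 * (Fintype.card k : ℝ) ^ m :=
  box_weight _ _ (Real.exp_pos _).le B m (fun g hg => (hB g hg).2) fun t =>
    sum_L1 _ t (fun g hg => ⟨(hB g (Finset.mem_filter.1 hg).1).1, (Finset.mem_filter.1 hg).2.le⟩) D
      (fun g hg => hD g (Finset.mem_filter.1 hg).1)

/-- (K5c) weighted sum of `|sq g|^(1/2)` over a box. -/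
theorem box_sq (B : Finset k[X]) (m : ℕ) (hB : ∀ g ∈ B, g ≠ 0 ∧ g.natDegree < m) :
    ∑ g ∈ B, Real.sqrt (Fintype.card k) ^ (m - g.natDegree) *
        Real.sqrt (Fintype.card k) ^ (divRadical g).natDegree
      ≤ 4 * Fintype.card k * Real.exp 16 * (Fintype.card k : ℝ) ^ m :=
  box_weight _ _ (Real.exp_pos _).le B m (fun g hg => (hB g hg).2) fun t =>
    sum_sq _ t (fun g hg => ⟨(hB g (Finset.mem_filter.1 hg).1).1, (Finset.mem_filter.1 hg).2.le⟩)

/-- (K5d) few `g` have a large `sq g`. -/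
theorem card_sq_large (B : Finset k[X]) (m Z : ℕ)
    (hB : ∀ g ∈ B, g ≠ 0 ∧ g.natDegree < m ∧ Z ≤ (divRadical g).natDegree) :
    (B.card : ℝ) ≤ Real.exp 16 * (Fintype.card k : ℝ) ^ m / Real.sqrt (Fintype.card k) ^ Z := by
  have hs1 : 4 / 3 ≤ Real.sqrt (Fintype.card k : ℝ) := s_ge
  have hs0 : 0 < Real.sqrt (Fintype.card k : ℝ) := by linarith
  rcases B.eq_empty_or_nonempty with rfl | ⟨g0, hg0⟩
  · simp only [card_empty, Nat.cast_zero]; positivity
  obtain ⟨t, rfl⟩ : ∃ t, m = t + 1 := ⟨m - 1, by have := (hB g0 hg0).2.1; omega⟩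
  rw [le_div_iff₀ (by positivity)]
  refine le_trans ?_ (sum_sq B t (fun g hg => ⟨(hB g hg).1, by have := (hB g hg).2.1; omega⟩))
  rw [← nsmul_eq_mul, ← Finset.sum_const]
  exact Finset.sum_le_sum fun g hg => pow_le_pow_right₀ (by linarith) (hB g hg).2.2

end Pool.Agent.MP_d0fd9b_nt.H92F.K5
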