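import Pool.Agent.H92F.Box
import Pool.Agent.H92F.K5_24

/-! h92f: arithmetic averages and primes (rows AR1 = K5, AR2 = J8). -/

set_option autoImplicit false
open Polynomial Finset UniqueFactorizationMonoid EuclideanDomain Filter Topology
open scoped Classical

noncomputable section
namespace CL5

open Pool.Agent.MP_d0fd9b_nt.H92F

variable {k : Type*} [Field k] [Fintype k]

theorem sqrt_nrm (a : k[X]) : Real.sqrt (nrm a) = Real.sqrt (qq k) ^ a.natDegree := by
  have h : (0 : ℝ) ≤ qq k := le_trans (by norm_num) two_le_qq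
  unfold nrm
  rw [Real.sqrt_eq_iff_mul_self_eq (by positivity) (by positivity), ← mul_pow, Real.mul_self_sqrt h]

theorem L1_eq (g : k[X]) : L1 g = ∑ c ∈ (box k (g.natDegree + 1)).filter (fun c => c.Monic ∧ c ∣ g),
    Real.sqrt (Fintype.card k) ^ c.natDegree / (Fintype.card k : ℝ) ^ (radical c).natDegree := by
  unfold L1
  exact Finset.sum_congr rfl fun c _ => by rw [sqrt_nrm]; rfl

theorem L1_nonneg (g : k[X]) : 0 ≤ L1 g := by
  rw [L1_eq]; exact Finset.sum_nonneg fun _ _ => by positivity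

theorem L1_C_mul {c : k} (hc : c ≠ 0) (g : k[X]) : L1 (C c * g) = L1 g := by
  unfold L1
  rw [natDegree_C_mul hc]
  refine Finset.sum_congr (Finset.filter_congr fun a _ => ?_) fun _ _ => rfl
  rw [(isUnit_C.2 (isUnit_iff_ne_zero.2 hc)).dvd_mul_left]

theorem exists_sum_L1 : ∃ S : ℝ, 0 < S ∧ ∀ t : ℕ, ∑ g ∈ mon k t, L1 g ≤ S * qq k ^ t := by
  have hq : (0 : ℝ) < qq k := lt_of_lt_of_le (by norm_num) two_le_qq
  refine ⟨Real.exp 16 * qq k, by positivity, fun t => ?_⟩
  have h := K5.sum_L1 (mon k t) t (fun g hg => ⟨(mem_mon.1 hg).1.ne_zero, (mem_mon.1 hg).2.le⟩)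
    (fun g => (box k (g.natDegree + 1)).filter (fun c => c.Monic ∧ c ∣ g))
    (fun _ _ _ hc => (Finset.mem_filter.1 hc).2)
  simp only [L1_eq]
  refine h.trans (le_of_eq ?_)
  unfold qq; ring

theorem exists_sum_sq : ∃ S : ℝ, 0 < S ∧ ∀ t : ℕ,
    ∑ g ∈ mon k t, Real.sqrt (nrm (divRadical g)) ≤ S * qq k ^ t := by
  have hq : (0 : ℝ) < qq k := lt_of_lt_of_le (by norm_num) two_le_qq
  refine ⟨Real.exp 16 * qq k, by positivity, fun t => ?_⟩
  have h := K5.sum_sq (mon k t) t (fun g hg => ⟨(mem_mon.1 hg).1.ne_zero, (mem_mon.1 hg).2.le⟩)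
  simp only [sqrt_nrm]
  refine h.trans (le_of_eq ?_)
  unfold qq; ring

theorem mem_box_erase {m : ℕ} {g : k[X]} (hg : g ∈ (box k m).erase 0) : g ≠ 0 ∧ g.natDegree < m := by
  obtain ⟨h0, h⟩ := Finset.mem_erase.1 hg
  exact ⟨h0, (natDegree_lt_iff_degree_lt h0).2 (mem_box.1 h)⟩

/-- both averages over a box, with the weight `q ^ ((m - deg g) / 2)` -/
theorem exists_sum_box : ∃ S : ℝ, 0 < S ∧ ∀ m : ℕ,
    ∑ g ∈ (box k m).erase 0, Real.sqrt (qq k) ^ (m - g.natDegree) *
      (L1 g + Real.sqrt (nrm (divRadical g))) ≤ S * qq k ^ m := by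
  have hq : (0 : ℝ) < qq k := lt_of_lt_of_le (by norm_num) two_le_qq
  refine ⟨8 * qq k * Real.exp 16, by positivity, fun m => ?_⟩
  have h1 := K5.box_L1 ((box k m).erase 0) m (fun g hg => mem_box_erase hg)
    (fun g => (box k (g.natDegree + 1)).filter (fun c => c.Monic ∧ c ∣ g))
    (fun _ _ _ hc => (Finset.mem_filter.1 hc).2)
  have h2 := K5.box_sq ((box k m).erase 0) m (fun g hg => mem_box_erase hg)
  simp only [L1_eq, sqrt_nrm, mul_add, Finset.sum_add_distrib]
  refine (add_le_add h1 h2).trans (le_of_eq ?_)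
  unfold qq; ring

/-- few `g` have a large `sq g` -/
theorem card_sq_large (m Z : ℕ) :
    ((((box k m).erase 0).filter (fun g => Z ≤ (divRadical g).natDegree)).card : ℝ) ≤
      Real.exp 16 * qq k ^ m / Real.sqrt (qq k) ^ Z :=
  K5.card_sq_large _ m Z fun g hg =>
    ⟨(mem_box_erase (Finset.mem_filter.1 hg).1).1, (mem_box_erase (Finset.mem_filter.1 hg).1).2,
      (Finset.mem_filter.1 hg).2⟩

end CL5
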