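import Pool.Agent.H92F.Cnt80

set_option autoImplicit false

namespace Pool.Agent.MP_d0fd9b_nt.F92

open Polynomial Finset Filter

variable {k : Type*} [Field k] [Fintype k]

open Classical in
/-- monic irreducible polynomials of degree `≤ Y` -/
noncomputable def PY (k : Type*) [Field k] [Fintype k] (Y : ℕ) : Finset k[X] :=
  (box k (Y + 1)).filter (fun p => p.Monic ∧ Irreducible p)

theorem mem_PY {Y : ℕ} {p : k[X]} :
    p ∈ PY k Y ↔ p.Monic ∧ Irreducible p ∧ p.natDegree ≤ Y := by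
  classical
  unfold PY
  rw [Finset.mem_filter, mem_box']
  constructor
  · rintro ⟨h | h, hm, hi⟩
    · exact absurd h hm.ne_zero
    · exact ⟨hm, hi, by omega⟩
  · rintro ⟨hm, hi, h⟩
    exact ⟨Or.inr (by omega), hm, hi⟩

/-- `1 / |p|` -/
noncomputable def iv (p : k[X]) : ℝ := ((Fintype.card k : ℝ) ^ p.natDegree)⁻¹

/-- `∑ 1 / |p|` over the monic primes of degree `≤ Y` -/
noncomputable def sY (k : Type*) [Field k] [Fintype k] (Y : ℕ) : ℝ := ∑ p ∈ PY k Y, iv p

/-- `∏ (1 - 1 / |p|)` over the monic primes of degree `≤ Y` -/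
noncomputable def VY (k : Type*) [Field k] [Fintype k] (Y : ℕ) : ℝ := ∏ p ∈ PY k Y, (1 - iv p)

theorem mt_two_le : (2 : ℝ) ≤ Fintype.card k := by
  exact_mod_cast (Fintype.one_lt_card : 1 < Fintype.card k)

theorem iv_pos (p : k[X]) : 0 < iv p := by
  have := mt_two_le (k := k)
  unfold iv; positivity

theorem iv_le_inv_card {p : k[X]} (hp : Irreducible p) : iv p ≤ (Fintype.card k : ℝ)⁻¹ := by
  have h2 := mt_two_le (k := k)
  unfold iv
  refine inv_anti₀ (by linarith) ?_
  exact le_self_pow₀ (by linarith) hp.natDegree_pos.ne'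

theorem iv_le_half {p : k[X]} (hp : Irreducible p) : iv p ≤ 1 / 2 := by
  have h2 := mt_two_le (k := k)
  refine (iv_le_inv_card hp).trans ?_
  rw [one_div]
  exact inv_anti₀ (by norm_num) h2

omit [Fintype k] in
theorem mt_coprime {p p' : k[X]} (hm : p.Monic) (hi : Irreducible p) (hm' : p'.Monic)
    (hi' : Irreducible p') (hne : p ≠ p') : IsCoprime p p' := by
  rw [hi.coprime_iff_not_dvd]
  intro hd
  exact hne (eq_of_monic_of_associated hm hm' (hi.associated_of_dvd hi' hd))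

theorem PY_coprime (Y : ℕ) : ∀ p ∈ PY k Y, ∀ p' ∈ PY k Y, p ≠ p' → IsCoprime p p' := by
  intro p hp p' hp' hne
  rw [mem_PY] at hp hp'
  exact mt_coprime hp.1 hp.2.1 hp'.1 hp'.2.1 hne

/-- `j π_j ≤ q ^ j` -/
theorem gauss_count {j : ℕ} (hj : j ≠ 0) (S : Finset k[X])
    (hS : ∀ p ∈ S, p.Monic ∧ Irreducible p ∧ p.natDegree = j) :
    j * S.card ≤ Fintype.card k ^ j := by
  have h1 : 1 < Fintype.card k := Fintype.one_lt_card
  have hd : ∏ p ∈ S, p ∣ (X ^ Fintype.card k ^ j - X : k[X]) := by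
    refine Finset.prod_dvd_of_coprime ?_ ?_
    · intro p hp p' hp' hne
      have a := hS p hp
      have b := hS p' hp'
      exact mt_coprime a.1 a.2.1 b.1 b.2.1 hne
    · intro p hp
      have a := hS p hp
      rw [← Nat.card_eq_fintype_card, ← a.2.1.natDegree_dvd_iff_dvd_X_pow_card_pow_sub_X, a.2.2]
  have h2 := natDegree_le_of_dvd hd (FiniteField.X_pow_card_pow_sub_X_ne_zero k hj h1)
  rw [FiniteField.X_pow_card_pow_sub_X_natDegree_eq k hj h1,
    natDegree_prod_of_monic _ _ (fun p hp => (hS p hp).1),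
    Finset.sum_congr rfl (fun p hp => (hS p hp).2.2), Finset.sum_const, smul_eq_mul] at h2
  rwa [mul_comm]

theorem sY_nonneg (Y : ℕ) : 0 ≤ sY k Y := Finset.sum_nonneg fun p _ => (iv_pos p).le

theorem sY_le (Y : ℕ) : sY k Y ≤ 1 + Real.log Y := by
  classical
  have h2 := mt_two_le (k := k)
  refine le_trans ?_ (harmonic_le_one_add_log Y)
  rw [harmonic_eq_sum_Icc]
  push_cast
  unfold sY
  rw [← Finset.sum_fiberwise_of_maps_to (s := PY k Y) (t := Finset.Icc 1 Y)
    (g := fun p => p.natDegree)]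
  · refine Finset.sum_le_sum fun j hj => ?_
    have hj1 : 1 ≤ j := (Finset.mem_Icc.1 hj).1
    have hS : ∀ p ∈ (PY k Y).filter (fun p => p.natDegree = j),
        p.Monic ∧ Irreducible p ∧ p.natDegree = j := by
      intro p hp
      rw [Finset.mem_filter, mem_PY] at hp
      exact ⟨hp.1.1, hp.1.2.1, hp.2⟩
    have hg := gauss_count (by omega : j ≠ 0) _ hS
    have hg' : (j : ℝ) * ((PY k Y).filter (fun p => p.natDegree = j)).card
        ≤ (Fintype.card k : ℝ) ^ j := by exact_mod_cast hg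
    rw [Finset.sum_congr rfl (g := fun _ => ((Fintype.card k : ℝ) ^ j)⁻¹)
      (fun p hp => by unfold iv; rw [(hS p hp).2.2]), Finset.sum_const, nsmul_eq_mul]
    have hj0 : (0 : ℝ) < j := by exact_mod_cast hj1
    have hq : (0 : ℝ) < (Fintype.card k : ℝ) ^ j := by positivity
    rw [mul_inv_le_iff₀ hq, inv_mul_eq_div, le_div_iff₀ hj0]
    linarith
  · intro p hp
    rw [mem_PY] at hp
    exact Finset.mem_Icc.2 ⟨hp.2.1.natDegree_pos, hp.2.2⟩

theorem VY_pos (Y : ℕ) : 0 < VY k Y :=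
  Finset.prod_pos fun p hp => by have := iv_le_half (mem_PY.1 hp).2.1; linarith

theorem VY_le_one (Y : ℕ) : VY k Y ≤ 1 :=
  Finset.prod_le_one (fun p hp => by have := iv_le_half (mem_PY.1 hp).2.1; linarith)
    (fun p _ => by have := iv_pos p; linarith)

theorem inv_VY_le_exp (Y : ℕ) : (VY k Y)⁻¹ ≤ Real.exp (2 * sY k Y) := by
  unfold VY sY
  rw [← Finset.prod_inv_distrib, Finset.mul_sum, Real.exp_sum]
  refine Finset.prod_le_prod (fun p hp => ?_) (fun p hp => ?_)
  · have := iv_le_half (mem_PY.1 hp).2.1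
    exact inv_nonneg.2 (by linarith)
  · have h1 := iv_le_half (mem_PY.1 hp).2.1
    have h0 := iv_pos p
    refine le_trans ?_ (Real.add_one_le_exp _)
    rw [inv_le_iff_one_le_mul₀ (by linarith)]
    nlinarith

/-- (J8) `1 / V ≤ (3 Y)²` -/
theorem inv_VY_le {Y : ℕ} (hY : 1 ≤ Y) : (VY k Y)⁻¹ ≤ (3 * (Y : ℝ)) ^ 2 := by
  have hY0 : (0 : ℝ) < Y := by exact_mod_cast hY
  refine (inv_VY_le_exp Y).trans ?_
  have h1 : Real.exp (2 * sY k Y) ≤ Real.exp (2 * (1 + Real.log Y)) :=
    Real.exp_le_exp.2 (by have := sY_le (k := k) Y; linarith)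
  refine h1.trans ?_
  rw [show 2 * (1 + Real.log Y) = (1 + Real.log Y) + (1 + Real.log Y) by ring, Real.exp_add,
    Real.exp_add, Real.exp_log hY0, ← sq]
  have := Real.exp_one_lt_d9
  have h0 := Real.exp_pos 1
  gcongr
  linarith

omit [Fintype k] in
theorem per_ite_dvd {R : Type*} (p : k[X]) [∀ a, Decidable (p ∣ a)] (u v : R) :
    Per p (fun a => if p ∣ a then u else v) := fun a b hab => by
  simp only [dvd_iff_dvd_of_dvd_sub hab]

/-- total degree of the monic primes of degree `≤ Y` -/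
noncomputable def DY (k : Type*) [Field k] [Fintype k] (Y : ℕ) : ℕ := ∑ p ∈ PY k Y, p.natDegree

theorem le_DY {Y : ℕ} {p : k[X]} (hp : p ∈ PY k Y) : p.natDegree ≤ DY k Y :=
  Finset.single_le_sum (f := fun p : k[X] => p.natDegree) (fun _ _ => Nat.zero_le _) hp

open Classical in
/-- monic polynomials of degree `N` without prime factor of degree `≤ Y` -/
noncomputable def Rough (k : Type*) [Field k] [Fintype k] (Y N : ℕ) : Finset k[X] :=
  (Mon k N).filter (fun r => ∀ p ∈ PY k Y, ¬ p ∣ r)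

theorem mem_Rough {Y N : ℕ} {r : k[X]} :
    r ∈ Rough k Y N ↔ (r.Monic ∧ r.natDegree = N) ∧ ∀ p ∈ PY k Y, ¬ p ∣ r := by
  classical
  unfold Rough
  rw [Finset.mem_filter, mem_Mon]

/-- (J1) -/
theorem card_Rough {Y N : ℕ} (hN : DY k Y ≤ N) :
    ((Rough k Y N).card : ℝ) = VY k Y * (Fintype.card k : ℝ) ^ N := by
  classical
  have h := sum_Mon_prod (R := ℝ) (PY k Y) (fun p => p) (fun p a => if p ∣ a then 0 else 1)
    (fun p hp => (mem_PY.1 hp).1) (PY_coprime Y) (fun p _ => per_ite_dvd p 0 1) hN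
  rw [mul_comm, VY]
  rw [Finset.prod_congr rfl (g := fun p => 1 - iv p) (fun p hp => by
    have := mean_ite_dvd (R := ℝ) (mem_PY.1 hp).1 ((le_DY hp).trans hN) 0 1
    convert this using 1
    unfold iv; ring)] at h
  rw [← h, Rough, Finset.card_filter]
  push_cast
  refine Finset.sum_congr rfl fun a _ => ?_
  by_cases ha : ∀ p ∈ PY k Y, ¬ p ∣ a
  · rw [if_pos ha, Finset.prod_congr rfl (g := fun _ => (1 : ℝ)) (fun p hp => if_neg (ha p hp))]
    simp
  · rw [if_neg ha]
    push Not at ha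
    obtain ⟨p, hp, hd⟩ := ha
    exact (Finset.prod_eq_zero (f := fun p => if p ∣ a then (0 : ℝ) else 1) hp (if_pos hd)).symm

theorem mt_cop_rough {Y N : ℕ} {a r : k[X]} (ha : a ≠ 0) (hd : a.natDegree ≤ Y)
    (hr : r ∈ Rough k Y N) : IsCoprime a r := by
  classical
  refine EuclideanDomain.isCoprime_of_dvd (fun h => ha h.1) ?_
  intro z hz hz0 hza hzr
  obtain ⟨p, hpm, hpi, hpz⟩ := Polynomial.exists_monic_irreducible_factor z hz
  exact (mem_Rough.1 hr).2 p
    (mem_PY.2 ⟨hpm, hpi, (natDegree_le_of_dvd (hpz.trans hza) ha).trans hd⟩) (hpz.trans hzr)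

theorem succ_mul_VY_le (Y : ℕ) : ((Y : ℝ) + 1) * VY k Y ≤ 1 := by
  classical
  have h2 := mt_two_le (k := k)
  set N := DY k Y + Y with hN
  have hcard : ((Finset.range (Y + 1)).sigma
      (fun j => (Mon k j) ×ˢ (Rough k Y (N - j)))).card ≤ (Mon k N).card := by
    refine Finset.card_le_card_of_injOn (fun x => x.2.1 * x.2.2) ?_ ?_
    · rintro ⟨j, a, r⟩ hx
      simp only [Finset.mem_coe, Finset.mem_sigma, Finset.mem_range, Finset.mem_product, mem_Mon,
        mem_Rough] at hx ⊢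
      obtain ⟨hj, ⟨ha, haj⟩, ⟨hr, hrj⟩, _⟩ := hx
      exact ⟨ha.mul hr, by rw [ha.natDegree_mul hr]; omega⟩
    · rintro ⟨j, a, r⟩ hx ⟨j', a', r'⟩ hx' h
      simp only [Finset.mem_coe, Finset.mem_sigma, Finset.mem_range, Finset.mem_product,
        mem_Mon] at hx hx' h
      obtain ⟨hj, ⟨ha, haj⟩, hr⟩ := hx
      obtain ⟨hj', ⟨ha', haj'⟩, hr'⟩ := hx'
      have c1 : IsCoprime a r' := mt_cop_rough ha.ne_zero (by omega) hr'
      have c2 : IsCoprime a' r := mt_cop_rough ha'.ne_zero (by omega) hr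
      have d1 : a ∣ a' := c1.dvd_of_dvd_mul_right (h ▸ dvd_mul_right a r)
      have d2 : a' ∣ a := c2.dvd_of_dvd_mul_right (h ▸ dvd_mul_right a' r')
      have e1 : a = a' := eq_of_monic_of_associated ha ha' (associated_of_dvd_dvd d1 d2)
      subst e1
      have e2 : r = r' := mul_left_cancel₀ ha.ne_zero h
      subst e2
      have e3 : j = j' := by omega
      subst e3
      rfl
  rw [Finset.card_sigma, card_Mon] at hcard
  have hc : (∑ j ∈ Finset.range (Y + 1), (((Mon k j) ×ˢ (Rough k Y (N - j))).card : ℝ))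
      ≤ (Fintype.card k : ℝ) ^ N := by exact_mod_cast hcard
  rw [Finset.sum_congr rfl (g := fun _ => VY k Y * (Fintype.card k : ℝ) ^ N) (fun j hj => by
    have hj' := Finset.mem_range.1 hj
    rw [Finset.card_product, card_Mon]
    push_cast
    rw [card_Rough (by omega), mul_left_comm, ← pow_add]
    congr 2
    omega), Finset.sum_const, Finset.card_range, nsmul_eq_mul] at hc
  push_cast at hc
  have hq : (0 : ℝ) < (Fintype.card k : ℝ) ^ N := by positivity
  rw [← mul_assoc] at hc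
  exact (mul_le_iff_le_one_left hq).1 hc

theorem log_le_sY (Y : ℕ) : Real.log ((Y : ℝ) + 1) ≤ 2 * sY k Y := by
  have hV := VY_pos (k := k) Y
  have h1 : (Y : ℝ) + 1 ≤ (VY k Y)⁻¹ := by
    rw [← one_div, le_div_iff₀ hV]
    exact succ_mul_VY_le Y
  rw [Real.log_le_iff_le_exp (by positivity)]
  exact h1.trans (inv_VY_le_exp Y)

/-- (J8) the sum of the reciprocals of the primes diverges -/
theorem tendsto_sY : Tendsto (sY k) atTop atTop := by
  have h1 : Tendsto (fun Y : ℕ => Real.log ((Y : ℝ) + 1) / 2) atTop atTop :=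
    (Real.tendsto_log_atTop.comp
      (tendsto_atTop_add_const_right _ 1 tendsto_natCast_atTop_atTop)).atTop_div_const
      (by norm_num)
  exact tendsto_atTop_mono (fun Y => by have := log_le_sY (k := k) Y; linarith) h1

theorem tendsto_VY : Tendsto (VY k) atTop (nhds 0) := by
  refine squeeze_zero (fun Y => (VY_pos Y).le) (fun Y => ?_)
    (tendsto_one_div_add_atTop_nhds_zero_nat (𝕜 := ℝ))
  rw [le_div_iff₀ (by positivity), mul_comm]
  exact succ_mul_VY_le Y

open Classical in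
theorem mt_sum_one {Y N : ℕ} (hN : DY k Y ≤ N) :
    ∑ g ∈ box k N, ∏ p ∈ PY k Y, (if p ∣ g then (5 / 4 : ℝ) else 1)
      ≤ (Fintype.card k : ℝ) ^ N * Real.exp (sY k Y / 4) := by
  have h2 := mt_two_le (k := k)
  rw [sum_box_eq_mean, mean_prod (R := ℝ) (PY k Y) (fun p => p)
    (fun p a => if p ∣ a then 5 / 4 else 1)
    (fun p hp => (mem_PY.1 hp).1) (PY_coprime Y) (fun p _ => per_ite_dvd p _ _) hN]
  refine mul_le_mul_of_nonneg_left ?_ (by positivity)
  rw [sY, Finset.sum_div, Real.exp_sum]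
  refine Finset.prod_le_prod (fun p hp => ?_) (fun p hp => ?_)
  · rw [mean_ite_dvd (mem_PY.1 hp).1 ((le_DY hp).trans hN)]
    positivity
  · rw [mean_ite_dvd (mem_PY.1 hp).1 ((le_DY hp).trans hN)]
    refine le_trans (le_of_eq ?_) (Real.add_one_le_exp _)
    unfold iv; ring

open Classical in
theorem mt_sum_two {Y N : ℕ} (hN : DY k Y ≤ N) :
    ∑ a ∈ box k N, ∑ b ∈ box k N, ∏ p ∈ PY k Y, (if p ∣ a * b then (4 / 5 : ℝ) else 1)
      ≤ (Fintype.card k : ℝ) ^ (2 * N) * Real.exp (-(3 / 10 * sY k Y)) := by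
  have h2 := mt_two_le (k := k)
  have inner : ∀ a : k[X],
      ∑ b ∈ box k N, ∏ p ∈ PY k Y, (if p ∣ a * b then (4 / 5 : ℝ) else 1)
        = (Fintype.card k : ℝ) ^ N
          * ∏ p ∈ PY k Y, (if p ∣ a then (4 / 5 : ℝ) else 1 - iv p / 5) := by
    intro a
    rw [sum_box_eq_mean, mean_prod (R := ℝ) (PY k Y) (fun p => p)
      (fun p b => if p ∣ a * b then 4 / 5 else 1)
      (fun p hp => (mem_PY.1 hp).1) (PY_coprime Y) (fun p _ x y hxy => by
        have : p ∣ a * x - a * y := by rw [← mul_sub]; exact hxy.mul_left a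
        simp only [dvd_iff_dvd_of_dvd_sub this]) hN]
    congr 1
    refine Finset.prod_congr rfl fun p hp => ?_
    have hpr : Prime p := (mem_PY.1 hp).2.1.prime
    by_cases h : p ∣ a
    · rw [if_pos h]
      have : (fun b => if p ∣ a * b then (4 / 5 : ℝ) else 1) = fun _ => 4 / 5 :=
        funext fun b => if_pos (h.mul_right b)
      rw [this, mean_const]
    · rw [if_neg h]
      have : (fun b => if p ∣ a * b then (4 / 5 : ℝ) else 1)
          = fun b => if p ∣ b then 4 / 5 else 1 :=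
        funext fun b => by simp only [hpr.dvd_mul, h, false_or]
      rw [this, mean_ite_dvd (mem_PY.1 hp).1 ((le_DY hp).trans hN)]
      unfold iv; ring
  rw [Finset.sum_congr rfl (fun a _ => inner a), ← Finset.mul_sum, sum_box_eq_mean,
    mean_prod (R := ℝ) (PY k Y) (fun p => p) (fun p a => if p ∣ a then 4 / 5 else 1 - iv p / 5)
      (fun p hp => (mem_PY.1 hp).1) (PY_coprime Y) (fun p _ => per_ite_dvd p _ _) hN,
    ← mul_assoc, ← pow_add, two_mul]
  refine mul_le_mul_of_nonneg_left ?_ (by positivity)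
  rw [sY, Finset.mul_sum, ← Finset.sum_neg_distrib, Real.exp_sum]
  refine Finset.prod_le_prod (fun p hp => ?_) (fun p hp => ?_)
  · rw [mean_ite_dvd (mem_PY.1 hp).1 ((le_DY hp).trans hN)]
    have h1 := iv_le_half (mem_PY.1 hp).2.1
    have h0 := iv_pos p
    change 0 ≤ 1 - iv p / 5 + (4 / 5 - (1 - iv p / 5)) * iv p
    nlinarith
  · rw [mean_ite_dvd (mem_PY.1 hp).1 ((le_DY hp).trans hN)]
    refine le_trans ?_ (Real.add_one_le_exp _)
    have h1 := iv_le_half (mem_PY.1 hp).2.1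
    have h0 := iv_pos p
    change 1 - iv p / 5 + (4 / 5 - (1 - iv p / 5)) * iv p ≤ _
    nlinarith

theorem mt_explicit (c Y m : ℕ) (hm : 2 * DY k Y ≤ m) (S : Finset k[X])
    (hS : ∀ g ∈ S, g.degree < m ∧ ∃ g₁ g₂ : k[X], g = g₁ * g₂ ∧ 2 * g₁.natDegree ≤ m + c ∧
      2 * g₂.natDegree ≤ m + c) :
    (S.card : ℝ) ≤ (1 + (Fintype.card k : ℝ) ^ (c + 2)) * Real.exp (-(sY k Y / 40))
      * (Fintype.card k : ℝ) ^ m := by
  classical
  have h2 := mt_two_le (k := k)
  set q : ℝ := (Fintype.card k : ℝ) with hq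
  set s := sY k Y with hs
  set T := Real.exp (11 / 40 * s) with hT
  have hT0 : 0 < T := Real.exp_pos _
  set W : k[X] → ℝ := fun g => ∏ p ∈ PY k Y, (if p ∣ g then (5 / 4 : ℝ) else 1) with hW
  set W' : k[X] → ℝ := fun g => ∏ p ∈ PY k Y, (if p ∣ g then (4 / 5 : ℝ) else 1) with hW'
  have hW0 : ∀ g, 0 < W g := fun g => Finset.prod_pos fun p _ => by split_ifs <;> norm_num
  have hW'0 : ∀ g, 0 < W' g := fun g => Finset.prod_pos fun p _ => by split_ifs <;> norm_num
  have hWW : ∀ g, W g * W' g = 1 := fun g => by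
    simp only [hW, hW']
    rw [← Finset.prod_mul_distrib]
    exact Finset.prod_eq_one fun p _ => by split_ifs <;> norm_num
  set h := (m + c) / 2 + 1 with hh
  have hsub : S ⊆ ((box k m).filter (fun g => T < W g)) ∪
      (((box k h ×ˢ box k h).filter (fun x => W (x.1 * x.2) ≤ T)).image (fun x => x.1 * x.2)) := by
    intro g hg
    obtain ⟨hd, g₁, g₂, rfl, h1, h2⟩ := hS g hg
    rw [Finset.mem_union]
    by_cases hc : T < W (g₁ * g₂)
    · exact Or.inl (Finset.mem_filter.2 ⟨mem_box.2 hd, hc⟩)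
    · refine Or.inr (Finset.mem_image.2 ⟨(g₁, g₂), Finset.mem_filter.2 ⟨?_, not_lt.1 hc⟩, rfl⟩)
      exact Finset.mem_product.2 ⟨mem_box'.2 (Or.inr (by simp only; omega)),
        mem_box'.2 (Or.inr (by simp only; omega))⟩
  have hA : (((box k m).filter (fun g => T < W g)).card : ℝ) ≤ q ^ m * Real.exp (-(s / 40)) := by
    have e1 : (((box k m).filter (fun g => T < W g)).card : ℝ) * T ≤ ∑ g ∈ box k m, W g := by
      rw [← nsmul_eq_mul, ← Finset.sum_const]
      refine le_trans (Finset.sum_le_sum fun g hg => (Finset.mem_filter.1 hg).2.le) ?_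
      exact Finset.sum_le_sum_of_subset_of_nonneg (Finset.filter_subset _ _)
        (fun g _ _ => (hW0 g).le)
    have e2 : ∑ g ∈ box k m, W g ≤ q ^ m * Real.exp (s / 4) := mt_sum_one (by omega)
    have e3 : Real.exp (s / 4) = Real.exp (-(s / 40)) * T := by
      rw [hT, ← Real.exp_add]; congr 1; ring
    rw [e3, ← mul_assoc] at e2
    exact le_of_mul_le_mul_right (e1.trans e2) hT0
  have hB : (((box k h ×ˢ box k h).filter (fun x => W (x.1 * x.2) ≤ T)).card : ℝ)
      ≤ q ^ (c + 2) * q ^ m * Real.exp (-(s / 40)) := by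
    have e1 : (((box k h ×ˢ box k h).filter (fun x => W (x.1 * x.2) ≤ T)).card : ℝ)
        ≤ ∑ x ∈ box k h ×ˢ box k h, T * W' (x.1 * x.2) := by
      rw [Finset.card_eq_sum_ones]
      push_cast
      refine le_trans (Finset.sum_le_sum (g := fun x => T * W' (x.1 * x.2)) fun x hx => ?_) ?_
      · rw [← hWW (x.1 * x.2)]
        exact mul_le_mul_of_nonneg_right (Finset.mem_filter.1 hx).2 (hW'0 _).le
      · exact Finset.sum_le_sum_of_subset_of_nonneg (Finset.filter_subset _ _)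
          (fun x _ _ => (mul_pos hT0 (hW'0 _)).le)
    have e2 : ∑ a ∈ box k h, ∑ b ∈ box k h, W' (a * b)
        ≤ q ^ (2 * h) * Real.exp (-(3 / 10 * s)) := mt_sum_two (by omega)
    rw [← Finset.mul_sum, Finset.sum_product' (f := fun a b => W' (a * b))] at e1
    have e3 : T * Real.exp (-(3 / 10 * s)) = Real.exp (-(s / 40)) := by
      rw [hT, ← Real.exp_add]; congr 1; ring
    have e4 : q ^ (2 * h) ≤ q ^ (c + 2) * q ^ m := by
      rw [← pow_add]
      exact pow_le_pow_right₀ (by linarith) (by omega)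
    calc _ ≤ T * (q ^ (2 * h) * Real.exp (-(3 / 10 * s))) :=
          e1.trans (mul_le_mul_of_nonneg_left e2 hT0.le)
      _ = q ^ (2 * h) * Real.exp (-(s / 40)) := by rw [← e3]; ring
      _ ≤ _ := mul_le_mul_of_nonneg_right e4 (Real.exp_pos _).le
  have hc1 := (Finset.card_le_card hsub).trans ((Finset.card_union_le _ _).trans
    (Nat.add_le_add_left Finset.card_image_le _))
  have hc2 : (S.card : ℝ) ≤ (((box k m).filter (fun g => T < W g)).card : ℝ)
      + (((box k h ×ˢ box k h).filter (fun x => W (x.1 * x.2) ≤ T)).card : ℝ) := by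
    exact_mod_cast hc1
  calc (S.card : ℝ) ≤ q ^ m * Real.exp (-(s / 40)) + q ^ (c + 2) * q ^ m * Real.exp (-(s / 40)) :=
        hc2.trans (add_le_add hA hB)
    _ = _ := by ring

/-- (MTP) multiplication table lemma over `k[X]` -/
theorem mult_table (c : ℕ) {ε : ℝ} (hε : 0 < ε) : ∃ m₀ : ℕ, ∀ m, m₀ ≤ m → ∀ S : Finset k[X],
    (∀ g ∈ S, g.degree < m ∧ ∃ g₁ g₂ : k[X], g = g₁ * g₂ ∧ 2 * g₁.natDegree ≤ m + c ∧
      2 * g₂.natDegree ≤ m + c) → (S.card : ℝ) ≤ ε * (Fintype.card k : ℝ) ^ m := by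
  have h2 := mt_two_le (k := k)
  have h1 : Tendsto (fun Y => (1 + (Fintype.card k : ℝ) ^ (c + 2)) * Real.exp (-(sY k Y / 40)))
      atTop (nhds ((1 + (Fintype.card k : ℝ) ^ (c + 2)) * 0)) :=
    (Real.tendsto_exp_neg_atTop_nhds_zero.comp
      (tendsto_sY.atTop_div_const (by norm_num : (0 : ℝ) < 40))).const_mul _
  rw [mul_zero] at h1
  obtain ⟨Y, hY⟩ := (h1.eventually (gt_mem_nhds hε)).exists
  refine ⟨2 * DY k Y, fun m hm S hS => (mt_explicit c Y m hm S hS).trans ?_⟩
  exact mul_le_mul_of_nonneg_right hY.le (by positivity)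

end Pool.Agent.MP_d0fd9b_nt.F92
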