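import Pool.Agent.H92F.Box
import Pool.Agent.H92F.MT27

/-! h92f: primes (row AR2 = J8). -/

set_option autoImplicit false
open Polynomial Finset UniqueFactorizationMonoid EuclideanDomain Filter Topology
open scoped Classical

noncomputable section
namespace CL5

open Pool.Agent.MP_d0fd9b_nt

variable {k : Type*} [Field k] [Fintype k]

theorem a27_prs (Y : ℕ) : prs k Y = F92.PY k Y := by
  ext p; rw [mem_prs, F92.mem_PY]

theorem a27_VV (Y : ℕ) : VV k Y = F92.VY k Y := by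
  unfold VV F92.VY
  rw [a27_prs]
  exact Finset.prod_congr rfl fun p _ => by unfold F92.iv qq; rw [one_div]

theorem a27_sum (Y : ℕ) : ∑ p ∈ prs k Y, 1 / nrm p = F92.sY k Y := by
  unfold F92.sY
  rw [a27_prs]
  exact Finset.sum_congr rfl fun p _ => by unfold F92.iv nrm qq; rw [one_div]

theorem card_prs_deg (j : ℕ) :
    (j : ℝ) * (((mon k j).filter Irreducible).card : ℝ) ≤ qq k ^ j := by
  rcases Nat.eq_zero_or_pos j with rfl | hj
  · simp
  · have := F92.gauss_count hj.ne' ((mon k j).filter Irreducible) (fun p hp => by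
      rw [Finset.mem_filter, mem_mon] at hp
      exact ⟨hp.1.1, hp.2, hp.1.2⟩)
    unfold qq
    exact_mod_cast this

theorem VV_pos (Y : ℕ) : 0 < VV k Y := by rw [a27_VV]; exact F92.VY_pos Y

theorem VV_le_one (Y : ℕ) : VV k Y ≤ 1 := by rw [a27_VV]; exact F92.VY_le_one Y

theorem inv_VV_le {Y : ℕ} (hY : 1 ≤ Y) : 1 / VV k Y ≤ (3 * Y) ^ 2 := by
  rw [a27_VV, one_div]; exact F92.inv_VY_le hY

theorem tendsto_sum_prs :
    Tendsto (fun Y : ℕ => ∑ p ∈ prs k Y, 1 / nrm p) atTop atTop := by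
  simp only [a27_sum]
  exact F92.tendsto_sY

theorem a27_geom (Y n : ℕ) :
    ∑ j ∈ Finset.Ioc Y (Y + n), 1 / qq k ^ j ≤ 1 / qq k ^ Y - 1 / qq k ^ (Y + n) := by
  have h2 := two_le_qq (k := k)
  induction n with
  | zero => simp
  | succ n ih =>
    rw [← add_assoc, Finset.sum_Ioc_succ_top (Nat.le_add_right Y n)]
    have hp : 0 < qq k ^ (Y + n) := by positivity
    have : 2 * (1 / qq k ^ (Y + n + 1)) ≤ 1 / qq k ^ (Y + n) := by
      rw [pow_succ, mul_one_div, div_le_div_iff₀ (by positivity) hp]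
      nlinarith
    linarith

/-- primes of degree `> Y`, any finite set of them -/
theorem sum_inv_sq_le (Y : ℕ) (s : Finset k[X]) (hs : ∀ p ∈ s, p.Monic ∧ Y < p.natDegree) :
    ∑ p ∈ s, 1 / nrm p ^ 2 ≤ eta0 k Y := by
  have h2 := two_le_qq (k := k)
  set n := s.sup natDegree with hn
  rw [← Finset.sum_fiberwise_of_maps_to (s := s) (t := Finset.Ioc Y (Y + n))
    (g := fun p => p.natDegree) (fun p hp => Finset.mem_Ioc.2 ⟨(hs p hp).2,
      (Finset.le_sup (f := natDegree) hp).trans (Nat.le_add_left _ _)⟩)]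
  have h1 : ∀ j ∈ Finset.Ioc Y (Y + n),
      ∑ p ∈ s.filter (fun p => p.natDegree = j), 1 / nrm p ^ 2 ≤ 1 / qq k ^ j := by
    intro j _
    have hq : 0 < qq k ^ j := by positivity
    rw [Finset.sum_congr rfl (g := fun _ => 1 / (qq k ^ j) ^ 2) (fun p hp => by
      unfold nrm; rw [(Finset.mem_filter.1 hp).2]), Finset.sum_const, nsmul_eq_mul]
    have hc : ((s.filter (fun p => p.natDegree = j)).card : ℝ) ≤ qq k ^ j := by
      rw [← card_mon]
      exact_mod_cast Finset.card_le_card fun p hp =>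
        mem_mon.2 ⟨(hs p (Finset.mem_filter.1 hp).1).1, (Finset.mem_filter.1 hp).2⟩
    calc _ ≤ qq k ^ j * (1 / (qq k ^ j) ^ 2) := mul_le_mul_of_nonneg_right hc (by positivity)
      _ = 1 / qq k ^ j := by field_simp
  refine (Finset.sum_le_sum h1).trans ((a27_geom Y n).trans ?_)
  unfold eta0
  have : 0 < 1 / qq k ^ (Y + n) := by positivity
  linarith

/-- (J1) -/
theorem a27_card_Rg (Y : ℕ) : ∃ ρ₀ : ℕ, ∀ ρ, ρ₀ ≤ ρ → ((Rg k Y ρ).card : ℝ) = VV k Y * qq k ^ ρ := by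
  refine ⟨F92.DY k Y, fun ρ hρ => ?_⟩
  have : Rg k Y ρ = F92.Rough k Y ρ := by
    ext r
    unfold Rg
    rw [Finset.mem_filter, mem_mon, F92.mem_Rough, a27_prs]
  rw [this, a27_VV]
  exact F92.card_Rough hρ

/-- multiplication table lemma -/
theorem a27_mult_table (c : ℕ) {ε : ℝ} (hε : 0 < ε) : ∃ m₀ : ℕ, ∀ m, m₀ ≤ m →
    ∀ S : Finset k[X], (∀ g ∈ S, g.degree < m ∧ ∃ g₁ g₂ : k[X], g = g₁ * g₂ ∧
      2 * g₁.natDegree ≤ m + c ∧ 2 * g₂.natDegree ≤ m + c) → (S.card : ℝ) ≤ ε * qq k ^ m :=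
  F92.mult_table c hε

end CL5
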