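import Mathlib

set_option autoImplicit false

namespace Pool.Agent.MP_d0fd9b_nt.F92

open Polynomial Finset

variable {k : Type*} [Field k] [Fintype k]

/-- polynomials of degree `< N` -/
noncomputable def box (k : Type*) [Field k] [Fintype k] (N : ℕ) : Finset k[X] := by
  classical exact Finset.univ.map ⟨Polynomial.ofFn (R := k) N, Polynomial.injective_ofFn N⟩

theorem mem_box {N : ℕ} {p : k[X]} : p ∈ box k N ↔ p.degree < N := by
  classical
  unfold box
  simp only [Finset.mem_map, Finset.mem_univ, true_and, Function.Embedding.coeFn_mk]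
  constructor
  · rintro ⟨v, rfl⟩
    exact Polynomial.ofFn_degree_lt v
  · intro h
    by_cases hp : p = 0
    · exact ⟨0, by simp [hp]⟩
    · exact ⟨_, Polynomial.ofFn_comp_toFn_eq_id_of_natDegree_lt
        ((Polynomial.natDegree_lt_iff_degree_lt hp).2 h)⟩

theorem mem_box' {N : ℕ} {p : k[X]} : p ∈ box k N ↔ p = 0 ∨ p.natDegree < N := by
  rw [mem_box]
  by_cases hp : p = 0
  · simp [hp]
  · simp [hp, Polynomial.natDegree_lt_iff_degree_lt hp]

theorem card_box (N : ℕ) : (box k N).card = Fintype.card k ^ N := by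
  classical
  unfold box
  simp

theorem zero_mem_box (N : ℕ) : (0 : k[X]) ∈ box k N := mem_box'.2 (Or.inl rfl)

theorem add_mem_box {N : ℕ} {a b : k[X]} (ha : a ∈ box k N) (hb : b ∈ box k N) :
    a + b ∈ box k N := by
  rw [mem_box] at *
  exact (Polynomial.degree_add_le a b).trans_lt (max_lt ha hb)

theorem sub_mem_box {N : ℕ} {a b : k[X]} (ha : a ∈ box k N) (hb : b ∈ box k N) :
    a - b ∈ box k N := by
  rw [mem_box] at *
  exact (Polynomial.degree_sub_le a b).trans_lt (max_lt ha hb)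

theorem box_mono {N N' : ℕ} (h : N ≤ N') : box k N ⊆ box k N' := fun a ha => by
  rw [mem_box] at *
  exact ha.trans_le (by exact_mod_cast h)

theorem modByMonic_mem_box {M : k[X]} (hM : M.Monic) (a : k[X]) :
    a %ₘ M ∈ box k M.natDegree := by
  rw [mem_box, ← Polynomial.degree_eq_natDegree hM.ne_zero]
  exact Polynomial.degree_modByMonic_lt a hM

theorem eq_zero_of_dvd_of_mem_box {M a : k[X]} (hM : M ≠ 0) (ha : a ∈ box k M.natDegree)
    (h : M ∣ a) : a = 0 := by
  rw [mem_box, ← Polynomial.degree_eq_natDegree hM] at ha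
  exact Polynomial.eq_zero_of_dvd_of_degree_lt h ha

/-- monic polynomials of degree `N` -/
noncomputable def Mon (k : Type*) [Field k] [Fintype k] (N : ℕ) : Finset k[X] :=
  (box k N).map ⟨fun p => X ^ N + p, add_right_injective _⟩

theorem mem_Mon {N : ℕ} {p : k[X]} : p ∈ Mon k N ↔ p.Monic ∧ p.natDegree = N := by
  unfold Mon
  simp only [Finset.mem_map, Function.Embedding.coeFn_mk, mem_box]
  constructor
  · rintro ⟨a, ha, rfl⟩
    have h1 : a.degree < (X ^ N : k[X]).degree := by rwa [Polynomial.degree_X_pow]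
    refine ⟨(Polynomial.monic_X_pow N).add_of_left h1, ?_⟩
    rw [Polynomial.natDegree_add_eq_left_of_degree_lt h1, Polynomial.natDegree_X_pow]
  · rintro ⟨hm, hd⟩
    refine ⟨p - X ^ N, ?_, by ring⟩
    have h1 : p.degree = (X ^ N : k[X]).degree := by
      rw [Polynomial.degree_X_pow, Polynomial.degree_eq_natDegree hm.ne_zero, hd]
    have := Polynomial.degree_sub_lt_left h1 hm.ne_zero (by rw [hm.leadingCoeff, (Polynomial.monic_X_pow N).leadingCoeff])
    rwa [h1, Polynomial.degree_X_pow] at this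

theorem card_Mon (N : ℕ) : (Mon k N).card = Fintype.card k ^ N := by
  unfold Mon
  rw [Finset.card_map, card_box]

/-- `F` is periodic modulo `M` -/
def Per {R : Type*} (M : k[X]) (F : k[X] → R) : Prop := ∀ a b, M ∣ a - b → F a = F b

omit [Fintype k] in
theorem Per.of_dvd {R : Type*} {M M' : k[X]} {F : k[X] → R} (h : Per M F) (hd : M ∣ M') :
    Per M' F := fun a b hab => h a b (hd.trans hab)

theorem sum_box_divmod {R : Type*} [AddCommMonoid R] {M : k[X]} (hM : M.Monic) {N : ℕ}
    (hN : M.natDegree ≤ N) (F : k[X] → R) :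
    ∑ a ∈ box k N, F a
      = ∑ b ∈ box k (N - M.natDegree), ∑ c ∈ box k M.natDegree, F (c + M * b) := by
  rw [← Finset.sum_product' (f := fun b c => F (c + M * b))]
  refine Finset.sum_nbij' (fun a => (a /ₘ M, a %ₘ M)) (fun x => x.2 + M * x.1) ?_ ?_ ?_ ?_ ?_
  · intro a ha
    rw [Finset.mem_product]
    refine ⟨?_, modByMonic_mem_box hM a⟩
    rw [mem_box'] at ha ⊢
    by_cases h0 : a /ₘ M = 0
    · exact Or.inl h0
    · right
      have h1 : ¬ a.degree < M.degree := fun h => h0 ((Polynomial.divByMonic_eq_zero_iff hM).2 h)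
      have ha0 : a ≠ 0 := by
        rintro rfl
        exact h0 (Polynomial.zero_divByMonic M)
      have h2 : M.natDegree ≤ a.natDegree := Polynomial.natDegree_le_natDegree (not_lt.1 h1)
      have h3 := ha.resolve_left ha0
      rw [Polynomial.natDegree_divByMonic a hM]
      omega
  · rintro ⟨b, c⟩ hx
    rw [Finset.mem_product] at hx
    refine add_mem_box (box_mono hN hx.2) ?_
    rcases mem_box'.1 hx.1 with h | h
    · simp only at h
      simp [h, zero_mem_box]
    · refine mem_box'.2 (Or.inr ?_)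
      have := Polynomial.natDegree_mul_le (p := M) (q := b)
      simp only at h ⊢
      omega
  · intro a _
    exact Polynomial.modByMonic_add_div a M
  · rintro ⟨b, c⟩ hx
    rw [Finset.mem_product] at hx
    have hc : c.degree < M.degree := by
      rw [Polynomial.degree_eq_natDegree hM.ne_zero]
      exact mem_box.1 hx.2
    have := Polynomial.div_modByMonic_unique (f := c + M * b) b c hM ⟨rfl, hc⟩
    simp only [this.1, this.2]
  · intro a _
    simp only [Polynomial.modByMonic_add_div a M]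

theorem sum_box_per {R : Type*} [AddCommMonoid R] {M : k[X]} (hM : M.Monic) {N : ℕ}
    (hN : M.natDegree ≤ N) {F : k[X] → R} (hF : Per M F) :
    ∑ a ∈ box k N, F a
      = (Fintype.card k ^ (N - M.natDegree)) • ∑ c ∈ box k M.natDegree, F c := by
  rw [sum_box_divmod hM hN, ← card_box, ← Finset.sum_const]
  refine Finset.sum_congr rfl fun b _ => Finset.sum_congr rfl fun c _ => hF _ _ ?_
  exact ⟨b, by ring⟩

theorem sum_box_shift {R : Type*} [AddCommMonoid R] {M : k[X]} (hM : M.Monic) {N : ℕ}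
    (hN : M.natDegree ≤ N) {F : k[X] → R} (hF : Per M F) (t : k[X]) :
    ∑ a ∈ box k N, F (t + a) = ∑ a ∈ box k N, F a := by
  have ht : t %ₘ M ∈ box k N := box_mono hN (modByMonic_mem_box hM t)
  refine Finset.sum_nbij' (fun a => t %ₘ M + a) (fun a => a - t %ₘ M) ?_ ?_ ?_ ?_ ?_
  · intro a ha
    exact add_mem_box ht ha
  · intro a ha
    exact sub_mem_box ha ht
  · intro a _
    ring
  · intro a _
    ring
  · intro a _
    refine hF _ _ ⟨t /ₘ M, ?_⟩
    have := Polynomial.modByMonic_add_div t M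
    linear_combination -this

theorem sum_Mon_per {R : Type*} [AddCommMonoid R] {M : k[X]} (hM : M.Monic) {N : ℕ}
    (hN : M.natDegree ≤ N) {F : k[X] → R} (hF : Per M F) :
    ∑ a ∈ Mon k N, F a = ∑ a ∈ box k N, F a := by
  unfold Mon
  rw [Finset.sum_map]
  exact sum_box_shift hM hN hF _

theorem sum_box_crt {R : Type*} [CommSemiring R] {M₁ M₂ : k[X]} (h₁ : M₁.Monic) (h₂ : M₂.Monic)
    (hc : IsCoprime M₁ M₂) {F₁ F₂ : k[X] → R} (hF₁ : Per M₁ F₁) (hF₂ : Per M₂ F₂) :
    ∑ a ∈ box k (M₁.natDegree + M₂.natDegree), F₁ a * F₂ a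
      = (∑ a ∈ box k M₁.natDegree, F₁ a) * ∑ a ∈ box k M₂.natDegree, F₂ a := by
  classical
  rw [Finset.sum_mul_sum, ← Finset.sum_product']
  have hmap : ∀ a ∈ box k (M₁.natDegree + M₂.natDegree),
      (a %ₘ M₁, a %ₘ M₂) ∈ box k M₁.natDegree ×ˢ box k M₂.natDegree := fun a _ =>
    Finset.mem_product.2 ⟨modByMonic_mem_box h₁ a, modByMonic_mem_box h₂ a⟩
  have hinj : ∀ a ∈ box k (M₁.natDegree + M₂.natDegree), ∀ b ∈ box k (M₁.natDegree + M₂.natDegree),
      (a %ₘ M₁, a %ₘ M₂) = (b %ₘ M₁, b %ₘ M₂) → a = b := by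
    intro a ha b hb hab
    rw [Prod.mk.injEq] at hab
    have d1 : M₁ ∣ a - b := ⟨a /ₘ M₁ - b /ₘ M₁, by
      have e1 := Polynomial.modByMonic_add_div a M₁
      have e2 := Polynomial.modByMonic_add_div b M₁
      linear_combination e2 - e1 + hab.1⟩
    have d2 : M₂ ∣ a - b := ⟨a /ₘ M₂ - b /ₘ M₂, by
      have e1 := Polynomial.modByMonic_add_div a M₂
      have e2 := Polynomial.modByMonic_add_div b M₂
      linear_combination e2 - e1 + hab.2⟩
    have hm : a - b ∈ box k (M₁ * M₂).natDegree := by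
      rw [h₁.natDegree_mul h₂]
      exact sub_mem_box ha hb
    exact sub_eq_zero.1 (eq_zero_of_dvd_of_mem_box (h₁.mul h₂).ne_zero hm (hc.mul_dvd d1 d2))
  refine Finset.sum_bij (fun a _ => (a %ₘ M₁, a %ₘ M₂)) hmap hinj ?_ ?_
  · intro x hx
    obtain ⟨a, ha, h⟩ := Finset.surj_on_of_inj_on_of_card_le (fun a _ => (a %ₘ M₁, a %ₘ M₂)) hmap
      (fun a b ha hb h => hinj a ha b hb h)
      (by rw [Finset.card_product, card_box, card_box, card_box, pow_add]) x hx
    exact ⟨a, ha, h.symm⟩
  · intro a _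
    have e1 := Polynomial.modByMonic_add_div a M₁
    have e2 := Polynomial.modByMonic_add_div a M₂
    rw [hF₁ a (a %ₘ M₁) ⟨a /ₘ M₁, by linear_combination -e1⟩,
      hF₂ a (a %ₘ M₂) ⟨a /ₘ M₂, by linear_combination -e2⟩]

/-- mean of `F` over `box N` -/
noncomputable def mean {R : Type*} [Field R] (k : Type*) [Field k] [Fintype k] (N : ℕ)
    (F : k[X] → R) : R := (∑ a ∈ box k N, F a) / (Fintype.card k : R) ^ N

theorem card_ne_zero (R : Type*) [Field R] [CharZero R] : (Fintype.card k : R) ≠ 0 := by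
  exact_mod_cast Fintype.card_ne_zero

theorem sum_box_eq_mean {R : Type*} [Field R] [CharZero R] (N : ℕ) (F : k[X] → R) :
    ∑ a ∈ box k N, F a = (Fintype.card k : R) ^ N * mean k N F := by
  unfold mean
  have := card_ne_zero (k := k) R
  field_simp

theorem mean_per {R : Type*} [Field R] [CharZero R] {M : k[X]} (hM : M.Monic) {N : ℕ}
    (hN : M.natDegree ≤ N) {F : k[X] → R} (hF : Per M F) :
    mean k N F = mean k M.natDegree F := by
  unfold mean
  have := card_ne_zero (k := k) R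
  rw [sum_box_per hM hN hF, nsmul_eq_mul]
  obtain ⟨j, rfl⟩ := Nat.exists_eq_add_of_le hN
  rw [Nat.add_sub_cancel_left, pow_add]
  push_cast
  field_simp

theorem mean_mul {R : Type*} [Field R] [CharZero R] {M₁ M₂ : k[X]} (h₁ : M₁.Monic)
    (h₂ : M₂.Monic) (hc : IsCoprime M₁ M₂) {F₁ F₂ : k[X] → R} (hF₁ : Per M₁ F₁) (hF₂ : Per M₂ F₂)
    {N : ℕ} (hN : M₁.natDegree + M₂.natDegree ≤ N) :
    mean k N (fun a => F₁ a * F₂ a) = mean k N F₁ * mean k N F₂ := by
  have hP : Per (M₁ * M₂) (fun a => F₁ a * F₂ a) := fun a b hab => by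
    simp only [hF₁ a b ((dvd_mul_right _ _).trans hab), hF₂ a b ((dvd_mul_left _ _).trans hab)]
  rw [mean_per (h₁.mul h₂) (by rwa [h₁.natDegree_mul h₂]) hP, mean_per h₁ (by omega) hF₁,
    mean_per h₂ (by omega) hF₂, h₁.natDegree_mul h₂]
  unfold mean
  rw [sum_box_crt h₁ h₂ hc hF₁ hF₂, pow_add, div_mul_div_comm]

theorem mean_const {R : Type*} [Field R] [CharZero R] (N : ℕ) (c : R) :
    mean k N (fun _ => c) = c := by
  unfold mean
  have := card_ne_zero (k := k) R
  rw [Finset.sum_const, card_box, nsmul_eq_mul]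
  push_cast
  field_simp

omit [Fintype k] in
theorem per_prod {R ι : Type*} [CommMonoid R] (s : Finset ι) (M : ι → k[X]) (F : ι → k[X] → R)
    (hF : ∀ i ∈ s, Per (M i) (F i)) : Per (∏ i ∈ s, M i) (fun a => ∏ i ∈ s, F i a) :=
  fun a b hab => Finset.prod_congr rfl fun i hi =>
    hF i hi a b ((Finset.dvd_prod_of_mem M hi).trans hab)

/-- (IND) on `box N` -/
theorem mean_prod {R ι : Type*} [Field R] [CharZero R] (s : Finset ι) (M : ι → k[X])
    (F : ι → k[X] → R) (hM : ∀ i ∈ s, (M i).Monic)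
    (hc : ∀ i ∈ s, ∀ j ∈ s, i ≠ j → IsCoprime (M i) (M j)) (hF : ∀ i ∈ s, Per (M i) (F i))
    {N : ℕ} (hN : ∑ i ∈ s, (M i).natDegree ≤ N) :
    mean k N (fun a => ∏ i ∈ s, F i a) = ∏ i ∈ s, mean k N (F i) := by
  classical
  induction s using Finset.induction_on with
  | empty => simp [mean_const]
  | insert i s hi ih =>
    rw [Finset.sum_insert hi] at hN
    simp only [Finset.prod_insert hi]
    have hM' : ∀ j ∈ s, (M j).Monic := fun j hj => hM j (Finset.mem_insert_of_mem hj)
    have hF' : ∀ j ∈ s, Per (M j) (F j) := fun j hj => hF j (Finset.mem_insert_of_mem hj)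
    rw [mean_mul (hM i (Finset.mem_insert_self _ _)) (Polynomial.monic_prod_of_monic s M hM')
      (IsCoprime.prod_right fun j hj => hc i (Finset.mem_insert_self _ _) j
        (Finset.mem_insert_of_mem hj) (fun h => hi (h ▸ hj)))
      (hF i (Finset.mem_insert_self _ _)) (per_prod s M F hF')
      (by rwa [Polynomial.natDegree_prod_of_monic s M hM']),
      ih hM' (fun a ha b hb => hc a (Finset.mem_insert_of_mem ha) b (Finset.mem_insert_of_mem hb))
        hF' (by omega)]

/-- (IND) on `Mon N` -/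
theorem sum_Mon_prod {R ι : Type*} [Field R] [CharZero R] (s : Finset ι) (M : ι → k[X])
    (F : ι → k[X] → R) (hM : ∀ i ∈ s, (M i).Monic)
    (hc : ∀ i ∈ s, ∀ j ∈ s, i ≠ j → IsCoprime (M i) (M j)) (hF : ∀ i ∈ s, Per (M i) (F i))
    {N : ℕ} (hN : ∑ i ∈ s, (M i).natDegree ≤ N) :
    ∑ a ∈ Mon k N, ∏ i ∈ s, F i a = (Fintype.card k : R) ^ N * ∏ i ∈ s, mean k N (F i) := by
  rw [sum_Mon_per (Polynomial.monic_prod_of_monic s M hM)
    (by rwa [Polynomial.natDegree_prod_of_monic s M hM]) (per_prod s M F hF), sum_box_eq_mean,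
    mean_prod s M F hM hc hF hN]

open Classical in
theorem mean_ite_dvd {R : Type*} [Field R] [CharZero R] {M : k[X]} (hM : M.Monic) {N : ℕ}
    (hN : M.natDegree ≤ N) (u v : R) :
    mean k N (fun a => if M ∣ a then u else v)
      = v + (u - v) * ((Fintype.card k : R) ^ M.natDegree)⁻¹ := by
  have hP : Per M (fun a => if M ∣ a then u else v) := fun a b hab => by
    simp only [dvd_iff_dvd_of_dvd_sub hab]
  rw [mean_per hM hN hP]
  unfold mean
  have h0 := card_ne_zero (k := k) R
  have : ∑ a ∈ box k M.natDegree, (if M ∣ a then u else v)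
      = ∑ a ∈ box k M.natDegree, (v + if a = 0 then u - v else 0) := by
    refine Finset.sum_congr rfl fun a ha => ?_
    by_cases h : a = 0
    · simp [h]
    · have : ¬ M ∣ a := fun hd => h (eq_zero_of_dvd_of_mem_box hM.ne_zero ha hd)
      simp [h, this]
  rw [this, Finset.sum_add_distrib, Finset.sum_const, card_box, Finset.sum_ite_eq',
    if_pos (zero_mem_box _), nsmul_eq_mul]
  push_cast
  field_simp

end Pool.Agent.MP_d0fd9b_nt.F92
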