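import Pool.Agent.H92F.Defs
import Pool.Agent.H92F.Cnt80

/-! h92f: boxes, residue classes, independence (row BOX). -/

set_option autoImplicit false
open Polynomial Finset UniqueFactorizationMonoid EuclideanDomain Filter Topology
open scoped Classical

noncomputable section
namespace CL5

variable {k : Type*} [Field k] [Fintype k]

theorem box_eq80 (N : ℕ) : box k N = Pool.Agent.MP_d0fd9b_nt.F92.box k N := by
  ext a
  unfold box Pool.Agent.MP_d0fd9b_nt.F92.box
  simp only [Finset.mem_image, Finset.mem_map, Finset.mem_univ, true_and,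
    Function.Embedding.coeFn_mk, Polynomial.ofFn_eq_sum_monomial]

theorem mon_eq80 (N : ℕ) : mon k N = Pool.Agent.MP_d0fd9b_nt.F92.Mon k N := by
  unfold mon Pool.Agent.MP_d0fd9b_nt.F92.Mon
  rw [box_eq80, Finset.map_eq_image]
  rfl

theorem mem_box {N : ℕ} {a : k[X]} : a ∈ box k N ↔ a.degree < N := by
  rw [box_eq80]
  exact Pool.Agent.MP_d0fd9b_nt.F92.mem_box

theorem card_box (N : ℕ) : ((box k N).card : ℝ) = qq k ^ N := by
  rw [box_eq80, Pool.Agent.MP_d0fd9b_nt.F92.card_box, qq]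
  push_cast
  rfl

theorem mem_mon {N : ℕ} {a : k[X]} : a ∈ mon k N ↔ a.Monic ∧ a.natDegree = N := by
  rw [mon_eq80]
  exact Pool.Agent.MP_d0fd9b_nt.F92.mem_Mon

theorem card_mon (N : ℕ) : ((mon k N).card : ℝ) = qq k ^ N := by
  rw [mon_eq80, Pool.Agent.MP_d0fd9b_nt.F92.card_Mon, qq]
  push_cast
  rfl

theorem mem_prs {Y : ℕ} {p : k[X]} :
    p ∈ prs k Y ↔ p.Monic ∧ Irreducible p ∧ p.natDegree ≤ Y := by
  unfold prs
  rw [Finset.mem_filter, box_eq80, Pool.Agent.MP_d0fd9b_nt.F92.mem_box']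
  constructor
  · rintro ⟨h | h, h1, h2⟩
    · exact absurd h h1.ne_zero
    · exact ⟨h1, h2, by omega⟩
  · rintro ⟨h1, h2, h3⟩
    exact ⟨Or.inr (by omega), h1, h2⟩

theorem two_le_qq : 2 ≤ qq k := by
  unfold qq
  exact_mod_cast Fintype.one_lt_card

theorem five_le_qq [CharP k 5] : 5 ≤ qq k := by
  obtain ⟨n, _, hn⟩ := FiniteField.card k 5
  unfold qq
  rw [hn]
  exact_mod_cast Nat.le_self_pow n.ne_zero 5

theorem sum_mon {M : Type*} [AddCommMonoid M] (N : ℕ) (F : k[X] → M) :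
    ∑ f ∈ mon k N, F f = ∑ a ∈ box k N, F (X ^ N + a) := by
  unfold mon
  rw [Finset.sum_image fun a _ b _ h => add_right_injective _ h]

/-- nonzero elements of a box: leading coefficient, degree, monic part -/
theorem sum_box_erase (N : ℕ) (F : k[X] → ℝ) :
    ∑ g ∈ (box k N).erase 0, F g =
      ∑ t ∈ range N, ∑ c ∈ (Finset.univ : Finset k).erase 0, ∑ a ∈ mon k t, F (C c * a) := by
  rw [Finset.sum_congr rfl fun t _ => (Finset.sum_product' _ _ _).symm, Finset.sum_sigma']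
  refine Finset.sum_nbij' (fun g => ⟨g.natDegree, g.leadingCoeff, g * C g.leadingCoeff⁻¹⟩)
    (fun x => C x.2.1 * x.2.2) ?_ ?_ ?_ ?_ ?_
  · intro g hg
    rw [Finset.mem_erase, mem_box] at hg
    simp only [Finset.mem_sigma, Finset.mem_range, Finset.mem_product, Finset.mem_erase,
      Finset.mem_univ, and_true, mem_mon]
    exact ⟨(Polynomial.natDegree_lt_iff_degree_lt hg.1).2 hg.2,
      Polynomial.leadingCoeff_ne_zero.2 hg.1, Polynomial.monic_mul_leadingCoeff_inv hg.1,
      Polynomial.natDegree_mul_leadingCoeff_inv g hg.1⟩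
  · rintro ⟨t, c, a⟩ hx
    simp only [Finset.mem_sigma, Finset.mem_range, Finset.mem_product, Finset.mem_erase,
      Finset.mem_univ, and_true, mem_mon] at hx
    obtain ⟨ht, hc, ha, hd⟩ := hx
    have h0 : C c * a ≠ 0 := mul_ne_zero (Polynomial.C_ne_zero.2 hc) ha.ne_zero
    rw [Finset.mem_erase, mem_box]
    refine ⟨h0, (Polynomial.natDegree_lt_iff_degree_lt h0).1 ?_⟩
    rw [Polynomial.natDegree_C_mul hc]
    omega
  · intro g hg
    rw [Finset.mem_erase] at hg
    have := Polynomial.leadingCoeff_ne_zero.2 hg.1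
    simp only
    rw [mul_left_comm, ← Polynomial.C_mul, mul_inv_cancel₀ this, Polynomial.C_1, mul_one]
  · rintro ⟨t, c, a⟩ hx
    simp only [Finset.mem_sigma, Finset.mem_range, Finset.mem_product, Finset.mem_erase,
      Finset.mem_univ, and_true, mem_mon] at hx
    obtain ⟨ht, hc, ha, hd⟩ := hx
    have h1 : (C c * a).leadingCoeff = c := by
      rw [Polynomial.leadingCoeff_mul, Polynomial.leadingCoeff_C, ha.leadingCoeff, mul_one]
    have h2 : (C c * a).natDegree = t := by rw [Polynomial.natDegree_C_mul hc, hd]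
    have h3 : C c * a * C c⁻¹ = a := by
      rw [mul_right_comm, ← Polynomial.C_mul, mul_inv_cancel₀ hc, Polynomial.C_1, one_mul]
    simp only [h1, h2, h3]
  · intro g hg
    rw [Finset.mem_erase] at hg
    have := Polynomial.leadingCoeff_ne_zero.2 hg.1
    simp only
    rw [mul_left_comm, ← Polynomial.C_mul, mul_inv_cancel₀ this, Polynomial.C_1, mul_one]

omit [Fintype k] in
theorem exists_monic80 {c : k[X]} (hc : c ≠ 0) :
    ∃ M : k[X], M.Monic ∧ M.natDegree = c.natDegree ∧ ∀ a, M ∣ a ↔ c ∣ a :=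
  ⟨normalize c, Polynomial.monic_normalize hc, by
    rw [Polynomial.natDegree_eq_of_degree_eq (Polynomial.degree_normalize (p := c))],
    fun _ => normalize_dvd_iff⟩

theorem sum_box_class80 {N : ℕ} {M : k[X]} (hM : M.Monic) (h : M.natDegree ≤ N) (b : k[X]) :
    ∑ a ∈ box k N, (if M ∣ a - b then (1 : ℝ) else 0) = qq k ^ (N - M.natDegree) := by
  have hP : Pool.Agent.MP_d0fd9b_nt.F92.Per M (fun a => if M ∣ a then (1 : ℝ) else 0) :=
    fun a b hab => by simp only [dvd_iff_dvd_of_dvd_sub hab]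
  have h1 := Pool.Agent.MP_d0fd9b_nt.F92.sum_box_shift hM h hP (-b)
  simp only [neg_add_eq_sub] at h1
  have h2 := Pool.Agent.MP_d0fd9b_nt.F92.mean_ite_dvd (R := ℝ) hM h 1 0
  rw [box_eq80, h1, Pool.Agent.MP_d0fd9b_nt.F92.sum_box_eq_mean]
  have h3 : (Fintype.card k : ℝ) ≠ 0 := Pool.Agent.MP_d0fd9b_nt.F92.card_ne_zero ℝ
  rw [h2, qq, pow_sub₀ _ h3 h]
  ring

theorem card_box_class {N : ℕ} {c : k[X]} (hc : c ≠ 0) (h : c.natDegree ≤ N) (b : k[X]) :
    (((box k N).filter (fun a => c ∣ a - b)).card : ℝ) = qq k ^ (N - c.natDegree) := by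
  obtain ⟨M, hM, hd, hdv⟩ := exists_monic80 hc
  rw [← hd, ← sum_box_class80 hM (hd ▸ h) b, Finset.card_filter]
  push_cast
  simp only [hdv]

theorem card_mon_class {N : ℕ} {c : k[X]} (hc : c ≠ 0) (h : c.natDegree ≤ N) (b : k[X]) :
    (((mon k N).filter (fun a => c ∣ a - b)).card : ℝ) = qq k ^ (N - c.natDegree) := by
  obtain ⟨M, hM, hd, hdv⟩ := exists_monic80 hc
  rw [← hd, ← sum_box_class80 hM (hd ▸ h) (b - X ^ N), Finset.card_filter]
  push_cast
  rw [sum_mon]
  refine Finset.sum_congr rfl fun a _ => ?_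
  simp only [hdv, show X ^ N + a - b = a - (b - X ^ N) by ring]

/-- no degree condition: nonzero multiples -/
theorem card_box_dvd_le {N : ℕ} {c : k[X]} (hc : c ≠ 0) :
    ((((box k N).erase 0).filter (fun a => c ∣ a)).card : ℝ) ≤ qq k ^ N / nrm c := by
  have hq : 0 < qq k := by linarith [two_le_qq (k := k)]
  by_cases h : c.natDegree ≤ N
  · have h1 := card_box_class hc h 0
    simp only [sub_zero] at h1
    rw [nrm, ← pow_sub₀ _ hq.ne' h |>.trans (div_eq_mul_inv _ _).symm, ← h1]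
    exact_mod_cast Finset.card_le_card (Finset.filter_subset_filter _ (Finset.erase_subset _ _))
  · have : ((box k N).erase 0).filter (fun a => c ∣ a) = ∅ := by
      refine Finset.filter_eq_empty_iff.2 fun a ha hd => ?_
      rw [Finset.mem_erase, mem_box] at ha
      have h1 := Polynomial.natDegree_le_of_dvd hd ha.1
      have h2 := (Polynomial.natDegree_lt_iff_degree_lt ha.1).2 ha.2
      omega
    rw [this, Finset.card_empty, nrm, Nat.cast_zero]
    positivity

theorem card_mon_dvd_le {N : ℕ} {c : k[X]} (hc : c ≠ 0) :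
    (((mon k N).filter (fun a => c ∣ a)).card : ℝ) ≤ qq k ^ N / nrm c := by
  have hq : 0 < qq k := by linarith [two_le_qq (k := k)]
  by_cases h : c.natDegree ≤ N
  · have h1 := card_mon_class hc h 0
    simp only [sub_zero] at h1
    rw [nrm, ← pow_sub₀ _ hq.ne' h |>.trans (div_eq_mul_inv _ _).symm, ← h1]
  · have : (mon k N).filter (fun a => c ∣ a) = ∅ := by
      refine Finset.filter_eq_empty_iff.2 fun a ha hd => ?_
      rw [mem_mon] at ha
      have h1 := Polynomial.natDegree_le_of_dvd hd ha.1.ne_zero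
      omega
    rw [this, Finset.card_empty, nrm, Nat.cast_zero]
    positivity

/-- `f = d ^ 2 * f₁` -/
theorem sum_mon_sq_dvd {M : Type*} [AddCommMonoid M] {d : k[X]} (hd : d.Monic) {n : ℕ}
    (h : 2 * d.natDegree ≤ n) (F : k[X] → M) :
    ∑ f ∈ (mon k n).filter (fun f => d ^ 2 ∣ f), F f =
      ∑ f ∈ mon k (n - 2 * d.natDegree), F (d ^ 2 * f) := by
  symm
  have hd2 : (d ^ 2).Monic := hd.pow 2
  refine Finset.sum_bij (fun f _ => d ^ 2 * f) ?_ ?_ ?_ fun _ _ => rfl
  · intro f hf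
    rw [mem_mon] at hf
    rw [Finset.mem_filter, mem_mon]
    refine ⟨⟨hd2.mul hf.1, ?_⟩, dvd_mul_right _ _⟩
    rw [hd2.natDegree_mul hf.1, hd.natDegree_pow]
    omega
  · intro a _ b _ hab
    exact mul_left_cancel₀ hd2.ne_zero hab
  · intro f hf
    rw [Finset.mem_filter, mem_mon] at hf
    obtain ⟨⟨h1, h2⟩, g, rfl⟩ := hf
    have hg : g.Monic := hd2.of_mul_monic_left h1
    refine ⟨g, mem_mon.2 ⟨hg, ?_⟩, rfl⟩
    rw [hd2.natDegree_mul hg, hd.natDegree_pow] at h2
    omega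

theorem ind_box {ι : Type*} (s : Finset ι) (M : ι → k[X]) (hM : ∀ i ∈ s, M i ≠ 0)
    (hcop : (s : Set ι).Pairwise (fun i j => IsCoprime (M i) (M j))) (F : ι → k[X] → ℝ)
    (hF : ∀ i ∈ s, ∀ a b, M i ∣ a - b → F i a = F i b) {N : ℕ}
    (hN : ∑ i ∈ s, (M i).natDegree ≤ N) :
    (∑ a ∈ box k N, ∏ i ∈ s, F i a) / qq k ^ N =
      ∏ i ∈ s, (∑ a ∈ box k N, F i a) / qq k ^ N := by
  choose! M' hm hd hdv using fun i (hi : i ∈ s) => exists_monic80 (hM i hi)
  have h := Pool.Agent.MP_d0fd9b_nt.F92.mean_prod (R := ℝ) s M' F hm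
    (fun i hi j hj hij => (hcop hi hj hij).mono ((hdv i hi _).2 dvd_rfl) ((hdv j hj _).2 dvd_rfl))
    (fun i hi a b hab => hF i hi a b ((hdv i hi _).1 hab)) (N := N)
    (by rwa [Finset.sum_congr rfl hd])
  rw [box_eq80]
  exact h

theorem ind_mon {ι : Type*} (s : Finset ι) (M : ι → k[X]) (hM : ∀ i ∈ s, M i ≠ 0)
    (hcop : (s : Set ι).Pairwise (fun i j => IsCoprime (M i) (M j))) (F : ι → k[X] → ℝ)
    (hF : ∀ i ∈ s, ∀ a b, M i ∣ a - b → F i a = F i b) {N : ℕ}
    (hN : ∑ i ∈ s, (M i).natDegree ≤ N) :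
    (∑ a ∈ mon k N, ∏ i ∈ s, F i a) / qq k ^ N =
      ∏ i ∈ s, (∑ a ∈ mon k N, F i a) / qq k ^ N := by
  have h := ind_box s M hM hcop (fun i a => F i (X ^ N + a))
    (fun i hi a b hab => hF i hi _ _ (by rwa [add_sub_add_left_eq_sub])) hN
  simp only [sum_mon]
  exact h

/-- solutions of `r H ≡ small mod X ^ m` -/
theorem card_small_le (m y : ℕ) {r : k[X]} (hr : r ≠ 0) (hy : r.natDegree ≤ y) :
    (((box k m).filter (fun H => ((r * H) %ₘ X ^ m).natDegree ≤ y)).card : ℝ) ≤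
      qq k ^ (y + 1) := by
  obtain ⟨r', hr', hnd⟩ := Polynomial.exists_eq_pow_rootMultiplicity_mul_and_not_dvd r hr 0
  rw [Polynomial.C_0, sub_zero] at hr' hnd
  generalize Polynomial.rootMultiplicity 0 r = j at hr'
  have hjy : j ≤ y := by
    have := Polynomial.natDegree_le_of_dvd (⟨r', hr'⟩ : X ^ j ∣ r) hr
    rw [Polynomial.natDegree_X_pow] at this
    omega
  have hq : 1 ≤ qq k := by linarith [two_le_qq (k := k)]
  by_cases hjm : m ≤ j
  · refine le_trans ?_ (pow_le_pow_right₀ hq (show m ≤ y + 1 by omega))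
    rw [← card_box]
    exact_mod_cast Finset.card_le_card (Finset.filter_subset _ _)
  rw [← card_box]
  norm_cast
  obtain ⟨i, rfl⟩ : ∃ i, m = j + i := ⟨m - j, by omega⟩
  have hXi : (X ^ i : k[X]).Monic := Polynomial.monic_X_pow i
  have hdiv : ∀ H ∈ box k (j + i), (H /ₘ X ^ i).degree < j := by
    intro H hH
    by_cases h0 : H /ₘ X ^ i = 0
    · rw [h0, Polynomial.degree_zero]
      exact WithBot.bot_lt_coe _
    have hH0 : H ≠ 0 := by
      rintro rfl
      exact h0 (Polynomial.zero_divByMonic _)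
    have h1 : ¬ H.degree < (X ^ i : k[X]).degree := fun h =>
      h0 ((Polynomial.divByMonic_eq_zero_iff hXi).2 h)
    have h2 := Polynomial.natDegree_le_natDegree (not_lt.1 h1)
    have h3 := (Polynomial.natDegree_lt_iff_degree_lt hH0).2 (mem_box.1 hH)
    refine (Polynomial.natDegree_lt_iff_degree_lt h0).1 ?_
    rw [Polynomial.natDegree_divByMonic H hXi]
    rw [Polynomial.natDegree_X_pow] at h2 ⊢
    omega
  refine Finset.card_le_card_of_injOn (fun H => (r * H) %ₘ X ^ (j + i) + H /ₘ X ^ i) ?_ ?_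
  · intro H hH
    rw [Finset.mem_coe, Finset.mem_filter] at hH
    rw [Finset.mem_coe, mem_box]
    refine (Polynomial.degree_add_le _ _).trans_lt (max_lt ?_ ?_)
    · exact Polynomial.degree_le_natDegree.trans_lt (by exact_mod_cast Nat.lt_succ_of_le hH.2)
    · exact (hdiv H hH.1).trans_le (by exact_mod_cast Nat.le_succ_of_le hjy)
  · intro H hH H' hH' h
    rw [Finset.mem_coe, Finset.mem_filter] at hH hH'
    simp only at h
    have e1 := Polynomial.modByMonic_add_div (r * H) (X ^ (j + i))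
    have e2 := Polynomial.modByMonic_add_div (r * H') (X ^ (j + i))
    have d1 : X ^ j ∣ H /ₘ X ^ i - H' /ₘ X ^ i :=
      ⟨r' * (H' - H) + X ^ i * ((r * H) /ₘ X ^ (j + i) - (r * H') /ₘ X ^ (j + i)), by
        linear_combination h - e1 + e2 + (H' - H) * hr'⟩
    have z1 : H /ₘ X ^ i - H' /ₘ X ^ i = 0 := by
      refine Polynomial.eq_zero_of_dvd_of_degree_lt d1 ?_
      rw [Polynomial.degree_X_pow]
      exact (Polynomial.degree_sub_le _ _).trans_lt (max_lt (hdiv H hH.1) (hdiv H' hH'.1))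
    have d2 : X ^ i ∣ r' * (H - H') := by
      refine ⟨(r * H) /ₘ X ^ (j + i) - (r * H') /ₘ X ^ (j + i), ?_⟩
      refine mul_left_cancel₀ (pow_ne_zero j Polynomial.X_ne_zero) ?_
      linear_combination h - e1 + e2 - z1 - (H - H') * hr'
    have hcop : IsCoprime (X ^ i : k[X]) r' :=
      ((Polynomial.irreducible_X.coprime_iff_not_dvd).2 hnd).pow_left
    have d3 : X ^ i ∣ H - H' := hcop.dvd_of_dvd_mul_left d2
    have e3 := Polynomial.modByMonic_add_div H (X ^ i)
    have e4 := Polynomial.modByMonic_add_div H' (X ^ i)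
    have e5 : H - H' = H %ₘ X ^ i - H' %ₘ X ^ i := by
      linear_combination e4 - e3 + X ^ i * z1
    refine sub_eq_zero.1 (Polynomial.eq_zero_of_dvd_of_degree_lt d3 ?_)
    rw [e5]
    exact (Polynomial.degree_sub_le _ _).trans_lt
      (max_lt (Polynomial.degree_modByMonic_lt _ hXi) (Polynomial.degree_modByMonic_lt _ hXi))

theorem card_Maj_le (m Y : ℕ) : ((Maj k m Y).card : ℝ) ≤ qq k ^ (2 * Y + 2) := by
  have h1 : Maj k m Y ⊆ ((box k (Y + 1)).erase 0).biUnion fun r =>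
      (box k m).filter (fun H => ((r * H) %ₘ X ^ m).natDegree ≤ Y) := by
    intro H hH
    unfold Maj at hH
    rw [Finset.mem_filter] at hH
    obtain ⟨hH, r, h0, h1, h2⟩ := hH
    refine Finset.mem_biUnion.2 ⟨r, Finset.mem_erase.2 ⟨h0, mem_box.2 ?_⟩,
      Finset.mem_filter.2 ⟨hH, h2⟩⟩
    exact (Polynomial.natDegree_lt_iff_degree_lt h0).1 (by omega)
  have h2 : ((Maj k m Y).card : ℝ) ≤ ∑ r ∈ (box k (Y + 1)).erase 0,
      (((box k m).filter (fun H => ((r * H) %ₘ X ^ m).natDegree ≤ Y)).card : ℝ) := by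
    exact_mod_cast (Finset.card_le_card h1).trans Finset.card_biUnion_le
  have hq : 0 < qq k := by linarith [two_le_qq (k := k)]
  calc ((Maj k m Y).card : ℝ) ≤ _ := h2
    _ ≤ ∑ _r ∈ (box k (Y + 1)).erase 0, qq k ^ (Y + 1) := Finset.sum_le_sum fun r hr => by
        rw [Finset.mem_erase, mem_box] at hr
        exact card_small_le m Y hr.1
          (Nat.lt_succ_iff.1 ((Polynomial.natDegree_lt_iff_degree_lt hr.1).2 hr.2))
    _ ≤ ∑ _r ∈ box k (Y + 1), qq k ^ (Y + 1) :=
        Finset.sum_le_sum_of_subset_of_nonneg (Finset.erase_subset _ _) fun _ _ _ => by positivity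
    _ = _ := by
        rw [Finset.sum_const, nsmul_eq_mul, card_box, ← pow_add]
        congr 1
        ring

end CL5
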