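import Pool.Agent.H92F.Box

/-! h92f: the Cartier operator and the sets Sol (row CAR). -/

set_option autoImplicit false
set_option linter.unusedSectionVars false
open Polynomial Finset UniqueFactorizationMonoid EuclideanDomain Filter Topology
open scoped Classical

noncomputable section
namespace CL5

variable {k : Type*} [Field k] [Fintype k]

variable [CharP k 5]

theorem car_coeff_eq (w : k[X]) (j : ℕ) :
    (car w).coeff j = (frobeniusEquiv k 5).symm (w.coeff (5 * j + 4)) := by
  unfold car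
  rw [finsetSum_coeff]
  simp only [coeff_monomial]
  rw [Finset.sum_ite_eq']
  split_ifs with h
  · rfl
  · rw [Finset.mem_range, not_lt] at h
    rw [coeff_eq_zero_of_natDegree_lt (by omega)]
    simp

theorem car_add (a b : k[X]) : car (a + b) = car a + car b := by
  ext j; simp [car_coeff_eq]

theorem car_sub (a b : k[X]) : car (a - b) = car a - car b := by
  ext j; simp [car_coeff_eq]

theorem car_zero : car (0 : k[X]) = 0 := by
  ext j; simp [car_coeff_eq]

theorem coeff_car (w : k[X]) (j : ℕ) : (car w).coeff j ^ 5 = w.coeff (5 * j + 4) := by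
  rw [car_coeff_eq]
  exact (frobeniusEquiv k 5).apply_symm_apply _

theorem car_five_inj {a b : k} (h : a ^ 5 = b ^ 5) : a = b :=
  (frobeniusEquiv k 5).injective h

theorem car_five_inj' {a b : k[X]} (h : a ^ 5 = b ^ 5) : a = b := by
  have : (a - b) ^ 5 = 0 := by rw [sub_pow_char, h, sub_self]
  exact sub_eq_zero.mp (pow_eq_zero_iff (by norm_num) |>.mp this)

theorem car_coeff_pow_five (a : k[X]) (n : ℕ) :
    (a ^ 5).coeff n = if 5 ∣ n then a.coeff (n / 5) ^ 5 else 0 := by
  rw [← map_frobenius_expand 5 a, coeff_map, coeff_expand (by norm_num)]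
  split_ifs
  · rfl
  · simp

theorem car_pow_five (w : k[X]) : car w ^ 5 = - derivative^[4] w := by
  ext n
  rw [car_coeff_pow_five, coeff_neg, coeff_iterate_derivative]
  have h5 : ((5 : ℕ) : k) = 0 := CharP.cast_eq_zero k 5
  have hd : (n + 4).descFactorial 4 = (n + 1) * (n + 2) * (n + 3) * (n + 4) := by
    simp [Nat.descFactorial_succ]; ring_nf
  rw [hd, nsmul_eq_mul]
  split_ifs with h
  · obtain ⟨j, rfl⟩ := h
    rw [Nat.mul_div_cancel_left _ (by norm_num), coeff_car]
    have : (((5 * j + 1) * (5 * j + 2) * (5 * j + 3) * (5 * j + 4) : ℕ) : k) = -1 := by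
      have h5' : (5 : k) = 0 := by exact_mod_cast h5
      push_cast
      rw [h5']
      linear_combination (5 : k) * h5'
    rw [this]; ring
  · have : 5 ∣ (n + 1) * (n + 2) * (n + 3) * (n + 4) := by
      have : n % 5 = 1 ∨ n % 5 = 2 ∨ n % 5 = 3 ∨ n % 5 = 4 := by omega
      rcases this with h | h | h | h
      · exact Dvd.dvd.mul_left (by omega) _
      · exact (Dvd.dvd.mul_left (by omega) _).mul_right _
      · exact ((Dvd.dvd.mul_left (by omega) _).mul_right _).mul_right _
      · exact (((show 5 ∣ n + 1 by omega).mul_right _).mul_right _).mul_right _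
    rw [(CharP.cast_eq_zero_iff k 5 _).mpr this]; simp

theorem car_der_pow_mul (a w : k[X]) : derivative (a ^ 5 * w) = a ^ 5 * derivative w := by
  have h5 : ((5 : ℕ) : k) = 0 := CharP.cast_eq_zero k 5
  rw [derivative_mul, derivative_pow, h5]; simp

theorem car_pow_mul (a w : k[X]) : car (a ^ 5 * w) = a * car w := by
  apply car_five_inj'
  rw [mul_pow, car_pow_five, car_pow_five]
  simp only [Function.iterate_succ, Function.comp, Function.iterate_zero, id, car_der_pow_mul]
  ring

theorem exists_car_decomp (w : k[X]) : ∃ w0 w1 w2 w3 : k[X],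
    w = w0 ^ 5 + X * w1 ^ 5 + X ^ 2 * w2 ^ 5 + X ^ 3 * w3 ^ 5 + X ^ 4 * car w ^ 5 := by
  refine ⟨car (X ^ 4 * w), car (X ^ 3 * w), car (X ^ 2 * w), car (X ^ 1 * w), ?_⟩
  have key : ∀ i n : ℕ, i ≤ 4 → (X ^ i * car (X ^ (4 - i) * w) ^ 5).coeff n =
      if n % 5 = i then w.coeff n else 0 := by
    intro i n hi
    rw [coeff_X_pow_mul', car_coeff_pow_five, coeff_car, coeff_X_pow_mul']
    by_cases h : n % 5 = i
    · rw [if_pos (by omega), if_pos (by omega), if_pos (by omega), if_pos h]
      congr 1; omega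
    · rw [if_neg h]
      split_ifs with h1 h2
      · exfalso; omega
      · rfl
      · rfl
      · rfl
  ext n
  have k0 := key 0 n (by norm_num)
  have k1 := key 1 n (by norm_num)
  have k2 := key 2 n (by norm_num)
  have k3 := key 3 n (by norm_num)
  have k4 := key 4 n (by norm_num)
  simp only [pow_zero, one_mul, Nat.sub_zero, Nat.sub_self, pow_one, Nat.reduceSub] at k0 k1 k2 k3 k4
  simp only [coeff_add, pow_one, k0, k1, k2, k3, k4]
  have : n % 5 = 0 ∨ n % 5 = 1 ∨ n % 5 = 2 ∨ n % 5 = 3 ∨ n % 5 = 4 := by omega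
  rcases this with h | h | h | h | h <;> simp [h]

theorem degree_car_lt {w : k[X]} {N : ℕ} (h : w.degree < (5 * N + 4 : ℕ)) :
    (car w).degree < N := by
  rw [degree_lt_iff_coeff_zero] at h ⊢
  intro m hm
  rw [car_coeff_eq, h _ (by omega)]
  simp

/-- (C*) -/
theorem car_star (p w : k[X]) : p ∣ car (p ^ 4 * w) ^ 5 - derivative p ^ 4 * w := by
  have h5 : (5 : k[X]) = 0 := by exact_mod_cast CharP.cast_eq_zero k[X] 5
  rw [car_pow_five]
  have step : ∀ (j : ℕ) (c u v : k[X]), ∃ v' : k[X],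
      derivative (p ^ (j + 1) * u + p ^ (j + 2) * v) =
        p ^ j * (((j + 1 : ℕ) : k[X]) * derivative p * u) + p ^ (j + 1) * v' := by
    intro j _ u v
    refine ⟨derivative u + ((j + 2 : ℕ) : k[X]) * derivative p * v + p * derivative v, ?_⟩
    simp only [derivative_add, derivative_mul, derivative_pow, map_natCast, Nat.add_sub_cancel,
      show j + 2 - 1 = j + 1 by omega]
    ring
  obtain ⟨v1, e1⟩ := step 3 0 w 0
  obtain ⟨v2, e2⟩ := step 2 0 (((3 + 1 : ℕ) : k[X]) * derivative p * w) v1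
  obtain ⟨v3, e3⟩ := step 1 0 (((2 + 1 : ℕ) : k[X]) * derivative p *
    (((3 + 1 : ℕ) : k[X]) * derivative p * w)) v2
  obtain ⟨v4, e4⟩ := step 0 0 (((1 + 1 : ℕ) : k[X]) * derivative p * (((2 + 1 : ℕ) : k[X]) *
    derivative p * (((3 + 1 : ℕ) : k[X]) * derivative p * w))) v3
  rw [mul_zero, add_zero] at e1
  simp only [Function.iterate_succ, Function.comp, Function.iterate_zero, id]
  rw [show p ^ 4 = p ^ (3 + 1) from rfl, e1, e2, e3, e4]
  refine ⟨-v4, ?_⟩
  push_cast
  linear_combination (-5 * derivative p ^ 4 * w) * h5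

theorem mem_Sol {f : k[X]} (hf : f.Monic) {g : k[X]} : g ∈ Sol f ↔ car (g * f ^ 2) = g := by
  unfold Sol
  rw [Finset.mem_filter, mem_box]
  refine ⟨fun h => h.2, fun h => ⟨?_, h⟩⟩
  by_cases hg : g = 0
  · rw [hg]; simp
  rw [← natDegree_lt_iff_degree_lt hg]
  by_contra hcon
  have h1 : (g * f ^ 2).degree < (5 * g.natDegree + 4 : ℕ) := by
    rw [← natDegree_lt_iff_degree_lt (mul_ne_zero hg (pow_ne_zero _ hf.ne_zero)),
      natDegree_mul hg (pow_ne_zero _ hf.ne_zero), natDegree_pow]
    omega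
  have h2 := degree_car_lt h1
  rw [h, degree_eq_natDegree hg] at h2
  exact lt_irrefl _ h2

theorem mem_Sol' {f : k[X]} (hf : f.Monic) {g : k[X]} :
    g ∈ Sol f ↔ derivative^[4] (g * f ^ 2) + g ^ 5 = 0 := by
  rw [mem_Sol hf]
  constructor
  · intro h
    have := car_pow_five (g * f ^ 2)
    rw [h] at this
    rw [this]; ring
  · intro h
    apply car_five_inj'
    rw [car_pow_five]
    linear_combination -h

theorem degree_car_sol {f g : k[X]} (hg : g ∈ box k (f.natDegree / 2)) :
    car (g * f ^ 2) ∈ box k (f.natDegree / 2) := by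
  rw [mem_box] at hg ⊢
  apply degree_car_lt
  by_cases h0 : g * f ^ 2 = 0
  · rw [h0, degree_zero]; exact WithBot.bot_lt_coe _
  have hg0 : g ≠ 0 := left_ne_zero_of_mul h0
  rw [← natDegree_lt_iff_degree_lt hg0] at hg
  rw [← natDegree_lt_iff_degree_lt h0]
  have := natDegree_mul_le (p := g) (q := f ^ 2)
  rw [natDegree_pow] at this
  omega

/-- (S5) -/
theorem card_Sol_sq_le {p f : k[X]} (hp : p.Monic) (hi : Irreducible p) (hf : f.Monic) :
    (Sol (p ^ 2 * f)).card ≤ 5 * (Sol f).card := by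
  have hpf : (p ^ 2 * f).Monic := (hp.pow 2).mul hf
  have : Fact (Irreducible p) := ⟨hi⟩
  set c : AdjoinRoot p := AdjoinRoot.mk p (derivative p ^ 4 * f ^ 2) with hc
  set Q : (AdjoinRoot p)[X] := X ^ 5 - C c * X with hQ
  have hQd : Q.natDegree = 5 := by rw [hQ]; compute_degree!
  have hQ0 : Q ≠ 0 := by intro h; rw [h] at hQd; simp at hQd
  have him : ((Sol (p ^ 2 * f)).image (AdjoinRoot.mk p)).card ≤ 5 := by
    refine le_trans (Finset.card_le_card (t := Q.roots.toFinset) ?_) ?_
    · intro z hz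
      obtain ⟨g, hg, rfl⟩ := Finset.mem_image.mp hz
      rw [mem_Sol hpf] at hg
      rw [Multiset.mem_toFinset, mem_roots hQ0, IsRoot.def, hQ]
      have h1 := car_star p (g * f ^ 2)
      rw [show p ^ 4 * (g * f ^ 2) = g * (p ^ 2 * f) ^ 2 by ring, hg] at h1
      have h2 := AdjoinRoot.mk_eq_zero.mpr h1
      simp only [eval_sub, eval_pow, eval_X, eval_mul, eval_C, hc]
      simp only [map_sub, map_mul, map_pow] at h2 ⊢
      linear_combination h2
    · exact (Multiset.toFinset_card_le _).trans ((card_roots' Q).trans hQd.le)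
  have hfib : ∀ z ∈ (Sol (p ^ 2 * f)).image (AdjoinRoot.mk p),
      ((Sol (p ^ 2 * f)).filter (fun g => AdjoinRoot.mk p g = z)).card ≤ (Sol f).card := by
    intro z hz
    obtain ⟨g0, hg0, rfl⟩ := Finset.mem_image.mp hz
    have hsub : (Sol (p ^ 2 * f)).filter (fun g => AdjoinRoot.mk p g = AdjoinRoot.mk p g0) ⊆
        (Sol f).image (fun t => g0 + p * t) := by
      intro g hg
      obtain ⟨hg, hgg⟩ := Finset.mem_filter.mp hg
      obtain ⟨t, ht⟩ := AdjoinRoot.mk_eq_mk.mp hgg
      refine Finset.mem_image.mpr ⟨t, ?_, by linear_combination -ht⟩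
      rw [mem_Sol hpf] at hg hg0
      rw [mem_Sol hf]
      have e : car ((g - g0) * (p ^ 2 * f) ^ 2) = g - g0 := by rw [sub_mul, car_sub, hg, hg0]
      rw [ht, show p * t * (p ^ 2 * f) ^ 2 = p ^ 5 * (t * f ^ 2) by ring, car_pow_mul] at e
      exact mul_left_cancel₀ hp.ne_zero e
    exact (Finset.card_le_card hsub).trans Finset.card_image_le
  calc (Sol (p ^ 2 * f)).card
      ≤ (Sol f).card * ((Sol (p ^ 2 * f)).image (AdjoinRoot.mk p)).card :=
        Finset.card_le_mul_card_image _ _ hfib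
    _ ≤ 5 * (Sol f).card := by rw [mul_comm]; exact Nat.mul_le_mul_right _ him

end CL5
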