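import Pool.Agent.H92F.Car

/-! h92f: the characters psi and ee, large sieve (row CHR). -/

set_option autoImplicit false
open Polynomial Finset UniqueFactorizationMonoid EuclideanDomain Filter Topology
open scoped Classical

noncomputable section
namespace CL5

variable {k : Type*} [Field k] [Fintype k]

variable [CharP k 5]

/-- `psi` as an additive character -/
def psiA (k : Type*) [Field k] [Fintype k] [CharP k 5] : AddChar k ℂ :=
  letI : Algebra (ZMod 5) k := ZMod.algebra k 5
  (ZMod.stdAddChar (N := 5)).compAddMonoidHom (Algebra.trace (ZMod 5) k).toAddMonoidHom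

theorem psiA_apply (a : k) : psiA k a = psi a := rfl

theorem psi_add (a b : k) : psi (a + b) = psi a * psi b := by
  simp only [← psiA_apply]; exact AddChar.map_add_eq_mul _ _ _

theorem psi_zero : psi (0 : k) = 1 := by
  rw [← psiA_apply]; exact AddChar.map_zero_eq_one _

theorem norm_psi (a : k) : ‖psi a‖ = 1 := by
  rw [← psiA_apply]; exact AddChar.norm_apply _ _

theorem psi_neg (a : k) : psi (-a) = (starRingEnd ℂ) (psi a) := by
  simp only [← psiA_apply]; exact AddChar.map_neg_eq_conj _ _

theorem psi_pow (a : k) : psi (a ^ 5) = psi a := by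
  letI : Algebra (ZMod 5) k := ZMod.algebra k 5
  have h := Algebra.trace_eq_of_algEquiv
    (FiniteField.frobeniusAlgEquivOfAlgebraic (ZMod 5) k) a
  have h2 : (FiniteField.frobeniusAlgEquivOfAlgebraic (ZMod 5) k) a = a ^ 5 := by
    simp [ZMod.card]
  rw [h2] at h
  unfold psi
  simp only [h]

theorem psiA_ne_one : psiA k ≠ 1 := by
  letI : Algebra (ZMod 5) k := ZMod.algebra k 5
  intro h
  have hs := Algebra.trace_surjective (ZMod 5) k
  obtain ⟨b, hb⟩ := hs 1
  have h1 : psiA k b = 1 := by rw [h]; rfl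
  have h2 : psiA k b = ZMod.stdAddChar (N := 5) 1 := by
    rw [psiA_apply]; unfold psi; simp only [hb]
  have h3 : ZMod.stdAddChar (N := 5) 1 = ZMod.stdAddChar (N := 5) 0 := by
    rw [← h2, h1, AddChar.map_zero_eq_one]
  exact one_ne_zero (ZMod.injective_stdAddChar h3)

theorem sum_psi_mul {a : k} (ha : a ≠ 0) : ∑ c : k, psi (a * c) = 0 := by
  have h := AddChar.sum_eq_zero_of_ne_one (psiA_ne_one (k := k))
  rw [← h]
  exact Fintype.sum_bijective (fun c => a * c) (mulLeft_bijective₀ a ha) _ _ (fun _ => rfl)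

theorem norm_ee (a M : k[X]) : ‖ee a M‖ = 1 := norm_psi _

theorem ee_add (a b M : k[X]) : ee (a + b) M = ee a M * ee b M := by
  unfold ee; rw [add_modByMonic, coeff_add, psi_add]

theorem ee_neg (a M : k[X]) : ee (-a) M = (starRingEnd ℂ) (ee a M) := by
  unfold ee; rw [neg_modByMonic, coeff_neg, psi_neg]

theorem ee_zero (M : k[X]) : ee 0 M = 1 := by
  unfold ee; rw [zero_modByMonic, coeff_zero, psi_zero]

theorem ee_congr {a b M : k[X]} (hM : M.Monic) (h : M ∣ a - b) : ee a M = ee b M := by
  unfold ee; rw [modByMonic_eq_of_dvd_sub hM h]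

theorem ee_of_degree_lt {a M : k[X]} (hM : M.Monic) (h : a.degree + 1 < M.natDegree) :
    ee a M = 1 := by
  by_cases ha : a = 0
  · rw [ha, ee_zero]
  rw [degree_eq_natDegree ha] at h
  have h' : a.natDegree + 1 < M.natDegree := by exact_mod_cast h
  unfold ee
  rw [(modByMonic_eq_self_iff hM).2 (degree_lt_degree (by omega)),
    coeff_eq_zero_of_natDegree_lt (by omega), psi_zero]

theorem ee_mul_right {a M M' : k[X]} (hM : M.Monic) (hM' : M'.Monic) (h : 1 ≤ M.natDegree) :
    ee (a * M') (M * M') = ee a M := by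
  have hMM := hM.mul hM'
  have hlt := degree_modByMonic_lt a hM
  have h1 : (a * M') %ₘ (M * M') = (a %ₘ M) * M' := by
    refine (div_modByMonic_unique (a /ₘ M) _ hMM ⟨?_, ?_⟩).2
    · have := modByMonic_add_div a M
      linear_combination M' * this
    · rw [degree_mul, degree_mul]
      exact WithBot.add_lt_add_right (degree_ne_bot.2 hM'.ne_zero) hlt
  unfold ee
  rw [h1, hM.natDegree_mul hM']
  congr 1
  have hle : (a %ₘ M).natDegree ≤ M.natDegree - 1 := by
    by_cases h0 : a %ₘ M = 0
    · rw [h0]; simp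
    · have := natDegree_lt_natDegree h0 hlt
      omega
  have e : M.natDegree + M'.natDegree - 1 = (M.natDegree - 1) + M'.natDegree := by omega
  rw [e, coeff_mul_add_eq_of_natDegree_le hle le_rfl, hM'.coeff_natDegree, mul_one]

/-- (e2) -/
theorem sum_ee_box {M : k[X]} (hM : M.Monic) {N : ℕ} (hN : N ≤ M.natDegree) (a : k[X]) :
    ∑ v ∈ box k N, ee (a * v) M =
      if (a %ₘ M).degree < (M.natDegree - N : ℕ) then ((qq k ^ N : ℝ) : ℂ) else 0 := by
  have hb : ∀ v, ee (a * v) M = ee ((a %ₘ M) * v) M := fun v =>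
    ee_congr hM ⟨(a /ₘ M) * v, by
      have := modByMonic_add_div a M
      linear_combination (-v) * this⟩
  simp only [hb]
  have hlt := degree_modByMonic_lt a hM
  generalize a %ₘ M = b at hlt ⊢
  split_ifs with hc
  · rw [Finset.sum_congr rfl (g := fun _ => (1 : ℂ))]
    · rw [Finset.sum_const, nsmul_eq_mul, mul_one, ← card_box (k := k) N]; simp
    · intro v hv
      rw [mem_box] at hv
      by_cases hb0 : b = 0
      · rw [hb0, zero_mul, ee_zero]
      by_cases hv0 : v = 0
      · rw [hv0, mul_zero, ee_zero]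
      apply ee_of_degree_lt hM
      have h1 := (natDegree_lt_iff_degree_lt hb0).2 hc
      have h2 := (natDegree_lt_iff_degree_lt hv0).2 hv
      rw [degree_eq_natDegree (mul_ne_zero hb0 hv0), natDegree_mul hb0 hv0]
      have : b.natDegree + v.natDegree + 1 < M.natDegree := by omega
      exact_mod_cast this
  · have hb0 : b ≠ 0 := by
      rintro rfl
      exact hc (by rw [degree_zero]; exact WithBot.bot_lt_coe _)
    have h1 : M.natDegree - N ≤ b.natDegree := by
      by_contra h
      exact hc ((natDegree_lt_iff_degree_lt hb0).1 (by omega))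
    have h2 := natDegree_lt_natDegree hb0 hlt
    obtain ⟨c, hc1⟩ : ∃ c : k, psi (b.leadingCoeff * c) ≠ 1 := by
      by_contra h
      push Not at h
      have := sum_psi_mul (leadingCoeff_ne_zero.2 hb0)
      simp only [h, Finset.sum_const, nsmul_eq_mul, mul_one, Finset.card_univ] at this
      exact Fintype.card_ne_zero (by exact_mod_cast this)
    set j := M.natDegree - 1 - b.natDegree with hj
    have hv0 : (monomial j c : k[X]).degree < N :=
      (degree_monomial_le j c).trans_lt (by exact_mod_cast (by omega : j < N))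
    have he : ee (b * monomial j c) M = psi (b.leadingCoeff * c) := by
      unfold ee
      have hd : (b * monomial j c).natDegree ≤ b.natDegree + j :=
        natDegree_mul_le.trans (by have := natDegree_monomial_le (m := j) c; omega)
      have hd' : (b * monomial j c).degree < M.degree := degree_lt_degree (by omega)
      rw [(modByMonic_eq_self_iff hM).2 hd']
      have e : M.natDegree - 1 = b.natDegree + j := by omega
      rw [e, coeff_mul_monomial, coeff_natDegree]
    have hs : ∑ v ∈ box k N, ee (b * v) M = ∑ v ∈ box k N, ee (b * (v + monomial j c)) M := by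
      symm
      refine Finset.sum_bij' (fun v _ => v + monomial j c) (fun v _ => v - monomial j c)
        ?_ ?_ ?_ ?_ ?_
      · intro v hv
        rw [mem_box] at hv ⊢
        exact (degree_add_le _ _).trans_lt (max_lt hv hv0)
      · intro v hv
        rw [mem_box] at hv ⊢
        exact (degree_sub_le _ _).trans_lt (max_lt hv hv0)
      · intro v _; simp
      · intro v _; simp
      · intro v _; rfl
    simp only [mul_add, ee_add, he, ← Finset.sum_mul] at hs
    have : (∑ v ∈ box k N, ee (b * v) M) * (1 - psi (b.leadingCoeff * c)) = 0 := by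
      linear_combination hs
    rcases mul_eq_zero.1 this with h | h
    · exact h
    · exact absurd (sub_eq_zero.1 h).symm hc1

/-- (e3) -/
theorem ee_pow_five {M : k[X]} (hM : M.Monic) (h : 1 ≤ M.natDegree) (a w : k[X]) :
    ee (a ^ 5 * w) (M ^ 5) = ee (a * car w) M := by
  have hM5 := hM.pow (n := 5)
  have hlt := degree_modByMonic_lt (a ^ 5 * w) hM5
  have hd := modByMonic_add_div (a ^ 5 * w) (M ^ 5)
  set t := (a ^ 5 * w) %ₘ (M ^ 5) with ht
  have h1 : car t + M * car ((a ^ 5 * w) /ₘ (M ^ 5)) = a * car w := by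
    rw [← car_pow_mul, ← car_add, hd, car_pow_mul]
  have hn : (M ^ 5).natDegree = 5 * M.natDegree := by rw [hM.natDegree_pow]
  have h2 : (car t).degree < M.degree := by
    rw [degree_eq_natDegree hM.ne_zero]
    apply degree_car_lt
    refine hlt.trans_le ?_
    rw [degree_eq_natDegree hM5.ne_zero, hn]
    exact_mod_cast Nat.le_add_right _ _
  have h3 : (a * car w) %ₘ M = car t := (div_modByMonic_unique _ _ hM ⟨h1, h2⟩).2
  unfold ee
  rw [h3, ← ht, ← psi_pow ((car t).coeff _), coeff_car, hn]
  congr 2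
  omega

theorem ee_approx {a b M M' : k[X]} (hM : M.Monic) (hM' : M'.Monic) (h : 1 ≤ M.natDegree)
    (h' : 1 ≤ M'.natDegree)
    (hd : (b * M - a * M').degree + 1 < (M.natDegree + M'.natDegree : ℕ)) :
    ee a M = ee b M' := by
  rw [← ee_mul_right (a := a) hM hM' h, ← ee_mul_right (a := b) hM' hM h', mul_comm M' M]
  have e : b * M = a * M' + (b * M - a * M') := by ring
  rw [e, ee_add, ee_of_degree_lt (a := b * M - a * M') (hM.mul hM')
    (by rw [hM.natDegree_mul hM']; exact hd), mul_one]

theorem degree_add_one_lt {a : k[X]} {n : ℕ} (h : a ≠ 0 → a.natDegree + 1 < n) :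
    a.degree + 1 < n := by
  by_cases ha : a = 0
  · rw [ha, degree_zero, WithBot.bot_add]; exact WithBot.bot_lt_coe _
  · rw [degree_eq_natDegree ha]; exact_mod_cast h ha

/-- (J7), first part -/
theorem ee_Hq {r : k[X]} (hr : r.Monic) (h : 1 ≤ r.natDegree) {m : ℕ} (hm : 1 ≤ m) (s : k[X])
    {g : k[X]} (hg : g.degree < m) : ee (Hq m (r, s) * g) (X ^ m) = ee (s * g) r := by
  have hX : ((X : k[X]) ^ m).natDegree = m := natDegree_X_pow m
  apply ee_approx (monic_X_pow m) hr (by omega) h
  have hd := modByMonic_add_div (s * X ^ m) r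
  have hlt := degree_modByMonic_lt (s * X ^ m) hr
  have e : s * g * X ^ m - Hq m (r, s) * g * r = ((s * X ^ m) %ₘ r) * g := by
    unfold Hq; linear_combination (-g) * hd
  rw [e, hX]
  apply degree_add_one_lt
  intro h0
  have h1 := natDegree_lt_natDegree (left_ne_zero_of_mul h0) hlt
  have h2 := (natDegree_lt_iff_degree_lt (right_ne_zero_of_mul h0)).2 hg
  have := natDegree_mul_le (p := (s * X ^ m) %ₘ r) (q := g)
  omega

/-- (J7), second part -/
theorem ee_Hq_five {r : k[X]} (hr : r.Monic) (h : 1 ≤ r.natDegree) {m : ℕ} (hm : 1 ≤ m) (s : k[X])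
    {z : k[X]} (hz : z.degree < (5 * m + 4 : ℕ)) :
    ee (Hq m (r, s) ^ 5 * z) (X ^ (5 * m)) = ee (s ^ 5 * z) (r ^ 5) := by
  have hX : ((X : k[X]) ^ (5 * m)).natDegree = 5 * m := natDegree_X_pow _
  have hn : (r ^ 5).natDegree = 5 * r.natDegree := by rw [hr.natDegree_pow]
  apply ee_approx (monic_X_pow _) (hr.pow (n := 5)) (by omega) (by omega)
  have hd := modByMonic_add_div (s * X ^ m) r
  have hlt := degree_modByMonic_lt (s * X ^ m) hr
  have h5 : ((s * X ^ m) %ₘ r) ^ 5 + (r * ((s * X ^ m) /ₘ r)) ^ 5 = (s * X ^ m) ^ 5 := by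
    rw [← add_pow_char, hd]
  have e : s ^ 5 * z * X ^ (5 * m) - Hq m (r, s) ^ 5 * z * r ^ 5 = ((s * X ^ m) %ₘ r) ^ 5 * z := by
    unfold Hq; linear_combination (-z) * h5
  rw [e, hX, hn]
  apply degree_add_one_lt
  intro h0
  have h00 : (s * X ^ m) %ₘ r ≠ 0 := fun h => left_ne_zero_of_mul h0 (by rw [h]; simp)
  have h1 := natDegree_lt_natDegree h00 hlt
  have h2 := (natDegree_lt_iff_degree_lt (right_ne_zero_of_mul h0)).2 hz
  have h3 := natDegree_mul_le (p := ((s * X ^ m) %ₘ r) ^ 5) (q := z)
  have h4 := natDegree_pow_le (p := (s * X ^ m) %ₘ r) (n := 5)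
  omega

end CL5
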