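import Mathlib

/-! h92f: definitions for the mean of the 5-torsion in characteristic 5. -/

set_option autoImplicit false
open Polynomial Finset UniqueFactorizationMonoid
open scoped Classical

noncomputable section
namespace CL5

instance fact5 : Fact (Nat.Prime 5) := ⟨by norm_num⟩

variable (k : Type*) [Field k] [Fintype k]

/-- the number of elements of `k`, as a real number -/
def qq : ℝ := (Fintype.card k : ℝ)

/-- polynomials of degree `< N` -/
def box (N : ℕ) : Finset k[X] :=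
  Finset.univ.image (fun c : Fin N → k => ∑ i : Fin N, monomial (i : ℕ) (c i))

/-- monic polynomials of degree `N` -/
def mon (N : ℕ) : Finset k[X] := (box k N).image (fun a => X ^ N + a)

/-- monic primes of degree `≤ Y` -/
def prs (Y : ℕ) : Finset k[X] := (box k (Y + 1)).filter (fun p => p.Monic ∧ Irreducible p)

/-- `∏ (1 - 1/|p|)` over the monic primes of degree `≤ Y` -/
def VV (Y : ℕ) : ℝ := ∏ p ∈ prs k Y, (1 - 1 / qq k ^ p.natDegree)

/-- an upper bound for `∑_{j > Y} q^{-j}` -/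
def eta0 (Y : ℕ) : ℝ := 1 / qq k ^ Y

/-- major arcs -/
def Maj (m Y : ℕ) : Finset k[X] :=
  (box k m).filter (fun H => ∃ r : k[X], r ≠ 0 ∧ r.natDegree ≤ Y ∧ ((r * H) %ₘ X ^ m).natDegree ≤ Y)

/-- rough monic polynomials of degree `ρ` -/
def Rg (Y ρ : ℕ) : Finset k[X] := (mon k ρ).filter (fun r => ∀ p ∈ prs k Y, ¬ p ∣ r)

/-- reduced fractions with monic denominator of degree `ρ` -/
def FrA (ρ : ℕ) : Finset (k[X] × k[X]) :=
  (mon k ρ ×ˢ box k ρ).filter (fun z => IsCoprime z.1 z.2)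

/-- reduced fractions with rough denominator of degree `ρ` -/
def Fr (Y ρ : ℕ) : Finset (k[X] × k[X]) :=
  (Rg k Y ρ ×ˢ box k ρ).filter (fun z => IsCoprime z.1 z.2)

variable {k}

/-- absolute value -/
def nrm (a : k[X]) : ℝ := qq k ^ a.natDegree

/-- first `m` digits of the fraction `z.2 / z.1` -/
def Hq (m : ℕ) (z : k[X] × k[X]) : k[X] := (z.2 * X ^ m) /ₘ z.1

/-- number of fractions with given digits and denominator prime to `g` (`g = 1`: all) -/
def ng (Y ρ m : ℕ) (g H : k[X]) : ℕ :=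
  ((Fr k Y ρ).filter (fun z => IsCoprime z.1 g ∧ Hq m z = H)).card

/-- `∑_{c ∣ g} |c|^(1/2) / |rad c|` -/
def L1 (g : k[X]) : ℝ :=
  ∑ c ∈ (box k (g.natDegree + 1)).filter (fun c => c.Monic ∧ c ∣ g),
    Real.sqrt (nrm c) / nrm (radical c)

/-- no square of a prime of degree `≤ Y` divides `f` -/
def Wsf (Y : ℕ) (f : k[X]) : Prop := ∀ p ∈ prs k Y, ¬ p ^ 2 ∣ f

/-- dual solutions on the major arcs -/
def NMaj (Y : ℕ) (f : k[X]) : ℕ :=
  ((Maj k (f.natDegree / 2) Y).filter (fun H =>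
    ((H ^ 5 * f ^ 2 - H * X ^ (4 * (f.natDegree / 2))) %ₘ X ^ (5 * (f.natDegree / 2))).degree <
      (4 * (f.natDegree / 2) : ℕ))).card

/-- size of the kernel of the Hankel form -/
def kap (d : k[X]) (n : ℕ) (g H : k[X]) : ℕ :=
  ((box k (n - 2 * d.natDegree)).filter (fun φ =>
    ((H ^ 5 * (g * d ^ 4) * φ) %ₘ X ^ (5 * (n / 2))).degree <
      (5 * (n / 2) - (n - 2 * d.natDegree) : ℕ))).card

/-- `5 ^ (unit rank)` -/
def uu (n : ℕ) : ℕ := if Even n then 5 else 1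

variable [CharP k 5]

/-- the Cartier operator -/
def car (w : k[X]) : k[X] :=
  ∑ j ∈ range (w.natDegree + 1), monomial j ((frobeniusEquiv k 5).symm (w.coeff (5 * j + 4)))

/-- the additive character `exp (2 π i Tr c / 5)` -/
def psi (c : k) : ℂ :=
  letI : Algebra (ZMod 5) k := ZMod.algebra k 5
  ZMod.stdAddChar (N := 5) (Algebra.trace (ZMod 5) k c)

/-- `ψ` of the residue of `a / M` at infinity -/
def ee (a M : k[X]) : ℂ := psi ((a %ₘ M).coeff (M.natDegree - 1))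

/-- logarithmic forms `g dx / y` on `y ^ 2 = f` -/
def Sol (f : k[X]) : Finset k[X] :=
  (box k (f.natDegree / 2)).filter (fun g => car (g * f ^ 2) = g)

/-- theta sum -/
def th (d : k[X]) (n : ℕ) (g H : k[X]) : ℂ :=
  ∑ f ∈ mon k (n - 2 * d.natDegree), ee (H ^ 5 * (g * d ^ 4) * f ^ 2) (X ^ (5 * (n / 2)))

/-- minor arc sum -/
def Ed (d : k[X]) (n Y : ℕ) : ℂ :=
  ∑ g ∈ (box k (n / 2)).erase 0, ∑ H ∈ box k (n / 2) \ Maj k (n / 2) Y,
    th d n g H * ee (-(H * g)) (X ^ (n / 2))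

/-- dual value -/
def Del (d g l : k[X]) : k[X] := car (d * g ^ 4 * l ^ 2)

/-- good `g` -/
def Good (d : k[X]) (lam : ℕ) (g : k[X]) : Prop :=
  g ≠ 0 ∧ ∀ u ∈ box k lam, ∀ v ∈ box k lam, u ≠ 0 → v ≠ 0 → car (d * g ^ 4 * (u * v)) ≠ 0

/-- sieved sum of `|Sol f|` -/
def SY (k : Type*) [Field k] [Fintype k] [CharP k 5] (Y n : ℕ) : ℝ :=
  ∑ f ∈ (mon k n).filter (Wsf Y), ((Sol f).card : ℝ)

end CL5
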