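import Pool.Agent.H92F.Chr

/-! h92f: the basic identity (row FRAME). -/

set_option autoImplicit false
open Polynomial Finset UniqueFactorizationMonoid EuclideanDomain Filter Topology
open scoped Classical

noncomputable section
namespace CL5

variable {k : Type*} [Field k] [Fintype k]

theorem frame_ie (Y : ℕ) (f : k[X]) :
    (if Wsf Y f then (1 : ℂ) else 0) =
      ∑ S ∈ (prs k Y).powerset, (-1) ^ S.card * (if (∏ p ∈ S, p) ^ 2 ∣ f then (1 : ℂ) else 0) := by
  have h1 : (if Wsf Y f then (1 : ℂ) else 0) =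
      ∏ p ∈ prs k Y, (1 + -(if p ^ 2 ∣ f then (1 : ℂ) else 0)) := by
    by_cases hW : Wsf Y f
    · rw [if_pos hW]
      symm
      refine Finset.prod_eq_one fun p hp => ?_
      rw [if_neg (hW p hp)]; simp
    · rw [if_neg hW]
      unfold Wsf at hW
      push Not at hW
      obtain ⟨p, hp, hd⟩ := hW
      symm
      refine Finset.prod_eq_zero hp ?_
      rw [if_pos hd]; simp
  rw [h1, Finset.prod_one_add]
  refine Finset.sum_congr rfl fun S hS => ?_
  rw [Finset.prod_neg]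
  congr 1
  have hS' : S ⊆ prs k Y := Finset.mem_powerset.1 hS
  by_cases hd : (∏ p ∈ S, p) ^ 2 ∣ f
  · rw [if_pos hd]
    refine Finset.prod_eq_one fun p hp => ?_
    rw [if_pos ((pow_dvd_pow_of_dvd (Finset.dvd_prod_of_mem (fun p => p) hp) 2).trans hd)]
  · rw [if_neg hd]
    by_contra hne
    apply hd
    rw [← Finset.prod_pow]
    refine Finset.prod_dvd_of_coprime ?_ ?_
    · intro a ha b hb hab
      obtain ⟨ham, hai, _⟩ := mem_prs.1 (hS' ha)
      obtain ⟨hbm, hbi, _⟩ := mem_prs.1 (hS' hb)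
      have hc : IsCoprime a b := by
        rw [hai.coprime_iff_not_dvd]
        intro hdv
        exact hab (eq_of_monic_of_associated ham hbm ((hai.dvd_irreducible_iff_associated hbi).1 hdv))
      exact hc.pow
    · intro p hp
      by_contra hp2
      exact hne (Finset.prod_eq_zero hp (if_neg hp2))

theorem frame_sieve (Y : ℕ) {n : ℕ} (hn : 2 * ∑ p ∈ prs k Y, p.natDegree ≤ n) (F : k[X] → ℂ) :
    ∑ f ∈ (mon k n).filter (Wsf Y), F f =
      ∑ S ∈ (prs k Y).powerset, (-1) ^ S.card *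
        ∑ f ∈ mon k (n - 2 * (∏ p ∈ S, p).natDegree), F ((∏ p ∈ S, p) ^ 2 * f) := by
  have h1 : ∑ f ∈ (mon k n).filter (Wsf Y), F f =
      ∑ f ∈ mon k n, (if Wsf Y f then (1 : ℂ) else 0) * F f := by
    rw [Finset.sum_filter]
    refine Finset.sum_congr rfl fun f _ => ?_
    split_ifs <;> simp
  rw [h1]
  simp_rw [frame_ie, Finset.sum_mul]
  rw [Finset.sum_comm]
  refine Finset.sum_congr rfl fun S hS => ?_
  have hS' : S ⊆ prs k Y := Finset.mem_powerset.1 hS
  have hmon : (∏ p ∈ S, p).Monic :=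
    monic_prod_of_monic _ _ fun p hp => (mem_prs.1 (hS' hp)).1
  have hdeg : 2 * (∏ p ∈ S, p).natDegree ≤ n := by
    have h2 : (∏ p ∈ S, p).natDegree ≤ ∑ p ∈ S, p.natDegree := natDegree_prod_le S (fun p => p)
    have h3 : ∑ p ∈ S, p.natDegree ≤ ∑ p ∈ prs k Y, p.natDegree :=
      Finset.sum_le_sum_of_subset hS'
    omega
  rw [← sum_mon_sq_dvd hmon hdeg F, Finset.sum_filter, Finset.mul_sum]
  refine Finset.sum_congr rfl fun f _ => ?_
  split_ifs <;> simp

variable [CharP k 5]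

theorem frame_ee_zero (M : k[X]) : ee 0 M = 1 := by
  simp [ee, psi_zero]

theorem frame_sol {m : ℕ} (hm : 1 ≤ m) {f : k[X]} (hf : f.natDegree / 2 = m) :
    ((qq k ^ m : ℝ) : ℂ) * ((Sol f).card : ℂ) =
      ∑ g ∈ box k m, ∑ H ∈ box k m,
        ee (H ^ 5 * (g * f ^ 2)) (X ^ (5 * m)) * ee (-(H * g)) (X ^ m) := by
  have hX : (X ^ m : k[X]).Monic := monic_X_pow m
  have hXd : (X ^ m : k[X]).natDegree = m := natDegree_X_pow m
  unfold Sol
  rw [hf, Finset.card_filter, Nat.cast_sum, Finset.mul_sum]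
  refine Finset.sum_congr rfl fun g hg => ?_
  have hc : car (g * f ^ 2) ∈ box k m := by
    have := degree_car_sol (f := f) (g := g) (by rw [hf]; exact hg)
    rwa [hf] at this
  have hdeg : (car (g * f ^ 2) - g).degree < (X ^ m : k[X]).degree := by
    rw [degree_X_pow]
    exact lt_of_le_of_lt (degree_sub_le _ _) (max_lt (mem_box.1 hc) (mem_box.1 hg))
  have h1 : ∀ H : k[X], ee (H ^ 5 * (g * f ^ 2)) (X ^ (5 * m)) * ee (-(H * g)) (X ^ m) =
      ee ((car (g * f ^ 2) - g) * H) (X ^ m) := by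
    intro H
    rw [mul_comm 5 m, pow_mul, ee_pow_five hX (by rw [hXd]; exact hm), ← ee_add]
    congr 1
    ring
  simp_rw [h1]
  rw [sum_ee_box hX (by rw [hXd]), (modByMonic_eq_self_iff hX).2 hdeg, hXd, Nat.sub_self]
  by_cases h : car (g * f ^ 2) = g
  · rw [if_pos h, if_pos (by rw [h, sub_self, degree_zero]; exact WithBot.bot_lt_coe _)]
    simp
  · rw [if_neg h, if_neg]
    · simp
    · rw [not_lt]
      exact zero_le_degree_iff.2 (sub_ne_zero.2 h)

theorem frame_maj {m : ℕ} (hm : 1 ≤ m) (f H : k[X]) :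
    ∑ g ∈ box k m, ee (H ^ 5 * (g * f ^ 2)) (X ^ (5 * m)) * ee (-(H * g)) (X ^ m) =
      if ((H ^ 5 * f ^ 2 - H * X ^ (4 * m)) %ₘ X ^ (5 * m)).degree < (4 * m : ℕ) then
        ((qq k ^ m : ℝ) : ℂ) else 0 := by
  have hX : (X ^ m : k[X]).Monic := monic_X_pow m
  have hXd : (X ^ m : k[X]).natDegree = m := natDegree_X_pow m
  have h1 : ∀ g : k[X], ee (H ^ 5 * (g * f ^ 2)) (X ^ (5 * m)) * ee (-(H * g)) (X ^ m) =
      ee ((H ^ 5 * f ^ 2 - H * X ^ (4 * m)) * g) (X ^ (5 * m)) := by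
    intro g
    rw [← ee_mul_right (a := -(H * g)) hX (monic_X_pow (4 * m)) (by rw [hXd]; exact hm), ← pow_add,
      show m + 4 * m = 5 * m by ring, ← ee_add]
    congr 1
    ring
  simp_rw [h1]
  rw [sum_ee_box (monic_X_pow (5 * m)) (by rw [natDegree_X_pow]; omega), natDegree_X_pow,
    show 5 * m - m = 4 * m by omega]

theorem frame_point (Y' : ℕ) {m : ℕ} (hm : 1 ≤ m) {f : k[X]} (hf : f.natDegree / 2 = m) :
    ((qq k ^ m : ℝ) : ℂ) * ((Sol f).card : ℂ) =
      ((qq k ^ m : ℝ) : ℂ) * (NMaj Y' f : ℂ) + (((qq k ^ m : ℝ) : ℂ) - (Maj k m Y').card) +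
        ∑ g ∈ (box k m).erase 0, ∑ H ∈ box k m \ Maj k m Y',
          ee (H ^ 5 * (g * f ^ 2)) (X ^ (5 * m)) * ee (-(H * g)) (X ^ m) := by
  have hsub : Maj k m Y' ⊆ box k m := Finset.filter_subset _ _
  have h0 : (0 : k[X]) ∈ box k m := by
    rw [mem_box, degree_zero]; exact WithBot.bot_lt_coe _
  rw [frame_sol hm hf, Finset.sum_congr rfl (fun g _ => (Finset.sum_sdiff hsub).symm),
    Finset.sum_add_distrib, ← Finset.add_sum_erase _ _ h0,
    Finset.sum_comm (s := box k m) (t := Maj k m Y')]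
  have hA : ∑ H ∈ Maj k m Y', ∑ g ∈ box k m,
      ee (H ^ 5 * (g * f ^ 2)) (X ^ (5 * m)) * ee (-(H * g)) (X ^ m) =
      ((qq k ^ m : ℝ) : ℂ) * (NMaj Y' f : ℂ) := by
    unfold NMaj
    rw [hf, Finset.card_filter, Nat.cast_sum, Finset.mul_sum]
    refine Finset.sum_congr rfl fun H _ => ?_
    rw [frame_maj hm]
    split_ifs <;> simp
  have hB : ∑ H ∈ box k m \ Maj k m Y',
      ee (H ^ 5 * (0 * f ^ 2)) (X ^ (5 * m)) * ee (-(H * 0)) (X ^ m) =
      ((qq k ^ m : ℝ) : ℂ) - (Maj k m Y').card := by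
    simp only [zero_mul, mul_zero, neg_zero, frame_ee_zero, mul_one, Finset.sum_const,
      nsmul_eq_mul]
    rw [Finset.card_sdiff_of_subset hsub, Nat.cast_sub (Finset.card_le_card hsub), ← card_box]
    simp
  rw [hA, hB]
  ring

theorem frame (Y Y' : ℕ) {n : ℕ} (hn : 2 * ∑ p ∈ prs k Y, p.natDegree + 2 ≤ n) :
    ((qq k ^ (n / 2) * SY k Y n : ℝ) : ℂ) =
      ((qq k ^ (n / 2) * ∑ f ∈ (mon k n).filter (Wsf Y), (NMaj Y' f : ℝ) +
        (qq k ^ (n / 2) - (Maj k (n / 2) Y').card) * ((mon k n).filter (Wsf Y)).card : ℝ) : ℂ) +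
      ∑ S ∈ (prs k Y).powerset, (-1) ^ S.card * Ed (∏ p ∈ S, p) n Y' := by
  have hm : 1 ≤ n / 2 := by omega
  have h1 : ((qq k ^ (n / 2) * SY k Y n : ℝ) : ℂ) =
      ∑ f ∈ (mon k n).filter (Wsf Y), ((qq k ^ (n / 2) : ℝ) : ℂ) * ((Sol f).card : ℂ) := by
    unfold SY
    rw [← Finset.mul_sum]
    push_cast
    rfl
  rw [h1, Finset.sum_congr rfl (fun f hf => frame_point Y' hm
    (by rw [(mem_mon.1 (Finset.mem_filter.1 hf).1).2])), Finset.sum_add_distrib,
    Finset.sum_add_distrib, frame_sieve Y (by omega : 2 * ∑ p ∈ prs k Y, p.natDegree ≤ n)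
      (fun f => ∑ g ∈ (box k (n / 2)).erase 0, ∑ H ∈ box k (n / 2) \ Maj k (n / 2) Y',
          ee (H ^ 5 * (g * f ^ 2)) (X ^ (5 * (n / 2))) * ee (-(H * g)) (X ^ (n / 2)))]
  congr 1
  · rw [← Finset.mul_sum, Finset.sum_const, nsmul_eq_mul]
    push_cast
    ring
  · refine Finset.sum_congr rfl fun S _ => ?_
    congr 1
    unfold Ed th
    rw [Finset.sum_comm]
    refine Finset.sum_congr rfl fun g _ => ?_
    rw [Finset.sum_comm]
    refine Finset.sum_congr rfl fun H _ => ?_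
    rw [Finset.sum_mul]
    refine Finset.sum_congr rfl fun f _ => ?_
    congr 2
    ring

end CL5
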