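import Mathlib
import Pool.Agent.H92F.Cnt80

namespace Pool.Agent.MP_d0fd9b_nt.F92.Maj91
open Polynomial Finset

variable {k : Type*} [Field k]

theorem coeff_mul_zero {a b : k[X]} {i j N : ℕ} (ha : a.natDegree ≤ i) (hb : b.degree < j)
    (hN : i + j ≤ N) : (a * b).coeff N = 0 := by
  by_cases h0 : b = 0
  · simp [h0]
  · have h1 : b.natDegree < j := (natDegree_lt_iff_degree_lt h0).2 hb
    apply coeff_eq_zero_of_natDegree_lt
    have := natDegree_mul_le (p := a) (q := b)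
    omega

theorem reduce {m y : ℕ} {H r0 : k[X]} (h0 : r0 ≠ 0) (h1 : r0.degree ≤ y)
    (h2 : ((r0 * H) %ₘ X ^ m).degree ≤ y) :
    ∃ r s w : k[X], r.Monic ∧ IsCoprime r s ∧ r * H = X ^ m * s + w ∧ r.natDegree ≤ y ∧
      w.natDegree ≤ y := by
  classical
  obtain ⟨r1, s1, e1, e2, hu⟩ := extract_gcd r0 ((r0 * H) /ₘ X ^ m)
  have hco : IsCoprime r1 s1 := (gcd_isUnit_iff _ _).1 hu
  set d := gcd r0 ((r0 * H) /ₘ X ^ m) with hd
  have hd0 : d ≠ 0 := by
    intro h
    rw [h, zero_mul] at e1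
    exact h0 e1
  have hr1 : r1 ≠ 0 := by
    intro h
    rw [h, mul_zero] at e1
    exact h0 e1
  have e3 := modByMonic_add_div (r0 * H) (X ^ m : k[X])
  have e4 : (r0 * H) %ₘ X ^ m = d * (r1 * H - X ^ m * s1) := by
    rw [e2] at e3
    linear_combination e3 + H * e1
  have hl : r1.leadingCoeff ≠ 0 := leadingCoeff_ne_zero.2 hr1
  have hn1 : r1.natDegree ≤ y := by
    have := natDegree_le_of_degree_le h1
    rw [e1, natDegree_mul hd0 hr1] at this
    omega
  have hn2 : (r1 * H - X ^ m * s1).natDegree ≤ y := by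
    by_cases hw : r1 * H - X ^ m * s1 = 0
    · simp [hw]
    · have := natDegree_le_of_degree_le h2
      rw [e4, natDegree_mul hd0 hw] at this
      omega
  refine ⟨r1 * C r1.leadingCoeff⁻¹, s1 * C r1.leadingCoeff⁻¹,
    (r1 * H - X ^ m * s1) * C r1.leadingCoeff⁻¹, monic_mul_leadingCoeff_inv hr1, ?_, by ring, ?_, ?_⟩
  · have hu' : IsUnit (C r1.leadingCoeff⁻¹ : k[X]) := isUnit_C.2 (IsUnit.mk0 _ (inv_ne_zero hl))
    exact (isCoprime_mul_unit_right hu' _ _).2 hco
  · exact (natDegree_mul_C_le _ _).trans hn1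
  · exact (natDegree_mul_C_le _ _).trans hn2

theorem struct [CharP k 5] {n m y : ℕ} (hm : m = n / 2) (hy : 5 * y + 3 ≤ m) {f H : k[X]}
    (hf : f.Monic) (hn : f.natDegree = n) (hH : H.degree < m)
    (hr : ∃ r : k[X], r ≠ 0 ∧ r.degree ≤ y ∧ ((r * H) %ₘ X ^ m).degree ≤ y)
    (hc : ((H ^ 5 * f ^ 2 - H * X ^ (4 * m)) %ₘ X ^ (5 * m)).degree < (4 * m : ℕ)) :
    ∃ (r s f1 : k[X]) (c : k), r.Monic ∧ r.natDegree ≤ y ∧ s.degree < r.natDegree ∧
      f = r ^ 2 * f1 ∧ r ∣ s ^ 4 * f1 ^ 2 - 1 ∧ c ^ 5 = c ∧ (Odd n → c = 0) ∧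
      H = C c + (s * X ^ m) /ₘ r := by
  have : Fact (Nat.Prime 5) := ⟨by norm_num⟩
  obtain ⟨r0, h0, h1, h2⟩ := hr
  obtain ⟨r, s, w, hrm, hco, e, hry, hwy⟩ := reduce h0 h1 h2
  have e3 := modByMonic_add_div (H ^ 5 * f ^ 2 - H * X ^ (4 * m)) (X ^ (5 * m) : k[X])
  set om := (H ^ 5 * f ^ 2 - H * X ^ (4 * m)) %ₘ X ^ (5 * m) with hom
  set P := (H ^ 5 * f ^ 2 - H * X ^ (4 * m)) /ₘ X ^ (5 * m) with hP
  have e5 : (r * H) ^ 5 = X ^ (5 * m) * s ^ 5 + w ^ 5 := by
    rw [e, add_pow_char]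
    ring
  have hx : (X : k[X]) ^ (5 * m) = X ^ m * X ^ (4 * m) := by ring
  have e6 : X ^ (5 * m) * (s ^ 5 * f ^ 2 - r ^ 4 * s - r ^ 5 * P) =
      -(w ^ 5 * f ^ 2) + r ^ 4 * w * X ^ (4 * m) + r ^ 5 * om := by
    linear_combination -(f ^ 2) * e5 - r ^ 5 * e3 + r ^ 4 * X ^ (4 * m) * e - r ^ 4 * s * hx
  have hom4 : om.natDegree ≤ 4 * m := natDegree_le_of_degree_le hc.le
  have hE : -(w ^ 5 * f ^ 2) + r ^ 4 * w * X ^ (4 * m) + r ^ 5 * om = 0 := by
    apply eq_zero_of_dvd_of_natDegree_lt (p := X ^ (5 * m)) ⟨_, e6.symm⟩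
    rw [natDegree_X_pow]
    have a1 := natDegree_add_le (-(w ^ 5 * f ^ 2) + r ^ 4 * w * X ^ (4 * m)) (r ^ 5 * om)
    have a2 := natDegree_add_le (-(w ^ 5 * f ^ 2)) (r ^ 4 * w * X ^ (4 * m))
    have a3 := natDegree_mul_le (p := w ^ 5) (q := f ^ 2)
    have a4 := natDegree_mul_le (p := r ^ 4 * w) (q := X ^ (4 * m))
    have a5 := natDegree_mul_le (p := r ^ 4) (q := w)
    have a6 := natDegree_mul_le (p := r ^ 5) (q := om)
    rw [natDegree_neg] at a2
    rw [natDegree_pow, natDegree_pow] at a3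
    rw [natDegree_X_pow] at a4
    rw [natDegree_pow] at a5 a6
    omega
  have hF : s ^ 5 * f ^ 2 - r ^ 4 * s - r ^ 5 * P = 0 := by
    rw [hE] at e6
    exact (mul_eq_zero.1 e6).resolve_left (pow_ne_zero _ X_ne_zero)
  have hd4 : (r ^ 2) ^ 2 ∣ f ^ 2 := by
    have hc4 : IsCoprime ((r ^ 2) ^ 2) (s ^ 5) := IsCoprime.pow (IsCoprime.pow_left hco)
    apply hc4.dvd_of_dvd_mul_left
    exact ⟨s + r * P, by linear_combination hF⟩
  obtain ⟨f1, hf1⟩ := (IsIntegrallyClosed.pow_dvd_pow_iff two_ne_zero).1 hd4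
  have hr0 : r ≠ 0 := hrm.ne_zero
  have hf1m : f1.Monic := by
    rw [hf1] at hf
    exact Monic.of_mul_monic_left (hrm.pow 2) hf
  have hdeg : 2 * r.natDegree + f1.natDegree = n := by
    rw [← hn, hf1, natDegree_mul (pow_ne_zero _ hr0) hf1m.ne_zero, natDegree_pow]
  have hG : s ^ 5 * f1 ^ 2 - s = r * P := by
    apply mul_left_cancel₀ (pow_ne_zero 4 hr0)
    rw [hf1] at hF
    linear_combination hF
  have hW : w ^ 5 * f1 ^ 2 = w * X ^ (4 * m) + r * om := by
    apply mul_left_cancel₀ (pow_ne_zero 4 hr0)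
    rw [hf1] at hE
    linear_combination -hE
  have hwj : w.natDegree ≤ r.natDegree := by
    by_contra hlt
    have hw0 : w ≠ 0 := by
      rintro rfl
      simp at hlt
    have a1 := congrArg natDegree hW
    rw [natDegree_mul (pow_ne_zero _ hw0) (pow_ne_zero _ hf1m.ne_zero), natDegree_pow,
      natDegree_pow] at a1
    have a2 := natDegree_add_le (w * X ^ (4 * m)) (r * om)
    have a3 := natDegree_mul_le (p := w) (q := X ^ (4 * m))
    have a4 := natDegree_mul_le (p := r) (q := om)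
    rw [natDegree_X_pow] at a3
    omega
  have htop : (w ^ 5 * f1 ^ 2).coeff (5 * r.natDegree + 2 * f1.natDegree) =
      w.coeff r.natDegree ^ 5 := by
    rw [coeff_mul_add_eq_of_natDegree_le (df := 5 * r.natDegree) (dg := 2 * f1.natDegree)
      (by rw [natDegree_pow]; omega) (by rw [natDegree_pow]),
      coeff_pow_of_natDegree_le hwj, coeff_pow_of_natDegree_le le_rfl, hf1m.coeff_natDegree]
    ring
  rw [hW, coeff_add, coeff_mul_zero (i := r.natDegree) (j := 4 * m) le_rfl hc (by omega),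
    add_zero] at htop
  have hodd : Odd n → w.coeff r.natDegree = 0 := by
    rintro ⟨t, ht⟩
    have : 5 * r.natDegree + 2 * f1.natDegree = (r.natDegree + 2) + 4 * m := by omega
    rw [this, coeff_mul_X_pow, coeff_eq_zero_of_natDegree_lt (by omega)] at htop
    exact pow_eq_zero_iff (by norm_num) |>.1 htop.symm
  refine ⟨r, s, f1, w.coeff r.natDegree, hrm, hry, ?_, hf1, ?_, ?_, hodd, ?_⟩
  · rw [degree_lt_iff_coeff_zero]
    intro N hN
    have a1 := congrArg (fun p => coeff p (N + m)) e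
    simp only [coeff_add] at a1
    rw [coeff_X_pow_mul, coeff_mul_zero (i := r.natDegree) (j := m) le_rfl hH (by omega),
      coeff_eq_zero_of_natDegree_lt (p := w) (by omega)] at a1
    simpa using a1.symm
  · apply hco.dvd_of_dvd_mul_left
    exact ⟨P, by linear_combination hG⟩
  · rcases Nat.even_or_odd n with ⟨t, ht⟩ | h
    · have : 5 * r.natDegree + 2 * f1.natDegree = r.natDegree + 4 * m := by omega
      rw [this, coeff_mul_X_pow] at htop
      exact htop.symm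
    · rw [hodd h]
      simp
  · have := div_modByMonic_unique (f := s * X ^ m) (H - C (w.coeff r.natDegree))
      (C (w.coeff r.natDegree) * r - w) hrm ⟨by linear_combination e, ?_⟩
    · rw [this.1]
      ring
    · rw [degree_eq_natDegree hr0, degree_lt_iff_coeff_zero]
      intro N hN
      rw [coeff_sub, coeff_C_mul]
      rcases hN.eq_or_lt with h | h
      · rw [← h, hrm.coeff_natDegree]
        ring
      · rw [coeff_eq_zero_of_natDegree_lt h, coeff_eq_zero_of_natDegree_lt (hwj.trans_lt h)]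
        ring

/-- the major-arc condition -/
def IsMaj (m y : ℕ) (H : k[X]) : Prop :=
  ∃ r : k[X], r ≠ 0 ∧ r.degree ≤ y ∧ ((r * H) %ₘ X ^ m).degree ≤ y

/-- the solvability condition -/
def Cond (m : ℕ) (f H : k[X]) : Prop :=
  ((H ^ 5 * f ^ 2 - H * X ^ (4 * m)) %ₘ X ^ (5 * m)).degree < (4 * m : ℕ)

/-- constants that always solve -/
def Triv (n : ℕ) (H : k[X]) : Prop := ∃ c : k, c ^ 5 = c ∧ (Odd n → c = 0) ∧ H = C c

theorem triv_maj {n m y : ℕ} (hm : 1 ≤ m) {H : k[X]} (h : Triv n H) :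
    H.degree < m ∧ IsMaj m y H := by
  obtain ⟨c, -, -, rfl⟩ := h
  have h1 : (C c : k[X]).degree < m := degree_C_le.trans_lt (by exact_mod_cast hm)
  refine ⟨h1, 1, one_ne_zero, degree_one_le.trans (by exact_mod_cast Nat.zero_le y), ?_⟩
  rw [one_mul, (modByMonic_eq_self_iff (monic_X_pow m)).2 (by rwa [degree_X_pow])]
  exact degree_C_le.trans (by exact_mod_cast Nat.zero_le y)

theorem triv_cond {n m : ℕ} (hm : m = n / 2) {f H : k[X]} (hf : f.Monic) (hn : f.natDegree = n)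
    (h : Triv n H) : Cond m f H := by
  obtain ⟨c, h1, h2, rfl⟩ := h
  unfold Cond
  rcases Nat.even_or_odd n with ⟨t, ht⟩ | ho
  · have e : (C c : k[X]) ^ 5 * f ^ 2 - C c * X ^ (4 * m) = C c * (f ^ 2 - X ^ (4 * m)) := by
      rw [← C_pow, h1]
      ring
    have hd : (f ^ 2).degree = (4 * m : ℕ) := by
      rw [degree_eq_natDegree (hf.pow 2).ne_zero, natDegree_pow, hn]
      congr 1
      omega
    have h3 : (f ^ 2 - X ^ (4 * m) : k[X]).degree < ((4 * m : ℕ) : WithBot ℕ) := by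
      rw [← hd]
      exact degree_sub_lt_left (by rw [hd, degree_X_pow]) (hf.pow 2).ne_zero
        (by rw [(hf.pow 2).leadingCoeff, (monic_X_pow _).leadingCoeff])
    have h4 : (C c * (f ^ 2 - X ^ (4 * m)) : k[X]).degree < (4 * m : ℕ) := by
      rw [← smul_eq_C_mul]
      exact (degree_smul_le _ _).trans_lt h3
    rw [e]
    exact (degree_modByMonic_le_left).trans_lt h4
  · rw [h2 ho]
    have e : (C (0 : k) : k[X]) ^ 5 * f ^ 2 - C 0 * X ^ (4 * m) = 0 := by simp
    rw [e, zero_modByMonic, degree_zero]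
    exact WithBot.bot_lt_coe _

theorem card_five [CharP k 5] (S : Finset k) (hS : ∀ c, c ∈ S ↔ c ^ 5 = c) : S.card = 5 := by
  classical
  have : Fact (Nat.Prime 5) := ⟨by norm_num⟩
  apply le_antisymm
  · have h0 : (X ^ 5 - X : k[X]) ≠ 0 := FiniteField.X_pow_card_sub_X_ne_zero k (by norm_num)
    have h1 : S.val ⊆ (X ^ 5 - X : k[X]).roots := by
      intro c hc
      rw [mem_roots h0]
      have := (hS c).1 hc
      simp [this]
    have := card_le_degree_of_subset_roots h1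
    rwa [FiniteField.X_pow_card_sub_X_natDegree_eq k (by norm_num)] at this
  · have h1 : (univ.image (ZMod.castHom (dvd_refl 5) k)) ⊆ S := by
      intro c hc
      obtain ⟨a, -, rfl⟩ := mem_image.1 hc
      rw [hS, ← map_pow, ZMod.pow_card]
    have := card_le_card h1
    rwa [card_image_of_injective _ (ZMod.castHom (dvd_refl 5) k).injective, card_univ,
      ZMod.card] at this

theorem card_triv [CharP k 5] [Fintype k] (n : ℕ) (T : Finset k[X]) (hT : ∀ H, H ∈ T ↔ Triv n H) :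
    T.card = if Odd n then 1 else 5 := by
  classical
  split_ifs with h
  · rw [card_eq_one]
    refine ⟨0, ?_⟩
    ext H
    rw [hT, mem_singleton]
    constructor
    · rintro ⟨c, -, h2, rfl⟩
      simp [h2 h]
    · rintro rfl
      exact ⟨0, by simp, fun _ => rfl, by simp⟩
  · have e : T = (univ.filter fun c : k => c ^ 5 = c).image C := by
      ext H
      rw [hT, mem_image]
      constructor
      · rintro ⟨c, h1, -, rfl⟩
        exact ⟨c, by simp [h1], rfl⟩
      · rintro ⟨c, h1, rfl⟩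
        exact ⟨c, by simpa using h1, fun h' => absurd h' h, rfl⟩
    rw [e, card_image_of_injective _ C_injective]
    exact card_five _ (by simp)

theorem split_sq [CharP k 5] {r y : k[X]} (hr : r.Monic) (h : r ∣ y ^ 2 - 1) :
    ∃ r1 r2 : k[X], r1.Monic ∧ r2.Monic ∧ r = r1 * r2 ∧ r1 ∣ y - 1 ∧ r2 ∣ y + 1 := by
  have h' : r ∣ (y - 1) * (y + 1) := by
    convert h using 1
    ring
  obtain ⟨a, b, ha, hb, e⟩ := exists_dvd_and_dvd_of_dvd_mul h'
  have ha0 : a ≠ 0 := by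
    rintro rfl
    exact hr.ne_zero (by simpa using e)
  have hl : a.leadingCoeff ≠ 0 := leadingCoeff_ne_zero.2 ha0
  have e2 : r = (a * C a.leadingCoeff⁻¹) * (C a.leadingCoeff * b) := by
    have : (C a.leadingCoeff⁻¹ * C a.leadingCoeff : k[X]) = 1 := by
      rw [← C_mul, inv_mul_cancel₀ hl, C_1]
    linear_combination e - a * b * this
  have hm1 := monic_mul_leadingCoeff_inv ha0
  refine ⟨_, _, hm1, ?_, e2, ?_, ?_⟩
  · rw [e2] at hr
    exact Monic.of_mul_monic_left hm1 hr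
  · exact (isUnit_C.2 (IsUnit.mk0 _ (inv_ne_zero hl))).mul_right_dvd.2 ha
  · exact (isUnit_C.2 (IsUnit.mk0 _ hl)).mul_left_dvd.2 hb

theorem uniq [CharP k 5] {r1 r2 s a b : k[X]} (h1 : r1 ∣ s ^ 2 * a - 1) (h2 : r2 ∣ s ^ 2 * a + 1)
    (h3 : r1 ∣ s ^ 2 * b - 1) (h4 : r2 ∣ s ^ 2 * b + 1) : r1 * r2 ∣ a - b := by
  have h5 : (5 : k[X]) = 0 := by exact_mod_cast CharP.cast_eq_zero k[X] 5
  obtain ⟨u1, e1⟩ := h1
  obtain ⟨u2, e2⟩ := h2
  obtain ⟨u3, e3⟩ := h3
  obtain ⟨u4, e4⟩ := h4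
  have hc : IsCoprime r1 r2 := ⟨-3 * u1, 3 * u2, by linear_combination 3 * e1 - 3 * e2 + h5⟩
  apply hc.mul_dvd
  · exact ⟨b * u1 - a * u3, by linear_combination b * e1 - a * e3⟩
  · exact ⟨a * u4 - b * u2, by linear_combination a * e4 - b * e2⟩

theorem card_extra [CharP k 5] [Fintype k] {n m Y y : ℕ} (hm : m = n / 2) (hy : 5 * y + 3 ≤ m)
    (S : Finset (k[X] × k[X]))
    (hS : ∀ p ∈ S, p.1.Monic ∧ p.1.natDegree = n ∧
      (∀ π : k[X], π.Monic → Irreducible π → π.natDegree ≤ Y → ¬ π ^ 2 ∣ p.1) ∧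
      p.2.degree < m ∧ IsMaj m y p.2 ∧ Cond m p.1 p.2 ∧ ¬ Triv n p.2) :
    S.card ≤ ∑ j ∈ Ioc Y y, (j + 1) * (5 * Fintype.card k ^ (n - j)) := by
  classical
  let F5 : Finset k := univ.filter fun c : k => c ^ 5 = c
  have hF5 : F5.card = 5 := card_five _ (by simp [F5])
  let T : Finset (k × k[X] × k[X] × k[X] × k[X]) :=
    (Ioc Y y).biUnion fun j => (range (j + 1)).biUnion fun i =>
      F5 ×ˢ Mon k i ×ˢ Mon k (j - i) ×ˢ box k j ×ˢ Mon k (n - 3 * j)
  have hT : T.card ≤ ∑ j ∈ Ioc Y y, (j + 1) * (5 * Fintype.card k ^ (n - j)) := by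
    refine card_biUnion_le.trans (sum_le_sum fun j hj => ?_)
    refine card_biUnion_le.trans ?_
    rw [mem_Ioc] at hj
    refine (sum_le_card_nsmul _ _ (5 * Fintype.card k ^ (n - j)) fun i hi => ?_).trans (by simp)
    rw [mem_range] at hi
    simp only [card_product, hF5, card_Mon, card_box, ← pow_add]
    have : i + (j - i + (j + (n - 3 * j))) = n - j := by omega
    rw [this]
  refine le_trans ?_ hT
  apply card_le_card_of_forall_subsingleton (fun p t => t.2.1.Monic ∧ t.2.2.1.Monic ∧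
    p.2 = C t.1 + (t.2.2.2.1 * X ^ m) /ₘ (t.2.1 * t.2.2.1) ∧ ∃ ρ : k[X],
      ρ.degree < (t.2.1 * t.2.2.1).degree ∧
      p.1 = (t.2.1 * t.2.2.1) ^ 2 * (ρ + (t.2.1 * t.2.2.1) * t.2.2.2.2) ∧
      t.2.1 ∣ t.2.2.2.1 ^ 2 * ρ - 1 ∧ t.2.2.1 ∣ t.2.2.2.1 ^ 2 * ρ + 1)
  · rintro ⟨f, H⟩ hp
    obtain ⟨hf, hn, hW, hH, hM, hC, hT⟩ := hS _ hp
    simp only at hf hn hW hH hM hC hT
    obtain ⟨r, s, f1, c, hr, hry, hs, e, hd, hc, ho, eH⟩ := struct hm hy hf hn hH hM hC
    have hf1m : f1.Monic := by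
      rw [e] at hf
      exact Monic.of_mul_monic_left (hr.pow 2) hf
    have hdeg : 2 * r.natDegree + f1.natDegree = n := by
      rw [← hn, e, natDegree_mul (pow_ne_zero _ hr.ne_zero) hf1m.ne_zero, natDegree_pow]
    have hr1 : r ≠ 1 := by
      rintro rfl
      apply hT
      have : s = 0 := by simpa using hs
      exact ⟨c, hc, ho, by simp [eH, this]⟩
    have hYr : Y < r.natDegree := by
      by_contra hle
      have hnu : ¬ IsUnit r := fun hu => hr1 (hr.isUnit_iff.1 hu)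
      obtain ⟨π, hπ1, hπ2, hπ3⟩ := exists_monic_irreducible_factor r hnu
      refine hW π hπ1 hπ2 ((natDegree_le_of_dvd hπ3 hr.ne_zero).trans (by omega)) ?_
      rw [e]
      exact (pow_dvd_pow_of_dvd hπ3 2).mul_right _
    have e3 := modByMonic_add_div f1 r
    have hd' : r ∣ (s ^ 2 * (f1 %ₘ r)) ^ 2 - 1 := by
      obtain ⟨u, hu⟩ := hd
      refine ⟨u - s ^ 4 * (f1 /ₘ r) * (f1 + f1 %ₘ r), ?_⟩
      linear_combination hu + s ^ 4 * (f1 + f1 %ₘ r) * e3
    obtain ⟨r1, r2, m1, m2, er, d1, d2⟩ := split_sq hr hd'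
    have hj : r.natDegree = r1.natDegree + r2.natDegree := by
      rw [er, natDegree_mul m1.ne_zero m2.ne_zero]
    refine ⟨(c, r1, r2, s, f1 /ₘ r), ?_, m1, m2, ?_, f1 %ₘ r, ?_, ?_, d1, d2⟩
    · simp only [T, mem_biUnion, mem_product, mem_Ioc, mem_range, mem_Mon, mem_box]
      refine ⟨r.natDegree, ⟨hYr, hry⟩, r1.natDegree, by omega, by simp [F5, hc], ⟨m1, rfl⟩,
        ⟨m2, by omega⟩, hs, ?_, ?_⟩
      · have := leadingCoeff_divByMonic_of_monic (p := f1) hr (by
          rw [degree_eq_natDegree hr.ne_zero, degree_eq_natDegree hf1m.ne_zero]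
          exact_mod_cast (by omega))
        rw [Monic, this]
        exact hf1m
      · rw [natDegree_divByMonic _ hr]
        omega
    · simp only [← er]
      exact eH
    · simp only [← er]
      exact degree_modByMonic_lt _ hr
    · simp only [← er]
      rw [e3]
      exact e
  · rintro ⟨c, r1, r2, s, u⟩ - ⟨f, H⟩ ⟨-, m1, m2, a1, ρ, a2, a3, a4, a5⟩ ⟨f', H'⟩
      ⟨-, -, -, b1, ρ', b2, b3, b4, b5⟩
    simp only at m1 m2 a1 a2 a3 a4 a5 b1 b2 b3 b4 b5
    have h := uniq a4 a5 b4 b5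
    have h0 : ρ - ρ' = 0 :=
      eq_zero_of_dvd_of_degree_lt h ((degree_sub_le _ _).trans_lt (max_lt a2 b2))
    have h1 : ρ = ρ' := sub_eq_zero.1 h0
    rw [a1, b1, a3, b3, h1]

theorem tail_le {q : ℕ} (hq : 5 ≤ q) (n Y y : ℕ) (hy : y ≤ n) :
    ((∑ j ∈ Ioc Y y, (j + 1) * (5 * q ^ (n - j)) : ℕ) : ℝ) ≤
      5 * ((Y + 2) * (1 / (q : ℝ) ^ Y)) * (q : ℝ) ^ n := by
  have hq' : (5 : ℝ) ≤ q := by exact_mod_cast hq
  have hq0 : (0 : ℝ) < q := by linarith
  have h1 : ∀ j ∈ Ioc Y y, (((j + 1) * (5 * q ^ (n - j)) : ℕ) : ℝ) =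
      5 * ((j + 1) * (1 / (q : ℝ) ^ j)) * (q : ℝ) ^ n := by
    intro j hj
    rw [mem_Ioc] at hj
    have a3 : (q : ℝ) ^ n = q ^ (n - j) * q ^ j := by
      rw [← pow_add]
      congr 1
      omega
    push_cast
    rw [a3]
    field_simp
  have h2 : ∀ z : ℕ, ∑ j ∈ Ioc Y (Y + z), ((j : ℝ) + 1) * (1 / (q : ℝ) ^ j) ≤
      (Y + 2) * (1 / (q : ℝ) ^ Y) - ((Y + z : ℕ) + 2) * (1 / (q : ℝ) ^ (Y + z)) := by
    intro z
    induction z with
    | zero => simp
    | succ z ih =>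
      rw [← add_assoc, sum_Ioc_succ_top (by omega)]
      have a1 : 1 / (q : ℝ) ^ (Y + z) = q * (1 / (q : ℝ) ^ (Y + z + 1)) := by
        field_simp
        ring
      have a2 : (0 : ℝ) ≤ 1 / (q : ℝ) ^ (Y + z + 1) := by positivity
      have a3 : (0 : ℝ) ≤ ((Y + z : ℕ) : ℝ) := Nat.cast_nonneg _
      rw [a1] at ih
      rw [Nat.cast_succ (Y + z)]
      generalize 1 / (q : ℝ) ^ (Y + z + 1) = t at *
      generalize ((Y + z : ℕ) : ℝ) = u at *
      have a4 : 0 ≤ (u + 2) * (q - 5) * t := by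
        have : (0 : ℝ) ≤ q - 5 := by linarith
        positivity
      have a5 : 0 ≤ u * t := by positivity
      nlinarith
  have h3 : ∑ j ∈ Ioc Y y, ((j : ℝ) + 1) * (1 / (q : ℝ) ^ j) ≤ (Y + 2) * (1 / (q : ℝ) ^ Y) := by
    refine le_trans (sum_le_sum_of_subset_of_nonneg (Ioc_subset_Ioc_right (Nat.le_add_left y Y))
      fun _ _ _ => by positivity) ((h2 y).trans ?_)
    have : (0 : ℝ) ≤ ((Y + y : ℕ) + 2) * (1 / (q : ℝ) ^ (Y + y)) := by positivity
    linarith
  rw [Nat.cast_sum, sum_congr rfl h1, ← sum_mul, ← mul_sum]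
  exact mul_le_mul_of_nonneg_right (by linarith) (by positivity)

theorem five_le_card [CharP k 5] [Fintype k] : 5 ≤ Fintype.card k := by
  classical
  rw [← card_five (k := k) (univ.filter fun c : k => c ^ 5 = c) (by simp)]
  exact card_le_univ _

theorem maj_low [CharP k 5] [Fintype k] {n m y : ℕ} (hm : m = n / 2) (hy : 1 ≤ m) {f : k[X]}
    (hf : f.Monic) (hn : f.natDegree = n) (N : Finset k[X])
    (hN : ∀ H, H ∈ N ↔ H.degree < m ∧ IsMaj m y H ∧ Cond m f H) :
    (if Odd n then 1 else 5) ≤ N.card := by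
  classical
  let T : Finset k[X] := (box k m).filter (Triv n)
  have hT : ∀ H, H ∈ T ↔ Triv n H := fun H => by
    simp only [T, mem_filter, mem_box]
    exact ⟨fun h => h.2, fun h => ⟨(triv_maj (y := y) hy h).1, h⟩⟩
  rw [← card_triv n T hT]
  refine card_le_card fun H hH => ?_
  have h := (hT H).1 hH
  have h' := triv_maj (m := m) (y := y) hy h
  exact (hN H).2 ⟨h'.1, h'.2, triv_cond hm hf hn h⟩

/-- MAJ: the major-arc count. `Mn` any set of monic polynomials of degree `n` without the square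
of a prime of degree `≤ Y`; `N f` the set of solving major-arc `H`. -/
theorem maj_main [CharP k 5] [Fintype k] {n m Y y : ℕ} (hm : m = n / 2) (hy : 5 * y + 3 ≤ m)
    (Mn : Finset k[X])
    (hMn : ∀ f ∈ Mn, f.Monic ∧ f.natDegree = n ∧
      ∀ π : k[X], π.Monic → Irreducible π → π.natDegree ≤ Y → ¬ π ^ 2 ∣ f)
    (N : k[X] → Finset k[X])
    (hN : ∀ f ∈ Mn, ∀ H, H ∈ N f ↔ H.degree < m ∧ IsMaj m y H ∧ Cond m f H) :
    ∑ f ∈ Mn, (((N f).card : ℝ) - ((if Odd n then 1 else 5 : ℕ) : ℝ)) ≤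
      5 * ((Y + 2) * (1 / (Fintype.card k : ℝ) ^ Y)) * (Fintype.card k : ℝ) ^ n := by
  classical
  let T : Finset k[X] := (box k m).filter (Triv n)
  have hT : ∀ H, H ∈ T ↔ Triv n H := fun H => by
    simp only [T, mem_filter, mem_box]
    exact ⟨fun h => h.2, fun h => ⟨(triv_maj (y := y) (by omega) h).1, h⟩⟩
  have hTc := card_triv n T hT
  have h1 : ∀ f ∈ Mn, ((N f).card : ℝ) - ((if Odd n then 1 else 5 : ℕ) : ℝ) =
      ((N f \ T).card : ℝ) := by
    intro f hf
    have hsub : T ⊆ N f := fun H hH => by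
      have h := (hT H).1 hH
      have h' := triv_maj (m := m) (y := y) (by omega) h
      exact (hN f hf H).2 ⟨h'.1, h'.2, triv_cond hm (hMn f hf).1 (hMn f hf).2.1 h⟩
    rw [← card_sdiff_add_card_eq_card hsub, hTc, Nat.cast_add, add_sub_cancel_right]
  rw [sum_congr rfl h1]
  let S : Finset (k[X] × k[X]) := (Mn ×ˢ box k m).filter fun p => p.2 ∈ N p.1 \ T
  have hS : S.card = ∑ f ∈ Mn, (N f \ T).card := by
    rw [card_filter, sum_product]
    refine sum_congr rfl fun f hf => ?_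
    rw [← card_filter]
    congr 1
    ext H
    simp only [mem_filter, mem_box, mem_sdiff]
    exact ⟨fun h => h.2, fun h => ⟨((hN f hf H).1 h.1).1, h⟩⟩
  have h2 := card_extra (Y := Y) hm hy S (by
    rintro ⟨f, H⟩ hp
    simp only [S, mem_filter, mem_product, mem_sdiff] at hp
    obtain ⟨⟨hf, -⟩, hH, hH'⟩ := hp
    obtain ⟨a1, a2, a3⟩ := (hN f hf H).1 hH
    obtain ⟨b1, b2, b3⟩ := hMn f hf
    exact ⟨b1, b2, b3, a1, a2, a3, fun h => hH' ((hT H).2 h)⟩)
  rw [← Nat.cast_sum, ← hS]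
  exact le_trans (by exact_mod_cast h2) (tail_le five_le_card n Y y (by omega))

/-- for fixed `r ≠ 0` of degree `≤ y`, at most `q^(y+1)` of the `H` have `deg (r H mod x^m) ≤ y` -/
theorem card_fixed [Fintype k] {m y : ℕ} {r : k[X]} (hr : r ≠ 0) (hry : r.degree ≤ y)
    (S : Finset k[X]) (hS : ∀ H ∈ S, H.degree < m ∧ ((r * H) %ₘ X ^ m).degree ≤ y) :
    S.card ≤ Fintype.card k ^ (y + 1) := by
  classical
  obtain ⟨r1, e, h1⟩ := exists_eq_pow_rootMultiplicity_mul_and_not_dvd r hr 0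
  set a := rootMultiplicity 0 r
  rw [C_0, sub_zero] at e h1
  have hr1 : r1 ≠ 0 := by
    rintro rfl
    exact h1 (dvd_zero _)
  have ha : a ≤ y := by
    have := natDegree_le_of_degree_le hry
    rw [e, natDegree_mul (pow_ne_zero _ X_ne_zero) hr1, natDegree_X_pow] at this
    omega
  by_cases ham : m ≤ a
  · refine (card_le_card (t := box k (y + 1)) fun H hH => ?_).trans (card_box _).le
    rw [mem_box]
    exact (hS H hH).1.trans_le (by exact_mod_cast (by omega))
  have hco : IsCoprime ((X : k[X]) ^ (m - a)) r1 :=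
    IsCoprime.pow_left ((irreducible_X.coprime_iff_not_dvd).2 h1)
  have hx : (X : k[X]) ^ m = X ^ a * X ^ (m - a) := by
    rw [← pow_add]
    congr 1
    omega
  have hc : (box k (y + 1 - a) ×ˢ box k a).card = Fintype.card k ^ (y + 1) := by
    rw [card_product, card_box, card_box, ← pow_add]
    congr 1
    omega
  rw [← hc]
  have hmod : ∀ H : k[X], (r * H) %ₘ X ^ m = X ^ a * ((r1 * H) %ₘ X ^ (m - a)) := by
    intro H
    refine (div_modByMonic_unique ((r1 * H) /ₘ X ^ (m - a)) _ (monic_X_pow m) ⟨?_, ?_⟩).2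
    · rw [e, hx]
      linear_combination X ^ a * modByMonic_add_div (r1 * H) (X ^ (m - a) : k[X])
    · rw [hx, degree_mul, degree_mul]
      exact WithBot.add_lt_add_left (by simp) (degree_modByMonic_lt _ (monic_X_pow _))
  apply card_le_card_of_injOn (fun H => ((r1 * H) %ₘ X ^ (m - a), H /ₘ X ^ (m - a)))
  · intro H hH
    obtain ⟨b1, b2⟩ := hS H hH
    simp only [coe_product, Set.mem_prod, mem_coe, mem_box']
    constructor
    · by_cases h0 : (r1 * H) %ₘ X ^ (m - a) = 0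
      · exact Or.inl h0
      · have := natDegree_le_of_degree_le b2
        rw [hmod, natDegree_mul (pow_ne_zero _ X_ne_zero) h0, natDegree_X_pow] at this
        right
        omega
    · by_cases h0 : H.degree < (X ^ (m - a) : k[X]).degree
      · exact Or.inl ((divByMonic_eq_zero_iff (monic_X_pow _)).2 h0)
      · have hH0 : H ≠ 0 := by
          rintro rfl
          exact h0 (by simp)
        have c1 := (natDegree_lt_iff_degree_lt hH0).2 b1
        rw [degree_X_pow, ← natDegree_lt_iff_degree_lt hH0] at h0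
        rw [natDegree_divByMonic _ (monic_X_pow _), natDegree_X_pow]
        right
        omega
  · intro H _ H' _ h
    simp only [Prod.mk.injEq] at h
    have d1 : X ^ (m - a) ∣ r1 * (H - H') := by
      refine ⟨(r1 * H) /ₘ X ^ (m - a) - (r1 * H') /ₘ X ^ (m - a), ?_⟩
      linear_combination -modByMonic_add_div (r1 * H) (X ^ (m - a) : k[X]) +
        modByMonic_add_div (r1 * H') (X ^ (m - a) : k[X]) + h.1
    have d2 := hco.dvd_of_dvd_mul_left d1
    have d3 : H %ₘ X ^ (m - a) = H' %ₘ X ^ (m - a) :=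
      modByMonic_eq_of_dvd_sub (monic_X_pow _) d2
    rw [← modByMonic_add_div H (X ^ (m - a)), ← modByMonic_add_div H' (X ^ (m - a)), d3, h.2]

theorem card_maj [Fintype k] {m y : ℕ} (S : Finset k[X])
    (hS : ∀ H ∈ S, H.degree < m ∧ IsMaj m y H) : S.card ≤ Fintype.card k ^ (2 * y + 2) := by
  classical
  have h1 : S ⊆ ((box k (y + 1)).filter (· ≠ 0)).biUnion fun r =>
      S.filter fun H => ((r * H) %ₘ X ^ m).degree ≤ y := by
    intro H hH
    obtain ⟨r, a1, a2, a3⟩ := (hS H hH).2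
    simp only [mem_biUnion, mem_filter, mem_box]
    exact ⟨r, ⟨a2.trans_lt (by exact_mod_cast Nat.lt_succ_self y), a1⟩, hH, a3⟩
  refine (card_le_card h1).trans (card_biUnion_le.trans ?_)
  refine (sum_le_card_nsmul _ _ (Fintype.card k ^ (y + 1)) fun r hr => ?_).trans ?_
  · simp only [mem_filter, mem_box'] at hr
    refine card_fixed (m := m) hr.2 ?_ _ fun H hH => ?_
    · have := hr.1.resolve_left hr.2
      exact degree_le_of_natDegree_le (by omega)
    · rw [mem_filter] at hH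
      exact ⟨(hS H hH.1).1, hH.2⟩
  · rw [smul_eq_mul, show 2 * y + 2 = (y + 1) + (y + 1) by ring, pow_add _ (y + 1) (y + 1)]
    apply Nat.mul_le_mul_right
    exact (card_filter_le _ _).trans (card_box (k := k) _).le

end Pool.Agent.MP_d0fd9b_nt.F92.Maj91

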