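import Pool.Agent.H92F.Box
import Pool.Agent.H92F.Maj91

/-! h92f: major arcs (row MAJ). -/

set_option autoImplicit false
open Polynomial Finset UniqueFactorizationMonoid EuclideanDomain Filter Topology
open scoped Classical

noncomputable section
namespace CL5

variable {k : Type*} [Field k] [Fintype k]

variable [CharP k 5]

theorem maj_uu (n : ℕ) : uu n = if Odd n then 1 else 5 := by
  unfold uu
  rcases Nat.even_or_odd n with h | h
  · simp [h, Nat.not_odd_iff_even.2 h]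
  · simp [h, Nat.not_even_iff_odd.2 h]

omit [CharP k 5] in
theorem maj_mem (m y : ℕ) (f H : k[X]) :
    H ∈ (Maj k m y).filter (fun H =>
      ((H ^ 5 * f ^ 2 - H * X ^ (4 * m)) %ₘ X ^ (5 * m)).degree < (4 * m : ℕ)) ↔
      H.degree < m ∧ Pool.Agent.MP_d0fd9b_nt.F92.Maj91.IsMaj m y H ∧
        Pool.Agent.MP_d0fd9b_nt.F92.Maj91.Cond m f H := by
  simp only [Maj, mem_filter, mem_box, Pool.Agent.MP_d0fd9b_nt.F92.Maj91.IsMaj,
    Pool.Agent.MP_d0fd9b_nt.F92.Maj91.Cond, natDegree_le_iff_degree_le, and_assoc]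

theorem uu_le_NMaj {Y' n : ℕ} (h : 5 * Y' + 3 ≤ n / 2) {f : k[X]} (hf : f ∈ mon k n) :
    uu n ≤ NMaj Y' f := by
  rw [mem_mon] at hf
  rw [maj_uu, NMaj, hf.2]
  exact Pool.Agent.MP_d0fd9b_nt.F92.Maj91.maj_low rfl (by omega) hf.1 hf.2 _ (maj_mem _ _ _)

theorem sum_NMaj_le (Y : ℕ) {Y' n : ℕ} (h : 5 * Y' + 3 ≤ n / 2) :
    ∑ f ∈ (mon k n).filter (Wsf Y), ((NMaj Y' f : ℝ) - uu n) ≤
      5 * ((Y + 2) * eta0 k Y) * qq k ^ n := by
  rw [maj_uu]
  exact Pool.Agent.MP_d0fd9b_nt.F92.Maj91.maj_main (k := k) (Y := Y) rfl h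
    ((mon k n).filter (Wsf Y)) (fun f hf => by
      rw [mem_filter, mem_mon] at hf
      exact ⟨hf.1.1, hf.1.2, fun p h1 h2 h3 => hf.2 p (mem_prs.2 ⟨h1, h2, h3⟩)⟩)
    (fun f => (Maj k (f.natDegree / 2) Y').filter (fun H =>
      ((H ^ 5 * f ^ 2 - H * X ^ (4 * (f.natDegree / 2))) %ₘ X ^ (5 * (f.natDegree / 2))).degree <
        (4 * (f.natDegree / 2) : ℕ))) (fun f hf H => by
      rw [mem_filter, mem_mon] at hf
      rw [hf.1.2]
      exact maj_mem _ _ _ _)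

end CL5
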