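import Pool.Agent.H92F.PropE
import Pool.Agent.H92F.Maj
import Pool.Agent.H92F.Frame

/-! h92f: the mean of |Sol f| (row END). -/

set_option autoImplicit false
open Polynomial Finset UniqueFactorizationMonoid EuclideanDomain Filter Topology
open scoped Classical

noncomputable section
namespace CL5

variable {k : Type*} [Field k] [Fintype k]

theorem end_pow_large (C : ℝ) : ∀ᶠ n : ℕ in atTop, C ≤ qq k ^ (n / 2) := by
  have h1 : (1 : ℝ) < qq k := by linarith [two_le_qq (k := k)]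
  have h2 : Tendsto (fun n : ℕ => n / 2) atTop atTop :=
    tendsto_atTop.2 fun b => eventually_atTop.2 ⟨2 * b, fun n hn => by omega⟩
  exact ((tendsto_pow_atTop_atTop_of_one_lt h1).comp h2).eventually_ge_atTop C

theorem end_eta_small (C : ℝ) {δ : ℝ} (hδ : 0 < δ) :
    ∃ Y : ℕ, (C + 5 * Y) * eta0 k Y ≤ δ := by
  have h1 : (1 : ℝ) < qq k := by linarith [two_le_qq (k := k)]
  have a := tendsto_pow_const_div_const_pow_of_one_lt 1 h1
  have b := tendsto_pow_const_div_const_pow_of_one_lt 0 h1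
  have c := (b.const_mul C).add (a.const_mul 5)
  simp only [mul_zero, add_zero] at c
  obtain ⟨Y, hY⟩ := (c.eventually_le_const hδ).exists
  refine ⟨Y, le_trans (le_of_eq ?_) hY⟩
  unfold eta0
  ring

theorem end_sf_W {Y : ℕ} {f : k[X]} (h : Squarefree f) : Wsf Y f := by
  intro p hp hd
  exact (mem_prs.1 hp).2.1.not_isUnit (h p (by rwa [← sq]))

/-- the non-squarefree polynomials that pass the sieve -/
theorem end_diff (Y n : ℕ) (F : k[X] → ℝ) (hF : ∀ f, 0 ≤ F f) {C : ℝ} (hC : 0 ≤ C)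
    (h : ∀ p : k[X], p.Monic → Irreducible p → ∀ t : ℕ,
      ∑ f ∈ mon k t, F (p ^ 2 * f) ≤ C * qq k ^ t) :
    |∑ f ∈ (mon k n).filter (Wsf Y), F f - ∑ f ∈ (mon k n).filter Squarefree, F f| ≤
      C * eta0 k Y * qq k ^ n := by
  have hq : (0 : ℝ) < qq k := by linarith [two_le_qq (k := k)]
  have hsub : (mon k n).filter Squarefree ⊆ (mon k n).filter (Wsf Y) := by
    intro f hf
    rw [mem_filter] at hf ⊢
    exact ⟨hf.1, end_sf_W hf.2⟩
  rw [← sum_sdiff hsub, add_sub_cancel_right, abs_of_nonneg (sum_nonneg fun f _ => hF f)]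
  set T := (prs k n).filter (fun p => Y < p.natDegree ∧ 2 * p.natDegree ≤ n) with hT
  have h1 : ∑ f ∈ (mon k n).filter (Wsf Y) \ (mon k n).filter Squarefree, F f ≤
      ∑ f ∈ mon k n, ∑ p ∈ T, if p ^ 2 ∣ f then F f else 0 := by
    refine le_trans (sum_le_sum (g := fun f => ∑ p ∈ T, if p ^ 2 ∣ f then F f else 0) ?_) ?_
    · intro f hf
      rw [Finset.mem_sdiff, mem_filter, mem_filter] at hf
      obtain ⟨⟨hm, hW⟩, hs⟩ := hf
      have hs' : ¬ Squarefree f := fun h' => hs ⟨hm, h'⟩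
      obtain ⟨hmo, hdeg⟩ := mem_mon.1 hm
      have hf0 : f ≠ 0 := hmo.ne_zero
      rw [squarefree_iff_no_irreducibles hf0] at hs'
      push Not at hs'
      obtain ⟨x, hx, hxf⟩ := hs'
      have hx0 : x ≠ 0 := hx.ne_zero
      have hpm : (normalize x).Monic := monic_normalize hx0
      have hpa : Associated (normalize x) x := normalize_associated x
      have hpi : Irreducible (normalize x) := hpa.symm.irreducible hx
      have hpd : normalize x ^ 2 ∣ f := by
        rw [sq]; exact (hpa.mul_mul hpa).dvd.trans hxf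
      have hle : 2 * (normalize x).natDegree ≤ n := by
        have := natDegree_le_of_dvd hpd hf0
        rwa [natDegree_pow, hdeg] at this
      have hY : Y < (normalize x).natDegree := by
        by_contra hc
        exact hW _ (mem_prs.2 ⟨hpm, hpi, not_lt.1 hc⟩) hpd
      have hmem : normalize x ∈ T := mem_filter.2 ⟨mem_prs.2 ⟨hpm, hpi, by omega⟩, hY, hle⟩
      have := single_le_sum (f := fun p => if p ^ 2 ∣ f then F f else 0)
        (fun p _ => by split_ifs; exacts [hF f, le_rfl]) hmem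
      simpa [hpd] using this
    · refine sum_le_sum_of_subset_of_nonneg (sdiff_subset.trans (filter_subset _ _)) ?_
      intro f _ _
      exact sum_nonneg fun p _ => by split_ifs; exacts [hF f, le_rfl]
  refine h1.trans ?_
  rw [sum_comm]
  have h2 : ∀ p ∈ T, (∑ f ∈ mon k n, if p ^ 2 ∣ f then F f else 0) ≤
      C * qq k ^ n * (1 / nrm p ^ 2) := by
    intro p hp
    obtain ⟨hp1, _, hle⟩ := mem_filter.1 hp
    obtain ⟨hpm, hpi, _⟩ := mem_prs.1 hp1
    rw [← sum_filter, sum_mon_sq_dvd hpm hle]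
    refine (h p hpm hpi _).trans (le_of_eq ?_)
    have : qq k ^ n = qq k ^ (n - 2 * p.natDegree) * nrm p ^ 2 := by
      unfold nrm
      rw [← pow_mul, ← pow_add]
      congr 1
      omega
    have hn : nrm p ≠ 0 := (pow_pos hq _).ne'
    rw [this]
    field_simp
  refine (sum_le_sum h2).trans ?_
  rw [← mul_sum]
  have h3 := sum_inv_sq_le (k := k) Y T
    (fun p hp => ⟨(mem_prs.1 (mem_filter.1 hp).1).1, (mem_filter.1 hp).2.1⟩)
  calc C * qq k ^ n * ∑ p ∈ T, 1 / nrm p ^ 2 ≤ C * qq k ^ n * eta0 k Y :=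
        mul_le_mul_of_nonneg_left h3 (by positivity)
    _ = _ := by ring

theorem end_diff_card (Y n : ℕ) :
    |(((mon k n).filter (Wsf Y)).card : ℝ) - ((mon k n).filter Squarefree).card| ≤
      eta0 k Y * qq k ^ n := by
  have := end_diff (k := k) Y n (fun _ => 1) (fun _ => zero_le_one) zero_le_one
    (fun p _ _ t => by simp [card_mon])
  simpa using this

theorem end_W_one (n : ℕ) :
    qq k ^ n ≤ (((mon k n).filter (Wsf 1)).card : ℝ) + qq k ^ n / qq k := by
  have hq : (0 : ℝ) < qq k := by linarith [two_le_qq (k := k)]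
  have h0 := card_filter_add_card_filter_not (s := mon k n) (Wsf 1)
  have h1 : (mon k n).filter (fun f => ¬ Wsf 1 f) ⊆
      (mon k 1).biUnion (fun p => (mon k n).filter (fun f => p ^ 2 ∣ f)) := by
    intro f hf
    obtain ⟨hm, hW⟩ := mem_filter.1 hf
    unfold Wsf at hW
    push Not at hW
    obtain ⟨p, hp, hd⟩ := hW
    obtain ⟨hpm, hpi, hp1⟩ := mem_prs.1 hp
    have := hpi.natDegree_pos
    exact mem_biUnion.2 ⟨p, mem_mon.2 ⟨hpm, by omega⟩, mem_filter.2 ⟨hm, hd⟩⟩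
  have h2 : (((mon k n).filter (fun f => ¬ Wsf 1 f)).card : ℝ) ≤
      ∑ p ∈ mon k 1, (((mon k n).filter (fun f => p ^ 2 ∣ f)).card : ℝ) := by
    exact_mod_cast (card_le_card h1).trans card_biUnion_le
  have h3 : ∀ p ∈ mon k 1, (((mon k n).filter (fun f => p ^ 2 ∣ f)).card : ℝ) ≤
      qq k ^ n / qq k ^ 2 := by
    intro p hp
    obtain ⟨hpm, hp1⟩ := mem_mon.1 hp
    have := card_mon_dvd_le (N := n) (pow_ne_zero 2 hpm.ne_zero)
    rwa [nrm, natDegree_pow, hp1] at this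
  have h4 := h2.trans (sum_le_sum h3)
  rw [sum_const, nsmul_eq_mul, card_mon] at h4
  have h5 : qq k ^ 1 * (qq k ^ n / qq k ^ 2) = qq k ^ n / qq k := by field_simp
  have h6 : (((mon k n).filter (Wsf 1)).card : ℝ) +
      (((mon k n).filter (fun f => ¬ Wsf 1 f)).card : ℝ) = qq k ^ n := by
    rw [← card_mon]; exact_mod_cast h0
  linarith

variable [CharP k 5]

theorem end_card_sf (n : ℕ) :
    3 / 5 * qq k ^ n ≤ (((mon k n).filter Squarefree).card : ℝ) := by
  have hq : (5 : ℝ) ≤ qq k := five_le_qq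
  have h1 := (abs_le.1 (end_diff_card (k := k) 1 n)).2
  have h2 := end_W_one (k := k) n
  have h3 : qq k ^ n / qq k ≤ qq k ^ n / 5 :=
    div_le_div_of_nonneg_left (by positivity) (by norm_num) hq
  have h4 : eta0 k 1 * qq k ^ n = qq k ^ n / qq k := by unfold eta0; ring
  linarith

/-- first half of END -/
theorem SY_near (Y : ℕ) {ε : ℝ} (hε : 0 < ε) : ∀ᶠ n : ℕ in atTop,
    |SY k Y n - (uu n + 1) * ((mon k n).filter (Wsf Y)).card| ≤
      (5 * ((Y + 2) * eta0 k Y) + ε) * qq k ^ n := by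
  have hq : (0 : ℝ) < qq k := by linarith [two_le_qq (k := k)]
  set P := (prs k Y).powerset with hP
  have hN : (0 : ℝ) < P.card := by exact_mod_cast card_pos.2 ⟨∅, empty_mem_powerset _⟩
  have hε' : 0 < ε / 2 / P.card := by positivity
  have hE : ∀ S : Finset k[X], ∃ Y1 : ℕ, S ∈ P → ∀ Y' : ℕ, Y1 ≤ Y' → ∀ᶠ n : ℕ in atTop,
      ‖Ed (∏ p ∈ S, p) n Y'‖ ≤ ε / 2 / P.card * qq k ^ (n / 2 + n) := by
    intro S
    by_cases hS : S ∈ P
    · obtain ⟨Y1, h⟩ := propE (d := ∏ p ∈ S, p)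
        (monic_prod_of_monic _ _ fun p hp => (mem_prs.1 (mem_powerset.1 hS hp)).1) hε'
      exact ⟨Y1, fun _ => h⟩
    · exact ⟨0, fun h => absurd h hS⟩
  choose Y1 hY1 using hE
  set Y' := P.sup Y1 with hY'
  have hall : ∀ᶠ n : ℕ in atTop, ∀ S ∈ P,
      ‖Ed (∏ p ∈ S, p) n Y'‖ ≤ ε / 2 / P.card * qq k ^ (n / 2 + n) :=
    (eventually_all_finset P).2 fun S hS => hY1 S hS Y' (le_sup hS)
  filter_upwards [hall, eventually_ge_atTop (2 * ∑ p ∈ prs k Y, p.natDegree + 2),
    eventually_ge_atTop (2 * (5 * Y' + 3)),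
    end_pow_large (k := k) (qq k ^ (2 * Y' + 2) / (ε / 2))] with n h1 h2 h3 h4
  have h3' : 5 * Y' + 3 ≤ n / 2 := by omega
  have hfr := frame (k := k) Y Y' h2
  set W : ℝ := (((mon k n).filter (Wsf Y)).card : ℝ) with hW
  set A : ℝ := ∑ f ∈ (mon k n).filter (Wsf Y), (NMaj Y' f : ℝ) with hA
  set M : ℝ := ((Maj k (n / 2) Y').card : ℝ) with hM
  have hR : |qq k ^ (n / 2) * SY k Y n - (qq k ^ (n / 2) * A + (qq k ^ (n / 2) - M) * W)| ≤
      ε / 2 * (qq k ^ (n / 2) * qq k ^ n) := by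
    rw [← Real.norm_eq_abs, ← Complex.norm_real, Complex.ofReal_sub, hfr, add_sub_cancel_left]
    refine (norm_sum_le _ _).trans ?_
    refine (sum_le_sum (g := fun _ => ε / 2 / P.card * qq k ^ (n / 2 + n)) ?_).trans ?_
    · intro S hS
      rw [norm_mul, norm_pow, norm_neg, norm_one, one_pow, one_mul]
      exact h1 S hS
    · rw [sum_const, nsmul_eq_mul, pow_add, ← hP]
      apply le_of_eq
      field_simp
  have hAu : ∑ f ∈ (mon k n).filter (Wsf Y), ((NMaj Y' f : ℝ) - uu n) = A - uu n * W := by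
    rw [sum_sub_distrib, sum_const, nsmul_eq_mul, mul_comm]
  have hup := sum_NMaj_le (k := k) Y h3'
  have hlo : 0 ≤ ∑ f ∈ (mon k n).filter (Wsf Y), ((NMaj Y' f : ℝ) - uu n) :=
    sum_nonneg fun f hf => sub_nonneg.2 (by exact_mod_cast uu_le_NMaj h3' (mem_filter.1 hf).1)
  rw [hAu] at hup hlo
  have hW0 : 0 ≤ W := Nat.cast_nonneg _
  have hW1 : W ≤ qq k ^ n := by
    rw [← card_mon, hW]; exact_mod_cast card_filter_le _ _
  have hM0 : 0 ≤ M := Nat.cast_nonneg _
  have hM1 : M ≤ ε / 2 * qq k ^ (n / 2) := by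
    refine (card_Maj_le _ _).trans ?_
    rw [div_le_iff₀ (by positivity)] at h4
    linarith
  have hMW : M * W ≤ ε / 2 * (qq k ^ (n / 2) * qq k ^ n) := by
    rw [← mul_assoc]
    exact mul_le_mul hM1 hW1 hW0 (by positivity)
  have hMW0 : 0 ≤ M * W := mul_nonneg hM0 hW0
  have hm : 0 < qq k ^ (n / 2) := pow_pos hq _
  have ht : 0 ≤ 5 * ((Y + 2) * eta0 k Y) * qq k ^ n := hlo.trans hup
  have hup' := mul_le_mul_of_nonneg_left hup hm.le
  have hlo' := mul_nonneg hm.le hlo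
  have ht' := mul_nonneg hm.le ht
  obtain ⟨hR1, hR2⟩ := abs_le.1 hR
  rw [abs_le]
  constructor
  · refine le_of_mul_le_mul_left ?_ hm
    nlinarith
  · refine le_of_mul_le_mul_left ?_ hm
    nlinarith

theorem end_uu_le (n : ℕ) : (uu n : ℝ) ≤ 5 := by
  unfold uu
  split_ifs <;> norm_num

theorem end_S0 : ∃ K : ℝ, 0 ≤ K ∧ ∀ n : ℕ,
    ∑ f ∈ mon k n, ((Sol f).card : ℝ) ≤ K * qq k ^ n := by
  have hq : (1 : ℝ) ≤ qq k := by linarith [two_le_qq (k := k)]
  obtain ⟨n0, hn0⟩ := eventually_atTop.1 (SY_near (k := k) 0 one_pos)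
  have hW : ∀ n, (mon k n).filter (Wsf 0) = mon k n := fun n =>
    filter_true_of_mem fun f _ p hp _ => by
      obtain ⟨_, hpi, hp0⟩ := mem_prs.1 hp
      have := hpi.natDegree_pos
      omega
  have hS : ∀ n, 0 ≤ ∑ f ∈ mon k n, ((Sol f).card : ℝ) := fun n =>
    sum_nonneg fun _ _ => Nat.cast_nonneg _
  have hT : 0 ≤ ∑ j ∈ range n0, ∑ f ∈ mon k j, ((Sol f).card : ℝ) := sum_nonneg fun j _ => hS j
  refine ⟨17 + ∑ j ∈ range n0, ∑ f ∈ mon k j, ((Sol f).card : ℝ), by linarith, fun n => ?_⟩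
  have hp : 1 ≤ qq k ^ n := one_le_pow₀ hq
  by_cases hn : n0 ≤ n
  · have h := (abs_le.1 (hn0 n hn)).2
    unfold SY eta0 at h
    rw [hW, card_mon] at h
    have hu := end_uu_le n
    simp only [Nat.cast_zero, pow_zero] at h
    nlinarith
  · have h := single_le_sum (f := fun j => ∑ f ∈ mon k j, ((Sol f).card : ℝ))
      (fun j _ => hS j) (mem_range.2 (not_le.1 hn))
    nlinarith

theorem tendsto_mean_Sol :
    Tendsto (fun n : ℕ => (∑ f ∈ (mon k n).filter Squarefree, ((Sol f).card : ℝ)) /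
      (((mon k n).filter Squarefree).card : ℝ) - (uu n + 1)) atTop (𝓝 0) := by
  have hq : (0 : ℝ) < qq k := by linarith [two_le_qq (k := k)]
  obtain ⟨K, hK0, hK⟩ := end_S0 (k := k)
  rw [Metric.tendsto_nhds]
  intro δ hδ
  obtain ⟨Y, hY⟩ := end_eta_small (k := k) (5 * K + 16) (δ := δ / 4) (by positivity)
  filter_upwards [SY_near (k := k) Y (ε := δ / 4) (by positivity)] with n hn
  have h1 := end_diff (k := k) Y n (fun f => ((Sol f).card : ℝ)) (fun _ => Nat.cast_nonneg _)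
    (C := 5 * K) (by positivity) (fun p hpm hpi t => by
      calc ∑ f ∈ mon k t, ((Sol (p ^ 2 * f)).card : ℝ)
          ≤ ∑ f ∈ mon k t, 5 * ((Sol f).card : ℝ) :=
            sum_le_sum fun f hf => by exact_mod_cast card_Sol_sq_le hpm hpi (mem_mon.1 hf).1
        _ ≤ 5 * K * qq k ^ t := by
            rw [← mul_sum, mul_assoc]
            exact mul_le_mul_of_nonneg_left (hK t) (by norm_num))
  have h2 := end_diff_card (k := k) Y n
  have h3 := end_card_sf (k := k) n
  have hp : 0 < qq k ^ n := pow_pos hq _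
  have hu := end_uu_le n
  have hu0 : (0 : ℝ) ≤ uu n := Nat.cast_nonneg _
  have hη : 0 ≤ eta0 k Y * qq k ^ n := (abs_nonneg _).trans h2
  change |SY k Y n - _| ≤ _ at h1
  set S : ℝ := ∑ f ∈ (mon k n).filter Squarefree, ((Sol f).card : ℝ) with hS
  set B : ℝ := (((mon k n).filter Squarefree).card : ℝ) with hB
  set W : ℝ := (((mon k n).filter (Wsf Y)).card : ℝ) with hW
  have hB0 : 0 < B := by linarith
  have h4 : |(uu n + 1) * (W - B)| ≤ 6 * (eta0 k Y * qq k ^ n) := by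
    rw [abs_mul, abs_of_nonneg (by linarith : (0 : ℝ) ≤ uu n + 1)]
    exact mul_le_mul (by linarith) h2 (abs_nonneg _) (by norm_num)
  have h5 := mul_le_mul_of_nonneg_right hY hp.le
  have h6 : δ * (3 / 5 * qq k ^ n) ≤ δ * B := mul_le_mul_of_nonneg_left h3 hδ.le
  have h7 : 0 < δ * qq k ^ n := mul_pos hδ hp
  rw [Real.dist_eq, sub_zero, div_sub' hB0.ne', abs_div, abs_of_pos hB0, div_lt_iff₀ hB0, abs_lt]
  obtain ⟨a1, a2⟩ := abs_le.1 h1
  obtain ⟨b1, b2⟩ := abs_le.1 hn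
  obtain ⟨c1, c2⟩ := abs_le.1 h4
  constructor <;> nlinarith

end CL5
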