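import Pool.Agent.H92F.MT80
import Pool.Agent.H92F.K5_24

set_option autoImplicit false

namespace Pool.Agent.MP_d0fd9b_nt.F92

open Polynomial Finset

variable {k : Type*} [Field k]

/-! ### the fourth derivative -/

theorem loc_d4_add (a b : k[X]) :
    derivative^[4] (a + b) = derivative^[4] a + derivative^[4] b := by
  simp only [Function.iterate_succ_apply', Function.iterate_zero_apply, derivative_add]

theorem loc_d4_sub (a b : k[X]) :
    derivative^[4] (a - b) = derivative^[4] a - derivative^[4] b := by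
  simp only [Function.iterate_succ_apply', Function.iterate_zero_apply, derivative_sub]

theorem loc_der_pow (p w : k[X]) (j : ℕ) :
    derivative (p ^ (j + 1) * w)
      = p ^ j * (((j : k[X]) + 1) * derivative p * w + p * derivative w) := by
  rw [derivative_mul, derivative_pow_succ]
  simp only [map_add, map_natCast, map_one]
  ring

theorem loc_five [CharP k 5] : (5 : k[X]) = 0 := by
  have h : ((5 : ℕ) : k) = 0 := CharP.cast_eq_zero k 5
  have h2 : (C ((5 : ℕ) : k) : k[X]) = 0 := by rw [h, map_zero]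
  rw [map_natCast] at h2
  exact_mod_cast h2

/-- (C*) -/
theorem loc_cstar [CharP k 5] (p w : k[X]) :
    p ∣ derivative^[4] (p ^ 4 * w) + derivative p ^ 4 * w := by
  obtain ⟨w1, h1⟩ : ∃ w1, w1 = 4 * derivative p * w + p * derivative w := ⟨_, rfl⟩
  obtain ⟨w2, h2⟩ : ∃ w2, w2 = 3 * derivative p * w1 + p * derivative w1 := ⟨_, rfl⟩
  obtain ⟨w3, h3⟩ : ∃ w3, w3 = 2 * derivative p * w2 + p * derivative w2 := ⟨_, rfl⟩
  have e1 : derivative (p ^ 4 * w) = p ^ 3 * w1 := by
    rw [show (4 : ℕ) = 3 + 1 from rfl, loc_der_pow, h1]; push_cast; ring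
  have e2 : derivative (p ^ 3 * w1) = p ^ 2 * w2 := by
    rw [show (3 : ℕ) = 2 + 1 from rfl, loc_der_pow, h2]; push_cast; ring
  have e3 : derivative (p ^ 2 * w2) = p * w3 := by
    rw [show (2 : ℕ) = 1 + 1 from rfl, loc_der_pow, h3]; push_cast; ring
  have e4 : derivative (p * w3) = derivative p * w3 + p * derivative w3 := derivative_mul
  have e : derivative^[4] (p ^ 4 * w) = derivative p * w3 + p * derivative w3 := by
    simp only [Function.iterate_succ_apply', Function.iterate_zero_apply]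
    rw [e1, e2, e3, e4]
  refine ⟨derivative w3 + derivative p * derivative w2 + 2 * derivative p ^ 2 * derivative w1
    + 6 * derivative p ^ 3 * derivative w, ?_⟩
  rw [e]
  have h5 : (5 : k[X]) = 0 := loc_five
  linear_combination (derivative p) * h3 + 2 * derivative p ^ 2 * h2 + 6 * derivative p ^ 3 * h1
    + 5 * derivative p ^ 4 * w * h5

theorem loc_dvd_d4_five [CharP k 5] (p w : k[X]) : p ∣ derivative^[4] (p ^ 5 * w) := by
  have h := loc_cstar p (p * w)
  have h2 : p ∣ derivative p ^ 4 * (p * w) := Dvd.intro (derivative p ^ 4 * w) (by ring)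
  have h3 := (dvd_sub h h2)
  rw [add_sub_cancel_right, show p ^ 4 * (p * w) = p ^ 5 * w by ring] at h3
  exact h3

/-! ### GOOD -/

/-- (GOOD) -/
theorem loc_good {d g l l' : k[X]} {lam : ℕ}
    (hg : ∀ u v : k[X], u ≠ 0 → v ≠ 0 → u.degree < lam → v.degree < lam →
      derivative^[4] (d * g ^ 4 * u * v) ≠ 0)
    (hl : l.degree < lam) (hl' : l'.degree < lam)
    (h : derivative^[4] (d * g ^ 4 * l ^ 2) = derivative^[4] (d * g ^ 4 * l' ^ 2)) :
    l' = l ∨ l' = -l := by
  by_contra hc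
  push Not at hc
  refine hg (l' - l) (l' + l) (sub_ne_zero.2 hc.1) (fun h0 => hc.2 (eq_neg_of_add_eq_zero_left h0))
    ((degree_sub_le _ _).trans_lt (max_lt hl' hl)) ((degree_add_le _ _).trans_lt (max_lt hl' hl)) ?_
  rw [show d * g ^ 4 * (l' - l) * (l' + l) = d * g ^ 4 * l' ^ 2 - d * g ^ 4 * l ^ 2 by ring,
    loc_d4_sub, h, sub_self]

/-! ### BAD -/

open UniqueFactorizationMonoid EuclideanDomain in
/-- (BAD) divisibility -/
theorem loc_bad_dvd [Finite k] [CharP k 5] [DecidableEq k] {d g u v : k[X]}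
    (h : derivative^[4] (d * g ^ 4 * u * v) = 0) :
    g ∣ d * divRadical g ^ 2 * u * v := by
  have hR : radical g * divRadical g = g := radical_mul_divRadical
  have hsq : Squarefree (radical g) := squarefree_radical
  have hsep : (radical g).Separable := PerfectField.separable_iff_squarefree.2 hsq
  have h1 := loc_cstar (radical g) (d * divRadical g ^ 4 * u * v)
  rw [show radical g ^ 4 * (d * divRadical g ^ 4 * u * v)
      = d * (radical g * divRadical g) ^ 4 * u * v by ring, hR, h, zero_add] at h1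
  have h2 : radical g ∣ d * divRadical g ^ 4 * u * v :=
    (IsCoprime.pow_right (n := 4) hsep).dvd_of_dvd_mul_left h1
  have h3 : radical g ∣ (d * divRadical g * u * v) ^ 4 :=
    h2.trans (Dvd.intro (d ^ 3 * u ^ 3 * v ^ 3) (by ring))
  have h4 : radical g ∣ d * divRadical g * u * v := (hsq.dvd_pow_iff_dvd (by norm_num)).1 h3
  obtain ⟨c, hc⟩ := h4
  refine ⟨c, ?_⟩
  calc d * divRadical g ^ 2 * u * v = divRadical g * (d * divRadical g * u * v) := by ring
    _ = radical g * divRadical g * c := by rw [hc]; ring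
    _ = g * c := by rw [hR]

open UniqueFactorizationMonoid EuclideanDomain in
/-- (BAD) factorisation -/
theorem loc_bad_prod [Finite k] [CharP k 5] [DecidableEq k] {d g u v : k[X]} (hd : d ≠ 0)
    (hu : u ≠ 0) (hv : v ≠ 0) (hg : g ≠ 0) (h : derivative^[4] (d * g ^ 4 * u * v) = 0) :
    ∃ g1 g2 : k[X], g = g1 * g2 ∧
      g1.natDegree ≤ d.natDegree + 2 * (divRadical g).natDegree + u.natDegree ∧
      g2.natDegree ≤ v.natDegree := by
  obtain ⟨g1, g2, h1, h2, he⟩ := exists_dvd_and_dvd_of_dvd_mul (loc_bad_dvd h)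
  have hs : divRadical g ≠ 0 := divRadical_ne_zero hg
  refine ⟨g1, g2, he, ?_, natDegree_le_of_dvd h2 hv⟩
  have h0 : d * divRadical g ^ 2 * u ≠ 0 := mul_ne_zero (mul_ne_zero hd (pow_ne_zero _ hs)) hu
  have := natDegree_le_of_dvd h1 h0
  rwa [natDegree_mul (mul_ne_zero hd (pow_ne_zero _ hs)) hu, natDegree_mul hd (pow_ne_zero _ hs),
    natDegree_pow] at this

/-! ### non-squares in a finite field -/

open Classical in
theorem loc_nonsq_card {K : Type*} [Field K] [Fintype K] (h2 : (2 : K) ≠ 0) :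
    Fintype.card K ≤ 2 * (Finset.univ.filter fun x : K => ¬ IsSquare x).card + 1 := by
  have hr : ringChar K ≠ 2 := fun h => h2 (by
    have := ringChar.Nat.cast_ringChar (R := K)
    rw [h] at this
    exact_mod_cast this)
  obtain ⟨c, hc⟩ := FiniteField.exists_nonsquare hr
  have hc0 : c ≠ 0 := fun h => hc (h ▸ IsSquare.zero)
  have h1 : ((Finset.univ.filter fun x : K => IsSquare x).erase 0).card
      ≤ (Finset.univ.filter fun x : K => ¬ IsSquare x).card := by
    refine Finset.card_le_card_of_injOn (fun x => c * x) ?_ ?_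
    · intro x hx
      simp only [Finset.coe_erase, Finset.coe_filter, Finset.mem_univ, true_and, Set.mem_sdiff,
        Set.mem_ofPred_eq, Set.mem_singleton_iff] at hx ⊢
      obtain ⟨⟨y, hy⟩, hx0⟩ := hx
      rintro ⟨z, hz⟩
      have hy0 : y ≠ 0 := fun h => hx0 (by rw [hy, h, mul_zero])
      refine hc ⟨z / y, ?_⟩
      field_simp
      rw [hy] at hz
      linear_combination hz
    · intro x _ y _ hxy
      exact mul_left_cancel₀ hc0 hxy
  have h3 := Finset.card_filter_add_card_filter_not (s := (Finset.univ : Finset K))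
    (fun x : K => IsSquare x)
  have h4 := Finset.pred_card_le_card_erase (s := Finset.univ.filter fun x : K => IsSquare x)
    (a := (0 : K))
  rw [Finset.card_univ] at h3
  omega

variable [Fintype k]

open Classical in
/-- an affine function with unit slope takes at least `(Q-1)/2` non-square values mod `p` -/
theorem loc_affine [CharP k 5] {p : k[X]} (hp : p.Monic) (hi : Irreducible p) (a b : k[X])
    (hb : ¬ p ∣ b) :
    Fintype.card k ^ p.natDegree
      ≤ 2 * ((box k p.natDegree).filter fun t => ¬ ∃ z : k[X], p ∣ z ^ 2 - (a + b * t)).card + 1 := by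
  have : Fact (Irreducible p) := ⟨hi⟩
  have hsurj : ∀ x : AdjoinRoot p, ∃ t ∈ box k p.natDegree, AdjoinRoot.mk p t = x := by
    intro x
    obtain ⟨y, rfl⟩ := AdjoinRoot.mk_surjective x
    refine ⟨y %ₘ p, modByMonic_mem_box hp y, ?_⟩
    rw [AdjoinRoot.mk_eq_mk]
    exact ⟨-(y /ₘ p), by linear_combination modByMonic_add_div y p⟩
  have : Finite (AdjoinRoot p) := by
    refine Finite.of_surjective (fun t : box k p.natDegree => AdjoinRoot.mk p t.1) ?_
    intro x
    obtain ⟨t, ht, h⟩ := hsurj x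
    exact ⟨⟨t, ht⟩, h⟩
  have : Fintype (AdjoinRoot p) := Fintype.ofFinite _
  have h2k : (2 : k) ≠ 0 := by
    intro h
    have h5 : ((5 : ℕ) : k) = 0 := CharP.cast_eq_zero k 5
    have : (1 : k) = 0 := by
      push_cast at h5
      linear_combination h5 - 2 * h
    exact one_ne_zero this
  have h2 : (2 : AdjoinRoot p) ≠ 0 := by
    have := (map_ne_zero (algebraMap k (AdjoinRoot p))).2 h2k
    rwa [map_ofNat] at this
  have hb' : AdjoinRoot.mk p b ≠ 0 := fun h => hb (AdjoinRoot.mk_eq_zero.1 h)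
  have h1 : Fintype.card k ^ p.natDegree ≤ Fintype.card (AdjoinRoot p) := by
    rw [← card_box, ← Finset.card_univ]
    refine Finset.card_le_card_of_injOn (fun t => AdjoinRoot.mk p t) (fun _ _ => by simp) ?_
    intro x hx y hy hxy
    have := eq_zero_of_dvd_of_mem_box hp.ne_zero (sub_mem_box hx hy) (AdjoinRoot.mk_eq_mk.1 hxy)
    exact sub_eq_zero.1 this
  have h3 : (Finset.univ.filter fun x : AdjoinRoot p => ¬ IsSquare x).card
      ≤ ((box k p.natDegree).filter fun t => ¬ ∃ z : k[X], p ∣ z ^ 2 - (a + b * t)).card := by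
    refine Finset.card_le_card_of_surjOn (fun t => AdjoinRoot.mk p (a + b * t)) ?_
    intro x hx
    simp only [Finset.coe_filter, Finset.mem_univ, true_and, Set.mem_ofPred_eq] at hx
    obtain ⟨t, ht, h⟩ := hsurj ((x - AdjoinRoot.mk p a) / AdjoinRoot.mk p b)
    have hx' : AdjoinRoot.mk p (a + b * t) = x := by
      rw [map_add, map_mul, h]
      field_simp
      ring
    refine ⟨t, ?_, hx'⟩
    simp only [Finset.coe_filter, Set.mem_ofPred_eq]
    refine ⟨ht, ?_⟩
    rintro ⟨z, hz⟩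
    refine hx ⟨AdjoinRoot.mk p z, ?_⟩
    rw [← hx', ← map_mul, ← sq]
    exact (AdjoinRoot.mk_eq_mk.2 hz).symm
  have h4 := loc_nonsq_card h2
  omega

/-! ### LOC -/

/-- minus `d` times the fourth derivative of `d g^4 l^2` is a non-square mod `p` -/
def LocNS (d p g l : k[X]) : Prop :=
  ¬ ∃ z : k[X], p ∣ z ^ 2 + d * derivative^[4] (d * g ^ 4 * l ^ 2)

omit [Fintype k] in
theorem loc_not_ns [CharP k 5] {d p g1 l1 g2 l2 : k[X]} (hp : p ∣ g2)
    (h : derivative^[4] (d * g1 ^ 4 * l1 ^ 2) = derivative^[4] (d * g2 ^ 4 * l2 ^ 2)) :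
    ¬ LocNS d p g1 l1 := by
  obtain ⟨c, rfl⟩ := hp
  unfold LocNS
  rw [not_not, h]
  refine ⟨derivative p ^ 2 * d * c ^ 2 * l2, ?_⟩
  have h1 := (loc_cstar p (d * c ^ 4 * l2 ^ 2)).mul_left d
  rw [show p ^ 4 * (d * c ^ 4 * l2 ^ 2) = d * (p * c) ^ 4 * l2 ^ 2 by ring] at h1
  convert h1 using 1
  ring

omit [Fintype k] in
theorem loc_ns_congr [CharP k 5] {d p g l l' : k[X]} (h : p ^ 5 ∣ l - l') :
    LocNS d p g l ↔ LocNS d p g l' := by
  obtain ⟨c, hc⟩ := h
  have h1 := (loc_dvd_d4_five p (d * g ^ 4 * c * (l + l'))).mul_left d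
  rw [show p ^ 5 * (d * g ^ 4 * c * (l + l')) = d * g ^ 4 * (p ^ 5 * c) * (l + l') by ring, ← hc,
    show d * g ^ 4 * (l - l') * (l + l') = d * g ^ 4 * l ^ 2 - d * g ^ 4 * l' ^ 2 by ring,
    loc_d4_sub] at h1
  unfold LocNS
  refine not_congr (exists_congr fun z => ?_)
  refine dvd_iff_dvd_of_dvd_sub ?_
  convert h1 using 1
  ring

open Classical in
theorem loc_shift [CharP k 5] {d p g l : k[X]} (hp : p.Monic) (hi : Irreducible p)
    (hd : ¬ p ∣ d) (hg : ¬ p ∣ g) (hl : ¬ p ∣ l) :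
    Fintype.card k ^ p.natDegree
      ≤ 2 * ((box k p.natDegree).filter fun t => LocNS d p g (p ^ 4 * t + l)).card + 1 := by
  have hpr : Prime p := hi.prime
  have hsep : p.Separable := PerfectField.separable_of_irreducible hi
  have hp' : ¬ p ∣ derivative p := fun h => hi.not_isUnit (hsep.isUnit_of_dvd' dvd_rfl h)
  have h2 : ¬ p ∣ 2 := by
    intro h
    have h5 : (5 : k[X]) = 0 := loc_five
    have h1 : p ∣ 1 := by
      have : (1 : k[X]) = 2 * (-2) := by linear_combination h5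
      rw [this]
      exact h.mul_right _
    exact hi.not_isUnit (isUnit_of_dvd_one h1)
  have hb : ¬ p ∣ 2 * derivative p ^ 4 * d ^ 2 * g ^ 4 * l := by
    intro h
    rcases hpr.dvd_or_dvd h with h | h
    · rcases hpr.dvd_or_dvd h with h | h
      · rcases hpr.dvd_or_dvd h with h | h
        · rcases hpr.dvd_or_dvd h with h | h
          · exact h2 h
          · exact hp' (hpr.dvd_of_dvd_pow h)
        · exact hd (hpr.dvd_of_dvd_pow h)
      · exact hg (hpr.dvd_of_dvd_pow h)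
    · exact hl h
  have h := loc_affine hp hi (-(d * derivative^[4] (d * g ^ 4 * l ^ 2))) _ hb
  refine h.trans (le_of_eq ?_)
  congr 3
  refine Finset.filter_congr fun t _ => ?_
  unfold LocNS
  refine not_congr (exists_congr fun z => ?_)
  refine dvd_iff_dvd_of_dvd_sub ?_
  have h1 := (loc_cstar p (2 * d * g ^ 4 * l * t)).mul_left d
  have h3 := (loc_dvd_d4_five p (p ^ 3 * d * g ^ 4 * t ^ 2)).mul_left d
  rw [show d * g ^ 4 * (p ^ 4 * t + l) ^ 2 = d * g ^ 4 * l ^ 2 + p ^ 4 * (2 * d * g ^ 4 * l * t)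
    + p ^ 5 * (p ^ 3 * d * g ^ 4 * t ^ 2) by ring, loc_d4_add, loc_d4_add]
  have h4 := (dvd_add h1 h3).neg_right
  convert h4 using 1
  ring

open Classical in
theorem loc_mean_ns [CharP k 5] {d p g : k[X]} (hp : p.Monic) (hi : Irreducible p)
    (hd : ¬ p ∣ d) (hg : ¬ p ∣ g) {N : ℕ} (hN : (p ^ 5).natDegree ≤ N) :
    (1 - ((Fintype.card k : ℝ) ^ p.natDegree)⁻¹) ^ 2 / 2
      ≤ mean k N (fun l => if LocNS d p g l then (1 : ℝ) else 0) := by
  obtain ⟨Q, hQ⟩ : ∃ Q : ℝ, Q = (Fintype.card k : ℝ) ^ p.natDegree := ⟨_, rfl⟩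
  have hq : (0 : ℝ) < Fintype.card k := by exact_mod_cast Fintype.card_pos
  have hQ0 : 0 < Q := by rw [hQ]; positivity
  have hP : Per (p ^ 5) (fun l => if LocNS d p g l then (1 : ℝ) else 0) := fun a b hab => by
    simp only [loc_ns_congr hab]
  have hN' : p.natDegree ≤ N := by
    rw [natDegree_pow] at hN
    omega
  have h1 : Q * ∑ l ∈ box k N, (if LocNS d p g l then (1 : ℝ) else 0)
      = ∑ l ∈ box k N, ∑ t ∈ box k p.natDegree,
        (if LocNS d p g (p ^ 4 * t + l) then (1 : ℝ) else 0) := by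
    rw [Finset.sum_comm, Finset.sum_congr rfl fun t _ => sum_box_shift (hp.pow 5) hN hP (p ^ 4 * t),
      Finset.sum_const, card_box, nsmul_eq_mul, hQ]
    push_cast
    rfl
  have h2 : ∑ l ∈ box k N, (if p ∣ l then (0 : ℝ) else (Q - 1) / 2)
      ≤ ∑ l ∈ box k N, ∑ t ∈ box k p.natDegree,
        (if LocNS d p g (p ^ 4 * t + l) then (1 : ℝ) else 0) := by
    refine Finset.sum_le_sum fun l _ => ?_
    split_ifs with hl
    · exact Finset.sum_nonneg fun t _ => by split_ifs <;> norm_num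
    · rw [Finset.sum_boole]
      have h3 := loc_shift hp hi hd hg hl
      have h4 : Q ≤ 2 * (((box k p.natDegree).filter
          fun t => LocNS d p g (p ^ 4 * t + l)).card : ℝ) + 1 := by
        rw [hQ]
        exact_mod_cast h3
      linarith
  rw [sum_box_eq_mean, mean_ite_dvd hp hN', ← h1, sum_box_eq_mean, ← hQ] at h2
  rw [← hQ]
  have hqN : (0 : ℝ) < (Fintype.card k : ℝ) ^ N := by positivity
  have h5 : (Q - 1) / 2 + (0 - (Q - 1) / 2) * Q⁻¹
      ≤ Q * mean k N (fun l => if LocNS d p g l then (1 : ℝ) else 0) := by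
    refine le_of_mul_le_mul_left ?_ hqN
    linarith
  have h6 : (Q - 1) / 2 + (0 - (Q - 1) / 2) * Q⁻¹ = Q * ((1 - Q⁻¹) ^ 2 / 2) := by
    field_simp
    ring
  rw [h6] at h5
  exact le_of_mul_le_mul_left h5 hQ0

theorem loc_five_le [CharP k 5] {p : k[X]} (hi : Irreducible p) :
    (5 : ℝ) ≤ (Fintype.card k : ℝ) ^ p.natDegree := by
  have : Fact (Nat.Prime 5) := ⟨by norm_num⟩
  obtain ⟨n, -, hn⟩ := FiniteField.card k 5
  have h1 : 5 ≤ Fintype.card k := by
    rw [hn]
    exact Nat.le_self_pow n.ne_zero 5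
  have h2 : Fintype.card k ≤ Fintype.card k ^ p.natDegree :=
    Nat.le_self_pow hi.natDegree_pos.ne' _
  exact_mod_cast h1.trans h2

theorem loc_mean_mono {N : ℕ} {F G : k[X] → ℝ} (h : ∀ a, F a ≤ G a) : mean k N F ≤ mean k N G := by
  unfold mean
  exact div_le_div_of_nonneg_right (Finset.sum_le_sum fun a _ => h a) (by positivity)

theorem loc_mean_nonneg {N : ℕ} {F : k[X] → ℝ} (h : ∀ a, 0 ≤ F a) : 0 ≤ mean k N F := by
  unfold mean
  exact div_nonneg (Finset.sum_nonneg fun a _ => h a) (by positivity)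

theorem loc_mean_affine {N : ℕ} (F : k[X] → ℝ) (c : ℝ) :
    mean k N (fun a => 1 - c * F a) = 1 - c * mean k N F := by
  unfold mean
  have := card_ne_zero (k := k) ℝ
  rw [Finset.sum_sub_distrib, ← Finset.mul_sum, Finset.sum_const, card_box, nsmul_eq_mul]
  push_cast
  field_simp

open Classical in
/-- the triple count -/
theorem loc_triple [CharP k 5] {d : k[X]} (S : Finset k[X])
    (hS : ∀ p ∈ S, p.Monic ∧ Irreducible p ∧ ¬ p ∣ d) {m lam : ℕ}
    (hm : ∑ p ∈ S, p.natDegree ≤ m) (hl : 5 * ∑ p ∈ S, p.natDegree ≤ lam) :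
    ∑ g1 ∈ box k m, ∑ l1 ∈ box k lam, ∑ g2 ∈ box k m,
        ∏ p ∈ S, (if p ∣ g2 then (if LocNS d p g1 l1 then (0 : ℝ) else 1) else 1)
      ≤ (Fintype.card k : ℝ) ^ (2 * m + lam)
        * ∏ p ∈ S, (1 - ((Fintype.card k : ℝ) ^ p.natDegree)⁻¹ / 4) := by
  have hq : (0 : ℝ) < Fintype.card k := by exact_mod_cast Fintype.card_pos
  have hco : ∀ p ∈ S, ∀ p' ∈ S, p ≠ p' → IsCoprime p p' := fun p hp p' hp' hne => by
    refine ((hS p hp).2.1.coprime_iff_not_dvd).2 fun h => hne ?_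
    exact eq_of_monic_of_associated (hS p hp).1 (hS p' hp').1
      ((hS p hp).2.1.associated_of_dvd (hS p' hp').2.1 h)
  have hdeg : ∀ p ∈ S, p.natDegree ≤ m := fun p hp =>
    (Finset.single_le_sum (f := fun p : k[X] => p.natDegree) (fun _ _ => Nat.zero_le _) hp).trans hm
  have hl' : ∑ p ∈ S, (p ^ 5).natDegree ≤ lam := by
    simp only [natDegree_pow]
    rwa [← Finset.mul_sum]
  have hdeg5 : ∀ p ∈ S, (p ^ 5).natDegree ≤ lam := fun p hp =>
    (Finset.single_le_sum (f := fun p : k[X] => (p ^ 5).natDegree)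
      (fun _ _ => Nat.zero_le _) hp).trans hl'
  have hx : ∀ p ∈ S, 0 ≤ ((Fintype.card k : ℝ) ^ p.natDegree)⁻¹ ∧
      ((Fintype.card k : ℝ) ^ p.natDegree)⁻¹ ≤ 1 / 5 := fun p hp =>
    ⟨by positivity, by
      rw [one_div]
      exact inv_anti₀ (by norm_num) (loc_five_le (hS p hp).2.1)⟩
  -- step 1: the sum over `g2`
  have h1 : ∀ g1 l1 : k[X], ∑ g2 ∈ box k m,
      ∏ p ∈ S, (if p ∣ g2 then (if LocNS d p g1 l1 then (0 : ℝ) else 1) else 1)
      = (Fintype.card k : ℝ) ^ m * ∏ p ∈ S, (1 - ((Fintype.card k : ℝ) ^ p.natDegree)⁻¹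
        * (if LocNS d p g1 l1 then (1 : ℝ) else 0)) := by
    intro g1 l1
    rw [sum_box_eq_mean, mean_prod S (fun p => p)
      (fun p g2 => if p ∣ g2 then (if LocNS d p g1 l1 then (0 : ℝ) else 1) else 1)
      (fun p hp => (hS p hp).1) hco
      (fun p _ a b hab => by simp only [dvd_iff_dvd_of_dvd_sub hab]) hm]
    congr 1
    refine Finset.prod_congr rfl fun p hp => ?_
    rw [mean_ite_dvd (hS p hp).1 (hdeg p hp)]
    split_ifs <;> ring
  -- step 2: the sum over `l1`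
  have h2 : ∀ g1 : k[X], ∑ l1 ∈ box k lam, ∏ p ∈ S, (1 - ((Fintype.card k : ℝ) ^ p.natDegree)⁻¹
        * (if LocNS d p g1 l1 then (1 : ℝ) else 0))
      ≤ (Fintype.card k : ℝ) ^ lam * ∏ p ∈ S, (if p ∣ g1 then (1 : ℝ) else
        1 - ((Fintype.card k : ℝ) ^ p.natDegree)⁻¹
          * ((1 - ((Fintype.card k : ℝ) ^ p.natDegree)⁻¹) ^ 2 / 2)) := by
    intro g1
    rw [sum_box_eq_mean, mean_prod S (fun p => p ^ 5)
      (fun p l1 => 1 - ((Fintype.card k : ℝ) ^ p.natDegree)⁻¹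
        * (if LocNS d p g1 l1 then (1 : ℝ) else 0))
      (fun p hp => (hS p hp).1.pow 5) (fun p hp p' hp' hne => (hco p hp p' hp' hne).pow)
      (fun p _ a b hab => by simp only [loc_ns_congr hab]) hl']
    refine mul_le_mul_of_nonneg_left (Finset.prod_le_prod (fun p hp => ?_) fun p hp => ?_)
      (by positivity)
    · refine loc_mean_nonneg fun a => ?_
      have := hx p hp
      split_ifs <;> linarith
    · rw [loc_mean_affine]
      split_ifs with hg
      · have h0 : 0 ≤ mean k lam (fun l => if LocNS d p g1 l then (1 : ℝ) else 0) :=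
          loc_mean_nonneg fun a => by split_ifs <;> norm_num
        have := mul_nonneg (hx p hp).1 h0
        linarith
      · have := mul_le_mul_of_nonneg_left
          (loc_mean_ns (hS p hp).1 (hS p hp).2.1 (hS p hp).2.2 hg (hdeg5 p hp)) (hx p hp).1
        linarith
  -- step 3: the sum over `g1`
  have h3 : ∑ g1 ∈ box k m, ∏ p ∈ S, (if p ∣ g1 then (1 : ℝ) else
        1 - ((Fintype.card k : ℝ) ^ p.natDegree)⁻¹
          * ((1 - ((Fintype.card k : ℝ) ^ p.natDegree)⁻¹) ^ 2 / 2))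
      ≤ (Fintype.card k : ℝ) ^ m * ∏ p ∈ S, (1 - ((Fintype.card k : ℝ) ^ p.natDegree)⁻¹ / 4) := by
    rw [sum_box_eq_mean, mean_prod S (fun p => p)
      (fun p g1 => if p ∣ g1 then (1 : ℝ) else 1 - ((Fintype.card k : ℝ) ^ p.natDegree)⁻¹
          * ((1 - ((Fintype.card k : ℝ) ^ p.natDegree)⁻¹) ^ 2 / 2))
      (fun p hp => (hS p hp).1) hco
      (fun p _ a b hab => by simp only [dvd_iff_dvd_of_dvd_sub hab]) hm]
    refine mul_le_mul_of_nonneg_left (Finset.prod_le_prod (fun p hp => ?_) fun p hp => ?_)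
      (by positivity)
    all_goals
      rw [mean_ite_dvd (hS p hp).1 (hdeg p hp)]
      obtain ⟨h0, h5⟩ := hx p hp
      generalize ((Fintype.card k : ℝ) ^ p.natDegree)⁻¹ = x at h0 h5
      have ha : (4 / 5 : ℝ) ^ 3 ≤ (1 - x) ^ 3 := pow_le_pow_left₀ (by norm_num) (by linarith) 3
      have hb : (1 - x) ^ 3 ≤ 1 := pow_le_one₀ (by linarith) (by linarith)
      have he : 1 - x * ((1 - x) ^ 2 / 2) + (1 - (1 - x * ((1 - x) ^ 2 / 2))) * x
          = 1 - x * ((1 - x) ^ 3 / 2) := by ring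
      rw [he]
      nlinarith
  simp only [h1]
  calc ∑ g1 ∈ box k m, ∑ l1 ∈ box k lam, (Fintype.card k : ℝ) ^ m * ∏ p ∈ S,
        (1 - ((Fintype.card k : ℝ) ^ p.natDegree)⁻¹ * (if LocNS d p g1 l1 then (1 : ℝ) else 0))
      ≤ ∑ g1 ∈ box k m, (Fintype.card k : ℝ) ^ m * ((Fintype.card k : ℝ) ^ lam
        * ∏ p ∈ S, (if p ∣ g1 then (1 : ℝ) else 1 - ((Fintype.card k : ℝ) ^ p.natDegree)⁻¹
          * ((1 - ((Fintype.card k : ℝ) ^ p.natDegree)⁻¹) ^ 2 / 2))) := by
        refine Finset.sum_le_sum fun g1 _ => ?_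
        rw [← Finset.mul_sum]
        exact mul_le_mul_of_nonneg_left (h2 g1) (by positivity)
    _ ≤ (Fintype.card k : ℝ) ^ m * ((Fintype.card k : ℝ) ^ lam * ((Fintype.card k : ℝ) ^ m
        * ∏ p ∈ S, (1 - ((Fintype.card k : ℝ) ^ p.natDegree)⁻¹ / 4))) := by
        rw [← Finset.mul_sum, ← Finset.mul_sum]
        exact mul_le_mul_of_nonneg_left (mul_le_mul_of_nonneg_left h3 (by positivity))
          (by positivity)
    _ = _ := by ring

omit [Fintype k] in
open Classical in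
/-- a good `g` takes every value at most twice -/
theorem loc_fibre {d g w : k[X]} {lam : ℕ}
    (hg : ∀ u v : k[X], u ≠ 0 → v ≠ 0 → u.degree < lam → v.degree < lam →
      derivative^[4] (d * g ^ 4 * u * v) ≠ 0) (B : Finset k[X])
    (hB : ∀ l ∈ B, l.degree < lam ∧ w = derivative^[4] (d * g ^ 4 * l ^ 2)) : B.card ≤ 2 := by
  rcases B.eq_empty_or_nonempty with rfl | ⟨l0, h0⟩
  · simp
  · have hsub : B ⊆ {l0, -l0} := fun l hl => by
      have := loc_good hg (hB l0 h0).1 (hB l hl).1 ((hB l0 h0).2.symm.trans (hB l hl).2)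
      simpa using this
    exact (Finset.card_le_card hsub).trans Finset.card_le_two

open Classical in
/-- pairs for one good `g` -/
theorem loc_pair {d g : k[X]} {lam : ℕ}
    (hg : ∀ u v : k[X], u ≠ 0 → v ≠ 0 → u.degree < lam → v.degree < lam →
      derivative^[4] (d * g ^ 4 * u * v) ≠ 0) (T : Finset (k[X] × k[X]))
    (hT : ∀ x ∈ T, x.1.degree < lam ∧ x.2.degree < lam ∧
      derivative^[4] (d * g ^ 4 * x.1 ^ 2) = derivative^[4] (d * g ^ 4 * x.2 ^ 2)) :
    T.card ≤ 2 * Fintype.card k ^ lam := by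
  rw [← card_box]
  refine Finset.card_le_mul_card_image_of_maps_to (f := Prod.fst)
    (fun x hx => mem_box.2 (hT x hx).1) 2 fun l _ => ?_
  rw [← Finset.card_image_of_injOn (f := Prod.snd)]
  · refine loc_fibre (w := derivative^[4] (d * g ^ 4 * l ^ 2)) hg _ fun l' hl' => ?_
    obtain ⟨x, hx, rfl⟩ := Finset.mem_image.1 hl'
    obtain ⟨hx', rfl⟩ := Finset.mem_filter.1 hx
    exact ⟨(hT x hx').2.1, (hT x hx').2.2⟩
  · intro x hx y hy hxy
    exact Prod.ext ((Finset.mem_filter.1 hx).2.trans (Finset.mem_filter.1 hy).2.symm) hxy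

open Classical in
/-- (LOC) with an explicit product -/
theorem loc_main [CharP k 5] {d : k[X]} (S : Finset k[X])
    (hS : ∀ p ∈ S, p.Monic ∧ Irreducible p ∧ ¬ p ∣ d) {m lam : ℕ}
    (hm : ∑ p ∈ S, p.natDegree ≤ m) (hl : 5 * ∑ p ∈ S, p.natDegree ≤ lam)
    (T : Finset ((k[X] × k[X]) × (k[X] × k[X])))
    (hT : ∀ x ∈ T, x.1.1.degree < m ∧ x.1.2.degree < lam ∧ x.2.1.degree < m ∧ x.2.2.degree < lam ∧
      (∀ u v : k[X], u ≠ 0 → v ≠ 0 → u.degree < lam → v.degree < lam →
        derivative^[4] (d * x.2.1 ^ 4 * u * v) ≠ 0) ∧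
      derivative^[4] (d * x.1.1 ^ 4 * x.1.2 ^ 2) = derivative^[4] (d * x.2.1 ^ 4 * x.2.2 ^ 2)) :
    (T.card : ℝ) ≤ 2 * ((Fintype.card k : ℝ) ^ (2 * m + lam)
        * ∏ p ∈ S, (1 - ((Fintype.card k : ℝ) ^ p.natDegree)⁻¹ / 4)) := by
  obtain ⟨U, hU⟩ : ∃ U : Finset (k[X] × k[X] × k[X]), U = (box k m ×ˢ box k lam ×ˢ box k m).filter
      (fun y => ∀ p ∈ S, p ∣ y.2.2 → ¬ LocNS d p y.1 y.2.1) := ⟨_, rfl⟩
  have h1 : T.card ≤ 2 * U.card := by
    refine Finset.card_le_mul_card_image_of_maps_to (f := fun x => (x.1.1, x.1.2, x.2.1))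
      (fun x hx => ?_) 2 fun y _ => ?_
    · obtain ⟨a1, a2, a3, -, -, a6⟩ := hT x hx
      rw [hU, Finset.mem_filter, Finset.mem_product, Finset.mem_product]
      exact ⟨⟨mem_box.2 a1, mem_box.2 a2, mem_box.2 a3⟩, fun p _ hp => loc_not_ns hp a6⟩
    · rcases (T.filter fun x => (x.1.1, x.1.2, x.2.1) = y).eq_empty_or_nonempty with he | ⟨x0, h0⟩
      · rw [he]; simp
      obtain ⟨h0', rfl⟩ := Finset.mem_filter.1 h0
      rw [← Finset.card_image_of_injOn (f := fun x => x.2.2)]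
      · refine loc_fibre (w := derivative^[4] (d * x0.1.1 ^ 4 * x0.1.2 ^ 2)) (hT x0 h0').2.2.2.2.1 _
          fun l' hl' => ?_
        obtain ⟨x, hx, rfl⟩ := Finset.mem_image.1 hl'
        obtain ⟨hx, he⟩ := Finset.mem_filter.1 hx
        simp only [Prod.mk.injEq] at he
        refine ⟨(hT x hx).2.2.2.1, ?_⟩
        rw [← he.1, ← he.2.1, ← he.2.2]
        exact (hT x hx).2.2.2.2.2
      · intro x hx y hy hxy
        have h2 := (Finset.mem_filter.1 hx).2.trans (Finset.mem_filter.1 hy).2.symm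
        simp only [Prod.mk.injEq] at h2
        exact Prod.ext (Prod.ext h2.1 h2.2.1) (Prod.ext h2.2.2 hxy)
  have h2 : (U.card : ℝ) = ∑ g1 ∈ box k m, ∑ l1 ∈ box k lam, ∑ g2 ∈ box k m,
      ∏ p ∈ S, (if p ∣ g2 then (if LocNS d p g1 l1 then (0 : ℝ) else 1) else 1) := by
    rw [hU, Finset.card_filter, Nat.cast_sum, Finset.sum_product]
    refine Finset.sum_congr rfl fun g1 _ => ?_
    rw [Finset.sum_product]
    refine Finset.sum_congr rfl fun l1 _ => Finset.sum_congr rfl fun g2 _ => ?_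
    by_cases h : ∀ p ∈ S, p ∣ g2 → ¬ LocNS d p g1 l1
    · rw [if_pos h, Nat.cast_one, Finset.prod_eq_one]
      intro p hp
      split_ifs with h3 h4
      · exact absurd h4 (h p hp h3)
      · rfl
      · rfl
    · rw [if_neg h, Nat.cast_zero]
      push Not at h
      obtain ⟨p, hp, h3, h4⟩ := h
      exact (Finset.prod_eq_zero hp (by rw [if_pos h3, if_pos h4])).symm
  have h3 : (T.card : ℝ) ≤ 2 * (U.card : ℝ) := by exact_mod_cast h1
  have h4 := loc_triple S hS hm hl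
  rw [← h2] at h4
  linarith

open Classical in
theorem loc_prod_small {d : k[X]} (hd : d ≠ 0) {ε : ℝ} (hε : 0 < ε) :
    ∃ S : Finset k[X], (∀ p ∈ S, p.Monic ∧ Irreducible p ∧ ¬ p ∣ d) ∧
      ∏ p ∈ S, (1 - ((Fintype.card k : ℝ) ^ p.natDegree)⁻¹ / 4) ≤ ε := by
  obtain ⟨S, hS, hR⟩ := primes_div (k := k) (4 / ε + (box k (d.natDegree + 1)).card)
  refine ⟨S.filter fun p => ¬ p ∣ d, fun p hp => ?_, ?_⟩
  · obtain ⟨h1, h2⟩ := Finset.mem_filter.1 hp
    exact ⟨(hS p h1).1, (hS p h1).2, h2⟩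
  have h1 : ∑ p ∈ S.filter (fun p => p ∣ d), ((Fintype.card k : ℝ) ^ p.natDegree)⁻¹
      ≤ (box k (d.natDegree + 1)).card := by
    have h2 : (S.filter fun p => p ∣ d).card ≤ (box k (d.natDegree + 1)).card :=
      Finset.card_le_card fun p hp => mem_box'.2 (Or.inr (Nat.lt_succ_of_le
        (natDegree_le_of_dvd (Finset.mem_filter.1 hp).2 hd)))
    have h3 := Finset.sum_le_card_nsmul (S.filter fun p => p ∣ d)
      (fun p => ((Fintype.card k : ℝ) ^ p.natDegree)⁻¹) 1 fun p hp =>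
        (inv_pow_le_half (hS p (Finset.mem_filter.1 hp).1).2).trans (by norm_num)
    rw [nsmul_eq_mul, mul_one] at h3
    exact h3.trans (by exact_mod_cast h2)
  have h2 := Finset.sum_filter_add_sum_filter_not S (fun p => p ∣ d)
    (fun p => ((Fintype.card k : ℝ) ^ p.natDegree)⁻¹)
  have h3 := prod_one_add_le_exp (S.filter fun p => ¬ p ∣ d)
    (fun p => -(((Fintype.card k : ℝ) ^ p.natDegree)⁻¹ / 4)) fun p hp => by
      have := inv_pow_le_half (hS p (Finset.mem_filter.1 hp).1).2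
      linarith
  simp only [← sub_eq_add_neg] at h3
  rw [Finset.sum_neg_distrib, ← Finset.sum_div] at h3
  refine h3.trans ?_
  generalize ∑ p ∈ S.filter (fun p => ¬ p ∣ d), ((Fintype.card k : ℝ) ^ p.natDegree)⁻¹ = s at h2 ⊢
  have h4 : 1 / ε ≤ s / 4 := by
    have : 4 / ε = 4 * (1 / ε) := by ring
    linarith
  have h5 := Real.add_one_le_exp (s / 4)
  rw [Real.exp_neg, inv_le_comm₀ (Real.exp_pos _) hε, ← one_div]
  linarith

/-- (LOC) -/
theorem loc_eps [CharP k 5] {d : k[X]} (hd : d ≠ 0) {ε : ℝ} (hε : 0 < ε) :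
    ∃ N0 : ℕ, ∀ m lam : ℕ, N0 ≤ m → N0 ≤ lam → ∀ T : Finset ((k[X] × k[X]) × (k[X] × k[X])),
      (∀ x ∈ T, x.1.1.degree < m ∧ x.1.2.degree < lam ∧ x.2.1.degree < m ∧ x.2.2.degree < lam ∧
        (∀ u v : k[X], u ≠ 0 → v ≠ 0 → u.degree < lam → v.degree < lam →
          derivative^[4] (d * x.2.1 ^ 4 * u * v) ≠ 0) ∧
        derivative^[4] (d * x.1.1 ^ 4 * x.1.2 ^ 2) = derivative^[4] (d * x.2.1 ^ 4 * x.2.2 ^ 2)) →
      (T.card : ℝ) ≤ ε * (Fintype.card k : ℝ) ^ (2 * m + lam) := by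
  obtain ⟨S, hS, h⟩ := loc_prod_small hd (half_pos hε)
  refine ⟨5 * ∑ p ∈ S, p.natDegree, fun m lam hm hl T hT => ?_⟩
  have h1 := loc_main S hS (m := m) (by omega) hl T hT
  have h2 : (0 : ℝ) ≤ (Fintype.card k : ℝ) ^ (2 * m + lam) := by positivity
  have h3 := mul_le_mul_of_nonneg_left h h2
  linarith

/-- (MT) few bad `g` -/
theorem loc_bad_eps [CharP k 5] {d : k[X]} (hd : d ≠ 0) (c : ℕ) {ε : ℝ} (hε : 0 < ε) :
    ∃ m0 : ℕ, ∀ m lam : ℕ, m0 ≤ m → 2 * lam ≤ m + c → ∀ B : Finset k[X],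
      (∀ g ∈ B, g ≠ 0 ∧ g.degree < m ∧ ∃ u v : k[X], u ≠ 0 ∧ v ≠ 0 ∧ u.degree < lam ∧
        v.degree < lam ∧ derivative^[4] (d * g ^ 4 * u * v) = 0) →
      (B.card : ℝ) ≤ ε * (Fintype.card k : ℝ) ^ m := by
  classical
  have hs : (4 / 3 : ℝ) ≤ Real.sqrt (Fintype.card k) := H92F.K5.s_ge
  obtain ⟨Z, hZ⟩ := pow_unbounded_of_one_lt (Real.exp 16 / (ε / 2))
    (show (1 : ℝ) < Real.sqrt (Fintype.card k) by linarith)
  obtain ⟨m0, hm0⟩ := mt_core (k := k) (c + 2 * d.natDegree + 4 * Z) (half_pos hε)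
  refine ⟨m0, fun m lam hm hl B hB => ?_⟩
  have h1 := H92F.K5.card_sq_large
    (B.filter fun g => Z ≤ (EuclideanDomain.divRadical g).natDegree) m Z fun g hg => by
      obtain ⟨h1, h2⟩ := Finset.mem_filter.1 hg
      exact ⟨(hB g h1).1, (natDegree_lt_iff_degree_lt (hB g h1).1).2 (hB g h1).2.1, h2⟩
  have h2 := hm0 m hm (B.filter fun g => ¬ Z ≤ (EuclideanDomain.divRadical g).natDegree)
    fun g hg => by
      obtain ⟨h1, h2⟩ := Finset.mem_filter.1 hg
      obtain ⟨g0, hgm, u, v, hu, hv, hul, hvl, h⟩ := hB g h1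
      obtain ⟨g1, g2, he, a1, a2⟩ := loc_bad_prod hd hu hv g0 h
      have b1 := (natDegree_lt_iff_degree_lt hu).2 hul
      have b2 := (natDegree_lt_iff_degree_lt hv).2 hvl
      exact ⟨hgm, g1, g2, he, by omega, by omega⟩
  have h3 := Finset.card_filter_add_card_filter_not (s := B)
    (fun g => Z ≤ (EuclideanDomain.divRadical g).natDegree)
  have h4 : (B.card : ℝ) = ((B.filter fun g => Z ≤ (EuclideanDomain.divRadical g).natDegree).card : ℝ)
      + ((B.filter fun g => ¬ Z ≤ (EuclideanDomain.divRadical g).natDegree).card : ℝ) := by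
    exact_mod_cast h3.symm
  have h5 : (0 : ℝ) < Real.sqrt (Fintype.card k) ^ Z := by positivity
  have h6 : Real.exp 16 * (Fintype.card k : ℝ) ^ m / Real.sqrt (Fintype.card k) ^ Z
      ≤ ε / 2 * (Fintype.card k : ℝ) ^ m := by
    rw [div_lt_iff₀ (half_pos hε)] at hZ
    rw [div_le_iff₀ h5]
    have h7 : (0 : ℝ) ≤ (Fintype.card k : ℝ) ^ m := by positivity
    nlinarith [mul_le_mul_of_nonneg_right hZ.le h7]
  linarith

end Pool.Agent.MP_d0fd9b_nt.F92
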