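import Pool.Agent.H92F.Car
import Pool.Agent.H92F.Ar1
import Pool.Agent.H92F.Ar2
import Pool.Agent.H92F.LOC5

/-! h92f: good g, multiplication table, local obstruction (rows MT, LOC). -/

set_option autoImplicit false
open Polynomial Finset UniqueFactorizationMonoid EuclideanDomain Filter Topology
open scoped Classical

noncomputable section
namespace CL5

variable {k : Type*} [Field k] [Fintype k]

variable [CharP k 5]

theorem good_d4_of_car {a b : k[X]} (h : car a = car b) :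
    derivative^[4] a = derivative^[4] b := by
  have h1 := car_pow_five a
  rw [h, car_pow_five] at h1
  exact (neg_injective h1).symm

theorem good_car_eq_zero_iff {a : k[X]} : car a = 0 ↔ derivative^[4] a = 0 := by
  rw [← neg_eq_zero (a := derivative^[4] a), ← car_pow_five]
  exact (pow_eq_zero_iff (by norm_num)).symm

theorem good_d4 {d g : k[X]} {lam : ℕ} (hg : Good d lam g) :
    ∀ u v : k[X], u ≠ 0 → v ≠ 0 → u.degree < lam → v.degree < lam →
      derivative^[4] (d * g ^ 4 * u * v) ≠ 0 := fun u v hu hv hul hvl h =>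
  hg.2 u (mem_box.2 hul) v (mem_box.2 hvl) hu hv
    (good_car_eq_zero_iff.2 (by rw [← mul_assoc]; exact h))

/-- (MT) -/
theorem card_bad {d : k[X]} (hd : d.Monic) (c : ℕ) {ε : ℝ} (hε : 0 < ε) :
    ∃ m0 : ℕ, ∀ m lam : ℕ, m0 ≤ m → 2 * lam ≤ m + c →
      ((((box k m).erase 0).filter (fun g => ¬ Good d lam g)).card : ℝ) ≤ ε * qq k ^ m := by
  obtain ⟨m0, h⟩ := Pool.Agent.MP_d0fd9b_nt.F92.loc_bad_eps hd.ne_zero c hε
  refine ⟨m0, fun m lam hm hl => h m lam hm hl _ fun g hg => ?_⟩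
  obtain ⟨h1, h2⟩ := Finset.mem_filter.1 hg
  obtain ⟨h0, h3⟩ := Finset.mem_erase.1 h1
  refine ⟨h0, mem_box.1 h3, ?_⟩
  by_contra hc
  refine h2 ⟨h0, fun u hu v hv hu0 hv0 h4 => hc ⟨u, v, hu0, hv0, mem_box.1 hu, mem_box.1 hv, ?_⟩⟩
  rw [mul_assoc (d * g ^ 4)]
  exact good_car_eq_zero_iff.1 h4

theorem card_pairs_good {d g : k[X]} {lam : ℕ} (hg : Good d lam g) :
    (((box k lam ×ˢ box k lam).filter (fun p => Del d g p.1 = Del d g p.2)).card : ℝ) ≤
      2 * qq k ^ lam := by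
  have h := Pool.Agent.MP_d0fd9b_nt.F92.loc_pair (good_d4 hg)
    ((box k lam ×ˢ box k lam).filter (fun p => Del d g p.1 = Del d g p.2)) fun x hx => by
      obtain ⟨h1, h2⟩ := Finset.mem_filter.1 hx
      obtain ⟨h3, h4⟩ := Finset.mem_product.1 h1
      exact ⟨mem_box.1 h3, mem_box.1 h4, good_d4_of_car h2⟩
  unfold qq
  exact_mod_cast h

/-- (LOC) -/
theorem card_coll {d : k[X]} (hd : d.Monic) {ε : ℝ} (hε : 0 < ε) :
    ∃ N0 : ℕ, ∀ m lam : ℕ, N0 ≤ m → N0 ≤ lam →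
      ((((((box k m).filter (Good d lam)) ×ˢ box k lam) ×ˢ
          (((box k m).filter (Good d lam)) ×ˢ box k lam)).filter
        (fun p => Del d p.1.1 p.1.2 = Del d p.2.1 p.2.2)).card : ℝ) ≤
      ε * qq k ^ (2 * m + lam) := by
  obtain ⟨N0, h⟩ := Pool.Agent.MP_d0fd9b_nt.F92.loc_eps hd.ne_zero hε
  refine ⟨N0, fun m lam hm hl => h m lam hm hl _ fun x hx => ?_⟩
  obtain ⟨h1, h2⟩ := Finset.mem_filter.1 hx
  obtain ⟨h3, h4⟩ := Finset.mem_product.1 h1
  obtain ⟨h5, h6⟩ := Finset.mem_product.1 h3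
  obtain ⟨h7, h8⟩ := Finset.mem_product.1 h4
  exact ⟨mem_box.1 (Finset.mem_filter.1 h5).1, mem_box.1 h6, mem_box.1 (Finset.mem_filter.1 h7).1,
    mem_box.1 h8, good_d4 (Finset.mem_filter.1 h7).2, good_d4_of_car h2⟩

end CL5
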