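import Mathlib

/-! h92f, block J2-J6 and the variance bound (overlapping arcs over `k[X]`). -/

open Polynomial Finset
open scoped Classical

namespace Pool.Agent.MP_d0fd9b_nt.J18

variable {k : Type*} [Field k] [Fintype k]

/-- polynomials of degree `< N` -/
noncomputable def bx (k : Type*) [Field k] [Fintype k] (N : ℕ) : Finset k[X] :=
  (Finset.univ : Finset (Fin N → k)).image (fun v => ((degreeLTEquiv k N).symm v : k[X]))

lemma mem_bx {N : ℕ} {g : k[X]} : g ∈ bx k N ↔ g.degree < N := by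
  unfold bx
  rw [Finset.mem_image]
  constructor
  · rintro ⟨v, -, rfl⟩
    exact mem_degreeLT.1 ((degreeLTEquiv k N).symm v).2
  · intro h
    exact ⟨degreeLTEquiv k N ⟨g, mem_degreeLT.2 h⟩, Finset.mem_univ _, by simp⟩

lemma card_bx (N : ℕ) : (bx k N).card = Fintype.card k ^ N := by
  unfold bx
  rw [Finset.card_image_of_injective]
  · simp
  · intro v w h
    exact (degreeLTEquiv k N).symm.injective (Subtype.ext h)

lemma card_eq_of_iff {N : ℕ} (B : Finset k[X]) (hB : ∀ g, g ∈ B ↔ g.degree < N) :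
    B.card = Fintype.card k ^ N := by
  rw [← card_bx]; congr 1; ext g; rw [hB, mem_bx]

lemma card_le_of_deg {N : ℕ} (S : Finset k[X]) (h : ∀ g ∈ S, g.degree < N) :
    S.card ≤ Fintype.card k ^ N := by
  rw [← card_bx]; exact Finset.card_le_card fun g hg => mem_bx.2 (h g hg)

lemma card_le_of_monic {j : ℕ} (S : Finset k[X]) (h : ∀ g ∈ S, g.Monic ∧ g.natDegree = j) :
    S.card ≤ Fintype.card k ^ j := by
  rw [← card_bx]
  refine Finset.card_le_card_of_injOn (fun g => g - X ^ j) ?_ ?_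
  · intro g hg
    obtain ⟨h1, h2⟩ := h g (by simpa using hg)
    have hd : g.degree = (j : WithBot ℕ) := by rw [degree_eq_natDegree h1.ne_zero, h2]
    have := degree_sub_lt_left (p := g) (q := X ^ j) (by rw [hd, degree_X_pow]) h1.ne_zero
      (by rw [h1.leadingCoeff, leadingCoeff_X_pow])
    rw [hd] at this
    simpa using mem_bx.2 this
  · intro a _ b _ hab
    simpa using hab

lemma q_pos : (0 : ℝ) < Fintype.card k := by exact_mod_cast Fintype.card_pos

lemma two_le_q : (2 : ℝ) ≤ Fintype.card k := by exact_mod_cast Fintype.one_lt_card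

/-- multiples of `p` of degree `< N`, `deg p ≤ N` -/
lemma card_mult_le {N : ℕ} {p : k[X]} (hp : p ≠ 0) (hN : p.natDegree ≤ N) (S : Finset k[X])
    (h : ∀ g ∈ S, g.degree < N ∧ p ∣ g) : S.card ≤ Fintype.card k ^ (N - p.natDegree) := by
  rw [← card_bx]
  refine Finset.card_le_card_of_injOn (fun g => g / p) ?_ ?_
  · intro g hg
    obtain ⟨h1, c, rfl⟩ := h g (by simpa using hg)
    have : p * c / p = c := mul_div_cancel_left₀ c hp
    simp only [Finset.mem_coe, this, mem_bx]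
    by_cases hc : c = 0
    · subst hc; simp
    rw [degree_mul, degree_eq_natDegree hp, degree_eq_natDegree hc] at h1
    rw [degree_eq_natDegree hc]
    have : p.natDegree + c.natDegree < N := by exact_mod_cast h1
    exact_mod_cast (by omega : c.natDegree < N - p.natDegree)
  · intro a ha b hb hab
    obtain ⟨-, c, rfl⟩ := h a (by simpa using ha)
    obtain ⟨-, d, rfl⟩ := h b (by simpa using hb)
    simp only [mul_div_cancel_left₀ _ hp] at hab
    rw [hab]

lemma pow_sub_real {a b : ℕ} (h : b ≤ a) :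
    ((Fintype.card k ^ (a - b) : ℕ) : ℝ) = (Fintype.card k : ℝ) ^ a / (Fintype.card k : ℝ) ^ b := by
  have := q_pos (k := k)
  rw [eq_div_iff (by positivity)]
  push_cast
  rw [← pow_add, Nat.sub_add_cancel h]

lemma card_mult_le_real {N : ℕ} {p : k[X]} (hp : p ≠ 0) (S : Finset k[X])
    (h : ∀ g ∈ S, g ≠ 0 ∧ g.degree < N ∧ p ∣ g) :
    (S.card : ℝ) ≤ (Fintype.card k : ℝ) ^ N / (Fintype.card k : ℝ) ^ p.natDegree := by
  have := q_pos (k := k)
  rcases S.eq_empty_or_nonempty with rfl | ⟨g, hg⟩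
  · simp; positivity
  obtain ⟨h0, h1, h2⟩ := h g hg
  have hN : p.natDegree ≤ N := by
    have := natDegree_le_of_dvd h2 h0
    rw [degree_eq_natDegree h0] at h1
    have : g.natDegree < N := by exact_mod_cast h1
    omega
  rw [← pow_sub_real hN]
  exact_mod_cast card_mult_le hp hN S fun g hg => (h g hg).2

lemma card_monic_mult_le_real {j : ℕ} {p : k[X]} (hp : p.Monic) (S : Finset k[X])
    (h : ∀ g ∈ S, g.Monic ∧ g.natDegree = j ∧ p ∣ g) :
    (S.card : ℝ) ≤ (Fintype.card k : ℝ) ^ j / (Fintype.card k : ℝ) ^ p.natDegree := by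
  have := q_pos (k := k)
  rcases S.eq_empty_or_nonempty with rfl | ⟨g, hg⟩
  · simp; positivity
  obtain ⟨h0, h1, h2⟩ := h g hg
  have hN : p.natDegree ≤ j := h1 ▸ natDegree_le_of_dvd h2 h0.ne_zero
  rw [← pow_sub_real hN]
  have : S.card = (S.image fun g => g / p).card := by
    rw [Finset.card_image_of_injOn]
    intro a ha b hb hab
    obtain ⟨-, -, c, rfl⟩ := h a (by simpa using ha)
    obtain ⟨-, -, d, rfl⟩ := h b (by simpa using hb)
    simp only [mul_div_cancel_left₀ _ hp.ne_zero] at hab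
    rw [hab]
  rw [this]
  refine Nat.cast_le.2 (card_le_of_monic _ ?_)
  intro c hc
  obtain ⟨g, hg, rfl⟩ := Finset.mem_image.1 hc
  obtain ⟨h0, h1, c, rfl⟩ := h g hg
  rw [mul_div_cancel_left₀ _ hp.ne_zero]
  have hc : c.Monic := hp.of_mul_monic_left h0
  refine ⟨hc, ?_⟩
  rw [hp.natDegree_mul hc] at h1
  omega

lemma geom_le (Y n : ℕ) :
    ∑ j ∈ Finset.Ioc Y n, 1 / (Fintype.card k : ℝ) ^ j ≤ 1 / (Fintype.card k : ℝ) ^ Y := by
  have hq := two_le_q (k := k)
  have key : ∀ t : ℕ, ∑ j ∈ Finset.Ioc Y (Y + t), 1 / (Fintype.card k : ℝ) ^ j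
      ≤ 1 / (Fintype.card k : ℝ) ^ Y - 1 / (Fintype.card k : ℝ) ^ (Y + t) := by
    intro t
    induction t with
    | zero => simp
    | succ t ih =>
      rw [← add_assoc, Finset.sum_Ioc_succ_top (by omega)]
      have h1 : (0 : ℝ) < (Fintype.card k : ℝ) ^ (Y + t) := by positivity
      have h2 : 2 * (1 / (Fintype.card k : ℝ) ^ (Y + t + 1)) ≤ 1 / (Fintype.card k : ℝ) ^ (Y + t) := by
        rw [pow_succ, mul_one_div, div_le_div_iff₀ (by positivity) h1]
        nlinarith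
      linarith
  rcases le_total n Y with h | h
  · rw [Finset.Ioc_eq_empty (by omega)]; simp
  · obtain ⟨t, rfl⟩ := Nat.exists_eq_add_of_le h
    have := key t
    have h1 : (0 : ℝ) ≤ 1 / (Fintype.card k : ℝ) ^ (Y + t) := by positivity
    linarith

/-- monic polynomials of degree in `(Y, n]` -/
noncomputable def Pm (k : Type*) [Field k] [Fintype k] (Y n : ℕ) : Finset k[X] :=
  (bx k (n + 1)).filter fun p => p.Monic ∧ Y < p.natDegree

lemma mem_Pm {Y n : ℕ} {p : k[X]} : p ∈ Pm k Y n ↔ p.Monic ∧ Y < p.natDegree ∧ p.natDegree ≤ n := by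
  unfold Pm
  rw [Finset.mem_filter, mem_bx]
  constructor
  · rintro ⟨h1, h2, h3⟩
    rw [degree_eq_natDegree h2.ne_zero] at h1
    have : p.natDegree < n + 1 := by exact_mod_cast h1
    exact ⟨h2, h3, by omega⟩
  · rintro ⟨h1, h2, h3⟩
    refine ⟨?_, h1, h2⟩
    rw [degree_eq_natDegree h1.ne_zero]
    exact_mod_cast (by omega : p.natDegree < n + 1)

lemma sum_Pm_le (Y n : ℕ) :
    ∑ p ∈ Pm k Y n, (1 / (Fintype.card k : ℝ) ^ p.natDegree) ^ 2 ≤ 1 / (Fintype.card k : ℝ) ^ Y := by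
  have hq := q_pos (k := k)
  rw [← Finset.sum_fiberwise_of_maps_to (s := Pm k Y n) (t := Finset.Ioc Y n)
    (g := fun p => p.natDegree) (fun p hp => by
      obtain ⟨-, h2, h3⟩ := mem_Pm.1 hp
      exact Finset.mem_Ioc.2 ⟨h2, h3⟩)]
  refine le_trans (Finset.sum_le_sum fun j _ => ?_) (geom_le Y n)
  rw [Finset.sum_congr rfl (g := fun _ => (1 / (Fintype.card k : ℝ) ^ j) ^ 2)
    (fun p hp => by rw [(Finset.mem_filter.1 hp).2])]
  rw [Finset.sum_const, nsmul_eq_mul]
  have h1 : (((Pm k Y n).filter fun p => p.natDegree = j).card : ℝ) ≤ (Fintype.card k : ℝ) ^ j := by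
    exact_mod_cast card_le_of_monic _ fun g hg =>
      ⟨(mem_Pm.1 (Finset.mem_filter.1 hg).1).1, (Finset.mem_filter.1 hg).2⟩
  calc _ ≤ (Fintype.card k : ℝ) ^ j * (1 / (Fintype.card k : ℝ) ^ j) ^ 2 := by gcongr
    _ = _ := by field_simp

omit [Fintype k] in
/-- a common monic irreducible factor -/
lemma exists_common {r g : k[X]} (hr : r ≠ 0) (h : ¬ IsCoprime r g) :
    ∃ p : k[X], p.Monic ∧ Irreducible p ∧ p ∣ r ∧ p ∣ g := by
  have hu : ¬ IsUnit (EuclideanDomain.gcd r g) := fun hu =>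
    h (EuclideanDomain.gcd_isUnit_iff.1 hu)
  have h0 : EuclideanDomain.gcd r g ≠ 0 := fun h0 => hr (EuclideanDomain.gcd_eq_zero_iff.1 h0).1
  obtain ⟨p, hp, hi, hd⟩ := Polynomial.exists_monic_irreducible_factor _ hu
  exact ⟨p, hp, hi, hd.trans (EuclideanDomain.gcd_dvd_left _ _),
    hd.trans (EuclideanDomain.gcd_dvd_right _ _)⟩

/-- pairs `(r, g)`, `r` rough monic of degree `rho`, `g` of degree `< N` with `g ≠ 0` or
`rho ≤ N`, that are not coprime. -/
theorem card_noncoprime_le {Y0 rho N : ℕ} (T : Finset (k[X] × k[X]))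
    (hT : ∀ p ∈ T, p.1.Monic ∧ p.1.natDegree = rho ∧
      (∀ π : k[X], π.Monic → Irreducible π → π ∣ p.1 → Y0 < π.natDegree) ∧
      p.2.degree < N ∧ (p.2 ≠ 0 ∨ rho ≤ N) ∧ ¬ IsCoprime p.1 p.2) :
    (T.card : ℝ) ≤ (Fintype.card k : ℝ) ^ (rho + N) / (Fintype.card k : ℝ) ^ Y0 := by
  have hq := q_pos (k := k)
  have hsub : T ⊆ (Pm k Y0 rho).biUnion fun π => T.filter fun p => π ∣ p.1 ∧ π ∣ p.2 := by
    intro p hp
    obtain ⟨h1, h2, h3, -, -, h6⟩ := hT p hp
    obtain ⟨π, a1, a2, a3, a4⟩ := exists_common h1.ne_zero h6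
    refine Finset.mem_biUnion.2 ⟨π, mem_Pm.2 ⟨a1, h3 π a1 a2 a3, ?_⟩, Finset.mem_filter.2 ⟨hp, a3, a4⟩⟩
    exact h2 ▸ natDegree_le_of_dvd a3 h1.ne_zero
  have h1 : (T.card : ℝ) ≤ ∑ π ∈ Pm k Y0 rho, ((T.filter fun p => π ∣ p.1 ∧ π ∣ p.2).card : ℝ) := by
    exact_mod_cast (Finset.card_le_card hsub).trans Finset.card_biUnion_le
  refine h1.trans ?_
  have h2 : ∀ π ∈ Pm k Y0 rho, ((T.filter fun p => π ∣ p.1 ∧ π ∣ p.2).card : ℝ) ≤
      (Fintype.card k : ℝ) ^ (rho + N) * (1 / (Fintype.card k : ℝ) ^ π.natDegree) ^ 2 := by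
    intro π hπ
    obtain ⟨b1, -, b3⟩ := mem_Pm.1 hπ
    set U := T.filter fun p => π ∣ p.1 ∧ π ∣ p.2 with hU
    have hUs : U ⊆ (U.image Prod.fst) ×ˢ (U.image Prod.snd) := Finset.subset_product
    have c1 : ((U.image Prod.fst).card : ℝ) ≤
        (Fintype.card k : ℝ) ^ rho / (Fintype.card k : ℝ) ^ π.natDegree := by
      refine card_monic_mult_le_real b1 _ fun g hg => ?_
      obtain ⟨p, hp, rfl⟩ := Finset.mem_image.1 hg
      obtain ⟨hp1, hp2, -⟩ := Finset.mem_filter.1 hp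
      exact ⟨(hT p hp1).1, (hT p hp1).2.1, hp2⟩
    have c2 : ((U.image Prod.snd).card : ℝ) ≤
        (Fintype.card k : ℝ) ^ N / (Fintype.card k : ℝ) ^ π.natDegree := by
      by_cases hN : rho ≤ N
      · rw [← pow_sub_real (b3.trans hN)]
        refine Nat.cast_le.2 (card_mult_le b1.ne_zero (b3.trans hN) _ fun g hg => ?_)
        obtain ⟨p, hp, rfl⟩ := Finset.mem_image.1 hg
        obtain ⟨hp1, -, hp2⟩ := Finset.mem_filter.1 hp
        exact ⟨(hT p hp1).2.2.2.1, hp2⟩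
      · refine card_mult_le_real b1.ne_zero _ fun g hg => ?_
        obtain ⟨p, hp, rfl⟩ := Finset.mem_image.1 hg
        obtain ⟨hp1, -, hp2⟩ := Finset.mem_filter.1 hp
        exact ⟨((hT p hp1).2.2.2.2.1).resolve_right hN, (hT p hp1).2.2.2.1, hp2⟩
    have c3 : (U.card : ℝ) ≤ ((U.image Prod.fst).card : ℝ) * ((U.image Prod.snd).card : ℝ) := by
      have := Finset.card_le_card hUs
      rw [Finset.card_product] at this
      exact_mod_cast this
    calc (U.card : ℝ) ≤ _ := c3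
      _ ≤ ((Fintype.card k : ℝ) ^ rho / (Fintype.card k : ℝ) ^ π.natDegree) *
          ((Fintype.card k : ℝ) ^ N / (Fintype.card k : ℝ) ^ π.natDegree) := by gcongr
      _ = _ := by rw [pow_add]; field_simp
  refine (Finset.sum_le_sum h2).trans ?_
  rw [← Finset.mul_sum, div_eq_mul_one_div]
  gcongr
  exact sum_Pm_le Y0 rho


omit [Fintype k] in
lemma deg_mul_lt {a b : k[X]} {s t : ℕ} (ha : a.degree < s) (hb : b.natDegree ≤ t) :
    (a * b).degree < (s + t : ℕ) := by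
  by_cases h0 : a * b = 0
  · rw [h0, degree_zero]; exact WithBot.bot_lt_coe _
  have ha0 : a ≠ 0 := left_ne_zero_of_mul h0
  have hb0 : b ≠ 0 := right_ne_zero_of_mul h0
  rw [degree_eq_natDegree ha0] at ha
  have : a.natDegree < s := by exact_mod_cast ha
  rw [degree_eq_natDegree h0, natDegree_mul ha0 hb0]
  exact_mod_cast (by omega : a.natDegree + b.natDegree < s + t)

omit [Fintype k] in
lemma deg_of_X_pow_mul {c : k[X]} {m N : ℕ} (h : (X ^ m * c).degree < (N : WithBot ℕ)) :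
    c.degree < (N - m : ℕ) := by
  by_cases hc : c = 0
  · rw [hc, degree_zero]; exact WithBot.bot_lt_coe _
  have h0 : X ^ m * c ≠ 0 := mul_ne_zero (pow_ne_zero _ X_ne_zero) hc
  rw [degree_eq_natDegree h0, natDegree_mul (pow_ne_zero _ X_ne_zero) hc, natDegree_X_pow] at h
  have : m + c.natDegree < N := by exact_mod_cast h
  rw [degree_eq_natDegree hc]
  exact_mod_cast (by omega : c.natDegree < N - m)

omit [Fintype k] in
/-- two fractions on the same arc have a small determinant -/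
lemma det_deg {rho m : ℕ} {r s r' s' H : k[X]} (hr : r.natDegree = rho) (hr' : r'.natDegree = rho)
    (h : (s * X ^ m - r * H).degree < (rho : WithBot ℕ)) (h' : (s' * X ^ m - r' * H).degree < (rho : WithBot ℕ)) :
    (s * r' - s' * r).degree < (2 * rho - m : ℕ) := by
  apply deg_of_X_pow_mul
  have e : X ^ m * (s * r' - s' * r) = (s * X ^ m - r * H) * r' - (s' * X ^ m - r' * H) * r := by
    ring
  rw [e, two_mul]
  exact (degree_sub_le _ _).trans_lt (max_lt (deg_mul_lt h hr'.le) (deg_mul_lt h' hr.le))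

omit [Fintype k] in
lemma eq_of_dvd_sub_monic {rho : ℕ} {r a b : k[X]} (hr : r.natDegree = rho) (hr0 : r ≠ 0)
    (ha : a.Monic) (hb : b.Monic) (ha' : a.natDegree = rho) (hb' : b.natDegree = rho)
    (hd : r ∣ a - b) : a = b := by
  have h1 : (a - b).degree < r.degree := by
    have := degree_sub_lt_left (p := a) (q := b)
      (by rw [degree_eq_natDegree ha.ne_zero, degree_eq_natDegree hb.ne_zero, ha', hb'])
      ha.ne_zero (by rw [ha.leadingCoeff, hb.leadingCoeff])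
    rwa [degree_eq_natDegree ha.ne_zero, ha', ← hr, ← degree_eq_natDegree hr0] at this
  exact sub_eq_zero.1 (eq_zero_of_dvd_of_degree_lt hd h1)

section arcs

variable {Y0 rho m : ℕ} {R : Finset k[X]} {Fr : Finset (k[X] × k[X])} {Hf : k[X] × k[X] → k[X]}

/-- J2 -/
theorem J2 (hR : ∀ r ∈ R, r.Monic ∧ r.natDegree = rho ∧
      ∀ π : k[X], π.Monic → Irreducible π → π ∣ r → Y0 < π.natDegree)
    (hFr : ∀ p, p ∈ Fr ↔ p.1 ∈ R ∧ p.2.degree < rho ∧ IsCoprime p.1 p.2) :
    (R.card : ℝ) * (Fintype.card k : ℝ) ^ rho -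
      (Fintype.card k : ℝ) ^ (2 * rho) / (Fintype.card k : ℝ) ^ Y0 ≤ Fr.card := by
  have h1 := card_noncoprime_le (Y0 := Y0) (rho := rho) (N := rho)
    ((R ×ˢ bx k rho).filter fun p => ¬ IsCoprime p.1 p.2) (fun p hp => by
      obtain ⟨a1, a2⟩ := Finset.mem_filter.1 hp
      obtain ⟨a3, a4⟩ := Finset.mem_product.1 a1
      exact ⟨(hR _ a3).1, (hR _ a3).2.1, (hR _ a3).2.2, mem_bx.1 a4, Or.inr le_rfl, a2⟩)
  have h2 := Finset.card_filter_add_card_filter_not (s := R ×ˢ bx k rho)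
    (fun p => IsCoprime p.1 p.2)
  have h3 : ((R ×ˢ bx k rho).filter fun p => IsCoprime p.1 p.2) = Fr := by
    ext p
    rw [hFr, Finset.mem_filter, Finset.mem_product, mem_bx, and_assoc]
  rw [h3, Finset.card_product, card_bx] at h2
  have h4 : (Fr.card : ℝ) + (((R ×ˢ bx k rho).filter fun p => ¬ IsCoprime p.1 p.2).card : ℝ) =
      (R.card : ℝ) * (Fintype.card k : ℝ) ^ rho := by exact_mod_cast h2
  rw [two_mul]
  linarith

/-- trivial upper bound for `L` -/
theorem L_le (hFr : ∀ p ∈ Fr, p.1 ∈ R ∧ p.2.degree < rho) :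
    Fr.card ≤ R.card * Fintype.card k ^ rho := by
  rw [← card_bx, ← Finset.card_product]
  exact Finset.card_le_card fun p hp => Finset.mem_product.2 ⟨(hFr p hp).1, mem_bx.2 (hFr p hp).2⟩

omit [Fintype k] in
/-- `H(r,s)` lies in the box `m` -/
theorem H_deg {r s H : k[X]} (hr : r ≠ 0) (hr' : r.natDegree = rho) (hs : s.degree < rho)
    (h : (s * X ^ m - r * H).degree < (rho : WithBot ℕ)) : H.degree < m := by
  by_cases hH : H = 0
  · rw [hH, degree_zero]; exact WithBot.bot_lt_coe _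
  have h1 : (r * H).degree < (rho + m : ℕ) := by
    have e : r * H = s * X ^ m - (s * X ^ m - r * H) := by ring
    rw [e]
    refine (degree_sub_le _ _).trans_lt (max_lt (deg_mul_lt hs (by simp)) (h.trans_le ?_))
    exact_mod_cast Nat.le_add_right _ _
  rw [degree_eq_natDegree (mul_ne_zero hr hH), natDegree_mul hr hH, hr'] at h1
  have : rho + H.natDegree < rho + m := by exact_mod_cast h1
  rw [degree_eq_natDegree hH]
  exact_mod_cast (by omega : H.natDegree < m)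

/-- J3 -/
theorem J3 (hFr : ∀ p ∈ Fr, p.1.Monic ∧ p.1.natDegree = rho ∧ IsCoprime p.1 p.2)
    (hH : ∀ p ∈ Fr, (p.2 * X ^ m - p.1 * Hf p).degree < (rho : WithBot ℕ)) (H : k[X]) :
    (Fr.filter fun p => Hf p = H).card ≤ Fintype.card k ^ (2 * rho - m) := by
  rcases (Fr.filter fun p => Hf p = H).eq_empty_or_nonempty with h | ⟨p, hp⟩
  · rw [h]; simp
  obtain ⟨hp1, hp2⟩ := Finset.mem_filter.1 hp
  rw [← card_bx]
  refine Finset.card_le_card_of_injOn (fun p' => p.2 * p'.1 - p'.2 * p.1) ?_ ?_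
  · intro p' hp'
    obtain ⟨a1, a2⟩ := Finset.mem_filter.1 (Finset.mem_coe.1 hp')
    refine Finset.mem_coe.2 (mem_bx.2 (det_deg (H := H) (hFr p hp1).2.1 (hFr p' a1).2.1 ?_ ?_))
    · rw [← hp2]; exact hH p hp1
    · rw [← a2]; exact hH p' a1
  · intro a ha b hb hab
    obtain ⟨a1, -⟩ := Finset.mem_filter.1 (Finset.mem_coe.1 ha)
    obtain ⟨b1, -⟩ := Finset.mem_filter.1 (Finset.mem_coe.1 hb)
    simp only at hab
    have e : p.2 * (a.1 - b.1) = p.1 * (a.2 - b.2) := by linear_combination hab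
    have hd : p.1 ∣ a.1 - b.1 := (hFr p hp1).2.2.dvd_of_dvd_mul_left ⟨_, e⟩
    have h1 : a.1 = b.1 := eq_of_dvd_sub_monic (hFr p hp1).2.1 (hFr p hp1).1.ne_zero (hFr a a1).1
      (hFr b b1).1 (hFr a a1).2.1 (hFr b b1).2.1 hd
    rw [h1, sub_self, mul_zero] at e
    have h2 : a.2 = b.2 := sub_eq_zero.1 ((mul_eq_zero.1 e.symm).resolve_left (hFr p hp1).1.ne_zero)
    exact Prod.ext h1 h2

/-- for fixed denominators, numerators with small non-zero determinant -/
lemma card_num_le {N : ℕ} {r r' : k[X]} (hr : r ≠ 0) (hr1 : r.natDegree = rho)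
    (T : Finset (k[X] × k[X]))
    (hT : ∀ t ∈ T, t.1.degree < rho ∧ t.1 * r' - t.2 * r ≠ 0 ∧ (t.1 * r' - t.2 * r).degree < N) :
    T.card ≤ Fintype.card k ^ N := by
  rcases T.eq_empty_or_nonempty with rfl | ⟨t0, ht0⟩
  · simp
  set G := EuclideanDomain.gcd r r' with hG
  have hG0 : G ≠ 0 := fun h0 => hr (EuclideanDomain.gcd_eq_zero_iff.1 h0).1
  obtain ⟨u, hu⟩ : G ∣ r := EuclideanDomain.gcd_dvd_left _ _
  obtain ⟨u', hu'⟩ : G ∣ r' := EuclideanDomain.gcd_dvd_right _ _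
  have hu0 : u ≠ 0 := by rintro rfl; exact hr (by rw [hu, mul_zero])
  have hcop : IsCoprime u u' := by
    have hb := EuclideanDomain.gcd_eq_gcd_ab r r'
    rw [← hG] at hb
    refine ⟨EuclideanDomain.gcdA r r', EuclideanDomain.gcdB r r', ?_⟩
    apply mul_left_cancel₀ hG0
    have : G * (EuclideanDomain.gcdA r r' * u + EuclideanDomain.gcdB r r' * u') =
        (G * u) * EuclideanDomain.gcdA r r' + (G * u') * EuclideanDomain.gcdB r r' := by ring
    rw [this, ← hu, ← hu', ← hb, mul_one]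
  have hc : ∀ t : k[X] × k[X], t.1 * r' - t.2 * r = G * (t.1 * u' - t.2 * u) := by
    intro t; rw [mul_sub]; conv_lhs => rw [hu, hu']
    ring
  have hdeg : G.natDegree + u.natDegree = rho := by rw [← hr1, hu, natDegree_mul hG0 hu0]
  have hlt : ∀ t ∈ T, G.natDegree + (t.1 * u' - t.2 * u).natDegree < N := by
    intro t ht
    obtain ⟨-, a2, a3⟩ := hT t ht
    rw [degree_eq_natDegree a2] at a3
    rw [hc t] at a2 a3
    rw [natDegree_mul hG0 (right_ne_zero_of_mul a2)] at a3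
    exact_mod_cast a3
  have hGN : G.natDegree ≤ N := by have := hlt t0 ht0; omega
  have : Fintype.card k ^ N = (bx k (N - G.natDegree) ×ˢ bx k G.natDegree).card := by
    rw [Finset.card_product, card_bx, card_bx, ← pow_add, Nat.sub_add_cancel hGN]
  rw [this]
  refine Finset.card_le_card_of_injOn (fun t => (t.1 * u' - t.2 * u, t.1 / u)) ?_ ?_
  · intro t ht
    have ht' := Finset.mem_coe.1 ht
    refine Finset.mem_coe.2 (Finset.mem_product.2 ⟨mem_bx.2 ?_, mem_bx.2 ?_⟩)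
    · have := hlt t ht'
      exact degree_le_natDegree.trans_lt (by
        exact_mod_cast (by omega : (t.1 * u' - t.2 * u).natDegree < N - G.natDegree))
    · by_cases h0 : t.1 / u = 0
      · simp only [h0, degree_zero]; exact WithBot.bot_lt_coe _
      have h1 : t.1 ≠ 0 := by rintro h; rw [h] at h0; simp at h0
      have h2 := (hT t ht').1
      rw [degree_eq_natDegree h1] at h2
      have h3 : t.1.natDegree < rho := by exact_mod_cast h2
      have h4 : u.degree ≤ t.1.degree := by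
        by_contra h5
        exact h0 ((Polynomial.div_eq_zero_iff hu0).2 (not_le.1 h5))
      have h5 := degree_add_div hu0 h4
      rw [degree_eq_natDegree hu0, degree_eq_natDegree h0, degree_eq_natDegree h1] at h5
      have h6 : u.natDegree + (t.1 / u).natDegree = t.1.natDegree := by exact_mod_cast h5
      show (t.1 / u).degree < _
      rw [degree_eq_natDegree h0]
      exact_mod_cast (by omega : (t.1 / u).natDegree < G.natDegree)
  · intro a _ b _ hab
    simp only [Prod.mk.injEq] at hab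
    obtain ⟨h1, h2⟩ := hab
    have e : u' * (a.1 - b.1) = u * (a.2 - b.2) := by linear_combination h1
    have hd : u ∣ a.1 - b.1 := hcop.dvd_of_dvd_mul_left ⟨_, e⟩
    have ea := EuclideanDomain.div_add_mod a.1 u
    have eb := EuclideanDomain.div_add_mod b.1 u
    have e2 : a.1 - b.1 = a.1 % u - b.1 % u := by rw [h2] at ea; linear_combination eb - ea
    have h3 : (a.1 - b.1).degree < u.degree := by
      rw [e2]
      exact (degree_sub_le _ _).trans_lt (max_lt (degree_mod_lt _ hu0) (degree_mod_lt _ hu0))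
    have h4 : a.1 - b.1 = 0 := eq_zero_of_dvd_of_degree_lt hd h3
    rw [h4, mul_zero] at e
    exact Prod.ext (sub_eq_zero.1 h4) (sub_eq_zero.1 ((mul_eq_zero.1 e.symm).resolve_left hu0))

/-- J4, pair form -/
theorem J4_pairs (hFr : ∀ p ∈ Fr, p.1 ∈ R ∧ p.1.Monic ∧ p.1.natDegree = rho ∧ p.2.degree < rho ∧
      IsCoprime p.1 p.2)
    (hH : ∀ p ∈ Fr, (p.2 * X ^ m - p.1 * Hf p).degree < (rho : WithBot ℕ)) :
    ((Fr ×ˢ Fr).filter fun w => Hf w.1 = Hf w.2).card ≤
      Fr.card + R.card ^ 2 * Fintype.card k ^ (2 * rho - m) := by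
  set W := (Fr ×ˢ Fr).filter fun w => Hf w.1 = Hf w.2 with hW
  rw [← Finset.card_filter_add_card_filter_not (s := W) (fun w => w.1 = w.2)]
  refine add_le_add ?_ ?_
  · refine Finset.card_le_card_of_injOn Prod.fst ?_ ?_
    · intro w hw
      exact (Finset.mem_product.1 (Finset.mem_filter.1 (Finset.mem_filter.1
        (Finset.mem_coe.1 hw)).1).1).1
    · intro a ha b hb hab
      have a1 := (Finset.mem_filter.1 (Finset.mem_coe.1 ha)).2
      have b1 := (Finset.mem_filter.1 (Finset.mem_coe.1 hb)).2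
      exact Prod.ext hab (by rw [← a1, ← b1, hab])
  · have := Finset.card_le_mul_card_image_of_maps_to (s := W.filter fun w => ¬ w.1 = w.2)
      (t := R ×ˢ R) (f := fun w => (w.1.1, w.2.1)) (fun w hw => by
        obtain ⟨a1, a2⟩ := Finset.mem_product.1 (Finset.mem_filter.1 (Finset.mem_filter.1 hw).1).1
        exact Finset.mem_product.2 ⟨(hFr _ a1).1, (hFr _ a2).1⟩)
      (Fintype.card k ^ (2 * rho - m)) (fun b _ => by
        set U := (W.filter fun w => ¬ w.1 = w.2).filter fun w => (w.1.1, w.2.1) = b with hU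
        rcases U.eq_empty_or_nonempty with h | ⟨w0, hw0⟩
        · rw [h]; simp
        have key : ∀ w ∈ U, w.1 ∈ Fr ∧ w.2 ∈ Fr ∧ Hf w.1 = Hf w.2 ∧ w.1 ≠ w.2 ∧ w.1.1 = b.1 ∧
            w.2.1 = b.2 := by
          intro w hw
          obtain ⟨a1, a2⟩ := Finset.mem_filter.1 hw
          obtain ⟨a3, a4⟩ := Finset.mem_filter.1 a1
          obtain ⟨a5, a6⟩ := Finset.mem_filter.1 a3
          obtain ⟨a7, a8⟩ := Finset.mem_product.1 a5
          exact ⟨a7, a8, a6, a4, by rw [← a2], by rw [← a2]⟩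
        have hb1 : b.1.Monic ∧ b.1.natDegree = rho := by
          obtain ⟨a1, -, -, -, a5, -⟩ := key w0 hw0
          rw [← a5]; exact ⟨(hFr _ a1).2.1, (hFr _ a1).2.2.1⟩
        have hc : U.card = (U.image fun w => (w.1.2, w.2.2)).card := by
          rw [Finset.card_image_of_injOn]
          intro a ha c hc hac
          obtain ⟨-, -, -, -, a5, a6⟩ := key a (Finset.mem_coe.1 ha)
          obtain ⟨-, -, -, -, c5, c6⟩ := key c (Finset.mem_coe.1 hc)
          simp only [Prod.mk.injEq] at hac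
          exact Prod.ext (Prod.ext (a5.trans c5.symm) hac.1) (Prod.ext (a6.trans c6.symm) hac.2)
        rw [hc]
        refine card_num_le (rho := rho) (r := b.1) (r' := b.2) hb1.1.ne_zero hb1.2 _ fun t ht => ?_
        obtain ⟨w, hw, rfl⟩ := Finset.mem_image.1 ht
        obtain ⟨a1, a2, a3, a4, a5, a6⟩ := key w hw
        obtain ⟨-, c1, c2, c3, c4⟩ := hFr _ a1
        obtain ⟨-, d1, d2, d3, d4⟩ := hFr _ a2
        rw [← a5, ← a6]
        refine ⟨c3, fun h0 => a4 ?_, det_deg (H := Hf w.1) c2 d2 (hH _ a1) (a3 ▸ hH _ a2)⟩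
        have e : w.1.2 * w.2.1 = w.1.1 * w.2.2 := by linear_combination h0
        have hd : w.1.1 ∣ w.1.1 - w.2.1 :=
          dvd_sub dvd_rfl (c4.dvd_of_dvd_mul_left ⟨_, e⟩)
        have h1 : w.1.1 = w.2.1 := eq_of_dvd_sub_monic c2 c1.ne_zero c1 d1 c2 d2 hd
        rw [← h1, mul_comm] at e
        exact Prod.ext h1 (mul_left_cancel₀ c1.ne_zero e))
    rwa [Finset.card_product, mul_comm, ← sq] at this

omit [Fintype k] in
lemma sum_sq_fibre_le (B : Finset k[X]) :
    ∑ H ∈ B, (Fr.filter fun p => Hf p = H).card ^ 2 ≤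
      ((Fr ×ˢ Fr).filter fun w => Hf w.1 = Hf w.2).card := by
  have h1 : ∀ H ∈ B, (Fr.filter fun p => Hf p = H).card ^ 2 =
      (((Fr ×ˢ Fr).filter fun w => Hf w.1 = Hf w.2).filter fun w => Hf w.1 = H).card := by
    intro H _
    rw [sq, ← Finset.card_product]
    congr 1
    ext w
    simp only [Finset.mem_product, Finset.mem_filter]
    constructor
    · rintro ⟨⟨a1, a2⟩, a3, a4⟩; exact ⟨⟨⟨a1, a3⟩, a2.trans a4.symm⟩, a2⟩
    · rintro ⟨⟨⟨a1, a3⟩, a2⟩, a4⟩; exact ⟨⟨a1, a4⟩, a3, a2 ▸ a4⟩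
  rw [Finset.sum_congr rfl h1, ← Finset.card_biUnion]
  · exact Finset.card_le_card (Finset.biUnion_subset.2 fun H _ => Finset.filter_subset _ _)
  · intro H _ H' _ hne
    exact Finset.disjoint_filter.2 fun w _ h h' => hne (h.symm.trans h')

/-- J4 -/
theorem J4 (hFr : ∀ p ∈ Fr, p.1 ∈ R ∧ p.1.Monic ∧ p.1.natDegree = rho ∧ p.2.degree < rho ∧
      IsCoprime p.1 p.2)
    (hH : ∀ p ∈ Fr, (p.2 * X ^ m - p.1 * Hf p).degree < (rho : WithBot ℕ)) (B : Finset k[X]) :
    ∑ H ∈ B, (Fr.filter fun p => Hf p = H).card ^ 2 ≤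
      Fr.card + R.card ^ 2 * Fintype.card k ^ (2 * rho - m) :=
  (sum_sq_fibre_le B).trans (J4_pairs hFr hH)

/-- J5 -/
theorem J5 (hFr : ∀ p ∈ Fr, p.1.Monic ∧ p.1.natDegree = rho ∧
      (∀ π : k[X], π.Monic → Irreducible π → π ∣ p.1 → Y0 < π.natDegree) ∧ p.2.degree < rho)
    (G : Finset k[X]) (hG : ∀ g ∈ G, g ≠ 0 ∧ g.degree < m) :
    ∑ g ∈ G, ((Fr.filter fun p => ¬ IsCoprime p.1 g).card : ℝ) ≤
      (Fintype.card k : ℝ) ^ (m + 2 * rho) / (Fintype.card k : ℝ) ^ Y0 := by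
  have hq := q_pos (k := k)
  set R' := Fr.image Prod.fst with hR'
  have h1 : ∀ g ∈ G, ((Fr.filter fun p => ¬ IsCoprime p.1 g).card : ℝ) ≤
      ((R'.filter fun r => ¬ IsCoprime r g).card : ℝ) * (Fintype.card k : ℝ) ^ rho := by
    intro g _
    exact_mod_cast L_le (R := R'.filter fun r => ¬ IsCoprime r g) (rho := rho) fun p hp => by
      obtain ⟨a1, a2⟩ := Finset.mem_filter.1 hp
      exact ⟨Finset.mem_filter.2 ⟨Finset.mem_image_of_mem _ a1, a2⟩, (hFr p a1).2.2.2⟩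
  refine (Finset.sum_le_sum h1).trans ?_
  rw [← Finset.sum_mul]
  have h2 : ∑ g ∈ G, (R'.filter fun r => ¬ IsCoprime r g).card =
      ((R' ×ˢ G).filter fun p => ¬ IsCoprime p.1 p.2).card := by
    rw [Finset.card_filter, Finset.sum_product_right]
    exact Finset.sum_congr rfl fun g _ => Finset.card_filter _ _
  have h3 := card_noncoprime_le (Y0 := Y0) (rho := rho) (N := m)
    ((R' ×ˢ G).filter fun p => ¬ IsCoprime p.1 p.2) (fun p hp => by
      obtain ⟨a1, a2⟩ := Finset.mem_filter.1 hp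
      obtain ⟨a3, a4⟩ := Finset.mem_product.1 a1
      obtain ⟨p', a5, a6⟩ := Finset.mem_image.1 a3
      have := hFr p' a5
      rw [a6] at this
      exact ⟨this.1, this.2.1, this.2.2.1, (hG _ a4).2, Or.inl (hG _ a4).1, a2⟩)
  rw [← h2] at h3
  push_cast at h3
  calc _ ≤ (Fintype.card k : ℝ) ^ (rho + m) / (Fintype.card k : ℝ) ^ Y0 *
        (Fintype.card k : ℝ) ^ rho := by gcongr
    _ = _ := by rw [two_mul, pow_add, pow_add, pow_add]; ring

omit [Fintype k] in
/-- J6, pointwise: an `H` on an arc has no short relation `r0 H = s0 X^m + w0`. -/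
theorem J6 {Y' : ℕ} {r s H r0 s0 : k[X]} (hr : r.natDegree = rho) (hc : IsCoprime r s)
    (h : (s * X ^ m - r * H).degree < (rho : WithBot ℕ)) (h1 : Y' < rho) (h2 : rho + Y' < m)
    (h0 : r0 ≠ 0) (hd : r0.natDegree ≤ Y') (hw : (r0 * H - s0 * X ^ m).degree ≤ (Y' : WithBot ℕ)) : False := by
  have e : X ^ m * (r0 * s - r * s0) = (r0 * H - s0 * X ^ m) * r + (s * X ^ m - r * H) * r0 := by
    ring
  have hw' : (r0 * H - s0 * X ^ m).degree < ((Y' + 1 : ℕ) : WithBot ℕ) :=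
    hw.trans_lt (by exact_mod_cast Nat.lt_succ_self Y')
  have h3 : (X ^ m * (r0 * s - r * s0)).degree < (m : WithBot ℕ) := by
    rw [e]
    refine (degree_add_le _ _).trans_lt (max_lt ((deg_mul_lt hw' hr.le).trans_le ?_)
      ((deg_mul_lt h hd).trans_le ?_))
    · exact_mod_cast (by omega : Y' + 1 + rho ≤ m)
    · exact_mod_cast (by omega : rho + Y' ≤ m)
  have h4 := deg_of_X_pow_mul h3
  rw [Nat.sub_self] at h4
  have h5 : r0 * s - r * s0 = 0 := by
    by_contra h6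
    rw [degree_eq_natDegree h6] at h4
    exact absurd (by exact_mod_cast h4 : (r0 * s - r * s0).natDegree < 0) (Nat.not_lt_zero _)
  have h6 : r ∣ r0 := hc.dvd_of_dvd_mul_right ⟨s0, by linear_combination h5⟩
  have := natDegree_le_of_dvd h6 h0
  omega

omit [Fintype k] in
/-- J6 with `%ₘ` -/
theorem J6_mod {Y' : ℕ} {r s H r0 : k[X]} (hr : r.natDegree = rho) (hc : IsCoprime r s)
    (h : (s * X ^ m - r * H).degree < (rho : WithBot ℕ)) (h1 : Y' < rho) (h2 : rho + Y' < m)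
    (h0 : r0 ≠ 0) (hd : r0.natDegree ≤ Y') (hw : ((r0 * H) %ₘ X ^ m).degree ≤ (Y' : WithBot ℕ)) : False := by
  refine J6 (s0 := (r0 * H) /ₘ X ^ m) hr hc h h1 h2 h0 hd ?_
  rwa [modByMonic_eq_sub_mul_div, mul_comm (X ^ m)] at hw

omit [Fintype k] in
/-- `H(r,s) = s X^m /ₘ r` satisfies the hypothesis `hH` -/
theorem hH_divByMonic {r s : k[X]} (hr : r.Monic) (hr' : r.natDegree = rho) :
    (s * X ^ m - r * ((s * X ^ m) /ₘ r)).degree < (rho : WithBot ℕ) := by
  rw [← modByMonic_eq_sub_mul_div, ← hr', ← degree_eq_natDegree hr.ne_zero]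
  exact degree_modByMonic_lt _ hr

omit [Fintype k] in
/-- `H(r,s) = s X^m / r` satisfies the hypothesis `hH` -/
theorem hH_div {r s : k[X]} (hr : r ≠ 0) (hr' : r.natDegree = rho) :
    (s * X ^ m - r * ((s * X ^ m) / r)).degree < (rho : WithBot ℕ) := by
  rw [← EuclideanDomain.mod_eq_sub_mul_div, ← hr', ← degree_eq_natDegree hr]
  exact degree_mod_lt _ hr

omit [Fintype k] in
lemma sum_fibre (B : Finset k[X]) (hB : ∀ p ∈ Fr, Hf p ∈ B) :
    ∑ H ∈ B, (Fr.filter fun p => Hf p = H).card = Fr.card :=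
  (Finset.card_eq_sum_card_fiberwise hB).symm

omit [Field k] [Fintype k] in
/-- mean of `|1 - I|` when the mean of `I` is one -/
lemma var_bound {α : Type*} (B : Finset α) (n : α → ℝ) {Q L S : ℝ} (hQ : (B.card : ℝ) = Q)
    (hQ0 : 0 < Q) (hL : 0 < L) (h1 : ∑ H ∈ B, n H = L) (h2 : ∑ H ∈ B, n H ^ 2 ≤ S) :
    (∑ H ∈ B, |1 - n H * Q / L|) / Q ≤ Real.sqrt (Q * S / L ^ 2 - 1) := by
  apply Real.le_sqrt_of_sq_le
  have c := sq_sum_le_card_mul_sum_sq (s := B) (f := fun H => |1 - n H * Q / L|)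
  have e : ∑ H ∈ B, |1 - n H * Q / L| ^ 2 = Q - 2 * Q + (∑ H ∈ B, n H ^ 2) * Q ^ 2 / L ^ 2 := by
    have : ∀ H ∈ B, |1 - n H * Q / L| ^ 2 = 1 - n H * (2 * Q / L) + n H ^ 2 * (Q ^ 2 / L ^ 2) := by
      intro H _; rw [sq_abs]; ring
    rw [Finset.sum_congr rfl this, Finset.sum_add_distrib, Finset.sum_sub_distrib, ← Finset.sum_mul,
      ← Finset.sum_mul, h1, Finset.sum_const, nsmul_eq_mul, hQ]
    field_simp
  rw [e, hQ] at c
  rw [div_pow, div_le_iff₀ (by positivity)]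
  refine c.trans ?_
  have : (∑ H ∈ B, n H ^ 2) * Q ^ 2 / L ^ 2 ≤ S * Q ^ 2 / L ^ 2 := by gcongr
  have e2 : (Q * S / L ^ 2 - 1) * Q ^ 2 = Q * (Q - 2 * Q + S * Q ^ 2 / L ^ 2) := by ring
  rw [e2]
  gcongr

/-- JV: the mean of `|1 - I_g|` over `g ∈ G`, `H ∈ B` (`B` the box `m`, `G` nonzero elements of it) -/
theorem JV (hm : m ≤ 2 * rho)
    (hFr : ∀ p ∈ Fr, p.1 ∈ R ∧ p.1.Monic ∧ p.1.natDegree = rho ∧
      (∀ π : k[X], π.Monic → Irreducible π → π ∣ p.1 → Y0 < π.natDegree) ∧ p.2.degree < rho ∧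
      IsCoprime p.1 p.2)
    (hH : ∀ p ∈ Fr, (p.2 * X ^ m - p.1 * Hf p).degree < (rho : WithBot ℕ))
    (hL : 0 < Fr.card) (B : Finset k[X]) (hB : ∀ g, g ∈ B ↔ g.degree < m)
    (G : Finset k[X]) (hG : ∀ g ∈ G, g ≠ 0 ∧ g.degree < m) :
    (∑ g ∈ G, ∑ H ∈ B, |1 - ((Fr.filter fun p => IsCoprime p.1 g ∧ Hf p = H).card : ℝ) *
        (Fintype.card k : ℝ) ^ m / Fr.card|) / (Fintype.card k : ℝ) ^ (2 * m) ≤
      Real.sqrt ((Fintype.card k : ℝ) ^ m / Fr.card +
        ((R.card : ℝ) * (Fintype.card k : ℝ) ^ rho / Fr.card) ^ 2 - 1) +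
      1 / (Fintype.card k : ℝ) ^ Y0 * ((Fintype.card k : ℝ) ^ (2 * rho) / Fr.card) := by
  have hq := q_pos (k := k)
  set Q : ℝ := (Fintype.card k : ℝ) ^ m with hQ
  have hQ0 : 0 < Q := by positivity
  have hL' : (0 : ℝ) < Fr.card := by exact_mod_cast hL
  have hBc : (B.card : ℝ) = Q := by rw [card_eq_of_iff B hB]; push_cast; rfl
  have hGc : (G.card : ℝ) ≤ Q := by
    have := card_le_of_deg G fun g hg => (hG g hg).2
    rw [hQ]; exact_mod_cast this
  have hmap : ∀ p ∈ Fr, Hf p ∈ B := fun p hp =>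
    (hB _).2 (H_deg (hFr p hp).2.1.ne_zero (hFr p hp).2.2.1 (hFr p hp).2.2.2.2.1 (hH p hp))
  have h1 : ∑ H ∈ B, ((Fr.filter fun p => Hf p = H).card : ℝ) = Fr.card := by
    exact_mod_cast sum_fibre B hmap
  have h2 : ∑ H ∈ B, ((Fr.filter fun p => Hf p = H).card : ℝ) ^ 2 ≤
      Fr.card + (R.card : ℝ) ^ 2 * ((Fintype.card k : ℝ) ^ (2 * rho) / Q) := by
    rw [hQ, ← pow_sub_real hm]
    exact_mod_cast J4 (fun p hp => ⟨(hFr p hp).1, (hFr p hp).2.1, (hFr p hp).2.2.1,
      (hFr p hp).2.2.2.2⟩) hH B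
  have h3 := var_bound B (fun H => ((Fr.filter fun p => Hf p = H).card : ℝ)) hBc hQ0 hL' h1 h2
  have e3 : Q * (Fr.card + (R.card : ℝ) ^ 2 * ((Fintype.card k : ℝ) ^ (2 * rho) / Q)) /
      (Fr.card : ℝ) ^ 2 - 1 = Q / Fr.card +
        ((R.card : ℝ) * (Fintype.card k : ℝ) ^ rho / Fr.card) ^ 2 - 1 := by
    rw [mul_comm 2 rho, pow_mul]; field_simp
  rw [e3] at h3
  set A := Real.sqrt (Q / Fr.card + ((R.card : ℝ) * (Fintype.card k : ℝ) ^ rho / Fr.card) ^ 2 - 1)
    with hA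
  have hA0 : 0 ≤ A := Real.sqrt_nonneg _
  rw [div_le_iff₀ hQ0] at h3
  have h4 : ∀ g ∈ G, ∑ H ∈ B, |1 - ((Fr.filter fun p => IsCoprime p.1 g ∧ Hf p = H).card : ℝ) *
        Q / Fr.card| ≤ A * Q + ((Fr.filter fun p => ¬ IsCoprime p.1 g).card : ℝ) * (Q / Fr.card) := by
    intro g _
    have h5 : ∑ H ∈ B, (((Fr.filter fun p => ¬ IsCoprime p.1 g).filter fun p => Hf p = H).card : ℝ)
        = (Fr.filter fun p => ¬ IsCoprime p.1 g).card := by
      exact_mod_cast sum_fibre B fun p hp => hmap p (Finset.mem_filter.1 hp).1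
    rw [← h5, Finset.sum_mul]
    refine le_trans ?_ (add_le_add h3 le_rfl)
    rw [← Finset.sum_add_distrib]
    refine Finset.sum_le_sum fun H _ => ?_
    have h6 := Finset.card_filter_add_card_filter_not (s := Fr.filter fun p => Hf p = H)
      (fun p => IsCoprime p.1 g)
    have h7 : ((Fr.filter fun p => Hf p = H).filter fun p => IsCoprime p.1 g) =
        Fr.filter fun p => IsCoprime p.1 g ∧ Hf p = H := by
      rw [Finset.filter_filter]; exact Finset.filter_congr fun p _ => and_comm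
    rw [h7, Finset.filter_comm] at h6
    have h8 : ((Fr.filter fun p => IsCoprime p.1 g ∧ Hf p = H).card : ℝ) =
        ((Fr.filter fun p => Hf p = H).card : ℝ) -
        (((Fr.filter fun p => ¬ IsCoprime p.1 g).filter fun p => Hf p = H).card : ℝ) := by
      rw [eq_sub_iff_add_eq]; exact_mod_cast h6
    rw [h8]
    set a := ((Fr.filter fun p => Hf p = H).card : ℝ)
    set b := (((Fr.filter fun p => ¬ IsCoprime p.1 g).filter fun p => Hf p = H).card : ℝ) with hb
    have hb0 : 0 ≤ b * (Q / Fr.card) := by positivity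
    have e : 1 - (a - b) * Q / Fr.card = (1 - a * Q / Fr.card) + b * (Q / Fr.card) := by ring
    rw [e]
    exact (abs_add_le _ _).trans (by rw [abs_of_nonneg hb0])
  have h5 := J5 (Fr := Fr) (Y0 := Y0) (rho := rho) (m := m) (fun p hp => ⟨(hFr p hp).2.1,
    (hFr p hp).2.2.1, (hFr p hp).2.2.2.1, (hFr p hp).2.2.2.2.1⟩) G hG
  have h6 := Finset.sum_le_sum h4
  rw [Finset.sum_add_distrib, Finset.sum_const, nsmul_eq_mul, ← Finset.sum_mul] at h6
  have e7 : (Fintype.card k : ℝ) ^ (2 * m) = Q * Q := by rw [two_mul, pow_add]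
  rw [e7, div_le_iff₀ (by positivity)]
  refine h6.trans ?_
  calc _ ≤ Q * (A * Q) + (Fintype.card k : ℝ) ^ (m + 2 * rho) / (Fintype.card k : ℝ) ^ Y0 *
        (Q / Fr.card) := by gcongr
    _ = _ := by rw [pow_add, ← hQ]; field_simp

end arcs

end Pool.Agent.MP_d0fd9b_nt.J18
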