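import Pool.Agent.H92F.Ar2
import Pool.Agent.H92F.J18

/-! h92f: overlapping arcs (row J). -/

set_option autoImplicit false
open Polynomial Finset UniqueFactorizationMonoid EuclideanDomain Filter Topology
open scoped Classical
open Pool.Agent.MP_d0fd9b_nt

noncomputable section
namespace CL5

variable {k : Type*} [Field k] [Fintype k]

theorem j_mem_Rg {Y ρ : ℕ} {r : k[X]} : r ∈ Rg k Y ρ ↔ r.Monic ∧ r.natDegree = ρ ∧
    ∀ π : k[X], π.Monic → Irreducible π → π ∣ r → Y < π.natDegree := by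
  unfold Rg
  rw [Finset.mem_filter, mem_mon, and_assoc]
  refine and_congr_right fun _ => and_congr_right fun _ => ⟨fun h π h1 h2 h3 => ?_, fun h π h1 h2 => ?_⟩
  · by_contra h4
    exact h π (mem_prs.2 ⟨h1, h2, not_lt.1 h4⟩) h3
  · obtain ⟨a1, a2, a3⟩ := mem_prs.1 h1
    exact absurd (h π a1 a2 h2) (not_lt.2 a3)

theorem j_mem_Fr {Y ρ : ℕ} {z : k[X] × k[X]} :
    z ∈ Fr k Y ρ ↔ z.1 ∈ Rg k Y ρ ∧ z.2.degree < ρ ∧ IsCoprime z.1 z.2 := by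
  unfold Fr
  rw [Finset.mem_filter, Finset.mem_product, mem_box, and_assoc]

theorem j_hH {Y ρ m : ℕ} : ∀ p ∈ Fr k Y ρ, (p.2 * X ^ m - p.1 * Hq m p).degree < (ρ : WithBot ℕ) :=
  fun p hp => by
    obtain ⟨a1, a2, -⟩ := j_mem_Rg.1 (j_mem_Fr.1 hp).1
    exact J18.hH_divByMonic a1 a2

/-- J1 -/
theorem j_card_Rg {Y ρ : ℕ} (h : ∑ p ∈ prs k Y, p.natDegree ≤ ρ) :
    ((Rg k Y ρ).card : ℝ) = VV k Y * qq k ^ ρ := by
  have hq : 0 < qq k := lt_of_lt_of_le two_pos two_le_qq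
  have := ind_mon (k := k) (prs k Y) (fun p => p) (fun p hp => (mem_prs.1 hp).1.ne_zero)
    (fun p hp p' hp' hne => by
      obtain ⟨a1, a2, -⟩ := mem_prs.1 (Finset.mem_coe.1 hp)
      obtain ⟨b1, b2, -⟩ := mem_prs.1 (Finset.mem_coe.1 hp')
      exact (a2.coprime_iff_not_dvd).2 fun hd =>
        hne (eq_of_monic_of_associated a1 b1 (a2.associated_of_dvd b2 hd)))
    (fun p a => if p ∣ a then 0 else 1)
    (fun p _ a b hab => by
      have : p ∣ a ↔ p ∣ b := by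
        constructor
        · intro h; simpa using dvd_sub h hab
        · intro h; simpa using dvd_add hab h
      simp only [this]) h
  have e1 : ∑ a ∈ mon k ρ, ∏ p ∈ prs k Y, (if p ∣ a then (0 : ℝ) else 1) = (Rg k Y ρ).card := by
    unfold Rg
    rw [Finset.card_filter]
    push_cast
    refine Finset.sum_congr rfl fun a _ => ?_
    split_ifs with h1
    · exact Finset.prod_eq_one fun p hp => if_neg (h1 p hp)
    · push Not at h1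
      obtain ⟨p, hp, hd⟩ := h1
      exact Finset.prod_eq_zero hp (if_pos hd)
  have e2 : ∀ p ∈ prs k Y, (∑ a ∈ mon k ρ, (if p ∣ a then (0 : ℝ) else 1)) / qq k ^ ρ =
      1 - 1 / qq k ^ p.natDegree := by
    intro p hp
    have hd : p.natDegree ≤ ρ :=
      (Finset.single_le_sum (f := fun p : k[X] => p.natDegree) (fun _ _ => Nat.zero_le _) hp).trans h
    have h1 := card_mon_class (mem_prs.1 hp).1.ne_zero hd 0
    simp only [sub_zero] at h1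
    have h2 : ∑ a ∈ mon k ρ, (if p ∣ a then (0 : ℝ) else 1) =
        (mon k ρ).card - ((mon k ρ).filter fun a => p ∣ a).card := by
      rw [Finset.card_filter, Finset.card_eq_sum_ones (mon k ρ)]
      push_cast
      rw [← Finset.sum_sub_distrib]
      exact Finset.sum_congr rfl fun a _ => by split_ifs <;> simp
    rw [h2, h1, card_mon, pow_sub₀ _ hq.ne' hd]
    field_simp
  rw [e1, Finset.prod_congr rfl e2, div_eq_iff (by positivity)] at this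
  exact this

theorem j_Fr_ge {Y ρ : ℕ} (h : ∑ p ∈ prs k Y, p.natDegree ≤ ρ) :
    (VV k Y - eta0 k Y) * qq k ^ (2 * ρ) ≤ (Fr k Y ρ).card := by
  have := J18.J2 (R := Rg k Y ρ) (Fr := Fr k Y ρ) (Y0 := Y) (rho := ρ)
    (fun r hr => j_mem_Rg.1 hr) (fun p => j_mem_Fr)
  rw [j_card_Rg h] at this
  refine le_trans (le_of_eq ?_) this
  unfold eta0 qq
  rw [two_mul, pow_add]; ring

theorem j_ng_le (Y ρ m : ℕ) (g H : k[X]) : (ng Y ρ m g H : ℝ) ≤ qq k ^ (2 * ρ - m) := by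
  have := J18.J3 (Fr := Fr k Y ρ) (Hf := Hq m) (rho := ρ) (m := m) (fun p hp => by
    obtain ⟨a, -, c⟩ := j_mem_Fr.1 hp
    exact ⟨(j_mem_Rg.1 a).1, (j_mem_Rg.1 a).2.1, c⟩) j_hH H
  have h2 : ng Y ρ m g H ≤ ((Fr k Y ρ).filter fun p => Hq m p = H).card :=
    Finset.card_le_card fun p hp =>
      Finset.mem_filter.2 ⟨(Finset.mem_filter.1 hp).1, (Finset.mem_filter.1 hp).2.2⟩
  unfold qq
  exact_mod_cast h2.trans this

theorem j_Hq_not_Maj {Y ρ m Y' : ℕ} (h1 : Y' < ρ) (h2 : ρ + Y' < m) {z : k[X] × k[X]}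
    (hz : z ∈ Fr k Y ρ) : Hq m z ∉ Maj k m Y' := by
  intro hM
  obtain ⟨-, r0, b1, b2, b3⟩ := Finset.mem_filter.1 hM
  obtain ⟨a, -, c⟩ := j_mem_Fr.1 hz
  exact J18.J6_mod (j_mem_Rg.1 a).2.1 c (j_hH z hz) h1 h2 b1 b2
    (degree_le_natDegree.trans (by exact_mod_cast b3))

theorem j_ng_Maj {Y ρ m Y' : ℕ} (h1 : Y' < ρ) (h2 : ρ + Y' < m) (g : k[X]) {H : k[X]}
    (hH : H ∈ Maj k m Y') : ng Y ρ m g H = 0 := by
  unfold ng
  rw [Finset.card_eq_zero, Finset.filter_eq_empty_iff]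
  rintro z hz ⟨-, rfl⟩
  exact j_Hq_not_Maj h1 h2 hz hH

theorem j_Hq_mem {Y ρ m : ℕ} {z : k[X] × k[X]} (hz : z ∈ Fr k Y ρ) : Hq m z ∈ box k m := by
  obtain ⟨a, b, -⟩ := j_mem_Fr.1 hz
  exact mem_box.2 (J18.H_deg (j_mem_Rg.1 a).1.ne_zero (j_mem_Rg.1 a).2.1 b (j_hH z hz))

theorem j_nc (Y ρ m : ℕ) :
    ∑ g ∈ (box k m).erase 0, (((Fr k Y ρ).filter fun z => ¬ IsCoprime z.1 g).card : ℝ) ≤
      eta0 k Y * qq k ^ (m + 2 * ρ) := by
  have := J18.J5 (Fr := Fr k Y ρ) (Y0 := Y) (rho := ρ) (m := m) (fun p hp => by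
    obtain ⟨a, b, -⟩ := j_mem_Fr.1 hp
    exact ⟨(j_mem_Rg.1 a).1, (j_mem_Rg.1 a).2.1, (j_mem_Rg.1 a).2.2, b⟩) ((box k m).erase 0)
    (fun g hg => ⟨(Finset.mem_erase.1 hg).1, mem_box.1 (Finset.mem_erase.1 hg).2⟩)
  refine this.trans (le_of_eq ?_)
  unfold eta0 qq
  ring

theorem j_var {Y ρ m : ℕ} (hm : m ≤ 2 * ρ) (hL : 0 < (Fr k Y ρ).card) :
    (∑ g ∈ (box k m).erase 0, ∑ H ∈ box k m,
      |1 - (ng Y ρ m g H : ℝ) * qq k ^ m / (Fr k Y ρ).card|) / qq k ^ (2 * m) ≤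
      Real.sqrt (qq k ^ m / (Fr k Y ρ).card +
        (((Rg k Y ρ).card : ℝ) * qq k ^ ρ / (Fr k Y ρ).card) ^ 2 - 1) +
      eta0 k Y * (qq k ^ (2 * ρ) / (Fr k Y ρ).card) :=
  J18.JV (R := Rg k Y ρ) (Fr := Fr k Y ρ) (Hf := Hq m) hm (fun p hp => by
    obtain ⟨a, b, c⟩ := j_mem_Fr.1 hp
    exact ⟨a, (j_mem_Rg.1 a).1, (j_mem_Rg.1 a).2.1, (j_mem_Rg.1 a).2.2, b, c⟩) j_hH hL (box k m)
    (fun _ => mem_box) _
    (fun g hg => ⟨(Finset.mem_erase.1 hg).1, mem_box.1 (Finset.mem_erase.1 hg).2⟩)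

theorem j_Fr_half {Y ρ : ℕ} (h : ∑ p ∈ prs k Y, p.natDegree ≤ ρ) (hη : 2 * eta0 k Y ≤ VV k Y) :
    VV k Y / 2 * qq k ^ (2 * ρ) ≤ (Fr k Y ρ).card := by
  have hq : 0 < qq k := lt_of_lt_of_le two_pos two_le_qq
  refine le_trans ?_ (j_Fr_ge h)
  gcongr
  linarith

theorem j_Fr_pos {Y ρ : ℕ} (h : ∑ p ∈ prs k Y, p.natDegree ≤ ρ) (hη : 2 * eta0 k Y ≤ VV k Y) :
    (0 : ℝ) < (Fr k Y ρ).card := by
  have hq : 0 < qq k := lt_of_lt_of_le two_pos two_le_qq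
  have hV := VV_pos (k := k) Y
  exact lt_of_lt_of_le (by positivity) (j_Fr_half h hη)

theorem j_B {Y ρ : ℕ} (h : ∑ p ∈ prs k Y, p.natDegree ≤ ρ) (hη : 2 * eta0 k Y ≤ VV k Y) :
    qq k ^ (2 * ρ) / (Fr k Y ρ).card ≤ 2 / VV k Y := by
  have hV := VV_pos (k := k) Y
  have := j_Fr_half h hη
  rw [div_le_div_iff₀ (j_Fr_pos h hη) hV]
  linarith

theorem j_I_le {Y ρ m : ℕ} (h : ∑ p ∈ prs k Y, p.natDegree ≤ ρ) (hη : 2 * eta0 k Y ≤ VV k Y)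
    (hm : m ≤ 2 * ρ) (g H : k[X]) :
    (ng Y ρ m g H : ℝ) * qq k ^ m / (Fr k Y ρ).card ≤ 2 / VV k Y := by
  have hq : 0 < qq k := lt_of_lt_of_le two_pos two_le_qq
  have hL := j_Fr_pos h hη
  refine le_trans ?_ (j_B h hη)
  have e : qq k ^ (2 * ρ) = qq k ^ (2 * ρ - m) * qq k ^ m := by
    rw [← pow_add, Nat.sub_add_cancel hm]
  rw [e]
  gcongr
  exact j_ng_le Y ρ m g H

theorem j_var' {Y ρ m J : ℕ} (h : ∑ p ∈ prs k Y, p.natDegree ≤ ρ) (hη : 2 * eta0 k Y ≤ VV k Y)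
    (hm : m + J ≤ 2 * ρ) :
    (∑ g ∈ (box k m).erase 0, ∑ H ∈ box k m,
      |1 - (ng Y ρ m g H : ℝ) * qq k ^ m / (Fr k Y ρ).card|) / qq k ^ (2 * m) ≤
      Real.sqrt (2 / (VV k Y * qq k ^ J) + 8 * (eta0 k Y / VV k Y)) +
      2 * (eta0 k Y / VV k Y) := by
  have hq2 : 2 ≤ qq k := two_le_qq
  have hq : 0 < qq k := lt_of_lt_of_le two_pos two_le_qq
  have hV := VV_pos (k := k) Y
  have hL := j_Fr_pos h hη
  have hB := j_B h hη
  have he : 0 < eta0 k Y := by unfold eta0; positivity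
  refine (j_var (by omega) (by exact_mod_cast hL)).trans (add_le_add (Real.sqrt_le_sqrt ?_) ?_)
  · have a1 : qq k ^ m / (Fr k Y ρ).card ≤ 2 / (VV k Y * qq k ^ J) := by
      have : qq k ^ m * qq k ^ J ≤ qq k ^ (2 * ρ) := by
        rw [← pow_add]; exact pow_le_pow_right₀ (by linarith) hm
      rw [← _root_.div_div, le_div_iff₀ (by positivity)]
      refine le_trans ?_ hB
      rw [div_mul_eq_mul_div]
      gcongr
    have a2 : ((Rg k Y ρ).card : ℝ) * qq k ^ ρ / (Fr k Y ρ).card ≤ 1 + 2 * (eta0 k Y / VV k Y) := by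
      have b1 := j_Fr_ge h
      rw [j_card_Rg h, div_le_iff₀ hL, mul_assoc, ← pow_add, ← two_mul]
      have b2 : eta0 k Y * qq k ^ (2 * ρ) ≤ 2 * (eta0 k Y / VV k Y) * (Fr k Y ρ).card := by
        rw [div_le_iff₀ hL] at hB
        calc _ ≤ eta0 k Y * (2 / VV k Y * (Fr k Y ρ).card) := by gcongr
          _ = _ := by ring
      nlinarith
    have a3 : eta0 k Y / VV k Y ≤ 1 / 2 := by rw [div_le_iff₀ hV]; linarith
    have a4 : 0 < eta0 k Y / VV k Y := by positivity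
    have a5 : (((Rg k Y ρ).card : ℝ) * qq k ^ ρ / (Fr k Y ρ).card) ^ 2 ≤
        (1 + 2 * (eta0 k Y / VV k Y)) ^ 2 := by gcongr
    nlinarith
  · calc _ ≤ eta0 k Y * (2 / VV k Y) := by gcongr
      _ = _ := by ring

theorem j_eta {Y : ℕ} (hη : eta0 k Y / VV k Y ≤ 1 / 2) : 2 * eta0 k Y ≤ VV k Y := by
  rw [div_le_iff₀ (VV_pos Y)] at hη
  linarith

/-- (J1) -/
theorem card_Rg {Y ρ : ℕ} (h : ∑ p ∈ prs k Y, p.natDegree ≤ ρ) :
    ((Rg k Y ρ).card : ℝ) = VV k Y * qq k ^ ρ := j_card_Rg h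

theorem Fr_subset (Y ρ : ℕ) : Fr k Y ρ ⊆ FrA k ρ :=
  Finset.filter_subset_filter _ (Finset.product_subset_product_left (Finset.filter_subset _ _))

/-- a rough polynomial is prime to every polynomial of small degree -/
theorem Rg_coprime {Y ρ : ℕ} {r d : k[X]} (hr : r ∈ Rg k Y ρ) (hd : d ≠ 0)
    (h : d.natDegree ≤ Y) : IsCoprime r d := by
  by_contra hc
  obtain ⟨a1, -, a3⟩ := j_mem_Rg.1 hr
  obtain ⟨p, b1, b2, b3, b4⟩ := J18.exists_common a1.ne_zero hc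
  have := a3 p b1 b2 b3
  have := natDegree_le_of_dvd b4 hd
  omega

/-- (J2) -/
theorem card_Fr_ge {Y ρ : ℕ} (h : ∑ p ∈ prs k Y, p.natDegree ≤ ρ)
    (hη : eta0 k Y / VV k Y ≤ 1 / 2) :
    VV k Y * qq k ^ (2 * ρ) / 2 ≤ ((Fr k Y ρ).card : ℝ) :=
  le_trans (le_of_eq (by ring)) (j_Fr_half h (j_eta hη))

/-- summation over the fibres of `Hq` -/
theorem sum_ng_mul (Y ρ m : ℕ) (g : k[X]) (F : k[X] → ℂ) :
    ∑ H ∈ box k m, (ng Y ρ m g H : ℂ) * F H =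
      ∑ z ∈ (Fr k Y ρ).filter (fun z => IsCoprime z.1 g), F (Hq m z) := by
  rw [← Finset.sum_fiberwise_of_maps_to (s := (Fr k Y ρ).filter (fun z => IsCoprime z.1 g))
    (t := box k m) (g := Hq m) (fun z hz => j_Hq_mem (Finset.mem_filter.1 hz).1)]
  refine Finset.sum_congr rfl fun H _ => ?_
  rw [Finset.sum_congr rfl (g := fun _ => F H) (fun z hz => by rw [(Finset.mem_filter.1 hz).2]),
    Finset.sum_const, nsmul_eq_mul, Finset.filter_filter]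
  rfl

/-- (J3) -/
theorem ng_ratio_le {Y ρ m : ℕ} (h : ∑ p ∈ prs k Y, p.natDegree ≤ ρ)
    (hη : eta0 k Y / VV k Y ≤ 1 / 2) (hm : m ≤ 2 * ρ) (g H : k[X]) :
    (ng Y ρ m g H : ℝ) * qq k ^ m / (Fr k Y ρ).card ≤ 2 / VV k Y :=
  j_I_le h (j_eta hη) hm g H

theorem sum_ng_le (Y ρ m : ℕ) (g : k[X]) :
    ∑ H ∈ box k m, (ng Y ρ m g H : ℝ) ≤ (Fr k Y ρ).card := by
  have h1 := J18.sum_fibre (Fr := Fr k Y ρ) (Hf := Hq m) (box k m) fun z hz => j_Hq_mem hz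
  have h2 : ∑ H ∈ box k m, ng Y ρ m g H ≤ (Fr k Y ρ).card := by
    rw [← h1]
    exact Finset.sum_le_sum fun H _ => Finset.card_le_card fun p hp =>
      Finset.mem_filter.2 ⟨(Finset.mem_filter.1 hp).1, (Finset.mem_filter.1 hp).2.2⟩
  exact_mod_cast h2

/-- (J5) -/
theorem sum_not_coprime_le (Y ρ m : ℕ) :
    ∑ g ∈ (box k m).erase 0, (((Fr k Y ρ).filter (fun z => ¬ IsCoprime z.1 g)).card : ℝ) ≤
      eta0 k Y * qq k ^ (m + 2 * ρ) := j_nc Y ρ m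

/-- (J6) -/
theorem ng_Maj {Y ρ m Y' : ℕ} (h1 : Y' < ρ) (h2 : ρ + Y' < m) (g : k[X]) {H : k[X]}
    (hH : H ∈ Maj k m Y') : ng Y ρ m g H = 0 := j_ng_Maj h1 h2 g hH

/-- (J4) and the mean of `|1 - I_g|` -/
theorem mean_one_sub {Y ρ m : ℕ} (h : ∑ p ∈ prs k Y, p.natDegree ≤ ρ)
    (hη : eta0 k Y / VV k Y ≤ 1 / 2) (hm : m ≤ 2 * ρ) :
    ∑ g ∈ (box k m).erase 0, ∑ H ∈ box k m,
        |1 - (ng Y ρ m g H : ℝ) * qq k ^ m / (Fr k Y ρ).card| ≤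
      (Real.sqrt (2 / (VV k Y * qq k ^ (2 * ρ - m)) + 8 * (eta0 k Y / VV k Y)) +
        2 * (eta0 k Y / VV k Y)) * qq k ^ (2 * m) := by
  have hq : 0 < qq k := lt_of_lt_of_le two_pos two_le_qq
  have := j_var' (m := m) (J := 2 * ρ - m) h (j_eta hη) (by omega)
  rwa [div_le_iff₀ (by positivity)] at this

end CL5
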