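import Pool.Agent.H92F.K77

set_option autoImplicit false

open Polynomial

namespace H92F.K4

variable {k : Type*} [Field k] [Fintype k]

/-- polynomials of degree `< n` -/
noncomputable def bx (k : Type*) [Field k] [Fintype k] (n : ℕ) : Finset k[X] := by
  classical
  exact (Finset.univ : Finset (Fin n → k)).image (fun v => ((degreeLTEquiv k n).symm v : k[X]))

theorem mem_bx {n : ℕ} {p : k[X]} : p ∈ bx k n ↔ p.degree < n := by
  classical
  unfold bx
  simp only [Finset.mem_image, Finset.mem_univ, true_and]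
  constructor
  · rintro ⟨v, rfl⟩
    exact mem_degreeLT.1 ((degreeLTEquiv k n).symm v).2
  · intro h
    exact ⟨degreeLTEquiv k n ⟨p, mem_degreeLT.2 h⟩, by simp⟩

theorem card_bx (n : ℕ) : (bx k n).card = Fintype.card k ^ n := by
  classical
  unfold bx
  rw [Finset.card_image_of_injective]
  · simp
  · intro a b h
    exact (degreeLTEquiv k n).symm.injective (Subtype.ext h)

theorem mem_bx_succ {n : ℕ} {p : k[X]} : p ∈ bx k (n + 1) ↔ p.natDegree ≤ n := by
  rw [mem_bx, Polynomial.natDegree_le_iff_degree_le]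
  constructor
  · intro h
    rcases eq_or_ne p 0 with rfl | hp
    · simp
    · rw [degree_eq_natDegree hp] at h ⊢
      exact_mod_cast Nat.lt_succ_iff.1 (by exact_mod_cast h)
  · intro h
    exact lt_of_le_of_lt h (by exact_mod_cast Nat.lt_succ_self n)

theorem lemP (M : k[X]) (hM : M ≠ 0) (y1 y2 : ℕ) (S : Finset (k[X] × k[X]))
    (h : ∀ a ∈ S, IsCoprime a.1 a.2 ∧ a.1.natDegree ≤ y1 ∧ a.2.natDegree ≤ y2)
    (hd : ∀ a ∈ S, ∀ b ∈ S, M ∣ a.1 * b.2 - a.2 * b.1) :
    (S.card : ℝ) ≤ Fintype.card k +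
      (Fintype.card k : ℝ) ^ (y1 + y2 + 2) / (Fintype.card k : ℝ) ^ M.natDegree :=
  Pool.Agent.MP_d0fd9b_nt.F92.K77.lemmaP_real S y1 y2 M hM (fun a ha => (h a ha).1)
    (fun a ha => (h a ha).2) hd

/-- reduced basis data for `H` -/
def Bas (m y1 y2 : ℕ) (H r1 r2 : k[X]) : Prop :=
  ∃ s1 s2 : k[X], r1 * s2 - r2 * s1 = 1 ∧ r1.natDegree ≤ y1 ∧ r2.natDegree ≤ y2 ∧
    (r1 * H - s1 * X ^ m).natDegree ≤ y1 ∧ (r2 * H - s2 * X ^ m).natDegree ≤ y2

omit [Fintype k] in
theorem Bas.const {m y1 y2 : ℕ} (hm : 1 ≤ m) (hy : y1 + y2 = m) {H H' r1 r2 : k[X]}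
    (hH : H.degree < m) (hH' : H'.degree < m) (h : Bas m y1 y2 H r1 r2) (h' : Bas m y1 y2 H' r1 r2) :
    (H - H').natDegree ≤ 0 := by
  obtain ⟨s1, s2, hd, h1, h2, w1, w2⟩ := h
  obtain ⟨s1', s2', hd', -, -, w1', w2'⟩ := h'
  -- s_j - s_j' = t r_j
  set t : k[X] := s2 * s1' * (-1) + s1 * s2' * 1 with ht
  have e1 : s1 - s1' = t * r1 := by
    have : s1 - s1' = s1 * (r1 * s2' - r2 * s1') - s1' * (r1 * s2 - r2 * s1) := by rw [hd, hd']; ring
    rw [this, ht]; ring
  have e2 : s2 - s2' = t * r2 := by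
    have : s2 - s2' = s2 * (r1 * s2' - r2 * s1') - s2' * (r1 * s2 - r2 * s1) := by rw [hd, hd']; ring
    rw [this, ht]; ring
  set D : k[X] := H - H' - t * X ^ m with hD
  have d1 : (r1 * D).natDegree ≤ y1 := by
    have : r1 * D = (r1 * H - s1 * X ^ m) - (r1 * H' - s1' * X ^ m) := by
      rw [hD]; linear_combination (X ^ m : k[X]) * e1
    rw [this]; exact (natDegree_sub_le _ _).trans (max_le w1 w1')
  have d2 : (r2 * D).natDegree ≤ y2 := by
    have : r2 * D = (r2 * H - s2 * X ^ m) - (r2 * H' - s2' * X ^ m) := by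
      rw [hD]; linear_combination (X ^ m : k[X]) * e2
    rw [this]; exact (natDegree_sub_le _ _).trans (max_le w2 w2')
  -- X^m D is a combination
  have key : (X ^ m : k[X]) * D = (r1 * H - s1 * X ^ m) * (r2 * D) - (r2 * H - s2 * X ^ m) * (r1 * D) := by
    linear_combination (-(X ^ m : k[X]) * D) * hd
  have hDdeg : D.natDegree ≤ 0 := by
    rcases eq_or_ne D 0 with h0 | h0
    · simp [h0]
    · have hX : (X ^ m : k[X]) ≠ 0 := pow_ne_zero _ X_ne_zero
      have a1 : ((X ^ m : k[X]) * D).natDegree = m + D.natDegree := by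
        rw [natDegree_mul hX h0, natDegree_X_pow]
      have a2 : ((X ^ m : k[X]) * D).natDegree ≤ m := by
        rw [key]
        refine (natDegree_sub_le _ _).trans (max_le ?_ ?_)
        · exact natDegree_mul_le.trans (by omega)
        · exact natDegree_mul_le.trans (by omega)
      omega
  have ht0 : t = 0 := by
    by_contra h0
    have hX : (X ^ m : k[X]) ≠ 0 := pow_ne_zero _ X_ne_zero
    have a1 : (t * X ^ m).natDegree = t.natDegree + m := by rw [natDegree_mul h0 hX, natDegree_X_pow]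
    have a2 : t * X ^ m = H - H' - D := by rw [hD]; ring
    have a3 : (H - H' - D).degree < m := by
      refine (degree_sub_le _ _).trans_lt (max_lt ((degree_sub_le _ _).trans_lt (max_lt hH hH')) ?_)
      exact (degree_le_of_natDegree_le hDdeg).trans_lt (by exact_mod_cast hm)
    rw [← a2, degree_eq_natDegree (mul_ne_zero h0 hX), a1] at a3
    have : t.natDegree + m < m := by exact_mod_cast a3
    omega
  have : H - H' = D := by rw [hD, ht0]; ring
  rw [this]; exact hDdeg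

/-- the divisibility condition of rank two -/
def Cond (b y1 y2 : ℕ) (g r1 r2 : k[X]) : Prop :=
  ∃ l1 l2 : k[X], l2 ≠ 0 ∧ l1.natDegree + 5 * y1 ≤ b ∧ l2.natDegree + 5 * y2 ≤ b ∧
    g ∣ l1 * r1 ^ 5 + l2 * r2 ^ 5

omit [Fintype k] in
theorem Bas.shift {m y1 y2 : ℕ} (hy : y1 ≤ y2) {H r1 r2 c : k[X]} (h : Bas m y1 y2 H r1 r2)
    (hc : c.natDegree ≤ y2 - y1) : Bas m y1 y2 H r1 (r2 + c * r1) := by
  obtain ⟨s1, s2, hd, h1, h2, w1, w2⟩ := h
  refine ⟨s1, s2 + c * s1, by linear_combination hd, h1, ?_, w1, ?_⟩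
  · exact (natDegree_add_le _ _).trans (max_le h2 (natDegree_mul_le.trans (by omega)))
  · have : (r2 + c * r1) * H - (s2 + c * s1) * X ^ m
        = (r2 * H - s2 * X ^ m) + c * (r1 * H - s1 * X ^ m) := by ring
    rw [this]
    exact (natDegree_add_le _ _).trans (max_le w2 (natDegree_mul_le.trans (by omega)))

omit [Fintype k] in
theorem Cond.shift [CharP k 5] {b y1 y2 : ℕ} (hy : y1 ≤ y2) {g r1 r2 c : k[X]}
    (h : Cond b y1 y2 g r1 r2) (hc : c.natDegree ≤ y2 - y1) : Cond b y1 y2 g r1 (r2 + c * r1) := by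
  obtain ⟨l1, l2, h0, h1, h2, hd⟩ := h
  have : Fact (Nat.Prime 5) := ⟨by norm_num⟩
  refine ⟨l1 - l2 * c ^ 5, l2, h0, ?_, h2, ?_⟩
  · have a : (l2 * c ^ 5).natDegree ≤ l2.natDegree + 5 * c.natDegree :=
      natDegree_mul_le.trans (by have := natDegree_pow_le (p := c) (n := 5); omega)
    have := natDegree_sub_le l1 (l2 * c ^ 5)
    omega
  · rw [add_pow_char r2 (c * r1) 5]
    convert hd using 1
    ring

omit [Fintype k] in
theorem Bas.coprime {m y1 y2 : ℕ} {H r1 r2 : k[X]} (h : Bas m y1 y2 H r1 r2) : IsCoprime r1 r2 := by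
  obtain ⟨s1, s2, hd, -⟩ := h
  exact ⟨s2, -s1, by linear_combination hd⟩

open Classical in
/-- the admissible pairs -/
noncomputable def Pr (b y1 y2 : ℕ) (g : k[X]) : Finset (k[X] × k[X]) :=
  (bx k (y1 + 1) ×ˢ bx k (y2 + 1)).filter (fun ρ => IsCoprime ρ.1 ρ.2 ∧ Cond b y1 y2 g ρ.1 ρ.2)

theorem dcount [CharP k 5] {m b y1 y2 : ℕ} (hm : 1 ≤ m) (hy : y1 ≤ y2) (hs : y1 + y2 = m) (g : k[X])
    (T : Finset k[X]) (hT : ∀ H ∈ T, H.degree < m ∧ ∃ r1 r2 : k[X], r1 ≠ 0 ∧ Bas m y1 y2 H r1 r2 ∧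
      Cond b y1 y2 g r1 r2) :
    T.card * Fintype.card k ^ (y2 - y1 + 1) ≤ (Pr b y1 y2 g).card * Fintype.card k := by
  classical
  refine Finset.card_mul_le_card_mul (fun H (ρ : k[X] × k[X]) => Bas m y1 y2 H ρ.1 ρ.2) ?_ ?_
  · intro H hH
    obtain ⟨-, r1, r2, h0, hb, hc⟩ := hT H hH
    rw [← card_bx]
    refine Finset.card_le_card_of_injOn (fun c => (r1, r2 + c * r1)) ?_ ?_
    · intro c hcm
      have hc' : c.natDegree ≤ y2 - y1 := mem_bx_succ.1 (Finset.mem_coe.1 hcm)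
      have hb' := hb.shift hy hc'
      simp only [Finset.coe_filter, Finset.bipartiteAbove, Set.mem_ofPred_eq, Pr, Finset.mem_filter,
        Finset.mem_product, mem_bx_succ]
      obtain ⟨s1, s2, hd, h1, h2, w⟩ := hb'
      exact ⟨⟨⟨h1, h2⟩, (hb.shift hy hc').coprime, hc.shift hy hc'⟩, hb.shift hy hc'⟩
    · intro c _ c' _ h
      have := congrArg Prod.snd h
      simp only [add_right_inj] at this
      exact mul_right_cancel₀ h0 this
  · intro ρ _
    rcases (T.bipartiteBelow (fun H (ρ : k[X] × k[X]) => Bas m y1 y2 H ρ.1 ρ.2) ρ).eq_empty_or_nonempty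
      with h | ⟨H0, h⟩
    · rw [h]; simp
    · have h0 := Finset.mem_bipartiteBelow _ |>.1 h
      have : Fintype.card k = (bx k (0 + 1)).card := by rw [card_bx]; simp
      rw [this]
      refine Finset.card_le_card_of_injOn (fun H => H - H0) ?_ ?_
      · intro H hH
        have h1 := Finset.mem_bipartiteBelow _ |>.1 (Finset.mem_coe.1 hH)
        exact Finset.mem_coe.2 (mem_bx_succ.2 (Bas.const hm hs (hT H h1.1).1 (hT H0 h0.1).1 h1.2 h0.2))
      · intro a _ a' _ h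
        exact sub_left_injective h

open Classical in
theorem card_mult (n : ℕ) (c : k[X]) (hc : c ≠ 0) (hn : c.natDegree ≤ n) :
    (((bx k n).filter (fun l => c ∣ l)).card : ℝ) ≤
      (Fintype.card k : ℝ) ^ n / (Fintype.card k : ℝ) ^ c.natDegree := by
  have hq : (0 : ℝ) < Fintype.card k := by exact_mod_cast Fintype.card_pos
  have h1 : ((bx k n).filter (fun l => c ∣ l)).card ≤ (bx k (n - c.natDegree)).card := by
    refine Finset.card_le_card_of_injOn (fun l => l / c) ?_ ?_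
    · intro l hl
      obtain ⟨hl1, t, rfl⟩ := Finset.mem_filter.1 (Finset.mem_coe.1 hl)
      refine Finset.mem_coe.2 (mem_bx.2 ?_)
      simp only
      rw [mul_div_cancel_left₀ _ hc]
      rcases eq_or_ne t 0 with rfl | ht
      · simp
      · have := mem_bx.1 hl1
        rw [degree_eq_natDegree (mul_ne_zero hc ht), natDegree_mul hc ht] at this
        rw [degree_eq_natDegree ht]
        have h2 : c.natDegree + t.natDegree < n := by exact_mod_cast this
        exact_mod_cast (by omega : t.natDegree < n - c.natDegree)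
    · intro l hl l' hl' h
      obtain ⟨-, t, rfl⟩ := Finset.mem_filter.1 (Finset.mem_coe.1 hl)
      obtain ⟨-, t', rfl⟩ := Finset.mem_filter.1 (Finset.mem_coe.1 hl')
      simp only [mul_div_cancel_left₀ _ hc] at h
      rw [h]
  rw [card_bx] at h1
  rw [le_div_iff₀ (pow_pos hq _)]
  calc _ ≤ ((Fintype.card k : ℝ) ^ (n - c.natDegree)) * (Fintype.card k : ℝ) ^ c.natDegree := by
        gcongr; exact_mod_cast h1
    _ = _ := by rw [← pow_add]; congr 1; omega

open UniqueFactorizationMonoid in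
theorem card_Pl [CharP k 5] [DecidableEq k] {m y1 y2 : ℕ} (hs : y1 + y2 = m) (g : k[X]) (hg : g ≠ 0)
    (hgm : g.natDegree < m) (l1 l2 : k[X]) (S : Finset (k[X] × k[X]))
    (h : ∀ a ∈ S, IsCoprime a.1 a.2 ∧ a.1.natDegree ≤ y1 ∧ a.2.natDegree ≤ y2 ∧
      g ∣ l1 * a.1 ^ 5 + l2 * a.2 ^ 5) :
    (S.card : ℝ) ≤ 2 * ((Fintype.card k : ℝ) ^ (m + 2) *
      (Fintype.card k : ℝ) ^ (EuclideanDomain.divRadical g).natDegree *
      (Fintype.card k : ℝ) ^ (gcd (gcd l1 l2) g).natDegree / (Fintype.card k : ℝ) ^ g.natDegree) := by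
  have : Fact (Nat.Prime 5) := ⟨by norm_num⟩
  have hq1 : (1 : ℝ) ≤ Fintype.card k := by exact_mod_cast Fintype.card_pos
  have hq : (0 : ℝ) < Fintype.card k := by linarith
  set c := gcd (gcd l1 l2) g with hc
  obtain ⟨g', hg'⟩ : c ∣ g := gcd_dvd_right _ _
  have hc0 : c ≠ 0 := fun h0 => hg (by rw [hg', h0, zero_mul])
  have hg0 : g' ≠ 0 := fun h0 => hg (by rw [hg', h0, mul_zero])
  have hM : radical g' ≠ 0 := radical_ne_zero
  have hP := lemP (radical g') hM y1 y2 S (fun a ha => ⟨(h a ha).1, (h a ha).2.1, (h a ha).2.2.1⟩) (by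
    intro a ha a' ha'
    have e := (h a ha).2.2.2
    have e' := (h a' ha').2.2.2
    set d := a.1 * a'.2 - a.2 * a'.1 with hd
    have hd5 : d ^ 5 = a.1 ^ 5 * a'.2 ^ 5 - a.2 ^ 5 * a'.1 ^ 5 := by
      rw [hd, sub_pow_char]; ring
    have f1 : g ∣ l1 * d ^ 5 := by
      have : l1 * d ^ 5 = (l1 * a.1 ^ 5 + l2 * a.2 ^ 5) * a'.2 ^ 5
          - (l1 * a'.1 ^ 5 + l2 * a'.2 ^ 5) * a.2 ^ 5 := by rw [hd5]; ring
      rw [this]; exact dvd_sub (e.mul_right _) (e'.mul_right _)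
    have f2 : g ∣ l2 * d ^ 5 := by
      have : l2 * d ^ 5 = (l1 * a'.1 ^ 5 + l2 * a'.2 ^ 5) * a.1 ^ 5
          - (l1 * a.1 ^ 5 + l2 * a.2 ^ 5) * a'.1 ^ 5 := by rw [hd5]; ring
      rw [this]; exact dvd_sub (e'.mul_right _) (e.mul_right _)
    have f3 : g ∣ c * d ^ 5 := by
      have g1 : g ∣ gcd l1 l2 * d ^ 5 :=
        (dvd_gcd f1 f2).trans (gcd_mul_right' (d ^ 5) l1 l2).dvd
      exact (dvd_gcd g1 (dvd_mul_right g _)).trans (gcd_mul_right' (d ^ 5) (gcd l1 l2) g).dvd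
    have f4 : g' ∣ d ^ 5 := by
      rw [hg'] at f3
      exact (mul_dvd_mul_iff_left hc0).1 f3
    exact (squarefree_radical.dvd_pow_iff_dvd (by norm_num : (5 : ℕ) ≠ 0)).1 (radical_dvd_self.trans f4))
  -- degrees
  have k1 : (radical g).natDegree ≤ c.natDegree + (radical g').natDegree := by
    have : radical g ∣ c * radical g' := by
      rw [hg']
      exact radical_mul_dvd.trans (mul_dvd_mul_right radical_dvd_self _)
    have := natDegree_le_of_dvd this (mul_ne_zero hc0 hM)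
    rwa [natDegree_mul hc0 hM] at this
  have k2 : g.natDegree = (radical g).natDegree + (EuclideanDomain.divRadical g).natDegree := by
    conv_lhs => rw [← EuclideanDomain.radical_mul_divRadical (a := g)]
    exact natDegree_mul radical_ne_zero (EuclideanDomain.divRadical_ne_zero hg)
  rw [hs] at hP
  generalize (Fintype.card k : ℝ) = q at *
  have b1 : q ≤ q ^ (m + 2) * q ^ (EuclideanDomain.divRadical g).natDegree * q ^ c.natDegree
      / q ^ g.natDegree := by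
    rw [le_div_iff₀ (pow_pos hq _), ← pow_add, ← pow_add, ← pow_succ']
    exact pow_le_pow_right₀ hq1 (by omega)
  have b2 : q ^ (m + 2) / q ^ (radical g').natDegree ≤ q ^ (m + 2) *
      q ^ (EuclideanDomain.divRadical g).natDegree * q ^ c.natDegree / q ^ g.natDegree := by
    rw [div_le_div_iff₀ (pow_pos hq _) (pow_pos hq _), ← pow_add, ← pow_add, ← pow_add, ← pow_add]
    exact pow_le_pow_right₀ hq1 (by omega)
  linarith

theorem card_Pr [CharP k 5] [DecidableEq k] {m b y1 y2 : ℕ} (hy : y1 ≤ y2) (hs : y1 + y2 = m) (g : k[X])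
    (hg : g ≠ 0) (hgm : g.natDegree < m) (D : Finset k[X]) (hD : ∀ c : k[X], c.Monic → c ∣ g → c ∈ D) :
    ((Pr b y1 y2 g).card : ℝ) * (Fintype.card k : ℝ) ^ (4 * m + g.natDegree) ≤
      2 * (Fintype.card k : ℝ) ^ (2 * b + 4) *
        (Fintype.card k : ℝ) ^ (EuclideanDomain.divRadical g).natDegree *
        ∑ c ∈ D, ((Fintype.card k : ℝ) ^ c.natDegree)⁻¹ := by
  classical
  have hq1 : (1 : ℝ) ≤ Fintype.card k := by exact_mod_cast Fintype.card_pos
  have hq : (0 : ℝ) < Fintype.card k := by linarith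
  rcases (Pr b y1 y2 g).eq_empty_or_nonempty with h0 | ⟨ρ0, h0⟩
  · rw [h0]; simp only [Finset.card_empty, Nat.cast_zero, zero_mul]; positivity
  have hb : 5 * y2 ≤ b := by
    obtain ⟨-, -, l1, l2, -, -, h, -⟩ := Finset.mem_filter.1 h0
    omega
  set Lb : Finset (k[X] × k[X]) :=
    (bx k (b - 5 * y1 + 1) ×ˢ bx k (b - 5 * y2 + 1)).filter (fun l => l.2 ≠ 0) with hLb
  set Pl : k[X] × k[X] → Finset (k[X] × k[X]) := fun l =>
    (Pr b y1 y2 g).filter (fun a => g ∣ l.1 * a.1 ^ 5 + l.2 * a.2 ^ 5) with hPl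
  set F : k[X] → ℝ := fun c => 2 * ((Fintype.card k : ℝ) ^ (m + 2) *
      (Fintype.card k : ℝ) ^ (EuclideanDomain.divRadical g).natDegree *
      (Fintype.card k : ℝ) ^ c.natDegree / (Fintype.card k : ℝ) ^ g.natDegree) with hF
  have hsub : Pr b y1 y2 g ⊆ Lb.biUnion Pl := by
    intro a ha
    obtain ⟨-, -, l1, l2, h2, d1, d2, hd⟩ := Finset.mem_filter.1 ha
    refine Finset.mem_biUnion.2 ⟨(l1, l2), ?_, Finset.mem_filter.2 ⟨ha, hd⟩⟩
    refine Finset.mem_filter.2 ⟨Finset.mem_product.2 ⟨mem_bx_succ.2 ?_, mem_bx_succ.2 ?_⟩, h2⟩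
    · show l1.natDegree ≤ _
      omega
    · show l2.natDegree ≤ _
      omega
  have s1 : ((Pr b y1 y2 g).card : ℝ) ≤ ∑ l ∈ Lb, F (gcd (gcd l.1 l.2) g) := by
    calc ((Pr b y1 y2 g).card : ℝ) ≤ ((∑ l ∈ Lb, (Pl l).card : ℕ) : ℝ) := by
          exact_mod_cast (Finset.card_le_card hsub).trans Finset.card_biUnion_le
      _ = ∑ l ∈ Lb, ((Pl l).card : ℝ) := by push_cast; rfl
      _ ≤ _ := by
          refine Finset.sum_le_sum fun l _ => card_Pl hs g hg hgm l.1 l.2 (Pl l) ?_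
          intro a ha
          obtain ⟨ha1, ha2⟩ := Finset.mem_filter.1 ha
          obtain ⟨ha3, ha4, -⟩ := Finset.mem_filter.1 ha1
          obtain ⟨ha5, ha6⟩ := Finset.mem_product.1 ha3
          exact ⟨ha4, mem_bx_succ.1 ha5, mem_bx_succ.1 ha6, ha2⟩
  have hmon : ∀ l : k[X] × k[X], (gcd (gcd l.1 l.2) g).Monic := by
    intro l
    rw [← normalize_gcd]
    exact monic_normalize (fun h => hg ((gcd_eq_zero_iff _ _).1 h).2)
  have s2 : ∑ l ∈ Lb, F (gcd (gcd l.1 l.2) g) ≤ ∑ c ∈ D,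
      ((Fintype.card k : ℝ) ^ (b - 5 * y1 + 1) / (Fintype.card k : ℝ) ^ c.natDegree) *
      ((Fintype.card k : ℝ) ^ (b - 5 * y2 + 1) / (Fintype.card k : ℝ) ^ c.natDegree) * F c := by
    rw [← Finset.sum_fiberwise_of_maps_to (g := fun l : k[X] × k[X] => gcd (gcd l.1 l.2) g) (t := D)
      (fun l _ => hD _ (hmon l) (gcd_dvd_right _ _))]
    refine Finset.sum_le_sum fun c _ => ?_
    have hFc : 0 ≤ F c := by simp only [hF]; positivity
    rw [Finset.sum_congr rfl (g := fun _ => F c) (fun l hl => by rw [(Finset.mem_filter.1 hl).2]),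
      Finset.sum_const, nsmul_eq_mul]
    refine mul_le_mul_of_nonneg_right ?_ hFc
    rcases (Lb.filter (fun l => gcd (gcd l.1 l.2) g = c)).eq_empty_or_nonempty with h1 | ⟨l0, h1⟩
    · rw [h1]; simp only [Finset.card_empty, Nat.cast_zero]; positivity
    obtain ⟨h2, h3⟩ := Finset.mem_filter.1 h1
    obtain ⟨h4, h5⟩ := Finset.mem_filter.1 h2
    have hc0 : c ≠ 0 := h3 ▸ (hmon l0).ne_zero
    have hdc : c.natDegree ≤ b - 5 * y2 := by
      have : c ∣ l0.2 := h3 ▸ (gcd_dvd_left _ _).trans (gcd_dvd_right _ _)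
      exact (natDegree_le_of_dvd this h5).trans (mem_bx_succ.1 (Finset.mem_product.1 h4).2)
    have hs' : Lb.filter (fun l => gcd (gcd l.1 l.2) g = c) ⊆
        (bx k (b - 5 * y1 + 1)).filter (fun l => c ∣ l) ×ˢ
        (bx k (b - 5 * y2 + 1)).filter (fun l => c ∣ l) := by
      intro l hl
      obtain ⟨a2, a3⟩ := Finset.mem_filter.1 hl
      obtain ⟨a4, -⟩ := Finset.mem_filter.1 a2
      obtain ⟨a5, a6⟩ := Finset.mem_product.1 a4
      exact Finset.mem_product.2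
        ⟨Finset.mem_filter.2 ⟨a5, a3 ▸ (gcd_dvd_left _ _).trans (gcd_dvd_left _ _)⟩,
         Finset.mem_filter.2 ⟨a6, a3 ▸ (gcd_dvd_left _ _).trans (gcd_dvd_right _ _)⟩⟩
    have c1 := card_mult (b - 5 * y1 + 1) c hc0 (by omega)
    have c2 := card_mult (b - 5 * y2 + 1) c hc0 (by omega)
    have c3 := Finset.card_le_card hs'
    rw [Finset.card_product] at c3
    have c4 := (Nat.cast_le (α := ℝ)).2 c3
    rw [Nat.cast_mul] at c4
    refine c4.trans ?_
    convert mul_le_mul c1 c2 (by positivity) (by positivity)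
  have s3 := mul_le_mul_of_nonneg_right (s1.trans s2)
    (pow_pos hq (4 * m + g.natDegree)).le
  refine s3.trans (le_of_eq ?_)
  rw [Finset.sum_mul, Finset.mul_sum]
  refine Finset.sum_congr rfl fun c _ => ?_
  simp only [hF]
  have e : (Fintype.card k : ℝ) ^ (2 * b + 4) = (Fintype.card k : ℝ) ^ (b - 5 * y1 + 1) *
      (Fintype.card k : ℝ) ^ (b - 5 * y2 + 1) * (Fintype.card k : ℝ) ^ (m + 2) /
      (Fintype.card k : ℝ) ^ g.natDegree * (Fintype.card k : ℝ) ^ (4 * m + g.natDegree) := by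
    rw [div_mul_eq_mul_div, eq_div_iff (pow_pos hq _).ne']
    simp only [← pow_add]
    congr 1
    omega
  rw [e]
  field_simp

/-- K4: the rank two count.  With `b = 3m+2e-i` the bound reads
`#T ≤ 4 q^(4+4e-2i) q^m q^(m - deg g) |sq g| sig(g)`. -/
theorem k4_count [CharP k 5] [DecidableEq k] (m b : ℕ) (g : k[X]) (hg : g ≠ 0) (hgm : g.natDegree < m)
    (D : Finset k[X]) (hD : ∀ c : k[X], c.Monic → c ∣ g → c ∈ D) (T : Finset k[X])
    (hT : ∀ H ∈ T, H.degree < m ∧ ∃ (r1 r2 s1 s2 l1 l2 : k[X]) (y1 y2 : ℕ),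
      r1 * s2 - r2 * s1 = 1 ∧ r1 ≠ 0 ∧ y1 ≤ y2 ∧ y1 + y2 = m ∧ r1.natDegree ≤ y1 ∧ r2.natDegree ≤ y2 ∧
      (r1 * H - s1 * X ^ m).natDegree ≤ y1 ∧ (r2 * H - s2 * X ^ m).natDegree ≤ y2 ∧
      l2 ≠ 0 ∧ l1.natDegree + 5 * y1 ≤ b ∧ l2.natDegree + 5 * y2 ≤ b ∧ g ∣ l1 * r1 ^ 5 + l2 * r2 ^ 5) :
    (T.card : ℝ) * (Fintype.card k : ℝ) ^ (4 * m + g.natDegree) ≤
      4 * (Fintype.card k : ℝ) ^ (2 * b + 4) *
        (Fintype.card k : ℝ) ^ (EuclideanDomain.divRadical g).natDegree *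
        ∑ c ∈ D, ((Fintype.card k : ℝ) ^ c.natDegree)⁻¹ := by
  classical
  have hq2 : (2 : ℝ) ≤ Fintype.card k := by exact_mod_cast Fintype.one_lt_card
  have hq : (0 : ℝ) < Fintype.card k := by linarith
  set Ty : ℕ → Finset k[X] := fun y => T.filter (fun H => ∃ r1 r2 : k[X], r1 ≠ 0 ∧
    Bas m y (m - y) H r1 r2 ∧ Cond b y (m - y) g r1 r2) with hTy
  set B : ℝ := 2 * (Fintype.card k : ℝ) ^ (2 * b + 4) *
        (Fintype.card k : ℝ) ^ (EuclideanDomain.divRadical g).natDegree *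
        ∑ c ∈ D, ((Fintype.card k : ℝ) ^ c.natDegree)⁻¹ with hB
  have hB0 : 0 ≤ B := by rw [hB]; positivity
  have hsub : T ⊆ (Finset.range (m / 2 + 1)).biUnion Ty := by
    intro H hH
    obtain ⟨-, r1, r2, s1, s2, l1, l2, y1, y2, hd, h0, hy, hs, a1, a2, a3, a4, a5, a6, a7, a8⟩ := hT H hH
    obtain rfl : y2 = m - y1 := by omega
    exact Finset.mem_biUnion.2 ⟨y1, Finset.mem_range.2 (by omega), Finset.mem_filter.2
      ⟨hH, r1, r2, h0, ⟨s1, s2, hd, a1, a2, a3, a4⟩, l1, l2, a5, a6, a7, a8⟩⟩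
  have hy : ∀ y ∈ Finset.range (m / 2 + 1),
      ((Ty y).card : ℝ) * (Fintype.card k : ℝ) ^ (4 * m + g.natDegree) ≤ (1 / 2) ^ (m / 2 - y) * B := by
    intro y hy
    have hy' := Finset.mem_range.1 hy
    have h1 := dcount (b := b) (by omega : 1 ≤ m) (by omega : y ≤ m - y) (by omega : y + (m - y) = m) g
      (Ty y) (fun H hH => ⟨(hT H (Finset.mem_filter.1 hH).1).1, (Finset.mem_filter.1 hH).2⟩)
    have h2 := card_Pr (b := b) (by omega : y ≤ m - y) (by omega : y + (m - y) = m) g hg hgm D hD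
    have h3 : ((Ty y).card : ℝ) * 2 ^ (m / 2 - y) ≤ (Pr b y (m - y) g).card := by
      have h4 : ((Ty y).card : ℝ) * (Fintype.card k : ℝ) ^ (m - y - y + 1) ≤
          (Pr b y (m - y) g).card * Fintype.card k := by exact_mod_cast h1
      rw [pow_succ, ← mul_assoc] at h4
      refine le_trans ?_ (le_of_mul_le_mul_right h4 hq)
      refine mul_le_mul_of_nonneg_left ?_ (Nat.cast_nonneg _)
      exact (pow_le_pow_left₀ (by norm_num) hq2 _).trans
        (pow_le_pow_right₀ (by linarith) (by omega))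
    have h5 : (0 : ℝ) < 2 ^ (m / 2 - y) := by positivity
    rw [one_div, inv_pow, ← div_eq_inv_mul, le_div_iff₀ h5]
    refine le_trans ?_ h2
    rw [mul_right_comm]
    exact mul_le_mul_of_nonneg_right h3 (pow_pos hq _).le
  have hc : (T.card : ℝ) ≤ ∑ y ∈ Finset.range (m / 2 + 1), ((Ty y).card : ℝ) := by
    exact_mod_cast (Finset.card_le_card hsub).trans Finset.card_biUnion_le
  calc (T.card : ℝ) * (Fintype.card k : ℝ) ^ (4 * m + g.natDegree)
      ≤ (∑ y ∈ Finset.range (m / 2 + 1), ((Ty y).card : ℝ)) *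
          (Fintype.card k : ℝ) ^ (4 * m + g.natDegree) :=
        mul_le_mul_of_nonneg_right hc (pow_pos hq _).le
    _ ≤ ∑ y ∈ Finset.range (m / 2 + 1), (1 / 2) ^ (m / 2 - y) * B := by
        rw [Finset.sum_mul]; exact Finset.sum_le_sum hy
    _ = (∑ y ∈ Finset.range (m / 2 + 1), (1 / 2 : ℝ) ^ y) * B := by
        rw [← Finset.sum_mul, ← Finset.sum_range_reflect (fun y => (1 / 2 : ℝ) ^ y)]
        rfl
    _ ≤ 2 * B := mul_le_mul_of_nonneg_right (sum_geometric_two_le _) hB0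
    _ = _ := by rw [hB]; ring

end H92F.K4
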