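import Mathlib

namespace Pool.Agent.MP_d0fd9b_nt.F92.K77
open Polynomial

variable {k : Type*} [Field k]

/-- a set of polynomials of degree below N has at most q^N elements -/
theorem card_le_of_degree_lt [Fintype k] (T : Finset k[X]) (N : ℕ)
    (h : ∀ p ∈ T, p.degree < N) : T.card ≤ Fintype.card k ^ N := by
  classical
  have : T.card ≤ (Finset.univ : Finset (Fin N → k)).card := by
    refine Finset.card_le_card_of_injOn (fun p i => p.coeff i) (fun _ _ => by simp) ?_
    intro p hp p' hp' hpp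
    ext n
    by_cases hn : n < N
    · exact congrFun hpp ⟨n, hn⟩
    · have h1 := h p hp
      have h2 := h p' hp'
      have hn' : (N : WithBot ℕ) ≤ n := by exact_mod_cast not_lt.mp hn
      rw [coeff_eq_zero_of_degree_lt (h1.trans_le hn'), coeff_eq_zero_of_degree_lt (h2.trans_le hn')]
  simpa using this

theorem coeff_top_mul {a b : k[X]} {m n : ℕ} (ha : a.natDegree ≤ m) (hb : b.natDegree ≤ n) :
    (a * b).coeff (m + n) = a.coeff m * b.coeff n :=
  coeff_mul_add_eq_of_natDegree_le ha hb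

/-- the height of the lattice vector (r, r H - s P) -/
noncomputable def ht (P H r s : k[X]) : ℕ := max r.natDegree (r * H - s * P).natDegree

theorem step {a b c d : k[X]} {y1 y2 : ℕ} (hy : y1 ≤ y2) (h1 : y1 = max a.natDegree b.natDegree)
    (hc : c.natDegree ≤ y2) (hd : d.natDegree ≤ y2) (hdet : a * d - c * b ≠ 0)
    (hne : (a * d - c * b).natDegree ≠ y1 + y2) :
    ∃ t : k[X], max (c - t * a).natDegree (d - t * b).natDegree < y2 := by
  have ha : a.natDegree ≤ y1 := h1 ▸ le_max_left _ _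
  have hb : b.natDegree ≤ y1 := h1 ▸ le_max_right _ _
  have hle : (a * d - c * b).natDegree ≤ y1 + y2 := by
    refine (natDegree_sub_le _ _).trans (max_le ?_ ?_)
    · exact natDegree_mul_le.trans (by omega)
    · exact natDegree_mul_le.trans (by omega)
  have h0 : (a * d - c * b).coeff (y1 + y2) = 0 :=
    coeff_eq_zero_of_natDegree_lt (lt_of_le_of_ne hle hne)
  rw [coeff_sub, coeff_top_mul ha hd, mul_comm c b, coeff_top_mul hb hc] at h0
  have hab : a.coeff y1 ≠ 0 ∨ b.coeff y1 ≠ 0 := by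
    by_contra hcon
    push Not at hcon
    obtain ⟨e1, e2⟩ := hcon
    rcases le_total a.natDegree b.natDegree with h | h
    · rw [max_eq_right h] at h1
      have hb0 : b = 0 := by rw [← leadingCoeff_eq_zero, leadingCoeff, ← h1]; exact e2
      have : a.natDegree = y1 := by subst hb0; simp at h1 h; omega
      have ha0 : a = 0 := by rw [← leadingCoeff_eq_zero, leadingCoeff, this]; exact e1
      simp [ha0, hb0] at hdet
    · rw [max_eq_left h] at h1
      have ha0 : a = 0 := by rw [← leadingCoeff_eq_zero, leadingCoeff, ← h1]; exact e1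
      have : b.natDegree = y1 := by subst ha0; simp at h1 h; omega
      have hb0 : b = 0 := by rw [← leadingCoeff_eq_zero, leadingCoeff, this]; exact e2
      simp [ha0, hb0] at hdet
  obtain ⟨l, l1, l2⟩ : ∃ l : k, c.coeff y2 = l * a.coeff y1 ∧ d.coeff y2 = l * b.coeff y1 := by
    rcases hab with h | h
    · refine ⟨c.coeff y2 / a.coeff y1, by field_simp, ?_⟩
      field_simp
      linear_combination h0
    · refine ⟨d.coeff y2 / b.coeff y1, ?_, by field_simp⟩
      field_simp
      linear_combination -h0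
  have ht : (monomial (y2 - y1) l : k[X]).natDegree ≤ y2 - y1 := natDegree_monomial_le _
  have key : ∀ u v : k[X], u.natDegree ≤ y2 → v.natDegree ≤ y1 → u.coeff y2 = l * v.coeff y1 →
      (u - monomial (y2 - y1) l * v).natDegree ≤ y2 ∧
        (u - monomial (y2 - y1) l * v).coeff y2 = 0 := by
    intro u v hu hv huv
    refine ⟨(natDegree_sub_le _ _).trans (max_le hu (natDegree_mul_le.trans (by omega))), ?_⟩
    have := coeff_top_mul ht hv
    rw [show y2 - y1 + y1 = y2 by omega] at this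
    rw [coeff_sub, this, huv]; simp
  obtain ⟨c1, c2⟩ := key c a hc ha l1
  obtain ⟨d1, d2⟩ := key d b hd hb l2
  refine ⟨monomial (y2 - y1) l, ?_⟩
  set c' := c - monomial (y2 - y1) l * a with hc'
  set d' := d - monomial (y2 - y1) l * b with hd'
  have hdet' : a * d' - c' * b ≠ 0 := by
    have : a * d' - c' * b = a * d - c * b := by rw [hc', hd']; ring
    rwa [this]
  have aux : ∀ u : k[X], u.natDegree ≤ y2 → u.coeff y2 = 0 → u = 0 ∨ u.natDegree < y2 := by
    intro u hu h
    rcases lt_or_eq_of_le hu with h' | h'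
    · exact Or.inr h'
    · left; rw [← leadingCoeff_eq_zero, leadingCoeff, h']; exact h
  rcases aux c' c1 c2 with e1 | e1 <;> rcases aux d' d1 d2 with e2 | e2
  · simp [e1, e2] at hdet'
  · rw [e1]; simp; omega
  · rw [e2]; simp; omega
  · exact max_lt e1 e2

/-- K2: reduced basis of the lattice of pairs (r, r H - s P) -/
theorem K2 (P H : k[X]) (hP : P ≠ 0) :
    ∃ r1 s1 r2 s2 : k[X], r1 * s2 - r2 * s1 = 1 ∧ ht P H r1 s1 ≤ ht P H r2 s2 ∧
      ht P H r1 s1 + ht P H r2 s2 = P.natDegree := by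
  classical
  have hex : ∃ n : ℕ, ∃ r1 s1 r2 s2 : k[X], r1 * s2 - r2 * s1 = 1 ∧
      ht P H r1 s1 + ht P H r2 s2 = n := ⟨_, 1, 0, 0, 1, by ring, rfl⟩
  obtain ⟨r1, s1, r2, s2, hu, hn⟩ := Nat.find_spec hex
  have main : ∀ r1 s1 r2 s2 : k[X], r1 * s2 - r2 * s1 = 1 →
      ht P H r1 s1 + ht P H r2 s2 = Nat.find hex → ht P H r1 s1 ≤ ht P H r2 s2 →
      ht P H r1 s1 + ht P H r2 s2 = P.natDegree := by
    intro r1 s1 r2 s2 hu hn hle
    by_contra hne
    have hD : r1 * (r2 * H - s2 * P) - r2 * (r1 * H - s1 * P) = -P := by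
      linear_combination (-P) * hu
    obtain ⟨t, ht'⟩ := step (a := r1) (b := r1 * H - s1 * P) (c := r2) (d := r2 * H - s2 * P)
      hle rfl (le_max_left _ _) (le_max_right _ _) (by rw [hD]; simpa using hP)
      (by rw [hD, natDegree_neg]; exact fun h => hne h.symm)
    have hlt : ht P H (r2 - t * r1) (s2 - t * s1) < ht P H r2 s2 := by
      have : (r2 - t * r1) * H - (s2 - t * s1) * P = r2 * H - s2 * P - t * (r1 * H - s1 * P) := by
        ring
      unfold ht at *
      rw [this]; exact ht'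
    have := Nat.find_min' hex ⟨r1, s1, r2 - t * r1, s2 - t * s1, by linear_combination hu, rfl⟩
    omega
  rcases le_total (ht P H r1 s1) (ht P H r2 s2) with h | h
  · exact ⟨r1, s1, r2, s2, hu, h, main _ _ _ _ hu hn h⟩
  · have e : ht P H (-r1) (-s1) = ht P H r1 s1 := by
      unfold ht
      rw [show -r1 * H - -s1 * P = -(r1 * H - s1 * P) by ring, natDegree_neg, natDegree_neg]
    have hu' : r2 * -s1 - -r1 * s2 = 1 := by linear_combination hu
    exact ⟨r2, s2, -r1, -s1, hu', e ▸ h, main _ _ _ _ hu' (by rw [e]; omega) (e ▸ h)⟩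

theorem K2_ne {P H r1 s1 r2 s2 : k[X]} (hP : 1 ≤ P.natDegree) (hu : r1 * s2 - r2 * s1 = 1)
    (hle : ht P H r1 s1 ≤ ht P H r2 s2) (hs : ht P H r1 s1 + ht P H r2 s2 = P.natDegree) :
    r1 ≠ 0 := by
  rintro rfl
  have hs1 : s1 ≠ 0 := by rintro rfl; simp at hu
  have hP0 : P ≠ 0 := by rintro rfl; simp at hP
  have : P.natDegree ≤ ht P H 0 s1 := by
    unfold ht
    rw [zero_mul, zero_sub, natDegree_neg, natDegree_mul hs1 hP0]
    exact le_max_of_le_right (by omega)
  omega

/-- Cramer: coordinates of a lattice vector in a unimodular basis, with degree bounds -/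
theorem cramer {P G a1 b1 a2 b2 z W : k[X]} (hP : P ≠ 0) (hu : a1 * b2 - a2 * b1 = 1)
    (hz : P ∣ z * G - W) {D Y1 Y2 : ℕ} (hzD : z.natDegree ≤ D) (hW : W.natDegree ≤ D)
    (h1 : ht P G a1 b1 ≤ Y1) (h2 : ht P G a2 b2 ≤ Y2) :
    ∃ l1 l2 : k[X], z = l1 * a1 + l2 * a2 ∧
      W = l1 * (a1 * G - b1 * P) + l2 * (a2 * G - b2 * P) ∧
      (l1 ≠ 0 → l1.natDegree + P.natDegree ≤ D + Y2) ∧
      (l2 ≠ 0 → l2.natDegree + P.natDegree ≤ D + Y1) := by
  obtain ⟨s, hs⟩ := hz
  have hW' : W = z * G - P * s := by linear_combination -hs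
  have bound : ∀ a b : k[X], ∀ Y, ht P G a b ≤ Y →
      (W * a - z * (a * G - b * P)).natDegree ≤ D + Y := by
    intro a b Y h
    have e1 : a.natDegree ≤ Y := (le_max_left _ _).trans h
    have e2 : (a * G - b * P).natDegree ≤ Y := (le_max_right _ _).trans h
    refine (natDegree_sub_le _ _).trans (max_le ?_ ?_)
    · exact natDegree_mul_le.trans (by omega)
    · exact natDegree_mul_le.trans (by omega)
  refine ⟨z * b2 - s * a2, s * a1 - z * b1, by linear_combination (-z) * hu,
    by rw [hW']; linear_combination (P * s - z * G) * hu, fun h => ?_, fun h => ?_⟩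
  · have := bound a2 b2 Y2 h2
    rw [show W * a2 - z * (a2 * G - b2 * P) = (z * b2 - s * a2) * P by rw [hW']; ring,
      natDegree_mul h hP] at this
    exact this
  · have := bound a1 b1 Y1 h1
    rw [show W * a1 - z * (a1 * G - b1 * P) = -((s * a1 - z * b1) * P) by rw [hW']; ring,
      natDegree_neg, natDegree_mul h hP] at this
    exact this

/-- Cramer in the basis of fifth powers, characteristic five -/
theorem cramer5 [CharP k 5] {P H r1 s1 r2 s2 z W : k[X]} (hP : P ≠ 0)
    (hu : r1 * s2 - r2 * s1 = 1)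
    (hs : ht P H r1 s1 + ht P H r2 s2 = P.natDegree)
    (hz : P ^ 5 ∣ z * H ^ 5 - W) {D : ℕ} (hzD : z.natDegree ≤ D) (hW : W.natDegree ≤ D) :
    ∃ l1 l2 : k[X], z = l1 * r1 ^ 5 + l2 * r2 ^ 5 ∧
      W = l1 * (r1 * H - s1 * P) ^ 5 + l2 * (r2 * H - s2 * P) ^ 5 ∧
      (l1 ≠ 0 → l1.natDegree + 5 * ht P H r1 s1 ≤ D) ∧
      (l2 ≠ 0 → l2.natDegree + 5 * ht P H r2 s2 ≤ D) := by
  have : Fact (Nat.Prime 5) := ⟨by norm_num⟩
  have e : ∀ r s : k[X], r ^ 5 * H ^ 5 - s ^ 5 * P ^ 5 = (r * H - s * P) ^ 5 := by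
    intro r s; rw [sub_pow_char, mul_pow, mul_pow]
  have hh : ∀ r s : k[X], ht (P ^ 5) (H ^ 5) (r ^ 5) (s ^ 5) ≤ 5 * ht P H r s := by
    intro r s
    unfold ht
    rw [e, natDegree_pow, natDegree_pow]
    omega
  have hu5 : r1 ^ 5 * s2 ^ 5 - r2 ^ 5 * s1 ^ 5 = 1 := by
    rw [← mul_pow, ← mul_pow, ← sub_pow_char, hu, one_pow]
  obtain ⟨l1, l2, a, b, c, d⟩ := cramer (pow_ne_zero 5 hP) hu5 hz hzD hW (hh r1 s1) (hh r2 s2)
  rw [e, e] at b
  rw [natDegree_pow] at c d
  exact ⟨l1, l2, a, b, fun h => by have := c h; omega, fun h => by have := d h; omega⟩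

/-- K1: the minimal vector. Here mu = deg M and N <= mu. -/
theorem K1 [Fintype k] (M G : k[X]) (hM : M.Monic) (N : ℕ) (hN : N ≤ M.natDegree)
    (T : Finset k[X])
    (hT : ∀ p, p ∈ T ↔ p.degree < N ∧ ((G * p) %ₘ M).degree < (M.natDegree - N : ℕ))
    (h1 : 1 < T.card) :
    ∃ (p0 : k[X]) (i : ℕ), p0 ≠ 0 ∧ 1 ≤ i ∧ p0.natDegree + i ≤ N ∧
      ((G * p0) %ₘ M ≠ 0 → ((G * p0) %ₘ M).natDegree + i + N ≤ M.natDegree) ∧
      T.card ≤ Fintype.card k ^ i := by
  classical
  set mu := M.natDegree with hmu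
  -- pick the nonzero element of least degree
  obtain ⟨p0, hp0, hmin⟩ : ∃ p0 ∈ T.filter (· ≠ 0), ∀ p ∈ T.filter (· ≠ 0),
      p0.natDegree ≤ p.natDegree := by
    refine Finset.exists_min_image _ _ ?_
    obtain ⟨a, ha, b, hb, hab⟩ := Finset.one_lt_card.mp h1
    by_cases h : a = 0
    · exact ⟨b, by simp [hb, ← h, hab.symm]⟩
    · exact ⟨a, by simp [ha, h]⟩
  rw [Finset.mem_filter] at hp0
  obtain ⟨hp0T, hp0⟩ := hp0
  set W0 := (G * p0) %ₘ M with hW0
  have hnat : ∀ p : k[X], ∀ n : ℕ, p ≠ 0 → p.degree < n → p.natDegree < n :=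
    fun p n hp h => (natDegree_lt_iff_degree_lt hp).mpr h
  have hp0N : p0.natDegree < N := hnat _ _ hp0 ((hT _).mp hp0T).1
  have hW0d : W0 ≠ 0 → W0.natDegree < mu - N := fun h => hnat _ _ h ((hT _).mp hp0T).2
  -- all determinants vanish
  have hdet : ∀ p ∈ T, p0 * ((G * p) %ₘ M) = p * W0 := by
    intro p hp
    obtain ⟨a, b⟩ := (hT p).mp hp
    have hdv : M ∣ p0 * ((G * p) %ₘ M) - p * W0 := by
      have e1 := modByMonic_add_div (G * p) M
      have e2 := modByMonic_add_div (G * p0) M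
      exact ⟨p * ((G * p0) /ₘ M) - p0 * ((G * p) /ₘ M), by
        rw [hW0]; linear_combination p0 * e1 - p * e2⟩
    rw [← sub_eq_zero]
    refine eq_zero_of_dvd_of_degree_lt hdv ?_
    rw [degree_eq_natDegree hM.ne_zero, ← hmu]
    have hsum : ∀ u v : k[X], u.degree < N → v.degree < (mu - N : ℕ) →
        (u * v).degree < (mu : ℕ) := by
      intro u v hu hv
      by_cases hu0 : u = 0
      · simp [hu0]
      by_cases hv0 : v = 0
      · simp [hv0]
      have := hnat _ _ hu0 hu
      have := hnat _ _ hv0 hv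
      rw [← natDegree_lt_iff_degree_lt (mul_ne_zero hu0 hv0), natDegree_mul hu0 hv0]
      omega
    exact (degree_sub_le _ _).trans_lt
      (max_lt (hsum _ _ ((hT _).mp hp0T).1 b) (hsum _ _ a ((hT _).mp hp0T).2))
  -- every element is a multiple of p0
  have hmul : ∀ p ∈ T, ∃ a : k[X], p = a * p0 ∧ (G * p) %ₘ M = a * W0 := by
    intro p hp
    obtain ⟨a, b⟩ := (hT p).mp hp
    have hdiv : p = p / p0 * p0 + p % p0 := by
      rw [mul_comm]; exact (EuclideanDomain.div_add_mod p p0).symm
    have hlt : (p % p0).degree < p0.degree := degree_mod_lt p hp0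
    set r := p % p0 with hr
    set t := p / p0 with ht
    have hW' : p0 * ((G * p) %ₘ M - t * W0) = r * W0 := by
      rw [mul_sub, hdet p hp]; linear_combination W0 * hdiv
    by_cases hr0 : r = 0
    · rw [hr0, zero_mul, mul_eq_zero] at hW'
      refine ⟨t, by rw [hdiv, hr0]; simp, ?_⟩
      rcases hW' with h | h
      · exact absurd h hp0
      · exact sub_eq_zero.mp h
    exfalso
    have hrn : r.natDegree < p0.natDegree := natDegree_lt_natDegree hr0 hlt
    set W' := (G * p) %ₘ M - t * W0 with hW'def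
    have hW'deg : W'.degree < (mu - N : ℕ) := by
      by_cases h : W' = 0
      · rw [h]; simp
      have hW00 : W0 ≠ 0 := by
        intro h0; rw [h0, mul_zero, mul_eq_zero] at hW'; tauto
      have := congrArg natDegree hW'
      rw [natDegree_mul hp0 h, natDegree_mul hr0 hW00] at this
      have := hW0d hW00
      rw [← natDegree_lt_iff_degree_lt h]
      omega
    have hmod : (G * r) %ₘ M = W' := by
      have e1 := modByMonic_add_div (G * p) M
      have e2 := modByMonic_add_div (G * p0) M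
      refine (div_modByMonic_unique ((G * p) /ₘ M - t * ((G * p0) /ₘ M)) W' hM ⟨?_, ?_⟩).2
      · rw [hW'def, hW0]; linear_combination e1 - t * e2 + G * hdiv
      · rw [degree_eq_natDegree hM.ne_zero, ← hmu]
        exact hW'deg.trans_le (by exact_mod_cast Nat.sub_le _ _)
    have hrT : r ∈ T := (hT r).mpr ⟨hlt.trans ((hT _).mp hp0T).1, hmod ▸ hW'deg⟩
    have := hmin r (Finset.mem_filter.mpr ⟨hrT, hr0⟩)
    omega
  let i : ℕ := if W0 = 0 then N - p0.natDegree
    else min (N - p0.natDegree) (mu - N - W0.natDegree)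
  have hi1 : i ≤ N - p0.natDegree := by
    simp only [i]; split_ifs
    · exact le_rfl
    · exact min_le_left _ _
  refine ⟨p0, i, hp0, ?_, by omega, fun h => ?_, ?_⟩
  · simp only [i]; split_ifs with h
    · omega
    · have := hW0d h; omega
  · have h' : W0 ≠ 0 := h
    have := hW0d h'
    have : i ≤ mu - N - W0.natDegree := by simp only [i, if_neg h']; exact min_le_right _ _
    show W0.natDegree + i + N ≤ mu
    omega
  · have hinj : Set.InjOn (fun p => p / p0) T := by
      intro p hp p' hp' h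
      obtain ⟨a, rfl, -⟩ := hmul p hp
      obtain ⟨a', rfl, -⟩ := hmul p' hp'
      simp only [mul_div_cancel_right₀ _ hp0] at h
      rw [h]
    rw [← Finset.card_image_of_injOn hinj]
    refine card_le_of_degree_lt _ _ ?_
    intro a ha
    obtain ⟨p, hp, rfl⟩ := Finset.mem_image.mp ha
    obtain ⟨a, rfl, hW⟩ := hmul p hp
    simp only [mul_div_cancel_right₀ _ hp0]
    by_cases ha0 : a = 0
    · rw [ha0]; simp
    obtain ⟨b1, b2⟩ := (hT _).mp hp
    have c1 := hnat _ _ (mul_ne_zero ha0 hp0) b1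
    rw [natDegree_mul ha0 hp0] at c1
    rw [← natDegree_lt_iff_degree_lt ha0]
    simp only [i]; split_ifs with h
    · omega
    · rw [hW] at b2
      have c2 := hnat _ _ (mul_ne_zero ha0 h) b2
      rw [natDegree_mul ha0 h] at c2
      omega

/-- Lemma P: coprime pairs in a box whose determinants are all divisible by M -/
theorem lemmaP [Fintype k] (S : Finset (k[X] × k[X])) (y1 y2 : ℕ) (M : k[X]) (hM : M ≠ 0)
    (hco : ∀ p ∈ S, IsCoprime p.1 p.2)
    (hd : ∀ p ∈ S, p.1.natDegree ≤ y1 ∧ p.2.natDegree ≤ y2)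
    (hdet : ∀ p ∈ S, ∀ p' ∈ S, M ∣ p.1 * p'.2 - p.2 * p'.1) :
    S.card ≤ Fintype.card k ^ (y1 + y2 + 1 - M.natDegree) * Fintype.card k := by
  classical
  rcases S.eq_empty_or_nonempty with rfl | hne
  · simp
  -- relative height
  let hgt : k[X] × k[X] → WithBot ℕ := fun p => max (p.1.degree + y2) (p.2.degree + y1)
  obtain ⟨a, haS, hmax⟩ := Finset.exists_max_image S hgt hne
  have hfib : ∀ b ∈ S, ∀ b' ∈ S, a.1 * b.2 - a.2 * b.1 = a.1 * b'.2 - a.2 * b'.1 →
      ∃ c : k, b.1 - b'.1 = C c * a.1 ∧ b.2 - b'.2 = C c * a.2 := by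
    intro b hb b' hb' h
    obtain ⟨u, v, huv⟩ := hco a haS
    set l := u * (b.1 - b'.1) + v * (b.2 - b'.2) with hl
    have e1 : b.1 - b'.1 = l * a.1 := by rw [hl]; linear_combination (b'.1 - b.1) * huv - v * h
    have e2 : b.2 - b'.2 = l * a.2 := by rw [hl]; linear_combination (b'.2 - b.2) * huv + u * h
    have hl0 : l.degree ≤ 0 := by
      by_contra hcon
      push Not at hcon
      have hln : l ≠ 0 := by rintro h0; rw [h0] at hcon; simp at hcon
      have hpos : 0 < l.natDegree := natDegree_pos_iff_degree_pos.mpr hcon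
      have b1 : (l * a.1).degree + y2 ≤ hgt a := by
        rw [← e1]
        refine le_trans ?_ (max_le (hmax b hb) (hmax b' hb'))
        rcases le_max_iff.mp (degree_sub_le b.1 b'.1) with h' | h'
        · exact le_max_of_le_left (le_max_of_le_left (by gcongr))
        · exact le_max_of_le_right (le_max_of_le_left (by gcongr))
      have b2 : (l * a.2).degree + y1 ≤ hgt a := by
        rw [← e2]
        refine le_trans ?_ (max_le (hmax b hb) (hmax b' hb'))
        rcases le_max_iff.mp (degree_sub_le b.2 b'.2) with h' | h'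
        · exact le_max_of_le_left (le_max_of_le_right (by gcongr))
        · exact le_max_of_le_right (le_max_of_le_right (by gcongr))
      rw [degree_mul, degree_eq_natDegree hln] at b1 b2
      simp only [hgt] at b1 b2
      by_cases h1 : a.1 = 0
      · have h2 : a.2 ≠ 0 := by intro h2; rw [h1, h2] at huv; simp at huv
        rw [h1, degree_eq_natDegree h2] at b2
        simp only [degree_zero, WithBot.bot_add, bot_le, max_eq_right] at b2
        norm_cast at b2
        omega
      by_cases h2 : a.2 = 0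
      · rw [h2, degree_eq_natDegree h1] at b1
        simp only [degree_zero, WithBot.bot_add, bot_le, max_eq_left] at b1
        norm_cast at b1
        omega
      rw [degree_eq_natDegree h1, degree_eq_natDegree h2] at b1 b2
      rw [le_max_iff] at b1 b2
      norm_cast at b1 b2
      omega
    exact ⟨l.coeff 0, by rw [← eq_C_of_degree_le_zero hl0]; exact e1,
      by rw [← eq_C_of_degree_le_zero hl0]; exact e2⟩
  let f : k[X] × k[X] → k[X] := fun b => (a.1 * b.2 - a.2 * b.1) / M
  have hf : ∀ b ∈ S, a.1 * b.2 - a.2 * b.1 = M * f b := fun b hb =>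
    (EuclideanDomain.mul_div_cancel' hM (hdet a haS b hb)).symm
  have him : (S.image f).card ≤ Fintype.card k ^ (y1 + y2 + 1 - M.natDegree) := by
    refine card_le_of_degree_lt _ _ ?_
    intro t ht
    obtain ⟨b, hb, rfl⟩ := Finset.mem_image.mp ht
    by_cases h0 : f b = 0
    · rw [h0]; simp
    have h1 : (M * f b).natDegree ≤ y1 + y2 := by
      rw [← hf b hb]
      obtain ⟨x1, x2⟩ := hd a haS
      obtain ⟨x3, x4⟩ := hd b hb
      refine (natDegree_sub_le _ _).trans (max_le ?_ ?_)
      · exact natDegree_mul_le.trans (by omega)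
      · exact natDegree_mul_le.trans (by omega)
    rw [natDegree_mul hM h0] at h1
    rw [← natDegree_lt_iff_degree_lt h0]
    omega
  have hfc : ∀ t ∈ S.image f, (S.filter (fun b => f b = t)).card ≤ Fintype.card k := by
    intro t ht
    obtain ⟨b', hb', rfl⟩ := Finset.mem_image.mp ht
    have hsub : S.filter (fun b => f b = f b') ⊆
        (Finset.univ : Finset k).image (fun c => (b'.1 + C c * a.1, b'.2 + C c * a.2)) := by
      intro b hb
      obtain ⟨hb, hbb⟩ := Finset.mem_filter.mp hb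
      obtain ⟨c, c1, c2⟩ := hfib b hb b' hb' (by rw [hf b hb, hf b' hb', hbb])
      refine Finset.mem_image.mpr ⟨c, Finset.mem_univ _, Prod.ext ?_ ?_⟩
      · simp only; linear_combination -c1
      · simp only; linear_combination -c2
    exact (Finset.card_le_card hsub).trans (Finset.card_image_le.trans (by simp))
  calc S.card ≤ Fintype.card k * (S.image f).card := Finset.card_le_mul_card_image S _ hfc
    _ ≤ _ := by rw [mul_comm]; exact Nat.mul_le_mul_right _ him

/-- Lemma P, real form -/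
theorem lemmaP_real [Fintype k] (S : Finset (k[X] × k[X])) (y1 y2 : ℕ) (M : k[X]) (hM : M ≠ 0)
    (hco : ∀ p ∈ S, IsCoprime p.1 p.2)
    (hd : ∀ p ∈ S, p.1.natDegree ≤ y1 ∧ p.2.natDegree ≤ y2)
    (hdet : ∀ p ∈ S, ∀ p' ∈ S, M ∣ p.1 * p'.2 - p.2 * p'.1) :
    (S.card : ℝ) ≤ Fintype.card k +
      (Fintype.card k : ℝ) ^ (y1 + y2 + 2) / (Fintype.card k : ℝ) ^ M.natDegree := by
  have h := lemmaP S y1 y2 M hM hco hd hdet
  have hq : (0 : ℝ) < Fintype.card k := by exact_mod_cast Fintype.card_pos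
  have h' : (S.card : ℝ) ≤ (Fintype.card k : ℝ) ^ (y1 + y2 + 1 - M.natDegree) *
      Fintype.card k := by exact_mod_cast h
  rcases le_total M.natDegree (y1 + y2 + 1) with hh | hh
  · have : (Fintype.card k : ℝ) ^ (y1 + y2 + 2) / (Fintype.card k : ℝ) ^ M.natDegree =
        (Fintype.card k : ℝ) ^ (y1 + y2 + 1 - M.natDegree) * Fintype.card k := by
      rw [div_eq_iff (by positivity), ← pow_succ, ← pow_add]
      congr 1; omega
    rw [this]; linarith
  · rw [Nat.sub_eq_zero_of_le hh, pow_zero, one_mul] at h'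
    have : 0 ≤ (Fintype.card k : ℝ) ^ (y1 + y2 + 2) / (Fintype.card k : ℝ) ^ M.natDegree := by
      positivity
    linarith

end Pool.Agent.MP_d0fd9b_nt.F92.K77
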