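import Pool.Agent.H92F.Chr
import Pool.Agent.H92F.Ar1
import Pool.Agent.H92F.K4_53
import Pool.Agent.H92F.K77
import Pool.Agent.H92F.K5_24

/-! h92f: the tail lemma (rows K0-K4). -/

set_option autoImplicit false
open Polynomial Finset UniqueFactorizationMonoid EuclideanDomain Filter Topology
open scoped Classical

noncomputable section
namespace CL5

open Pool.Agent.MP_d0fd9b_nt.F92.K77 (ht)

variable {k : Type*} [Field k] [Fintype k]

theorem k3_mem_box_succ {n : ℕ} {p : k[X]} : p ∈ box k (n + 1) ↔ p.natDegree ≤ n := by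
  rw [mem_box, Polynomial.natDegree_le_iff_degree_le]
  constructor
  · intro h
    rcases eq_or_ne p 0 with rfl | hp
    · simp
    · rw [degree_eq_natDegree hp] at h ⊢
      exact_mod_cast Nat.lt_succ_iff.1 (by exact_mod_cast h)
  · intro h
    exact lt_of_le_of_lt h (by exact_mod_cast Nat.lt_succ_self n)

theorem k3_geom {t : ℝ} (ht : 1 < t) (a b : ℕ) :
    ∑ i ∈ Ioc a b, (t ^ i)⁻¹ ≤ (t ^ a)⁻¹ / (1 - t⁻¹) := by
  have h0 : 0 < t := by linarith
  have h1 : 0 ≤ t⁻¹ := inv_nonneg.2 h0.le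
  have h2 : t⁻¹ < 1 := inv_lt_one_of_one_lt₀ ht
  have h3 : ∑ i ∈ Ico a (b + 1), t⁻¹ ^ i ≤ t⁻¹ ^ a / (1 - t⁻¹) := geom_sum_Ico_le_of_lt_one h1 h2
  simp only [inv_pow] at h3
  refine le_trans (Finset.sum_le_sum_of_subset_of_nonneg ?_ ?_) h3
  · intro i hi
    rw [Finset.mem_Ioc] at hi
    rw [Finset.mem_Ico]
    omega
  · intro i _ _
    positivity

/-- the monic divisors of `g` -/
def dvs (g : k[X]) : Finset k[X] := (box k (g.natDegree + 1)).filter (fun c => c.Monic ∧ c ∣ g)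

theorem mem_dvs {g c : k[X]} (hg : g ≠ 0) : c ∈ dvs g ↔ c.Monic ∧ c ∣ g := by
  unfold dvs
  rw [Finset.mem_filter, k3_mem_box_succ]
  exact ⟨fun h => h.2, fun h => ⟨Polynomial.natDegree_le_of_dvd h.2 hg, h⟩⟩

/-- weight of the divisors of `g` whose radical divides `r` -/
def wA (g r : k[X]) : ℝ := ∑ c ∈ (dvs g).filter (fun c => radical c ∣ r), Real.sqrt (nrm c)

theorem wA_nonneg (g r : k[X]) : 0 ≤ wA g r := Finset.sum_nonneg fun _ _ => Real.sqrt_nonneg _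

theorem k3_qq_pos : 0 < qq k := lt_of_lt_of_le (by norm_num) two_le_qq

theorem k3_nrm_pos (a : k[X]) : 0 < nrm a := pow_pos k3_qq_pos _

theorem L1_nonneg' (g : k[X]) : 0 ≤ L1 g :=
  Finset.sum_nonneg fun _ _ => div_nonneg (Real.sqrt_nonneg _) (k3_nrm_pos _).le

theorem sum_wA_le (g : k[X]) (N : ℕ) :
    ∑ r ∈ (box k N).erase 0, wA g r ≤ qq k ^ N * L1 g := by
  unfold wA L1
  simp only [Finset.sum_filter (s := dvs g)]
  rw [Finset.sum_comm, Finset.mul_sum]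
  refine Finset.sum_le_sum fun c _ => ?_
  rw [← Finset.sum_filter, Finset.sum_const, nsmul_eq_mul]
  have h := card_box_dvd_le (k := k) (N := N) (c := radical c) radical_ne_zero
  calc _ ≤ qq k ^ N / nrm (radical c) * Real.sqrt (nrm c) :=
        mul_le_mul_of_nonneg_right h (Real.sqrt_nonneg _)
    _ = _ := by ring

/-- (K3) -/
theorem k3_sum {t : ℝ} (ht : 1 < t) (hq : qq k = t ^ 2) (m Y : ℕ) (g : k[X]) (T : Finset k[X])
    (r : k[X] → k[X]) (y : k[X] → ℕ)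
    (hT : ∀ H ∈ T, H ∈ box k m ∧ r H ≠ 0 ∧ (r H).natDegree ≤ y H ∧
      ((r H * H) %ₘ X ^ m).natDegree ≤ y H ∧ Y < y H ∧ y H ≤ m) :
    ∑ H ∈ T, wA g (r H) / t ^ (5 * y H) ≤ qq k ^ 2 * L1 g * ((t ^ Y)⁻¹ / (1 - t⁻¹)) := by
  have h0 : 0 < t := by linarith
  have step1 : ∑ H ∈ T, wA g (r H) / t ^ (5 * y H) ≤
      ∑ H ∈ box k m, ∑ j ∈ Ioc Y m, ∑ a ∈ (box k (j + 1)).erase 0,
        if ((a * H) %ₘ X ^ m).natDegree ≤ j then wA g a / t ^ (5 * j) else 0 := by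
    have hnn : ∀ (H : k[X]) (j : ℕ) (a : k[X]),
        0 ≤ (if ((a * H) %ₘ X ^ m).natDegree ≤ j then wA g a / t ^ (5 * j) else 0) := by
      intro H j a
      split_ifs
      · exact div_nonneg (wA_nonneg _ _) (by positivity)
      · exact le_rfl
    refine le_trans (Finset.sum_le_sum fun H hH => ?_)
      (Finset.sum_le_sum_of_subset_of_nonneg (fun H hH => (hT H hH).1) fun H _ _ =>
        Finset.sum_nonneg fun j _ => Finset.sum_nonneg fun a _ => hnn H j a)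
    obtain ⟨-, h1, h2, h3, h4, h5⟩ := hT H hH
    have hj : y H ∈ Ioc Y m := Finset.mem_Ioc.2 ⟨h4, h5⟩
    have ha : r H ∈ (box k (y H + 1)).erase 0 := Finset.mem_erase.2 ⟨h1, k3_mem_box_succ.2 h2⟩
    refine le_trans ?_ (Finset.single_le_sum (f := fun j => ∑ a ∈ (box k (j + 1)).erase 0,
        if ((a * H) %ₘ X ^ m).natDegree ≤ j then wA g a / t ^ (5 * j) else 0)
        (fun j _ => Finset.sum_nonneg fun a _ => hnn H j a) hj)
    refine le_trans ?_ (Finset.single_le_sum (f := fun a =>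
        if ((a * H) %ₘ X ^ m).natDegree ≤ y H then wA g a / t ^ (5 * y H) else 0)
        (fun a _ => hnn H _ a) ha)
    simp only [if_pos h3, le_refl]
  refine step1.trans ?_
  rw [Finset.sum_comm]
  refine le_trans (Finset.sum_le_sum (g := fun j => qq k ^ 2 * L1 g * (t ^ j)⁻¹) fun j _ => ?_) ?_
  · rw [Finset.sum_comm]
    have : ∀ a ∈ (box k (j + 1)).erase 0,
        (∑ H ∈ box k m, if ((a * H) %ₘ X ^ m).natDegree ≤ j then wA g a / t ^ (5 * j) else 0) ≤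
          qq k ^ (j + 1) / t ^ (5 * j) * wA g a := by
      intro a ha
      rw [Finset.mem_erase, k3_mem_box_succ] at ha
      rw [← Finset.sum_filter, Finset.sum_const, nsmul_eq_mul]
      calc _ ≤ qq k ^ (j + 1) * (wA g a / t ^ (5 * j)) :=
            mul_le_mul_of_nonneg_right (card_small_le m j ha.1 ha.2)
              (div_nonneg (wA_nonneg _ _) (by positivity))
        _ = _ := by ring
    refine (Finset.sum_le_sum this).trans ?_
    rw [← Finset.mul_sum]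
    calc _ ≤ qq k ^ (j + 1) / t ^ (5 * j) * (qq k ^ (j + 1) * L1 g) :=
          mul_le_mul_of_nonneg_left (sum_wA_le g _) (div_nonneg (pow_pos k3_qq_pos _).le (by positivity))
      _ = _ := by
          rw [hq]
          field_simp
          ring
  · rw [← Finset.mul_sum]
    exact mul_le_mul_of_nonneg_left (k3_geom ht Y m)
      (mul_nonneg (pow_pos k3_qq_pos _).le (L1_nonneg' g))

omit [Fintype k] in
theorem k3_divisor {g l r : k[X]} (hg : g ≠ 0) (hl : l ≠ 0) (h : g ∣ l * r ^ 5) :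
    ∃ c : k[X], c.Monic ∧ c ∣ g ∧ radical c ∣ r ∧ g.natDegree ≤ l.natDegree + c.natDegree := by
  obtain ⟨a, b, ha, hb, rfl⟩ := exists_dvd_and_dvd_of_dvd_mul h
  have ha0 : a ≠ 0 := left_ne_zero_of_mul hg
  have hb0 : b ≠ 0 := right_ne_zero_of_mul hg
  have hm : (normalize b).Monic := Polynomial.monic_normalize hb0
  have hd : normalize b ∣ b := (normalize_associated b).dvd
  refine ⟨normalize b, hm, hd.mul_left a, ?_, ?_⟩
  · exact (exists_dvd_pow_iff_radical_dvd hm.ne_zero).1 ⟨5, hd.trans hb⟩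
  · rw [Polynomial.natDegree_mul ha0 hb0]
    have h1 := Polynomial.natDegree_le_of_dvd ha hl
    have h2 := Polynomial.natDegree_le_of_dvd (normalize_associated b).symm.dvd hm.ne_zero
    omega

/-- rank two data at level `b` -/
def Rk2 (m b : ℕ) (g H : k[X]) : Prop :=
  H.degree < m ∧ ∃ (r1 r2 s1 s2 l1 l2 : k[X]) (y1 y2 : ℕ),
    r1 * s2 - r2 * s1 = 1 ∧ r1 ≠ 0 ∧ y1 ≤ y2 ∧ y1 + y2 = m ∧ r1.natDegree ≤ y1 ∧
    r2.natDegree ≤ y2 ∧ (r1 * H - s1 * X ^ m).natDegree ≤ y1 ∧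
    (r2 * H - s2 * X ^ m).natDegree ≤ y2 ∧ l2 ≠ 0 ∧ l1.natDegree + 5 * y1 ≤ b ∧
    l2.natDegree + 5 * y2 ≤ b ∧ g ∣ l1 * r1 ^ 5 + l2 * r2 ^ 5

theorem k_point [CharP k 5] {d : k[X]} (hd : d ≠ 0) {n : ℕ} (hn : 2 * d.natDegree + 2 ≤ n)
    {g H r1 s1 r2 s2 : k[X]} (hg : g ≠ 0) (hgm : g.natDegree < n / 2)
    (hH : H.degree < (n / 2 : ℕ)) (hu : r1 * s2 - r2 * s1 = 1)
    (hle : ht (X ^ (n / 2)) H r1 s1 ≤ ht (X ^ (n / 2)) H r2 s2)
    (hs : ht (X ^ (n / 2)) H r1 s1 + ht (X ^ (n / 2)) H r2 s2 = (X ^ (n / 2) : k[X]).natDegree)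
    (hk : 1 < kap d n g H) :
    ∃ i : ℕ, i ≤ n ∧ (kap d n g H : ℝ) ≤ qq k ^ i ∧ i ≤ 3 * (n / 2) + 2 * d.natDegree ∧
      ((∃ c : k[X], c.Monic ∧ c ∣ g ∧ radical c ∣ r1 ∧
        i + 5 * ht (X ^ (n / 2)) H r1 s1 + g.natDegree ≤
          3 * (n / 2) + 2 * d.natDegree + c.natDegree) ∨
      Rk2 (n / 2) (3 * (n / 2) + 2 * d.natDegree - i) g H) := by
  set m := n / 2 with hm
  set e := d.natDegree with he
  have hXm : (X ^ m : k[X]) ≠ 0 := pow_ne_zero _ X_ne_zero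
  have hdeg : (X ^ (5 * m) : k[X]).natDegree = 5 * m := natDegree_X_pow _
  have hdm : (X ^ m : k[X]).natDegree = m := natDegree_X_pow _
  obtain ⟨p0, i, hp0, hi1, hi2, hW, hcard⟩ :=
    Pool.Agent.MP_d0fd9b_nt.F92.K77.K1 (X ^ (5 * m) : k[X]) (H ^ 5 * (g * d ^ 4))
      (monic_X_pow _) (n - 2 * e) (by rw [hdeg]; omega)
      ((box k (n - 2 * e)).filter (fun φ =>
        ((H ^ 5 * (g * d ^ 4) * φ) %ₘ X ^ (5 * m)).degree < (5 * m - (n - 2 * e) : ℕ)))
      (fun p => by rw [Finset.mem_filter, mem_box, hdeg]) hk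
  rw [hdeg] at hW
  have hz0 : g * d ^ 4 * p0 ≠ 0 := mul_ne_zero (mul_ne_zero hg (pow_ne_zero _ hd)) hp0
  have hzd : (g * d ^ 4 * p0).natDegree ≤ 3 * m + 2 * e - i := by
    rw [natDegree_mul (mul_ne_zero hg (pow_ne_zero _ hd)) hp0, natDegree_mul hg (pow_ne_zero _ hd),
      natDegree_pow]
    omega
  have hWd : ((H ^ 5 * (g * d ^ 4) * p0) %ₘ X ^ (5 * m)).natDegree ≤ 3 * m + 2 * e - i := by
    by_cases h0 : (H ^ 5 * (g * d ^ 4) * p0) %ₘ X ^ (5 * m) = 0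
    · rw [h0]; simp
    · have := hW h0
      omega
  have hdvd : (X ^ m : k[X]) ^ 5 ∣
      g * d ^ 4 * p0 * H ^ 5 - (H ^ 5 * (g * d ^ 4) * p0) %ₘ X ^ (5 * m) := by
    refine ⟨(H ^ 5 * (g * d ^ 4) * p0) /ₘ X ^ (5 * m), ?_⟩
    have := modByMonic_add_div (H ^ 5 * (g * d ^ 4) * p0) (X ^ (5 * m) : k[X])
    rw [← pow_mul, mul_comm m 5]
    linear_combination -this
  obtain ⟨l1, l2, hz, -, h1, h2⟩ :=
    Pool.Agent.MP_d0fd9b_nt.F92.K77.cramer5 hXm hu hs hdvd hzd hWd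
  have hr1 : r1 ≠ 0 := Pool.Agent.MP_d0fd9b_nt.F92.K77.K2_ne (by rw [hdm]; omega) hu hle hs
  have hgd : g ∣ l1 * r1 ^ 5 + l2 * r2 ^ 5 := by
    rw [← hz, mul_assoc]; exact dvd_mul_right _ _
  refine ⟨i, by omega, ?_, by omega, ?_⟩
  · unfold qq
    exact_mod_cast hcard
  · by_cases hl2 : l2 = 0
    · left
      rw [hl2, zero_mul, add_zero] at hz hgd
      have hl1 : l1 ≠ 0 := by
        rintro rfl
        exact hz0 (by rw [hz, zero_mul])
      obtain ⟨c, hc1, hc2, hc3, hc4⟩ := k3_divisor hg hl1 hgd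
      have := h1 hl1
      exact ⟨c, hc1, hc2, hc3, by omega⟩
    · right
      have h2' := h2 hl2
      refine ⟨hH, r1, r2, s1, s2, l1, l2, ht (X ^ m) H r1 s1, ht (X ^ m) H r2 s2, hu, hr1, hle,
        by rw [hs, hdm], le_max_left _ _, le_max_left _ _, le_max_right _ _, le_max_right _ _,
        hl2, ?_, h2', hgd⟩
      by_cases hl1 : l1 = 0
      · rw [hl1, natDegree_zero]; omega
      · exact h1 hl1

theorem k_sigma_le (g : k[X]) (hg : g ≠ 0) :
    ∑ c ∈ dvs g, ((Fintype.card k : ℝ) ^ c.natDegree)⁻¹ ≤ L1 g := by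
  refine Finset.sum_le_sum fun c hc => ?_
  have hc' := ((mem_dvs hg).1 hc).1
  have h1 : (1 : ℝ) ≤ qq k := le_trans (by norm_num) two_le_qq
  have h2 : nrm (radical c) ≤ nrm c :=
    pow_le_pow_right₀ h1 (natDegree_le_of_dvd radical_dvd_self hc'.ne_zero)
  have h3 : 1 ≤ Real.sqrt (nrm c) := Real.one_le_sqrt.2 (one_le_pow₀ h1)
  calc ((Fintype.card k : ℝ) ^ c.natDegree)⁻¹ = 1 / nrm c := by rw [one_div]; rfl
    _ ≤ _ := div_le_div₀ (by linarith) h3 (k3_nrm_pos _) h2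

theorem k_min {x w z : ℝ} (h1 : x ≤ 1) (hw : 0 ≤ w) (hz : 0 ≤ z) (h2 : x ≤ w ^ 2 * z) :
    x ≤ w + z := by
  by_cases h : 1 ≤ w
  · linarith
  · have : w ^ 2 ≤ 1 := pow_le_one₀ hw (not_le.1 h).le
    nlinarith

/-- (K4) weighted -/
theorem k_rank2 [CharP k 5] {τ : ℝ} (hτ : 1 < τ) (hq : qq k = τ ^ 6) {m e i : ℕ}
    (hi : i ≤ 3 * m + 2 * e) {g : k[X]} (hg : g ≠ 0) (hgm : g.natDegree < m) :
    (((box k m).filter (fun H => Rk2 m (3 * m + 2 * e - i) g H)).card : ℝ) * (τ ^ 3) ^ i ≤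
      (τ ^ i)⁻¹ * (qq k ^ m * ((τ ^ 3) ^ (m - g.natDegree) * (τ ^ 3) ^ (divRadical g).natDegree +
        4 * qq k ^ (4 * e + 4) * L1 g)) := by
  have h0 : 0 < τ := by linarith
  obtain ⟨b, hb⟩ : ∃ b, 3 * m + 2 * e = b + i := ⟨3 * m + 2 * e - i, by omega⟩
  obtain ⟨j, hj⟩ : ∃ j, m = g.natDegree + j := ⟨m - g.natDegree, by omega⟩
  have hb' : 3 * m + 2 * e - i = b := by omega
  have hj' : m - g.natDegree = j := by omega
  rw [hb', hj']
  set N : ℝ := (((box k m).filter (fun H => Rk2 m b g H)).card : ℝ) with hN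
  have hN1 : N ≤ qq k ^ m := by
    rw [← card_box m, hN]
    exact_mod_cast Finset.card_filter_le _ _
  have hN2 := H92F.K4.k4_count m b g hg hgm (dvs g) (fun c h1 h2 => (mem_dvs hg).2 ⟨h1, h2⟩)
    ((box k m).filter (fun H => Rk2 m b g H)) (fun H hH => (Finset.mem_filter.1 hH).2)
  have hL := L1_nonneg' g
  have hqp : 0 < qq k := k3_qq_pos
  have hN3 : N * qq k ^ (4 * m + g.natDegree) ≤
      4 * qq k ^ (2 * b + 4) * qq k ^ (divRadical g).natDegree * L1 g :=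
    hN2.trans (mul_le_mul_of_nonneg_left (k_sigma_le g hg) (by positivity))
  set S := (divRadical g).natDegree with hS
  set G := g.natDegree with hG
  have hx : N / qq k ^ m ≤ (τ ^ 3) ^ j * (τ ^ 3) ^ S / τ ^ (4 * i) +
      4 * qq k ^ (4 * e + 4) * L1 g / τ ^ (4 * i) := by
    refine k_min ((div_le_one (by positivity)).2 hN1) (by positivity) (by positivity) ?_
    rw [div_le_iff₀ (by positivity)]
    refine le_of_mul_le_mul_right (hN3.trans (le_of_eq ?_)) (pow_pos hqp (4 * m + G))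
    rw [hq]
    have key : τ ^ (6 * (2 * b + 4)) * τ ^ (12 * i) =
        τ ^ (6 * j) * τ ^ (6 * (4 * e + 4)) * τ ^ (6 * m) * τ ^ (6 * (4 * m + G)) := by
      simp only [← pow_add]
      congr 1
      omega
    simp only [← pow_mul]
    have e1 : τ ^ (6 * j) = (τ ^ (3 * j)) ^ 2 := by rw [← pow_mul]; congr 1; omega
    have e2 : τ ^ (6 * S) = (τ ^ (3 * S)) ^ 2 := by rw [← pow_mul]; congr 1; omega
    have e3 : τ ^ (12 * i) = (τ ^ (4 * i)) ^ 3 := by rw [← pow_mul]; congr 1; omega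
    rw [e1, e3] at key
    rw [e2]
    have hu : τ ^ (4 * i) ≠ 0 := by positivity
    generalize τ ^ (4 * i) = u at *
    generalize τ ^ (3 * j) = a at *
    generalize τ ^ (3 * S) = s at *
    generalize τ ^ (6 * (2 * b + 4)) = A at *
    generalize τ ^ (6 * (4 * e + 4)) = E at *
    generalize τ ^ (6 * m) = M at *
    generalize τ ^ (6 * (4 * m + G)) = P at *
    field_simp
    linear_combination (s ^ 2 * L1 g) * key
  rw [div_le_iff₀ (by positivity)] at hx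
  refine (mul_le_mul_of_nonneg_right hx (by positivity)).trans (le_of_eq ?_)
  have e4 : τ ^ (4 * i) = (τ ^ 3) ^ i * τ ^ i := by rw [← pow_mul, ← pow_add]; congr 1; omega
  rw [e4]
  field_simp

omit [Fintype k] in
theorem k_mod_eq {m : ℕ} {a s : k[X]} (h : (a - s * X ^ m).natDegree < m) :
    a %ₘ X ^ m = a - s * X ^ m := by
  have hm : (X ^ m : k[X]).Monic := monic_X_pow m
  rw [modByMonic_eq_of_dvd_sub hm (p₂ := a - s * X ^ m) ⟨s, by ring⟩]
  refine (modByMonic_eq_self_iff hm).2 ?_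
  rw [degree_X_pow]
  exact lt_of_le_of_lt degree_le_natDegree (by exact_mod_cast h)

/-- the sum over `H` for a fixed `g` -/
theorem k_inner [CharP k 5] {τ : ℝ} (hτ : 1 < τ) (hq : qq k = τ ^ 6) {d : k[X]} (hd : d ≠ 0)
    {n : ℕ} (hn : 2 * d.natDegree + 2 ≤ n) (Y i0 : ℕ) {g : k[X]} (hg : g ≠ 0)
    (hgm : g.natDegree < n / 2) :
    ∑ H ∈ box k (n / 2) \ Maj k (n / 2) Y,
        (if qq k ^ i0 < (kap d n g H : ℝ) then Real.sqrt (kap d n g H) else 0) ≤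
      qq k ^ (n / 2) * ((τ ^ 3) ^ (n / 2 - g.natDegree) * L1 g *
          (qq k ^ (d.natDegree + 2) * (((τ ^ 3) ^ Y)⁻¹ / (1 - (τ ^ 3)⁻¹))) +
        ((τ ^ 3) ^ (n / 2 - g.natDegree) * (τ ^ 3) ^ (divRadical g).natDegree +
          4 * qq k ^ (4 * d.natDegree + 4) * L1 g) * ((τ ^ i0)⁻¹ / (1 - τ⁻¹))) := by
  have h0 : 0 < τ := by linarith
  have ht1 : 1 < τ ^ 3 := one_lt_pow₀ hτ (by norm_num)
  have hqt : qq k = (τ ^ 3) ^ 2 := by rw [hq, ← pow_mul]
  have hq1 : 1 < qq k := lt_of_lt_of_le (by norm_num) two_le_qq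
  have hsq : ∀ j : ℕ, Real.sqrt (qq k ^ j) = (τ ^ 3) ^ j := fun j => by
    rw [hqt, ← pow_mul, mul_comm 2 j, pow_mul]
    exact Real.sqrt_sq (by positivity)
  set t := τ ^ 3 with ht3
  have ht0 : 0 < t := by linarith
  have hXm : (X ^ (n / 2) : k[X]) ≠ 0 := pow_ne_zero _ X_ne_zero
  have hdm : (X ^ (n / 2) : k[X]).natDegree = n / 2 := natDegree_X_pow _
  choose r1 s1 r2 s2 hu hle hs using
    fun H : k[X] => Pool.Agent.MP_d0fd9b_nt.F92.K77.K2 (X ^ (n / 2)) H hXm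
  obtain ⟨j, hj⟩ : ∃ j, n / 2 = g.natDegree + j := ⟨n / 2 - g.natDegree, by omega⟩
  have hj' : n / 2 - g.natDegree = j := by omega
  have pt : ∀ H ∈ box k (n / 2) \ Maj k (n / 2) Y,
      (if qq k ^ i0 < (kap d n g H : ℝ) then Real.sqrt (kap d n g H) else 0) ≤
        qq k ^ (n / 2) * (t ^ j * qq k ^ d.natDegree) *
          (wA g (r1 H) / t ^ (5 * ht (X ^ (n / 2)) H (r1 H) (s1 H))) +
        ∑ i ∈ Ioc i0 n, if i ≤ 3 * (n / 2) + 2 * d.natDegree ∧
          Rk2 (n / 2) (3 * (n / 2) + 2 * d.natDegree - i) g H then t ^ i else 0 := by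
    intro H hH
    have hA : 0 ≤ qq k ^ (n / 2) * (t ^ j * qq k ^ d.natDegree) *
        (wA g (r1 H) / t ^ (5 * ht (X ^ (n / 2)) H (r1 H) (s1 H))) :=
      mul_nonneg (by positivity) (div_nonneg (wA_nonneg _ _) (by positivity))
    have hnn : ∀ i : ℕ, 0 ≤ (if i ≤ 3 * (n / 2) + 2 * d.natDegree ∧
          Rk2 (n / 2) (3 * (n / 2) + 2 * d.natDegree - i) g H then t ^ i else 0) := fun i => by
      split_ifs
      · positivity
      · exact le_rfl
    have hB := Finset.sum_nonneg (s := Ioc i0 n) fun i _ => hnn i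
    split_ifs with hk
    swap
    · linarith
    have hk1 : 1 < kap d n g H := by
      have : (1 : ℝ) < kap d n g H := lt_of_le_of_lt (one_le_pow₀ hq1.le) hk
      exact_mod_cast this
    obtain ⟨i, hi1, hi2, hi3, hcase⟩ := k_point hd hn hg hgm
      (mem_box.1 (Finset.mem_sdiff.1 hH).1) (hu H) (hle H) (hs H) hk1
    have hi0 : i0 < i := (pow_lt_pow_iff_right₀ hq1).1 (hk.trans_le hi2)
    have hs1 : Real.sqrt (kap d n g H) ≤ t ^ i := by
      rw [← hsq]; exact Real.sqrt_le_sqrt hi2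
    rcases hcase with ⟨c, hc1, hc2, hc3, hc4⟩ | h2
    · have hw : t ^ c.natDegree ≤ wA g (r1 H) := by
        rw [← hsq]
        exact Finset.single_le_sum (f := fun c : k[X] => Real.sqrt (nrm c))
          (fun _ _ => Real.sqrt_nonneg _) (Finset.mem_filter.2 ⟨(mem_dvs hg).2 ⟨hc1, hc2⟩, hc3⟩)
      have h3 : t ^ i ≤ qq k ^ (n / 2) * (t ^ j * qq k ^ d.natDegree) *
          (t ^ c.natDegree / t ^ (5 * ht (X ^ (n / 2)) H (r1 H) (s1 H))) := by
        rw [← _root_.mul_div_assoc, le_div_iff₀ (by positivity), hqt]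
        simp only [← pow_mul, ← pow_add]
        exact pow_le_pow_right₀ ht1.le (by omega)
      have h4 : qq k ^ (n / 2) * (t ^ j * qq k ^ d.natDegree) *
          (t ^ c.natDegree / t ^ (5 * ht (X ^ (n / 2)) H (r1 H) (s1 H))) ≤
          qq k ^ (n / 2) * (t ^ j * qq k ^ d.natDegree) *
          (wA g (r1 H) / t ^ (5 * ht (X ^ (n / 2)) H (r1 H) (s1 H))) :=
        mul_le_mul_of_nonneg_left (div_le_div_of_nonneg_right hw (by positivity)) (by positivity)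
      linarith
    · have h3 := Finset.single_le_sum (s := Ioc i0 n) (fun i _ => hnn i)
        (Finset.mem_Ioc.2 ⟨hi0, hi1⟩)
      simp only [hi3, h2, and_self, if_true] at h3
      linarith
  refine (Finset.sum_le_sum pt).trans ?_
  rw [Finset.sum_add_distrib, ← Finset.mul_sum, mul_add, hj']
  refine add_le_add ?_ ?_
  · have h1 := k3_sum ht1 hqt (n / 2) Y g (box k (n / 2) \ Maj k (n / 2) Y) r1
      (fun H => ht (X ^ (n / 2)) H (r1 H) (s1 H)) (fun H hH => by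
        obtain ⟨hH1, hH2⟩ := Finset.mem_sdiff.1 hH
        have a1 := hle H
        have a2 := hs H
        rw [hdm] at a2
        have hr1 : r1 H ≠ 0 :=
          Pool.Agent.MP_d0fd9b_nt.F92.K77.K2_ne (by rw [hdm]; omega) (hu H) (hle H) (hs H)
        have a3 : (r1 H).natDegree ≤ ht (X ^ (n / 2)) H (r1 H) (s1 H) := le_max_left _ _
        have a4 : (r1 H * H - s1 H * X ^ (n / 2)).natDegree ≤ ht (X ^ (n / 2)) H (r1 H) (s1 H) :=
          le_max_right _ _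
        have a5 : (r1 H * H) %ₘ X ^ (n / 2) = r1 H * H - s1 H * X ^ (n / 2) :=
          k_mod_eq (by omega)
        refine ⟨hH1, hr1, a3, by rw [a5]; exact a4, ?_, by omega⟩
        by_contra hc
        exact hH2 (Finset.mem_filter.2 ⟨hH1, r1 H, hr1, by omega, by rw [a5]; omega⟩))
    refine (mul_le_mul_of_nonneg_left h1 (by positivity)).trans (le_of_eq ?_)
    ring
  · rw [Finset.sum_comm]
    have hL := L1_nonneg' g
    have hR : 0 ≤ qq k ^ (n / 2) * (t ^ j * t ^ (divRadical g).natDegree +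
        4 * qq k ^ (4 * d.natDegree + 4) * L1 g) := by positivity
    refine le_trans (Finset.sum_le_sum (g := fun i => (τ ^ i)⁻¹ * (qq k ^ (n / 2) *
        (t ^ j * t ^ (divRadical g).natDegree + 4 * qq k ^ (4 * d.natDegree + 4) * L1 g)))
        fun i _ => ?_) ?_
    · by_cases hi : i ≤ 3 * (n / 2) + 2 * d.natDegree
      · have h1 := k_rank2 hτ hq hi hg hgm
        rw [hj'] at h1
        refine le_trans ?_ h1
        simp only [hi, true_and]
        rw [← Finset.sum_filter, Finset.sum_const, nsmul_eq_mul]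
        refine mul_le_mul_of_nonneg_right ?_ (by positivity)
        exact_mod_cast Finset.card_le_card (Finset.filter_subset_filter _ Finset.sdiff_subset)
      · simp only [hi, false_and, if_false, Finset.sum_const_zero]
        positivity
    · rw [← Finset.sum_mul]
      refine (mul_le_mul_of_nonneg_right (k3_geom hτ i0 n) hR).trans (le_of_eq ?_)
      ring

/-- LEMMA K with `q = τ ^ 6` -/
theorem lemmaK_tau [CharP k 5] {τ : ℝ} (hτ : 1 < τ) (hq : qq k = τ ^ 6) {d : k[X]} (hd : d ≠ 0) :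
    ∃ C : ℝ, 0 ≤ C ∧ ∀ n Y i0 : ℕ, 2 * d.natDegree + 2 ≤ n →
      ∑ g ∈ (box k (n / 2)).erase 0, ∑ H ∈ box k (n / 2) \ Maj k (n / 2) Y,
        (if qq k ^ i0 < (kap d n g H : ℝ) then Real.sqrt (kap d n g H) else 0) ≤
      C * (((τ ^ 3) ^ Y)⁻¹ + (τ ^ i0)⁻¹) * qq k ^ (2 * (n / 2)) := by
  have h0 : 0 < τ := by linarith
  have ht1 : 1 < τ ^ 3 := one_lt_pow₀ hτ (by norm_num)
  have hqp : 0 < qq k := k3_qq_pos
  have hsq : Real.sqrt (Fintype.card k) = τ ^ 3 := by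
    change Real.sqrt (qq k) = _
    rw [hq, show τ ^ 6 = (τ ^ 3) ^ 2 by ring]
    exact Real.sqrt_sq (by positivity)
  have hsq' : ∀ c : k[X], Real.sqrt (nrm c) = (τ ^ 3) ^ c.natDegree := fun c => by
    rw [nrm, hq, show (τ ^ 6) ^ c.natDegree = ((τ ^ 3) ^ c.natDegree) ^ 2 by ring]
    exact Real.sqrt_sq (by positivity)
  have a1 : 0 < 1 - (τ ^ 3)⁻¹ := sub_pos.2 (inv_lt_one_of_one_lt₀ ht1)
  have a2 : 0 < 1 - τ⁻¹ := sub_pos.2 (inv_lt_one_of_one_lt₀ hτ)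
  set K : ℝ := 4 * qq k * Real.exp 16 with hK
  have hK0 : 0 ≤ K := by positivity
  set C1 : ℝ := K * qq k ^ (d.natDegree + 2) / (1 - (τ ^ 3)⁻¹) with hC1
  set C2 : ℝ := K * (1 + 4 * qq k ^ (4 * d.natDegree + 4)) / (1 - τ⁻¹) with hC2
  have c1 : 0 ≤ C1 := by positivity
  have c2 : 0 ≤ C2 := by positivity
  refine ⟨C1 + C2, by positivity, fun n Y i0 hn => ?_⟩
  have hB : ∀ g ∈ (box k (n / 2)).erase 0, g ≠ 0 ∧ g.natDegree < n / 2 := fun g hg => by
    obtain ⟨h1, h2⟩ := Finset.mem_erase.1 hg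
    exact ⟨h1, (natDegree_lt_iff_degree_lt h1).2 (mem_box.1 h2)⟩
  have s1 := Pool.Agent.MP_d0fd9b_nt.H92F.K5.box_L1 _ (n / 2) hB dvs
    (fun g hg c hc => (mem_dvs (hB g hg).1).1 hc)
  have s2 := Pool.Agent.MP_d0fd9b_nt.H92F.K5.box_sq _ (n / 2) hB
  rw [hsq] at s1 s2
  have s1' : ∑ g ∈ (box k (n / 2)).erase 0, (τ ^ 3) ^ (n / 2 - g.natDegree) * L1 g ≤
      K * qq k ^ (n / 2) := by
    refine le_trans (le_of_eq (Finset.sum_congr rfl fun g _ => ?_)) s1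
    unfold L1
    simp only [hsq']
    rfl
  have s2' : ∑ g ∈ (box k (n / 2)).erase 0,
      (τ ^ 3) ^ (n / 2 - g.natDegree) * (τ ^ 3) ^ (divRadical g).natDegree ≤
      K * qq k ^ (n / 2) := s2
  have s3 : ∑ g ∈ (box k (n / 2)).erase 0, L1 g ≤ K * qq k ^ (n / 2) :=
    le_trans (Finset.sum_le_sum fun g _ =>
      le_mul_of_one_le_left (L1_nonneg' g) (one_le_pow₀ ht1.le)) s1'
  refine (Finset.sum_le_sum fun g hg => k_inner hτ hq hd hn Y i0 (hB g hg).1 (hB g hg).2).trans ?_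
  rw [← Finset.mul_sum, Finset.sum_add_distrib, ← Finset.sum_mul, ← Finset.sum_mul,
    Finset.sum_add_distrib, ← Finset.mul_sum]
  have u1 : 0 ≤ ((τ ^ 3) ^ Y)⁻¹ := by positivity
  have u2 : 0 ≤ (τ ^ i0)⁻¹ := by positivity
  have hQ : 0 ≤ qq k ^ (n / 2) := by positivity
  calc _ ≤ qq k ^ (n / 2) * (K * qq k ^ (n / 2) *
          (qq k ^ (d.natDegree + 2) * (((τ ^ 3) ^ Y)⁻¹ / (1 - (τ ^ 3)⁻¹))) +
        (K * qq k ^ (n / 2) + 4 * qq k ^ (4 * d.natDegree + 4) * (K * qq k ^ (n / 2))) *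
          ((τ ^ i0)⁻¹ / (1 - τ⁻¹))) := by gcongr
    _ = (C1 * ((τ ^ 3) ^ Y)⁻¹ + C2 * (τ ^ i0)⁻¹) * qq k ^ (2 * (n / 2)) := by
        rw [hC1, hC2, two_mul, pow_add]
        ring
    _ ≤ _ := by
        refine mul_le_mul_of_nonneg_right ?_ (by positivity)
        nlinarith [mul_nonneg c1 u2, mul_nonneg c2 u1]

variable [CharP k 5]

omit [Fintype k] in
theorem k0_two_ne : (2 : k) ≠ 0 := by
  intro h
  have h5 : ((5 : ℕ) : k) = 0 := CharP.cast_eq_zero k 5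
  have : (1 : k) = 0 := by
    have h1 : (1 : k) = ((5 : ℕ) : k) - 2 * 2 := by push_cast; ring
    rw [h1, h5, h]; ring
  exact one_ne_zero this

theorem k0_gen {M : k[X]} (hM : M.Monic) {N : ℕ} (hN : N ≤ M.natDegree) (β : k[X]) :
    ‖∑ f ∈ mon k N, ee (β * f ^ 2) M‖ ^ 2 ≤ qq k ^ N *
      (((box k N).filter (fun φ => ((β * φ) %ₘ M).degree < (M.natDegree - N : ℕ))).card : ℝ) := by
  have hq0 : 0 ≤ qq k := le_trans (by norm_num) two_le_qq
  rw [sum_mon]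
  set S : ℂ := ∑ a ∈ box k N, ee (β * (X ^ N + a) ^ 2) M with hS
  have h1 : S * (starRingEnd ℂ) S = ∑ φ ∈ box k N, ee (β * (φ ^ 2 + 2 * φ * X ^ N)) M *
      ∑ a ∈ box k N, ee (((2 : k) • (β * φ)) * a) M := by
    rw [hS, map_sum, Finset.mul_sum]
    simp only [Finset.mul_sum]
    rw [Finset.sum_comm]
    refine Finset.sum_congr rfl fun a ha => ?_
    rw [Finset.sum_mul]
    symm
    refine Finset.sum_nbij' (fun φ => a + φ) (fun b => b - a) ?_ ?_ ?_ ?_ ?_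
    · intro φ hφ
      rw [mem_box] at *
      exact (degree_add_le _ _).trans_lt (max_lt ha hφ)
    · intro b hb
      rw [mem_box] at *
      exact (degree_sub_le _ _).trans_lt (max_lt hb ha)
    · intro φ _; ring
    · intro b _; ring
    · intro φ _
      rw [← ee_neg, ← ee_add, ← ee_add, two_smul]
      congr 1
      ring
  have h2 : ‖S‖ ^ 2 = ‖S * (starRingEnd ℂ) S‖ := by
    rw [norm_mul, RCLike.norm_conj, sq]
  rw [h2, h1]
  refine (norm_sum_le _ _).trans ?_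
  rw [Finset.card_filter, Nat.cast_sum, Finset.mul_sum]
  refine Finset.sum_le_sum fun φ _ => ?_
  rw [norm_mul, norm_ee, one_mul, sum_ee_box hM hN, smul_modByMonic, smul_eq_C_mul,
    degree_C_mul k0_two_ne]
  split_ifs
  · rw [Complex.norm_real, Real.norm_of_nonneg (pow_nonneg hq0 _)]
    simp
  · simp

theorem k0_sq (d : k[X]) {n : ℕ} (hn : 2 ≤ n) (g H : k[X]) :
    ‖th d n g H‖ ^ 2 ≤ qq k ^ (n - 2 * d.natDegree) * (kap d n g H : ℝ) := by
  have h := k0_gen (k := k) (monic_X_pow (5 * (n / 2))) (N := n - 2 * d.natDegree)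
    (by rw [natDegree_X_pow]; omega) (H ^ 5 * (g * d ^ 4))
  rw [natDegree_X_pow] at h
  exact h

theorem k0_norm (d : k[X]) {n : ℕ} (hn : 2 ≤ n) (g H : k[X]) :
    ‖th d n g H‖ ≤ qq k ^ (n - n / 2) * Real.sqrt (kap d n g H) := by
  have hq1 : 1 ≤ qq k := le_trans (by norm_num) two_le_qq
  refine (pow_le_pow_iff_left₀ (norm_nonneg _) (by positivity) two_ne_zero).1
    ((k0_sq d hn g H).trans ?_)
  rw [mul_pow, Real.sq_sqrt (Nat.cast_nonneg _), ← pow_mul]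
  exact mul_le_mul_of_nonneg_right (pow_le_pow_right₀ hq1 (by omega)) (Nat.cast_nonneg _)

/-- (K0) -/
theorem norm_th_le {d : k[X]} {n : ℕ} (hn : 2 * d.natDegree + 2 ≤ n) (g H : k[X]) :
    ‖th d n g H‖ ≤ qq k ^ (n - n / 2) * Real.sqrt (kap d n g H) :=
  k0_norm d (by omega) g H

/-- LEMMA K -/
theorem lemmaK {d : k[X]} (hd : d.Monic) : ∃ K : ℝ, 0 < K ∧ ∀ n Y i0 : ℕ,
    2 * d.natDegree + 2 ≤ n →
    ∑ g ∈ (box k (n / 2)).erase 0, ∑ H ∈ box k (n / 2) \ Maj k (n / 2) Y,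
        (if qq k ^ i0 < (kap d n g H : ℝ) then Real.sqrt (kap d n g H) else 0) ≤
      K * (qq k ^ (-(Y : ℝ) / 2) + qq k ^ (-(i0 : ℝ) / 6)) * qq k ^ (2 * (n / 2)) := by
  have hq1 : 1 < qq k := lt_of_lt_of_le (by norm_num) two_le_qq
  have hq0 : 0 < qq k := k3_qq_pos
  have hp : ∀ j : ℕ, (qq k ^ ((1 : ℝ) / 6)) ^ j = qq k ^ ((j : ℝ) / 6) := fun j => by
    rw [← Real.rpow_natCast, ← Real.rpow_mul hq0.le]
    congr 1
    ring
  have hτ : 1 < qq k ^ ((1 : ℝ) / 6) := Real.one_lt_rpow hq1 (by norm_num)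
  have hq : qq k = (qq k ^ ((1 : ℝ) / 6)) ^ 6 := by rw [hp]; norm_num
  obtain ⟨C, hC, h⟩ := lemmaK_tau hτ hq hd.ne_zero
  refine ⟨C + 1, by linarith, fun n Y i0 hn => (h n Y i0 hn).trans ?_⟩
  have e1 : (((qq k ^ ((1 : ℝ) / 6)) ^ 3) ^ Y)⁻¹ = qq k ^ (-(Y : ℝ) / 2) := by
    rw [← pow_mul, hp, ← Real.rpow_neg hq0.le]
    congr 1
    push_cast
    ring
  have e2 : ((qq k ^ ((1 : ℝ) / 6)) ^ i0)⁻¹ = qq k ^ (-(i0 : ℝ) / 6) := by
    rw [hp, ← Real.rpow_neg hq0.le]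
    congr 1
    ring
  rw [e1, e2]
  gcongr
  linarith

end CL5
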