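import Pool.Agent.H92F.Chr

/-! h92f: large sieve (row LS). -/

set_option autoImplicit false
open Polynomial Finset UniqueFactorizationMonoid EuclideanDomain Filter Topology
open scoped Classical

noncomputable section
namespace CL5

variable {k : Type*} [Field k] [Fintype k]

theorem Hq_mem_box {ρ N : ℕ} {z : k[X] × k[X]} (hz : z ∈ FrA k ρ) : Hq N z ∈ box k N := by
  simp only [FrA, Finset.mem_filter, Finset.mem_product, mem_mon, mem_box] at hz
  obtain ⟨⟨⟨hm, hd⟩, hs⟩, _⟩ := hz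
  rw [mem_box]
  by_cases h0 : Hq N z = 0
  · rw [h0, degree_zero]; exact WithBot.bot_lt_coe _
  have hs0 : z.2 ≠ 0 := fun h => h0 (by unfold Hq; rw [h]; simp)
  rw [← natDegree_lt_iff_degree_lt h0]
  have h1 := (natDegree_lt_iff_degree_lt hs0).2 hs
  have h2 : (z.2 * X ^ N).natDegree = z.2.natDegree + N := natDegree_mul_X_pow N hs0
  have h3 := natDegree_divByMonic (z.2 * X ^ N) hm
  have h4 : ¬ (z.2 * X ^ N).degree < z.1.degree := fun h =>
    h0 ((divByMonic_eq_zero_iff hm).2 h)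
  have h5 : z.1.natDegree ≤ (z.2 * X ^ N).natDegree := natDegree_le_natDegree (not_lt.1 h4)
  unfold Hq
  omega

theorem Hq_injOn {ρ N : ℕ} (hN : 2 * ρ ≤ N) : Set.InjOn (Hq (k := k) N) (FrA k ρ) := by
  rintro ⟨r, a⟩ hz ⟨r', a'⟩ hz' h
  simp only [FrA, Finset.mem_coe, Finset.mem_filter, Finset.mem_product, mem_mon, mem_box]
    at hz hz'
  obtain ⟨⟨⟨hm, hd⟩, _⟩, hc⟩ := hz
  obtain ⟨⟨⟨hm', hd'⟩, _⟩, hc'⟩ := hz'
  unfold Hq at h
  simp only at h
  have e1 := modByMonic_add_div (a * X ^ N) r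
  have e2 := modByMonic_add_div (a' * X ^ N) r'
  have l1 := degree_modByMonic_lt (a * X ^ N) hm
  have l2 := degree_modByMonic_lt (a' * X ^ N) hm'
  rw [h] at e1
  have e : (a * r' - a' * r) * X ^ N = ((a * X ^ N) %ₘ r) * r' - ((a' * X ^ N) %ₘ r') * r := by
    linear_combination (-r') * e1 + r * e2
  have hb : ∀ w u v : k[X], v ≠ 0 → w.degree < u.degree → u.natDegree = ρ → v.natDegree = ρ →
      (w * v).degree < (N : WithBot ℕ) := by
    intro w u v hv hw hu hv'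
    by_cases hw0 : w = 0
    · rw [hw0, zero_mul, degree_zero]; exact WithBot.bot_lt_coe _
    have := natDegree_lt_natDegree hw0 hw
    rw [← natDegree_lt_iff_degree_lt (mul_ne_zero hw0 hv), natDegree_mul hw0 hv]
    omega
  have hlt : degree ((a * r' - a' * r) * X ^ N) < (N : WithBot ℕ) := by
    rw [e]
    exact (degree_sub_le _ _).trans_lt (max_lt (hb _ r _ hm'.ne_zero l1 hd hd')
      (hb _ r' _ hm.ne_zero l2 hd' hd))
  have h0 : a * r' - a' * r = 0 := by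
    by_contra h0
    have h1 : (a * r' - a' * r) * X ^ N ≠ 0 := mul_ne_zero h0 (pow_ne_zero _ X_ne_zero)
    rw [← natDegree_lt_iff_degree_lt h1, natDegree_mul_X_pow N h0] at hlt
    omega
  have h1 : r ∣ r' := hc.dvd_of_dvd_mul_left ⟨a', by linear_combination h0⟩
  have h2 : r' = r := eq_of_monic_of_dvd_of_natDegree_le hm hm' h1 (by omega)
  subst h2
  have h3 : a = a' := mul_right_cancel₀ hm.ne_zero (sub_eq_zero.1 h0)
  exact Prod.ext rfl h3

variable [CharP k 5]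

theorem parseval {ι : Type*} (s : Finset ι) (D : ι → k[X]) (c : ι → ℂ) {N : ℕ}
    (hD : ∀ i ∈ s, (D i).degree < N) (hc : ∀ i ∈ s, ‖c i‖ ≤ 1) :
    ∑ H ∈ box k N, ‖∑ i ∈ s, c i * ee (H * D i) (X ^ N)‖ ^ 2 ≤
      qq k ^ N * (((s ×ˢ s).filter (fun p => D p.1 = D p.2)).card : ℝ) := by
  have hq : 0 ≤ qq k ^ N := by have := two_le_qq (k := k); positivity
  have hX : ((X : k[X]) ^ N).natDegree = N := natDegree_X_pow N
  have h1 : ∀ H : k[X], ((‖∑ i ∈ s, c i * ee (H * D i) (X ^ N)‖ ^ 2 : ℝ) : ℂ) =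
      ∑ p ∈ s ×ˢ s, c p.1 * (starRingEnd ℂ) (c p.2) * ee ((D p.1 - D p.2) * H) (X ^ N) := by
    intro H
    rw [Complex.ofReal_pow, ← Complex.mul_conj', map_sum, Finset.sum_mul_sum, Finset.sum_product]
    refine Finset.sum_congr rfl fun i _ => Finset.sum_congr rfl fun j _ => ?_
    have : (D i - D j) * H = H * D i + -(H * D j) := by ring
    rw [this, ee_add, ee_neg, map_mul]
    ring
  have h2 : ((∑ H ∈ box k N, ‖∑ i ∈ s, c i * ee (H * D i) (X ^ N)‖ ^ 2 : ℝ) : ℂ) =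
      ∑ p ∈ s ×ˢ s, c p.1 * (starRingEnd ℂ) (c p.2) *
        (if D p.1 = D p.2 then ((qq k ^ N : ℝ) : ℂ) else 0) := by
    rw [Complex.ofReal_sum]
    simp only [h1]
    rw [Finset.sum_comm]
    refine Finset.sum_congr rfl fun p hp => ?_
    rw [Finset.mem_product] at hp
    have hd : (D p.1 - D p.2).degree < ((X : k[X]) ^ N).degree := by
      rw [degree_X_pow]
      exact (degree_sub_le _ _).trans_lt (max_lt (hD _ hp.1) (hD _ hp.2))
    rw [← Finset.mul_sum, sum_ee_box (monic_X_pow N) hX.ge,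
      (modByMonic_eq_self_iff (monic_X_pow N)).2 hd, hX, Nat.sub_self]
    congr 1
    refine if_congr ?_ rfl rfl
    rw [Nat.cast_zero, Nat.WithBot.lt_zero_iff, degree_eq_bot, sub_eq_zero]
  have h3 := congrArg norm h2
  rw [Complex.norm_real, Real.norm_of_nonneg (Finset.sum_nonneg fun _ _ => by positivity)] at h3
  rw [h3, Finset.card_filter, Nat.cast_sum, Finset.mul_sum]
  refine (norm_sum_le _ _).trans (Finset.sum_le_sum fun p hp => ?_)
  rw [Finset.mem_product] at hp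
  split_ifs with h
  · rw [norm_mul, norm_mul, Complex.norm_conj, Complex.norm_real, Real.norm_of_nonneg hq,
      Nat.cast_one, mul_one]
    have := mul_le_one₀ (hc _ hp.1) (norm_nonneg _) (hc _ hp.2)
    nlinarith
  · simp

theorem large_sieve {ι : Type*} (s : Finset ι) (D : ι → k[X]) (c : ι → ℂ) {ρ N : ℕ} (hρ : 1 ≤ ρ)
    (hN : 2 * ρ ≤ N) (hD : ∀ i ∈ s, (D i).degree < N) (hc : ∀ i ∈ s, ‖c i‖ ≤ 1) :
    ∑ z ∈ FrA k ρ, ‖∑ i ∈ s, c i * ee (z.2 * D i) z.1‖ ^ 2 ≤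
      qq k ^ N * (((s ×ˢ s).filter (fun p => D p.1 = D p.2)).card : ℝ) := by
  refine le_trans ?_ (parseval s D c hD hc)
  have h1 : ∑ z ∈ FrA k ρ, ‖∑ i ∈ s, c i * ee (z.2 * D i) z.1‖ ^ 2 =
      ∑ H ∈ (FrA k ρ).image (Hq N), ‖∑ i ∈ s, c i * ee (H * D i) (X ^ N)‖ ^ 2 := by
    rw [Finset.sum_image (Hq_injOn hN)]
    refine Finset.sum_congr rfl fun z hz => ?_
    simp only [FrA, Finset.mem_filter, Finset.mem_product, mem_mon] at hz
    congr 2
    refine Finset.sum_congr rfl fun i hi => ?_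
    rw [← ee_Hq hz.1.1.1 (by omega) (by omega : 1 ≤ N) z.2 (hD i hi)]
  rw [h1]
  refine Finset.sum_le_sum_of_subset_of_nonneg ?_ fun _ _ _ => by positivity
  intro H hH
  obtain ⟨z, hz, rfl⟩ := Finset.mem_image.1 hH
  exact Hq_mem_box hz

end CL5
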