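import Pool.Agent.H92F.Cnt80

set_option autoImplicit false

namespace Pool.Agent.MP_d0fd9b_nt.F92

open Polynomial Finset

variable {k : Type*} [Field k] [Fintype k]

omit [Fintype k] in
theorem coprime_of_monic_irred {p r : k[X]} (hp : p.Monic) (hp' : Irreducible p) (hr : r.Monic)
    (hr' : Irreducible r) (h : p ≠ r) : IsCoprime p r := by
  rw [hp'.coprime_iff_not_dvd]
  intro hd
  exact h (Polynomial.eq_of_monic_of_associated hp hr (hp'.associated_of_dvd hr' hd))

theorem inv_pow_le_half {p : k[X]} (hp : Irreducible p) :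
    ((Fintype.card k : ℝ) ^ p.natDegree)⁻¹ ≤ 1 / 2 := by
  have h2 : (2 : ℝ) ≤ Fintype.card k := by exact_mod_cast Fintype.one_lt_card
  have h1 : 1 ≤ p.natDegree := hp.natDegree_pos
  have : (2 : ℝ) ≤ (Fintype.card k : ℝ) ^ p.natDegree :=
    h2.trans (le_self_pow₀ (by linarith) (by omega))
  rw [one_div]
  exact inv_anti₀ (by norm_num) this

theorem prod_one_add_le_exp {ι : Type*} (S : Finset ι) (x : ι → ℝ) (hx : ∀ i ∈ S, 0 ≤ 1 + x i) :
    ∏ i ∈ S, (1 + x i) ≤ Real.exp (∑ i ∈ S, x i) := by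
  rw [Real.exp_sum]
  exact Finset.prod_le_prod hx fun i _ => by linarith [Real.add_one_le_exp (x i)]

open Classical in
theorem mt_up (S : Finset k[X]) (hS : ∀ p ∈ S, p.Monic ∧ Irreducible p) {m : ℕ}
    (hm : ∑ p ∈ S, p.natDegree ≤ m) :
    ∑ g ∈ box k m, ∏ p ∈ S, (if p ∣ g then (5 / 4 : ℝ) else 1)
      ≤ (Fintype.card k : ℝ) ^ m
        * Real.exp (∑ p ∈ S, ((Fintype.card k : ℝ) ^ p.natDegree)⁻¹ / 4) := by
  rw [sum_box_eq_mean, mean_prod S id (fun p g => if p ∣ g then (5 / 4 : ℝ) else 1)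
    (fun p hp => (hS p hp).1)
    (fun p hp r hr h => coprime_of_monic_irred (hS p hp).1 (hS p hp).2 (hS r hr).1 (hS r hr).2 h)
    (fun p _ a b hab => by simp only [dvd_iff_dvd_of_dvd_sub (show p ∣ a - b from hab)]) hm]
  refine mul_le_mul_of_nonneg_left ?_ (by positivity)
  refine le_trans (le_of_eq (Finset.prod_congr rfl fun p hp => ?_))
    (prod_one_add_le_exp S _ fun p _ => by positivity)
  rw [mean_ite_dvd (hS p hp).1
    ((Finset.single_le_sum (f := fun p : k[X] => p.natDegree) (fun _ _ => Nat.zero_le _) hp).trans hm)]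
  ring

open Classical in
theorem mt_low (S : Finset k[X]) (hS : ∀ p ∈ S, p.Monic ∧ Irreducible p) {D : ℕ}
    (hD : ∑ p ∈ S, p.natDegree ≤ D) :
    ∑ a ∈ box k D, ∑ b ∈ box k D, ∏ p ∈ S, (if p ∣ a * b then (4 / 5 : ℝ) else 1)
      ≤ (Fintype.card k : ℝ) ^ (2 * D)
        * Real.exp (∑ p ∈ S, -(3 / 10 * ((Fintype.card k : ℝ) ^ p.natDegree)⁻¹)) := by
  have hcop : ∀ p ∈ S, ∀ r ∈ S, p ≠ r → IsCoprime (id p) (id r) := fun p hp r hr h =>
    coprime_of_monic_irred (hS p hp).1 (hS p hp).2 (hS r hr).1 (hS r hr).2 h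
  have hdeg : ∀ p ∈ S, p.natDegree ≤ D := fun p hp =>
    (Finset.single_le_sum (f := fun p : k[X] => p.natDegree) (fun _ _ => Nat.zero_le _) hp).trans hD
  have h1 : ∀ a : k[X], ∑ b ∈ box k D, ∏ p ∈ S, (if p ∣ a * b then (4 / 5 : ℝ) else 1)
      = (Fintype.card k : ℝ) ^ D * ∏ p ∈ S, (if p ∣ a then (4 / 5 : ℝ)
          else 1 - 1 / 5 * ((Fintype.card k : ℝ) ^ p.natDegree)⁻¹) := by
    intro a
    rw [sum_box_eq_mean, mean_prod S id (fun p b => if p ∣ a * b then (4 / 5 : ℝ) else 1)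
      (fun p hp => (hS p hp).1) hcop
      (fun p _ b c hbc => by
        have : p ∣ a * b - a * c := by
          rw [← mul_sub]
          exact Dvd.dvd.mul_left hbc a
        simp only [dvd_iff_dvd_of_dvd_sub this]) hD]
    congr 1
    refine Finset.prod_congr rfl fun p hp => ?_
    by_cases ha : p ∣ a
    · simp only [ha, Dvd.dvd.mul_right ha, if_true, mean_const]
    · have : (fun b => if p ∣ a * b then (4 / 5 : ℝ) else 1)
          = fun b => if p ∣ b then (4 / 5 : ℝ) else 1 := by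
        funext b
        simp only [(hS p hp).2.prime.dvd_mul, ha, false_or]
      rw [this, mean_ite_dvd (hS p hp).1 (hdeg p hp), if_neg ha]
      ring
  simp only [h1]
  rw [← Finset.mul_sum, sum_box_eq_mean, mean_prod S id (fun p a => if p ∣ a then (4 / 5 : ℝ)
          else 1 - 1 / 5 * ((Fintype.card k : ℝ) ^ p.natDegree)⁻¹)
      (fun p hp => (hS p hp).1) hcop
      (fun p _ a b hab => by simp only [dvd_iff_dvd_of_dvd_sub (show p ∣ a - b from hab)]) hD, ← mul_assoc, ← pow_add,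
      ← two_mul]
  refine mul_le_mul_of_nonneg_left ?_ (by positivity)
  refine le_trans (Finset.prod_le_prod (fun p hp => ?_) (fun p hp => ?_))
    (prod_one_add_le_exp S _ fun p hp => ?_)
  · rw [mean_ite_dvd (hS p hp).1 (hdeg p hp)]
    have h := inv_pow_le_half (hS p hp).2
    have h0 : 0 ≤ ((Fintype.card k : ℝ) ^ p.natDegree)⁻¹ := by positivity
    nlinarith
  · rw [mean_ite_dvd (hS p hp).1 (hdeg p hp)]
    have h := inv_pow_le_half (hS p hp).2
    have h0 : 0 ≤ ((Fintype.card k : ℝ) ^ p.natDegree)⁻¹ := by positivity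
    nlinarith
  · have h := inv_pow_le_half (hS p hp).2
    linarith

open Classical in
theorem mt_bound (S : Finset k[X]) (hS : ∀ p ∈ S, p.Monic ∧ Irreducible p) {m D : ℕ}
    (hm : ∑ p ∈ S, p.natDegree ≤ m) (hD : ∑ p ∈ S, p.natDegree ≤ D) (B : Finset k[X])
    (hB : ∀ g ∈ B, g ∈ box k m ∧ ∃ a ∈ box k D, ∃ b ∈ box k D, g = a * b) :
    (B.card : ℝ) ≤ ((Fintype.card k : ℝ) ^ m + (Fintype.card k : ℝ) ^ (2 * D))
      * Real.exp (-(∑ p ∈ S, ((Fintype.card k : ℝ) ^ p.natDegree)⁻¹) / 40) := by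
  set s := ∑ p ∈ S, ((Fintype.card k : ℝ) ^ p.natDegree)⁻¹ with hs
  set T := Real.exp (11 / 40 * s) with hT
  have hT0 : 0 < T := Real.exp_pos _
  set U : k[X] → ℝ := fun g => ∏ p ∈ S, (if p ∣ g then (5 / 4 : ℝ) else 1) with hU
  set L : k[X] → ℝ := fun g => ∏ p ∈ S, (if p ∣ g then (4 / 5 : ℝ) else 1) with hL
  have hU0 : ∀ g, 0 < U g := fun g => Finset.prod_pos fun p _ => by split_ifs <;> norm_num
  have hL0 : ∀ g, 0 < L g := fun g => Finset.prod_pos fun p _ => by split_ifs <;> norm_num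
  have hUL : ∀ g, U g * L g = 1 := fun g => by
    rw [hU, hL, ← Finset.prod_mul_distrib]
    exact Finset.prod_eq_one fun p _ => by split_ifs <;> norm_num
  have h1 : ∀ g, (1 : ℝ) ≤ U g / T + T * L g := fun g => by
    by_cases h : T ≤ U g
    · have : 1 ≤ U g / T := (one_le_div hT0).2 h
      have := mul_pos hT0 (hL0 g)
      linarith
    · have h2 : U g * L g ≤ T * L g := mul_le_mul_of_nonneg_right (not_le.1 h).le (hL0 g).le
      have := div_pos (hU0 g) hT0
      linarith [hUL g]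
  have h2 : ∑ g ∈ B, U g ≤ (Fintype.card k : ℝ) ^ m * Real.exp (s / 4) := by
    refine (Finset.sum_le_sum_of_subset_of_nonneg (fun g hg => (hB g hg).1)
      fun g _ _ => (hU0 g).le).trans ?_
    have := mt_up S hS hm
    rwa [← Finset.sum_div] at this
  have h3 : ∑ g ∈ B, L g ≤ (Fintype.card k : ℝ) ^ (2 * D) * Real.exp (-(3 / 10 * s)) := by
    have h4 := mt_low S hS hD
    rw [Finset.sum_neg_distrib, ← Finset.mul_sum, ← Finset.sum_product'] at h4
    refine le_trans ?_ h4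
    refine le_trans (Finset.sum_le_sum_of_subset_of_nonneg
      (t := (box k D ×ˢ box k D).image fun x => x.1 * x.2) (fun g hg => ?_)
      fun g _ _ => (hL0 g).le) ?_
    · obtain ⟨_, a, ha, b, hb, rfl⟩ := hB g hg
      exact Finset.mem_image.2 ⟨(a, b), Finset.mem_product.2 ⟨ha, hb⟩, rfl⟩
    · exact Finset.sum_image_le_of_nonneg fun g _ => (hL0 g).le
  calc (B.card : ℝ) = ∑ _g ∈ B, (1 : ℝ) := by simp
    _ ≤ ∑ g ∈ B, (U g / T + T * L g) := Finset.sum_le_sum fun g _ => h1 g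
    _ = (∑ g ∈ B, U g) / T + T * ∑ g ∈ B, L g := by
        rw [Finset.sum_add_distrib, Finset.sum_div, Finset.mul_sum]
    _ ≤ (Fintype.card k : ℝ) ^ m * Real.exp (s / 4) / T
        + T * ((Fintype.card k : ℝ) ^ (2 * D) * Real.exp (-(3 / 10 * s))) := by gcongr
    _ = _ := by
        have e1 : Real.exp (s / 4) / T = Real.exp (-s / 40) := by
          rw [hT, ← Real.exp_sub]
          congr 1
          ring
        have e2 : T * Real.exp (-(3 / 10 * s)) = Real.exp (-s / 40) := by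
          rw [hT, ← Real.exp_add]
          congr 1
          ring
        rw [mul_div_assoc, e1, mul_left_comm, e2]
        ring

/-- the multiplication table lemma, given the divergence of the sum of `1/|π|` -/
theorem mt_core_of
    (hdiv : ∀ R : ℝ, ∃ S : Finset k[X], (∀ p ∈ S, p.Monic ∧ Irreducible p) ∧
      R ≤ ∑ p ∈ S, ((Fintype.card k : ℝ) ^ p.natDegree)⁻¹)
    (c : ℕ) {ε : ℝ} (hε : 0 < ε) :
    ∃ m0 : ℕ, ∀ m ≥ m0, ∀ B : Finset k[X],
      (∀ g ∈ B, g.degree < m ∧ ∃ a b : k[X], g = a * b ∧ 2 * a.natDegree ≤ m + c ∧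
        2 * b.natDegree ≤ m + c) → (B.card : ℝ) ≤ ε * (Fintype.card k : ℝ) ^ m := by
  have hq : (1 : ℝ) ≤ Fintype.card k := by exact_mod_cast Fintype.card_pos
  set C : ℝ := 1 + (Fintype.card k : ℝ) ^ (c + 2) with hC
  have hC0 : 0 < C := by positivity
  obtain ⟨S, hS, hR⟩ := hdiv (-40 * Real.log (ε / C))
  refine ⟨2 * ∑ p ∈ S, p.natDegree, fun m hm B hB => ?_⟩
  have h := mt_bound S hS (m := m) (D := (m + c) / 2 + 1) (by omega) (by omega) B fun g hg => by
    obtain ⟨h1, a, b, rfl, ha, hb⟩ := hB g hg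
    exact ⟨mem_box.2 h1, a, mem_box'.2 (Or.inr (by omega)), b, mem_box'.2 (Or.inr (by omega)), rfl⟩
  refine h.trans ?_
  have h1 : Real.exp (-(∑ p ∈ S, ((Fintype.card k : ℝ) ^ p.natDegree)⁻¹) / 40) ≤ ε / C := by
    rw [← Real.exp_log (div_pos hε hC0)]
    exact Real.exp_le_exp.2 (by linarith)
  have h2 : (Fintype.card k : ℝ) ^ (2 * ((m + c) / 2 + 1))
      ≤ (Fintype.card k : ℝ) ^ m * (Fintype.card k : ℝ) ^ (c + 2) := by
    rw [← pow_add]
    exact pow_le_pow_right₀ hq (by omega)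
  calc _ ≤ ((Fintype.card k : ℝ) ^ m * C) * (ε / C) := by
        refine mul_le_mul ?_ h1 (Real.exp_pos _).le (by positivity)
        rw [hC]
        linarith
    _ = _ := by field_simp

open Classical in
theorem euler_le (S : Finset k[X]) (hS : ∀ p ∈ S, p.Monic ∧ Irreducible p) (A : Finset k[X])
    (hA : ∀ a ∈ A, a.Monic ∧ ∀ p : k[X], p.Monic → Irreducible p → p ∣ a → p ∈ S)
    (hA' : ∀ a ∈ A, ∀ b : k[X], b.Monic → b ∣ a → b ∈ A) :
    (∑ a ∈ A, ((Fintype.card k : ℝ) ^ a.natDegree)⁻¹)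
      * ∏ p ∈ S, (1 - ((Fintype.card k : ℝ) ^ p.natDegree)⁻¹) ≤ 1 := by
  induction S using Finset.induction_on generalizing A with
  | empty =>
    rw [Finset.prod_empty, mul_one]
    have : A ⊆ {1} := fun a ha => by
      rw [Finset.mem_singleton]
      by_contra h
      have hu : ¬ IsUnit a := fun hu => h ((hA a ha).1.isUnit_iff.1 hu)
      obtain ⟨p, hp, hp', hd⟩ := Polynomial.exists_monic_irreducible_factor a hu
      exact Finset.notMem_empty p ((hA a ha).2 p hp hp' hd)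
    refine (Finset.sum_le_sum_of_subset_of_nonneg this fun _ _ _ => by positivity).trans ?_
    simp
  | insert p S hp ih =>
    have hpm := hS p (Finset.mem_insert_self _ _)
    have hS' : ∀ r ∈ S, r.Monic ∧ Irreducible r := fun r hr => hS r (Finset.mem_insert_of_mem hr)
    have h1 := ih hS' (A.filter fun a => ¬ p ∣ a) (fun a ha => by
        rw [Finset.mem_filter] at ha
        refine ⟨(hA a ha.1).1, fun r hr hr' hd => ?_⟩
        rcases Finset.mem_insert.1 ((hA a ha.1).2 r hr hr' hd) with rfl | h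
        · exact absurd hd ha.2
        · exact h)
      (fun a ha b hb hd => by
        rw [Finset.mem_filter] at ha ⊢
        exact ⟨hA' a ha.1 b hb hd, fun h => ha.2 (h.trans hd)⟩)
    have h2 : ∑ a ∈ A.filter (fun a => p ∣ a), ((Fintype.card k : ℝ) ^ a.natDegree)⁻¹
        ≤ ((Fintype.card k : ℝ) ^ p.natDegree)⁻¹
          * ∑ a ∈ A, ((Fintype.card k : ℝ) ^ a.natDegree)⁻¹ := by
      have h3 : A.filter (fun a => p ∣ a) ⊆ A.image fun b => p * b := fun a ha => by
        rw [Finset.mem_filter] at ha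
        obtain ⟨b, rfl⟩ := ha.2
        exact Finset.mem_image.2 ⟨b, hA' _ ha.1 b (hpm.1.of_mul_monic_left (hA _ ha.1).1)
          (dvd_mul_left _ _), rfl⟩
      refine (Finset.sum_le_sum_of_subset_of_nonneg h3 fun _ _ _ => by positivity).trans ?_
      refine (Finset.sum_image_le_of_nonneg fun _ _ => by positivity).trans (le_of_eq ?_)
      rw [Finset.mul_sum]
      refine Finset.sum_congr rfl fun b hb => ?_
      rw [hpm.1.natDegree_mul (hA b hb).1, pow_add, mul_inv]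
    have h4 := Finset.sum_filter_add_sum_filter_not A (fun a => p ∣ a)
      fun a => ((Fintype.card k : ℝ) ^ a.natDegree)⁻¹
    have h5 : 0 ≤ ∏ r ∈ S, (1 - ((Fintype.card k : ℝ) ^ r.natDegree)⁻¹) :=
      Finset.prod_nonneg fun r hr => by linarith [inv_pow_le_half (hS' r hr).2]
    rw [Finset.prod_insert hp, ← mul_assoc]
    refine le_trans (mul_le_mul_of_nonneg_right ?_ h5) h1
    linarith

theorem one_sub_ge_exp {x : ℝ} (h0 : 0 ≤ x) (h : x ≤ 1 / 2) : Real.exp (-(2 * x)) ≤ 1 - x := by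
  have h1 := Real.add_one_le_exp (2 * x)
  rw [Real.exp_neg, inv_le_comm₀ (Real.exp_pos _) (by linarith)]
  refine le_trans ?_ h1
  rw [inv_le_iff_one_le_mul₀ (by linarith)]
  nlinarith

open Classical in
/-- the sum of `1/|π|` over monic irreducible `π` diverges -/
theorem primes_div (R : ℝ) : ∃ S : Finset k[X], (∀ p ∈ S, p.Monic ∧ Irreducible p) ∧
    R ≤ ∑ p ∈ S, ((Fintype.card k : ℝ) ^ p.natDegree)⁻¹ := by
  obtain ⟨Y, hY⟩ := exists_nat_ge (Real.exp (2 * R))
  refine ⟨(box k Y).filter fun p => p.Monic ∧ Irreducible p,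
    fun p hp => (Finset.mem_filter.1 hp).2, ?_⟩
  set S := (box k Y).filter fun p : k[X] => p.Monic ∧ Irreducible p with hSdef
  have hS : ∀ p ∈ S, p.Monic ∧ Irreducible p := fun p hp => (Finset.mem_filter.1 hp).2
  have hmem : ∀ a : k[X], a ∈ (Finset.range Y).biUnion (Mon k) ↔ a.Monic ∧ a.natDegree < Y := by
    intro a
    simp only [Finset.mem_biUnion, Finset.mem_range, mem_Mon]
    exact ⟨fun ⟨j, hj, h1, h2⟩ => ⟨h1, h2 ▸ hj⟩, fun h => ⟨_, h.2, h.1, rfl⟩⟩
  have h1 := euler_le S hS ((Finset.range Y).biUnion (Mon k))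
    (fun a ha => by
      rw [hmem] at ha
      exact ⟨ha.1, fun p hp hp' hd => Finset.mem_filter.2 ⟨mem_box'.2 (Or.inr
        ((Polynomial.natDegree_le_of_dvd hd ha.1.ne_zero).trans_lt ha.2)), hp, hp'⟩⟩)
    (fun a ha b hb hd => by
      rw [hmem] at ha ⊢
      exact ⟨hb, (Polynomial.natDegree_le_of_dvd hd ha.1.ne_zero).trans_lt ha.2⟩)
  have h2 : ∑ a ∈ (Finset.range Y).biUnion (Mon k), ((Fintype.card k : ℝ) ^ a.natDegree)⁻¹ = Y := by
    rw [Finset.sum_biUnion]
    · have : ∀ j ∈ Finset.range Y,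
          ∑ a ∈ Mon k j, ((Fintype.card k : ℝ) ^ a.natDegree)⁻¹ = 1 := fun j _ => by
        rw [Finset.sum_congr rfl fun a ha => by rw [(mem_Mon.1 ha).2], Finset.sum_const, card_Mon,
          nsmul_eq_mul]
        have := card_ne_zero (k := k) ℝ
        push_cast
        field_simp
      rw [Finset.sum_congr rfl this]
      simp
    · intro i _ j _ hij
      exact Finset.disjoint_left.2 fun a ha hb => hij ((mem_Mon.1 ha).2.symm.trans (mem_Mon.1 hb).2)
  have h3 : Real.exp (-(2 * ∑ p ∈ S, ((Fintype.card k : ℝ) ^ p.natDegree)⁻¹))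
      ≤ ∏ p ∈ S, (1 - ((Fintype.card k : ℝ) ^ p.natDegree)⁻¹) := by
    rw [Finset.mul_sum, ← Finset.sum_neg_distrib, Real.exp_sum]
    exact Finset.prod_le_prod (fun _ _ => (Real.exp_pos _).le) fun p hp =>
      one_sub_ge_exp (by positivity) (inv_pow_le_half (hS p hp).2)
  rw [h2] at h1
  have h4 : Real.exp (2 * R) * Real.exp (-(2 * ∑ p ∈ S, ((Fintype.card k : ℝ) ^ p.natDegree)⁻¹))
      ≤ 1 := le_trans (mul_le_mul hY h3 (Real.exp_pos _).le (Nat.cast_nonneg _)) h1
  rw [← Real.exp_add, Real.exp_le_one_iff] at h4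
  linarith

/-- (MTP) the multiplication table lemma over `k[X]` -/
theorem mt_core (c : ℕ) {ε : ℝ} (hε : 0 < ε) :
    ∃ m0 : ℕ, ∀ m ≥ m0, ∀ B : Finset k[X],
      (∀ g ∈ B, g.degree < m ∧ ∃ a b : k[X], g = a * b ∧ 2 * a.natDegree ≤ m + c ∧
        2 * b.natDegree ≤ m + c) → (B.card : ℝ) ≤ ε * (Fintype.card k : ℝ) ^ m :=
  mt_core_of primes_div c hε

end Pool.Agent.MP_d0fd9b_nt.F92
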