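import Pool.Agent.H92F.End
import Pool.Agent.H92F.Alg

/-! h92f: main theorem. -/

set_option autoImplicit false
open Polynomial Finset UniqueFactorizationMonoid EuclideanDomain Filter Topology
open scoped Classical

noncomputable section
namespace CL5

variable {k : Type*} [Field k] [Fintype k]

theorem main [CharP k 5] :
    Tendsto (fun n : ℕ =>
      (∑ᶠ f ∈ {f : k[X] | f.Monic ∧ f.natDegree = n ∧ Squarefree f},
          (Nat.card {c : CommRing.Pic (QuadraticAlgebra k[X] f 0) // c ^ 5 = 1} : ℝ)) /
        ({f : k[X] | f.Monic ∧ f.natDegree = n ∧ Squarefree f}.ncard : ℝ) -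
        (if Even n then 6 / 5 else 2)) atTop (𝓝 0) := by
  have hset : ∀ n : ℕ, {f : k[X] | f.Monic ∧ f.natDegree = n ∧ Squarefree f} =
      (((mon k n).filter Squarefree : Finset k[X]) : Set k[X]) := by
    intro n
    ext f
    simp only [Set.mem_ofPred_eq, Finset.coe_filter, mem_mon, and_assoc]
  have h := tendsto_mean_Sol (k := k)
  have hu : ∀ n : ℕ, (1 : ℝ) ≤ uu n := by
    intro n
    unfold uu
    split_ifs <;> norm_num
  have hfin : ∀ (n : ℕ) (F : k[X] → ℝ),
      ∑ᶠ f ∈ {f : k[X] | f.Monic ∧ f.natDegree = n ∧ Squarefree f}, F f =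
        ∑ f ∈ (mon k n).filter Squarefree, F f := by
    intro n F
    rw [hset n]
    exact finsum_mem_coe_finset _ _
  have hcard : ∀ n : ℕ, {f : k[X] | f.Monic ∧ f.natDegree = n ∧ Squarefree f}.ncard =
      ((mon k n).filter Squarefree).card := by
    intro n
    rw [hset n, Set.ncard_coe_finset]
  simp only [hfin, hcard]
  refine squeeze_zero_norm' (a := fun n : ℕ => ‖(∑ f ∈ (mon k n).filter Squarefree,
      ((Sol f).card : ℝ)) / (((mon k n).filter Squarefree).card : ℝ) - (uu n + 1)‖) ?_ ?_
  · filter_upwards [eventually_ge_atTop 1] with n hn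
    have hsum : ∑ f ∈ (mon k n).filter Squarefree, ((Sol f).card : ℝ) =
        (uu n : ℝ) * ∑ f ∈ (mon k n).filter Squarefree,
          (Nat.card {c : CommRing.Pic (QuadraticAlgebra k[X] f 0) // c ^ 5 = 1} : ℝ) := by
      rw [Finset.mul_sum]
      refine Finset.sum_congr rfl fun f hf => ?_
      obtain ⟨hf1, hf2⟩ := Finset.mem_filter.1 hf
      obtain ⟨hm, hd⟩ := mem_mon.1 hf1
      rw [card_Sol hm hf2 (hd ▸ hn), hd]
      push_cast
      ring
    rw [hsum]
    set A := ∑ f ∈ (mon k n).filter Squarefree,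
      (Nat.card {c : CommRing.Pic (QuadraticAlgebra k[X] f 0) // c ^ 5 = 1} : ℝ)
    set B := (((mon k n).filter Squarefree).card : ℝ)
    have key : (uu n : ℝ) * A / B - (uu n + 1) =
        uu n * (A / B - (if Even n then 6 / 5 else 2)) := by
      unfold uu
      split_ifs <;> push_cast <;> ring
    rw [key, norm_mul, Real.norm_of_nonneg (le_trans zero_le_one (hu n))]
    exact le_mul_of_one_le_left (norm_nonneg _) (hu n)
  · simpa using h.norm

end CL5
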