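import Mathlib

/-! h92f: definition-free bookkeeping for Proposition E. -/

set_option autoImplicit false
open Finset Filter Topology
open scoped Classical

noncomputable section
namespace CL5.PE

theorem pt_bound {A T B κ w : ℝ} {x : ℂ} (hA : 0 ≤ A) (hB : 0 ≤ w) (hw : w ≤ B)
    (hx : ‖x‖ ≤ A * Real.sqrt κ) :
    w * ‖x‖ ≤ A * (Real.sqrt T * w + B * (if T < κ then Real.sqrt κ else 0)) := by
  have hs : 0 ≤ Real.sqrt T := Real.sqrt_nonneg _
  have hk : 0 ≤ Real.sqrt κ := Real.sqrt_nonneg _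
  have h1 : w * ‖x‖ ≤ w * (A * Real.sqrt κ) := mul_le_mul_of_nonneg_left hx hB
  refine h1.trans ?_
  have h2 : w * Real.sqrt κ ≤ Real.sqrt T * w + B * (if T < κ then Real.sqrt κ else 0) := by
    split_ifs with h
    · have := mul_le_mul_of_nonneg_right hw hk
      have := mul_nonneg hs hB
      linarith
    · have h3 : Real.sqrt κ ≤ Real.sqrt T := Real.sqrt_le_sqrt (not_lt.1 h)
      have := mul_le_mul_of_nonneg_left h3 hB
      linarith
  calc w * (A * Real.sqrt κ) = A * (w * Real.sqrt κ) := by ring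
    _ ≤ _ := mul_le_mul_of_nonneg_left h2 hA

theorem split {α β : Type*} (G : Finset α) (S : Finset β) (P : α → Prop) (x : α → β → ℂ)
    (w κ : α → β → ℝ) {A T B : ℝ} (hA : 0 ≤ A) (hB0 : 0 ≤ B)
    (hw0 : ∀ g H, 0 ≤ w g H) (hw : ∀ g H, w g H ≤ B)
    (hx : ∀ g ∈ G, ∀ H ∈ S, ‖x g H‖ ≤ A * Real.sqrt (κ g H)) :
    ‖∑ g ∈ G, ∑ H ∈ S, x g H‖ ≤
      A * (Real.sqrt T * (∑ g ∈ G, ∑ H ∈ S, |1 - w g H|) +
        Real.sqrt T * (∑ g ∈ G.filter (fun g => ¬ P g), ∑ H ∈ S, w g H) +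
        (1 + 2 * B) * ∑ g ∈ G, ∑ H ∈ S, (if T < κ g H then Real.sqrt (κ g H) else 0)) +
      ‖∑ g ∈ G.filter P, ∑ H ∈ S, (w g H : ℂ) * x g H‖ := by
  set t : α → β → ℝ := fun g H => if T < κ g H then Real.sqrt (κ g H) else 0 with ht
  have ht0 : ∀ g H, 0 ≤ t g H := by
    intro g H; simp only [ht]; split_ifs
    · exact Real.sqrt_nonneg _
    · exact le_rfl
  have e1 : ∑ g ∈ G, ∑ H ∈ S, x g H =
      ∑ g ∈ G, ∑ H ∈ S, ((1 - w g H : ℝ) : ℂ) * x g H +
      (∑ g ∈ G.filter (fun g => ¬ P g), ∑ H ∈ S, (w g H : ℂ) * x g H +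
        ∑ g ∈ G.filter P, ∑ H ∈ S, (w g H : ℂ) * x g H) := by
    rw [add_comm (∑ g ∈ G.filter (fun g => ¬ P g), _), sum_filter_add_sum_filter_not,
      ← sum_add_distrib]
    refine sum_congr rfl fun g _ => ?_
    rw [← sum_add_distrib]
    refine sum_congr rfl fun H _ => ?_
    push_cast; ring
  have b1 : ‖∑ g ∈ G, ∑ H ∈ S, ((1 - w g H : ℝ) : ℂ) * x g H‖ ≤
      A * (Real.sqrt T * (∑ g ∈ G, ∑ H ∈ S, |1 - w g H|) +
        (1 + B) * ∑ g ∈ G, ∑ H ∈ S, t g H) := by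
    calc _ ≤ ∑ g ∈ G, ∑ H ∈ S, A * (Real.sqrt T * |1 - w g H| + (1 + B) * t g H) := by
          refine (norm_sum_le _ _).trans (sum_le_sum fun g hg => ?_)
          refine (norm_sum_le _ _).trans (sum_le_sum fun H hH => ?_)
          rw [norm_mul, Complex.norm_real, Real.norm_eq_abs]
          refine pt_bound hA (abs_nonneg _) ?_ (hx g hg H hH)
          have := hw0 g H; have := hw g H
          rw [abs_le]; constructor <;> linarith
      _ = _ := by
          simp only [mul_add, sum_add_distrib, mul_sum]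
  have b2 : ‖∑ g ∈ G.filter (fun g => ¬ P g), ∑ H ∈ S, (w g H : ℂ) * x g H‖ ≤
      A * (Real.sqrt T * (∑ g ∈ G.filter (fun g => ¬ P g), ∑ H ∈ S, w g H) +
        B * ∑ g ∈ G, ∑ H ∈ S, t g H) := by
    calc _ ≤ ∑ g ∈ G.filter (fun g => ¬ P g), ∑ H ∈ S,
            A * (Real.sqrt T * w g H + B * t g H) := by
          refine (norm_sum_le _ _).trans (sum_le_sum fun g hg => ?_)
          refine (norm_sum_le _ _).trans (sum_le_sum fun H hH => ?_)
          rw [norm_mul, Complex.norm_real, Real.norm_eq_abs, abs_of_nonneg (hw0 g H)]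
          exact pt_bound hA (hw0 g H) (hw g H) (hx g (mem_filter.1 hg).1 H hH)
      _ = A * (Real.sqrt T * (∑ g ∈ G.filter (fun g => ¬ P g), ∑ H ∈ S, w g H) +
            B * ∑ g ∈ G.filter (fun g => ¬ P g), ∑ H ∈ S, t g H) := by
          simp only [mul_add, sum_add_distrib, mul_sum]
      _ ≤ _ := by
          refine mul_le_mul_of_nonneg_left (add_le_add le_rfl ?_) hA
          refine mul_le_mul_of_nonneg_left ?_ hB0
          exact sum_le_sum_of_subset_of_nonneg (filter_subset _ _)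
            fun g _ _ => sum_nonneg fun H _ => ht0 g H
  rw [e1]
  refine (norm_add_le _ _).trans ?_
  refine (add_le_add b1 ((norm_add_le _ _).trans (add_le_add b2 le_rfl))).trans (le_of_eq ?_)
  ring

/-- `j ^ 2 / q ^ j → 0` -/
theorem tendsto_sq_div {q : ℝ} (hq : 2 ≤ q) :
    Tendsto (fun j : ℕ => (j : ℝ) ^ 2 / q ^ j) atTop (𝓝 0) :=
  tendsto_pow_const_div_const_pow_of_one_lt 2 (by linarith)

end CL5.PE
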