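import Pool.Agent.H92F.Cnt80

set_option autoImplicit false

namespace Pool.Agent.MP_d0fd9b_nt.F92.T71

open Polynomial Finset
open Pool.Agent.MP_d0fd9b_nt.F92

variable {k : Type*} [Field k] [Fintype k]

/-- `e(a, M) = ψ (coefficient of degree deg M - 1 of a mod M)` -/
noncomputable def ee (ψ : AddChar k ℂ) (a M : k[X]) : ℂ :=
  ψ ((a %ₘ M).coeff (M.natDegree - 1))

omit [Fintype k] in
theorem ee_add (ψ : AddChar k ℂ) (a b M : k[X]) :
    ee ψ (a + b) M = ee ψ a M * ee ψ b M := by
  unfold ee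
  rw [Polynomial.add_modByMonic, Polynomial.coeff_add, AddChar.map_add_eq_mul]

omit [Fintype k] in
theorem ee_zero (ψ : AddChar k ℂ) (M : k[X]) : ee ψ 0 M = 1 := by
  unfold ee
  rw [Polynomial.zero_modByMonic, Polynomial.coeff_zero, AddChar.map_zero_eq_one]

omit [Fintype k] in
theorem ee_dvd (ψ : AddChar k ℂ) {a M : k[X]} (hM : M.Monic) (h : M ∣ a) : ee ψ a M = 1 := by
  unfold ee
  rw [(Polynomial.modByMonic_eq_zero_iff_dvd hM).2 h, Polynomial.coeff_zero,
    AddChar.map_zero_eq_one]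

omit [Fintype k] in
theorem ee_per (ψ : AddChar k ℂ) {a b M : k[X]} (hM : M.Monic) (h : M ∣ a - b) :
    ee ψ a M = ee ψ b M := by
  have : a = b + (a - b) := by ring
  rw [this, ee_add, ee_dvd ψ hM h, mul_one]

theorem ee_norm (ψ : AddChar k ℂ) (a M : k[X]) : ‖ee ψ a M‖ = 1 := by
  unfold ee
  exact AddChar.norm_apply ψ _

theorem ee_neg (ψ : AddChar k ℂ) (a M : k[X]) :
    ee ψ (-a) M = (starRingEnd ℂ) (ee ψ a M) := by
  have h1 : ee ψ (-a) M * ee ψ a M = 1 := by rw [← ee_add, neg_add_cancel, ee_zero]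
  have h2 : (starRingEnd ℂ) (ee ψ a M) * ee ψ a M = 1 := by
    rw [Complex.conj_mul', ee_norm]
    simp
  have h0 : ee ψ a M ≠ 0 := by
    intro h
    rw [h, mul_zero] at h1
    exact zero_ne_one h1
  exact mul_right_cancel₀ h0 (h1.trans h2.symm)

omit [Fintype k] in
theorem ee_small (ψ : AddChar k ℂ) {a M : k[X]} (hM : M.Monic)
    (h : a.degree < (M.natDegree : WithBot ℕ)) :
    ee ψ a M = ψ (a.coeff (M.natDegree - 1)) := by
  unfold ee
  rw [(Polynomial.modByMonic_eq_self_iff hM).2 (by rwa [Polynomial.degree_eq_natDegree hM.ne_zero])]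

open Classical in
/-- (e2) -/
theorem ee_orth {ψ : AddChar k ℂ} (hψ : ψ ≠ 1) {M : k[X]} (hM : M.Monic) {N : ℕ}
    (hN : N ≤ M.natDegree) (a : k[X]) :
    ∑ v ∈ box k N, ee ψ (a * v) M
      = if a %ₘ M ∈ box k (M.natDegree - N) then (Fintype.card k : ℂ) ^ N else 0 := by
  set w := a %ₘ M with hw
  have hwa : ∀ v, ee ψ (a * v) M = ee ψ (w * v) M := fun v => ee_per ψ hM ⟨a /ₘ M * v, by
    have := Polynomial.modByMonic_add_div a M
    linear_combination (-v) * this⟩
  have hwb : w ∈ box k M.natDegree := modByMonic_mem_box hM a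
  split_ifs with h
  · have : ∀ v ∈ box k N, ee ψ (a * v) M = 1 := by
      intro v hv
      rw [hwa]
      rcases mem_box'.1 h with h0 | h0
      · rw [h0, zero_mul, ee_zero]
      rcases mem_box'.1 hv with h1 | h1
      · rw [h1, mul_zero, ee_zero]
      have h2 := Polynomial.natDegree_mul_le (p := w) (q := v)
      rw [ee_small ψ hM (mem_box.1 (mem_box'.2 (Or.inr (by omega)))),
        Polynomial.coeff_eq_zero_of_natDegree_lt (by omega), AddChar.map_zero_eq_one]
    rw [Finset.sum_congr rfl this, Finset.sum_const, card_box, nsmul_eq_mul, mul_one]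
    push_cast
    rfl
  · rw [mem_box', not_or, not_lt] at h
    obtain ⟨h0, h1⟩ := h
    have h2 : w.natDegree < M.natDegree := (mem_box'.1 hwb).resolve_left h0
    obtain ⟨c, hc⟩ := AddChar.ne_one_iff.1 hψ
    have hl : w.leadingCoeff ≠ 0 := Polynomial.leadingCoeff_ne_zero.2 h0
    set j := M.natDegree - 1 - w.natDegree with hj
    set v0 : k[X] := C (c * w.leadingCoeff⁻¹) * X ^ j with hv0
    have hd : v0.natDegree ≤ j := Polynomial.natDegree_C_mul_X_pow_le _ _
    have hv0b : v0 ∈ box k N := mem_box'.2 (Or.inr (by omega))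
    have he : ee ψ (a * v0) M = ψ c := by
      have h3 := Polynomial.natDegree_mul_le (p := w) (q := v0)
      rw [hwa, ee_small ψ hM (mem_box.1 (mem_box'.2 (Or.inr (by omega))))]
      congr 1
      have h4 : M.natDegree - 1 = w.natDegree + j := by omega
      rw [h4, hv0, ← mul_assoc, Polynomial.coeff_mul_X_pow, Polynomial.coeff_mul_C]
      rw [Polynomial.coeff_natDegree]
      field_simp
    have hs : ∑ v ∈ box k N, ee ψ (a * v) M = ∑ v ∈ box k N, ee ψ (a * (v0 + v)) M := by
      refine Finset.sum_nbij' (fun v => v - v0) (fun v => v0 + v) ?_ ?_ ?_ ?_ ?_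
      · intro v hv
        exact sub_mem_box hv hv0b
      · intro v hv
        exact add_mem_box hv0b hv
      · intro v _
        ring
      · intro v _
        ring
      · intro v _
        congr 1
        ring
    simp only [mul_add, ee_add, he, ← Finset.mul_sum] at hs
    have : (1 - ψ c) * ∑ v ∈ box k N, ee ψ (a * v) M = 0 := by linear_combination hs
    exact (mul_eq_zero.1 this).resolve_left (sub_ne_zero.2 hc.symm)

/-- multiplication by a unit permutes the residues -/
theorem sum_box_unit {R : Type*} [AddCommMonoid R] {M u : k[X]} (hM : M.Monic)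
    (hu : IsCoprime u M) {F : k[X] → R} (hF : Per M F) :
    ∑ a ∈ box k M.natDegree, F (u * a) = ∑ a ∈ box k M.natDegree, F a := by
  obtain ⟨v, t, hv⟩ := hu
  have key : ∀ x y : k[X], M ∣ x * y - 1 → ∀ a ∈ box k M.natDegree,
      (x * ((y * a) %ₘ M)) %ₘ M = a := by
    intro x y hxy a ha
    obtain ⟨z, hz⟩ := hxy
    have h1 := Polynomial.modByMonic_add_div (y * a) M
    have h2 := Polynomial.modByMonic_add_div (x * ((y * a) %ₘ M)) M
    refine sub_eq_zero.1 (eq_zero_of_dvd_of_mem_box hM.ne_zero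
      (sub_mem_box (modByMonic_mem_box hM _) ha) ⟨z * a - x * ((y * a) /ₘ M)
        - (x * ((y * a) %ₘ M)) /ₘ M, ?_⟩)
    linear_combination h2 + x * h1 + a * hz
  refine Finset.sum_nbij' (fun a => (u * a) %ₘ M) (fun a => (v * a) %ₘ M) ?_ ?_ ?_ ?_ ?_
  · intro a _
    exact modByMonic_mem_box hM _
  · intro a _
    exact modByMonic_mem_box hM _
  · intro a ha
    exact key v u ⟨-t, by linear_combination hv⟩ a ha
  · intro a ha
    exact key u v ⟨-t, by linear_combination hv⟩ a ha
  · intro a _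
    refine hF _ _ ⟨(u * a) /ₘ M, ?_⟩
    have := Polynomial.modByMonic_add_div (u * a) M
    linear_combination -this

/-- quadratic Gauss sum -/
noncomputable def Gam (ψ : AddChar k ℂ) (M b : k[X]) : ℂ :=
  ∑ f ∈ box k M.natDegree, ee ψ (b * f ^ 2) M

theorem Gam_per (ψ : AddChar k ℂ) {M b b' : k[X]} (hM : M.Monic) (h : M ∣ b - b') :
    Gam ψ M b = Gam ψ M b' := by
  unfold Gam
  refine Finset.sum_congr rfl fun f _ => ee_per ψ hM ?_
  rw [← sub_mul]
  exact h.mul_right _

omit [Fintype k] in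
theorem per_sq (ψ : AddChar k ℂ) {M : k[X]} (hM : M.Monic) (b l : k[X]) :
    Per M (fun f => ee ψ (b * f ^ 2 + l * f) M) := by
  intro x y hxy
  refine ee_per ψ hM ?_
  obtain ⟨z, hz⟩ := hxy
  exact ⟨z * (b * (x + y) + l), by linear_combination (b * (x + y) + l) * hz⟩

theorem Gam_unit (ψ : AddChar k ℂ) {M u : k[X]} (hM : M.Monic) (hu : IsCoprime u M) (b : k[X]) :
    Gam ψ M (b * u ^ 2) = Gam ψ M b := by
  unfold Gam
  have hP : Per M (fun f => ee ψ (b * f ^ 2) M) := by
    have := per_sq ψ hM b 0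
    simpa using this
  rw [← sum_box_unit hM hu hP]
  refine Finset.sum_congr rfl fun f _ => ?_
  congr 1
  ring

theorem Gam_norm [CharP k 5] {ψ : AddChar k ℂ} (hψ : ψ ≠ 1) {M b : k[X]} (hM : M.Monic)
    (hb : IsCoprime b M) : ‖Gam ψ M b‖ ^ 2 = (Fintype.card k : ℝ) ^ M.natDegree := by
  classical
  have h5 : (5 : k[X]) = 0 := by exact_mod_cast CharP.cast_eq_zero k[X] 5
  have hP : Per M (fun f => ee ψ (b * f ^ 2) M) := by
    have := per_sq ψ hM b 0
    simpa using this
  have h1 : (starRingEnd ℂ) (Gam ψ M b) * Gam ψ M b = (Fintype.card k : ℂ) ^ M.natDegree := by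
    have e1 : (starRingEnd ℂ) (Gam ψ M b) * Gam ψ M b
        = ∑ f ∈ box k M.natDegree, ∑ h ∈ box k M.natDegree,
          ee ψ (b * h ^ 2) M * ee ψ ((2 * b * h) * f) M := by
      conv_lhs => unfold Gam
      rw [map_sum, Finset.sum_mul]
      refine Finset.sum_congr rfl fun f _ => ?_
      rw [← sum_box_shift hM le_rfl hP f, Finset.mul_sum]
      refine Finset.sum_congr rfl fun h _ => ?_
      rw [← ee_neg, ← ee_add, ← ee_add]
      congr 1
      ring
    rw [e1, Finset.sum_comm]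
    have e2 : ∀ h ∈ box k M.natDegree, ∑ f ∈ box k M.natDegree,
          ee ψ (b * h ^ 2) M * ee ψ ((2 * b * h) * f) M
        = if h = 0 then (Fintype.card k : ℂ) ^ M.natDegree else 0 := by
      intro h hh
      rw [← Finset.mul_sum, ee_orth hψ hM le_rfl, Nat.sub_self]
      by_cases h0 : h = 0
      · simp [h0, ee_zero, zero_mem_box]
      · rw [if_neg h0, if_neg, mul_zero]
        intro hm
        rcases mem_box'.1 hm with h1 | h1
        · have h2 : M ∣ 2 * b * h := (Polynomial.modByMonic_eq_zero_iff_dvd hM).1 h1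
          have h3 : M ∣ b * h := by
            have : b * h = (2 * b * h) * 3 := by linear_combination (-(b * h)) * h5
            rw [this]
            exact h2.mul_right _
          exact h0 (eq_zero_of_dvd_of_mem_box hM.ne_zero hh (hb.symm.dvd_of_dvd_mul_left h3))
        · omega
    rw [Finset.sum_congr rfl e2, Finset.sum_ite_eq', if_pos (zero_mem_box _)]
  rw [Complex.conj_mul'] at h1
  exact_mod_cast h1

/-- completing the square -/
theorem sum_sq [CharP k 5] (ψ : AddChar k ℂ) {M b b' : k[X]} (hM : M.Monic)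
    (hb : M ∣ b * b' - 1) (l : k[X]) :
    ∑ f ∈ box k M.natDegree, ee ψ (b * f ^ 2 + l * f) M = Gam ψ M b * ee ψ (b' * l ^ 2) M := by
  have h5 : (5 : k[X]) = 0 := by exact_mod_cast CharP.cast_eq_zero k[X] 5
  rw [← sum_box_shift hM le_rfl (per_sq ψ hM b l) (2 * b' * l)]
  unfold Gam
  rw [Finset.sum_mul]
  refine Finset.sum_congr rfl fun f _ => ?_
  rw [← ee_add]
  refine ee_per ψ hM ?_
  obtain ⟨z, hz⟩ := hb
  exact ⟨z * (4 * l * f + 4 * b' * l ^ 2), by
    linear_combination (4 * l * f + 4 * b' * l ^ 2) * hz + (l * f + b' * l ^ 2) * h5⟩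

/-- detecting monic polynomials of degree `n` inside the residues mod `M` -/
theorem sum_Mon_eq [CharP k 5] {ψ : AddChar k ℂ} (hψ : ψ ≠ 1) {M b b' : k[X]} (hM : M.Monic)
    (hb : M ∣ b * b' - 1) {n lam : ℕ} (hl : 0 < lam) (hn : lam + n = M.natDegree) :
    ∑ f ∈ Mon k n, ee ψ (b * f ^ 2) M
      = ((Fintype.card k : ℂ) ^ lam)⁻¹ * Gam ψ M b *
        ∑ l ∈ box k lam, ψ (-(l.coeff (lam - 1))) * ee ψ (b' * l ^ 2) M := by
  classical
  have hq : (Fintype.card k : ℂ) ^ lam ≠ 0 := pow_ne_zero _ (card_ne_zero ℂ)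
  have hX : (X ^ n : k[X]) ∈ box k M.natDegree :=
    mem_box'.2 (Or.inr (by rw [Polynomial.natDegree_X_pow]; omega))
  have hsub : Mon k n ⊆ box k M.natDegree := fun f hf =>
    mem_box'.2 (Or.inr (by rw [(mem_Mon.1 hf).2]; omega))
  have hiff : ∀ f : k[X], f - X ^ n ∈ box k n ↔ f ∈ Mon k n := by
    intro f
    unfold Mon
    simp only [Finset.mem_map, Function.Embedding.coeFn_mk]
    constructor
    · intro h
      exact ⟨_, h, by ring⟩
    · rintro ⟨a, ha, rfl⟩
      simpa using ha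
  have e1 : ∀ f ∈ box k M.natDegree,
      ∑ l ∈ box k lam, ψ (-(l.coeff (lam - 1))) * ee ψ (b * f ^ 2 + l * f) M
        = if f ∈ Mon k n then (Fintype.card k : ℂ) ^ lam * ee ψ (b * f ^ 2) M else 0 := by
    intro f hf
    have e2 : ∀ l ∈ box k lam, ψ (-(l.coeff (lam - 1))) * ee ψ (b * f ^ 2 + l * f) M
        = ee ψ ((f - X ^ n) * l) M * ee ψ (b * f ^ 2) M := by
      intro l hl'
      have e3 : ee ψ (-(l * X ^ n)) M = ψ (-(l.coeff (lam - 1))) := by
        have hb' : -(l * X ^ n) ∈ box k M.natDegree := by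
          rcases mem_box'.1 hl' with h0 | h0
          · simp [h0, zero_mem_box]
          · refine mem_box'.2 (Or.inr ?_)
            have := Polynomial.natDegree_mul_le (p := l) (q := X ^ n)
            rw [Polynomial.natDegree_X_pow] at this
            rw [Polynomial.natDegree_neg]
            omega
        have h4 : M.natDegree - 1 = lam - 1 + n := by omega
        rw [ee_small ψ hM (mem_box.1 hb'), Polynomial.coeff_neg, h4, Polynomial.coeff_mul_X_pow]
      rw [← e3, ← ee_add, ← ee_add]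
      congr 1
      ring
    have hself : (f - X ^ n) %ₘ M = f - X ^ n := (Polynomial.modByMonic_eq_self_iff hM).2 (by
      rw [Polynomial.degree_eq_natDegree hM.ne_zero]
      exact mem_box.1 (sub_mem_box hf hX))
    have hn' : M.natDegree - lam = n := by omega
    rw [Finset.sum_congr rfl e2, ← Finset.sum_mul, ee_orth hψ hM (by omega), hself, hn']
    simp only [hiff]
    split_ifs <;> simp
  have e4 : ∑ f ∈ box k M.natDegree,
      ∑ l ∈ box k lam, ψ (-(l.coeff (lam - 1))) * ee ψ (b * f ^ 2 + l * f) M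
        = (Fintype.card k : ℂ) ^ lam * ∑ f ∈ Mon k n, ee ψ (b * f ^ 2) M := by
    rw [Finset.sum_congr rfl e1, ← Finset.sum_filter, Finset.filter_mem_eq_inter,
      Finset.inter_eq_right.2 hsub, Finset.mul_sum]
  rw [Finset.sum_comm] at e4
  simp only [← Finset.mul_sum, sum_sq ψ hM hb] at e4
  rw [mul_assoc, eq_inv_mul_iff_mul_eq₀ hq, ← e4, Finset.mul_sum]
  refine Finset.sum_congr rfl fun l _ => ?_
  ring

open Classical in
/-- an inverse of `x` modulo `r` -/
noncomputable def inv (r x : k[X]) : k[X] :=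
  if h : IsCoprime x r then h.choose %ₘ r else 0

omit [Fintype k] in
theorem inv_spec {r x : k[X]} (h : IsCoprime x r) : r ∣ inv r x * x - 1 := by
  unfold inv
  rw [dif_pos h]
  obtain ⟨t, ht⟩ := h.choose_spec
  have := Polynomial.modByMonic_add_div h.choose r
  exact ⟨-t - h.choose /ₘ r * x, by linear_combination ht + x * this⟩

omit [Fintype k] in
theorem inv_cop {r x : k[X]} (h : IsCoprime x r) : IsCoprime (inv r x) r := by
  obtain ⟨z, hz⟩ := inv_spec h
  exact ⟨x, -z, by linear_combination hz⟩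

theorem inv_mem {r : k[X]} (hr : r.Monic) (x : k[X]) : inv r x ∈ box k r.natDegree := by
  unfold inv
  split_ifs with h
  · exact modByMonic_mem_box hr _
  · exact zero_mem_box _

open Classical in
/-- the coefficient `γ(r, a)`; it does not depend on `g` -/
noncomputable def gam (ψ : AddChar k ℂ) (d r a : k[X]) : ℂ :=
  if IsCoprime (a * d) r then Gam ψ (r ^ 5) (inv r (a * d) ^ 5) * ee ψ (-(inv r (a * d))) r else 0

theorem gam_norm [CharP k 5] {ψ : AddChar k ℂ} (hψ : ψ ≠ 1) (d : k[X]) {r : k[X]} (hr : r.Monic)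
    (a : k[X]) : ‖gam ψ d r a‖ ^ 2 ≤ (Fintype.card k : ℝ) ^ (5 * r.natDegree) := by
  unfold gam
  split_ifs with h
  · rw [norm_mul, ee_norm, mul_one, Gam_norm hψ (hr.pow 5) (inv_cop h).pow, hr.natDegree_pow]
  · simp

omit [Fintype k] in
theorem pow5_dvd [CharP k 5] {r x y : k[X]} (h : r ∣ x - y) : r ^ 5 ∣ x ^ 5 - y ^ 5 := by
  have : Fact (Nat.Prime 5) := ⟨by norm_num⟩
  rw [← sub_pow_char]
  exact pow_dvd_pow_of_dvd h 5

open Classical in
/-- block T, before (e3) -/
theorem T_main [CharP k 5] {ψ : AddChar k ℂ} (hψ : ψ ≠ 1) {d r g : k[X]} (hr : r.Monic)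
    (hd : IsCoprime d r) (hg : IsCoprime g r) {n lam : ℕ} (hl : 0 < lam)
    (hn : lam + n = 5 * r.natDegree) :
    ∑ s ∈ (box k r.natDegree).filter (fun s => IsCoprime s r),
        (∑ f ∈ Mon k n, ee ψ (s ^ 5 * g * d ^ 4 * f ^ 2) (r ^ 5)) * ee ψ (-(s * g)) r
      = ((Fintype.card k : ℂ) ^ lam)⁻¹ *
        ∑ a ∈ (box k r.natDegree).filter (fun a => IsCoprime a r), gam ψ d r a *
          ∑ l ∈ box k lam, ψ (-(l.coeff (lam - 1))) * ee ψ (a ^ 5 * (d * g ^ 4 * l ^ 2)) (r ^ 5) := by
  have hM : (r ^ 5).Monic := hr.pow 5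
  have hmap : ∀ x ∈ (box k r.natDegree).filter (fun s => IsCoprime s r),
      inv r (x * g * d) ∈ (box k r.natDegree).filter (fun s => IsCoprime s r) := by
    intro x hx
    rw [Finset.mem_filter] at hx ⊢
    exact ⟨inv_mem hr _, inv_cop ((hx.2.mul_left hg).mul_left hd)⟩
  have hinv : ∀ x ∈ (box k r.natDegree).filter (fun s => IsCoprime s r),
      inv r (inv r (x * g * d) * g * d) = x := by
    intro x hx
    rw [Finset.mem_filter] at hx
    have c1 : IsCoprime (x * g * d) r := (hx.2.mul_left hg).mul_left hd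
    have c2 : IsCoprime (inv r (x * g * d) * g * d) r := ((inv_cop c1).mul_left hg).mul_left hd
    obtain ⟨z1, h1⟩ := inv_spec c1
    obtain ⟨z2, h2⟩ := inv_spec c2
    refine sub_eq_zero.1 (eq_zero_of_dvd_of_mem_box hr.ne_zero
      (sub_mem_box (inv_mem hr _) hx.1) ⟨x * z2 - inv r (inv r (x * g * d) * g * d) * z1, ?_⟩)
    linear_combination x * h2 - inv r (inv r (x * g * d) * g * d) * h1
  rw [Finset.mul_sum]
  refine Finset.sum_nbij' (fun x => inv r (x * g * d)) (fun x => inv r (x * g * d))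
    hmap hmap hinv hinv ?_
  intro s hs
  rw [Finset.mem_filter] at hs
  have c1 : IsCoprime (s * g * d) r := (hs.2.mul_left hg).mul_left hd
  set a := inv r (s * g * d) with ha
  have c2 : IsCoprime (a * d) r := (inv_cop c1).mul_left hd
  have h1 : r ∣ a * (s * g * d) - 1 := inv_spec c1
  have h2 : r ∣ s * g - inv r (a * d) := by
    obtain ⟨z1, h1⟩ := h1
    obtain ⟨z2, h2⟩ := inv_spec c2
    exact ⟨inv r (a * d) * z1 - s * g * z2, by
      linear_combination inv r (a * d) * h1 - s * g * h2⟩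
  have hb : r ^ 5 ∣ (s ^ 5 * g * d ^ 4) * (a ^ 5 * (d * g ^ 4)) - 1 := by
    have := pow5_dvd h1
    rw [one_pow] at this
    convert this using 2
    ring
  have hG : Gam ψ (r ^ 5) (s ^ 5 * g * d ^ 4) = Gam ψ (r ^ 5) (inv r (a * d) ^ 5) := by
    rw [← Gam_unit ψ hM (u := g ^ 2) hg.pow, ← Gam_per ψ hM (pow5_dvd h2),
      ← Gam_unit ψ hM (u := d ^ 2) hd.pow ((s * g) ^ 5)]
    congr 1
    ring
  have he : ee ψ (-(s * g)) r = ee ψ (-(inv r (a * d))) r := by
    refine ee_per ψ hr ?_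
    have : -(s * g) - -(inv r (a * d)) = -(s * g - inv r (a * d)) := by ring
    rw [this]
    exact h2.neg_right
  rw [sum_Mon_eq hψ hM hb hl (by rw [hr.natDegree_pow]; exact hn), hG, he]
  unfold gam
  rw [if_pos c2]
  have : ∀ l : k[X], a ^ 5 * (d * g ^ 4) * l ^ 2 = a ^ 5 * (d * g ^ 4 * l ^ 2) := fun l => by ring
  simp only [this]
  ring

end Pool.Agent.MP_d0fd9b_nt.F92.T71
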