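import Pool.Agent.H92F.Chr
import Pool.Agent.H92F.T71

/-! h92f: transformation of the theta sum at a fraction (row T). -/

set_option autoImplicit false
open Polynomial Finset UniqueFactorizationMonoid EuclideanDomain Filter Topology
open scoped Classical

noncomputable section
namespace CL5

variable {k : Type*} [Field k] [Fintype k]

variable [CharP k 5]

theorem degree_Del_lt {d g l : k[X]} {n ρ : ℕ} (hn : 2 * d.natDegree ≤ n)
    (h : n - 2 * d.natDegree < 5 * ρ) (hg : g ∈ box k (n / 2))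
    (hl : l ∈ box k (5 * ρ - (n - 2 * d.natDegree))) :
    (Del d g l).degree < (2 * ρ + d.natDegree : ℕ) := by
  unfold Del
  refine degree_car_lt ?_
  by_cases hg0 : g = 0
  · rw [hg0, zero_pow four_ne_zero, mul_zero, zero_mul, Polynomial.degree_zero]
    exact WithBot.bot_lt_coe _
  by_cases hl0 : l = 0
  · rw [hl0, zero_pow two_ne_zero, mul_zero, Polynomial.degree_zero]
    exact WithBot.bot_lt_coe _
  have h1 : g.natDegree < n / 2 := (Polynomial.natDegree_lt_iff_degree_lt hg0).2 (mem_box.1 hg)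
  have h2 : l.natDegree < 5 * ρ - (n - 2 * d.natDegree) :=
    (Polynomial.natDegree_lt_iff_degree_lt hl0).2 (mem_box.1 hl)
  have h3 := Polynomial.natDegree_mul_le (p := d * g ^ 4) (q := l ^ 2)
  have h4 := Polynomial.natDegree_mul_le (p := d) (q := g ^ 4)
  have h5 := Polynomial.natDegree_pow_le (p := g) (n := 4)
  have h6 := Polynomial.natDegree_pow_le (p := l) (n := 2)
  refine Polynomial.degree_le_natDegree.trans_lt ?_
  exact_mod_cast (by omega : (d * g ^ 4 * l ^ 2).natDegree < 5 * (2 * ρ + d.natDegree) + 4)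

/-- `psi` as a bundled character -/
def psiT (k : Type*) [Field k] [Fintype k] [CharP k 5] : AddChar k ℂ where
  toFun := psi
  map_zero_eq_one' := psi_zero
  map_add_eq_mul' := psi_add

theorem psiT_ne_one : psiT k ≠ 1 := by
  intro h
  have h1 := sum_psi_mul (k := k) one_ne_zero
  have h2 : ∀ c : k, psi (1 * c) = 1 := fun c => by
    have : psiT k (1 * c) = 1 := by rw [h, AddChar.one_apply]
    exact this
  simp only [h2, Finset.sum_const, Finset.card_univ, nsmul_eq_mul, mul_one] at h1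
  exact Fintype.card_ne_zero (by exact_mod_cast h1)

theorem theta_trans (d : k[X]) {n1 ρ : ℕ} (h : n1 < 5 * ρ) :
    ∃ (gam : k[X] → k[X] → ℂ) (om : k[X] → ℂ),
      (∀ r a, ‖gam r a‖ ^ 2 ≤ qq k ^ (5 * ρ)) ∧ (∀ l, ‖om l‖ ≤ 1) ∧
      ∀ r ∈ mon k ρ, ∀ g : k[X], IsCoprime r (g * d) →
        ∑ s ∈ (box k ρ).filter (fun s => IsCoprime r s),
            (∑ f ∈ mon k n1, ee (s ^ 5 * (g * d ^ 4 * f ^ 2)) (r ^ 5)) * ee (-(s * g)) r =
          ((qq k ^ (5 * ρ - n1) : ℝ) : ℂ)⁻¹ *
            ∑ a ∈ (box k ρ).filter (fun a => IsCoprime r a),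
              gam r a * ∑ l ∈ box k (5 * ρ - n1), om l * ee (a * Del d g l) r := by
  have hb : ∀ N, box k N = Pool.Agent.MP_d0fd9b_nt.F92.box k N := fun N => by
    ext a
    rw [mem_box, Pool.Agent.MP_d0fd9b_nt.F92.mem_box]
  have hm : ∀ N, mon k N = Pool.Agent.MP_d0fd9b_nt.F92.Mon k N := fun N => by
    ext a
    rw [mem_mon, Pool.Agent.MP_d0fd9b_nt.F92.mem_Mon]
  have he : ∀ a M : k[X], Pool.Agent.MP_d0fd9b_nt.F92.T71.ee (psiT k) a M = ee a M :=
    fun _ _ => rfl
  refine ⟨fun r a => if r ∈ mon k ρ then Pool.Agent.MP_d0fd9b_nt.F92.T71.gam (psiT k) d r a else 0,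
    fun l => psi (-(l.coeff (5 * ρ - n1 - 1))), ?_, fun l => (norm_psi _).le, ?_⟩
  · intro r a
    dsimp only
    split_ifs with hr
    · obtain ⟨h1, h2⟩ := mem_mon.1 hr
      have := Pool.Agent.MP_d0fd9b_nt.F92.T71.gam_norm (psiT_ne_one (k := k)) d h1 a
      rwa [h2] at this
    · have := two_le_qq (k := k)
      rw [norm_zero, zero_pow two_ne_zero]
      positivity
  · intro r hr g hc
    obtain ⟨h1, h2⟩ := mem_mon.1 hr
    have := Pool.Agent.MP_d0fd9b_nt.F92.T71.T_main (psiT_ne_one (k := k)) (d := d) (g := g) h1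
      hc.of_mul_right_right.symm hc.of_mul_right_left.symm (n := n1) (lam := 5 * ρ - n1)
      (by omega) (by omega)
    have hf : (box k ρ).filter (fun s => IsCoprime s r) = (box k ρ).filter (fun s => IsCoprime r s) :=
      Finset.filter_congr fun s _ => isCoprime_comm
    have e3 : ∀ a l : k[X], ee (a ^ 5 * (d * g ^ 4 * l ^ 2)) (r ^ 5) = ee (a * Del d g l) r :=
      fun a l => ee_pow_five h1 (by omega) a _
    have e4 : ∀ s f : k[X], s ^ 5 * g * d ^ 4 * f ^ 2 = s ^ 5 * (g * d ^ 4 * f ^ 2) :=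
      fun s f => by ring
    simp only [he, h2, ← hb, ← hm, hf, e3, e4] at this
    simp only [if_pos hr]
    rw [this]
    unfold qq
    push_cast
    rfl

end CL5
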