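import Pool.Agent.H92F.LS
import Pool.Agent.H92F.Tr
import Pool.Agent.H92F.J
import Pool.Agent.H92F.Good

/-! h92f: the bilinear estimate (row THIRD). -/

set_option autoImplicit false
open Polynomial Finset UniqueFactorizationMonoid EuclideanDomain Filter Topology
open scoped Classical

noncomputable section
namespace CL5

variable {k : Type*} [Field k] [Fintype k]

theorem third_sum (Y ρ : ℕ) (g : k[X]) (Φ : k[X] → k[X] → ℂ) :
    ∑ z ∈ (Fr k Y ρ).filter (fun z => IsCoprime z.1 g), Φ z.1 z.2 =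
      ∑ r ∈ (Rg k Y ρ).filter (fun r => IsCoprime r g),
        ∑ s ∈ (box k ρ).filter (fun s => IsCoprime r s), Φ r s := by
  simp only [Fr, sum_filter, sum_product]
  refine sum_congr rfl fun r _ => ?_
  split_ifs with h <;> simp

theorem third_cs {ρ : ℕ} {S : Finset (k[X] × k[X])} (hS : S ⊆ FrA k ρ) {a T : k[X] × k[X] → ℂ}
    {c : ℝ} (ha : ∀ z, ‖a z‖ ^ 2 ≤ c) :
    ‖∑ z ∈ S, a z * T z‖ ^ 2 ≤ S.card * c * ∑ z ∈ FrA k ρ, ‖T z‖ ^ 2 := by
  have h1 : ‖∑ z ∈ S, a z * T z‖ ≤ ∑ z ∈ S, ‖a z‖ * ‖T z‖ :=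
    (norm_sum_le _ _).trans (sum_le_sum fun z _ => (norm_mul _ _).le)
  have h2 : ∑ z ∈ S, ‖a z‖ ^ 2 ≤ S.card * c := by
    simpa using sum_le_card_nsmul S _ c fun z _ => ha z
  have h3 : ∑ z ∈ S, ‖T z‖ ^ 2 ≤ ∑ z ∈ FrA k ρ, ‖T z‖ ^ 2 :=
    sum_le_sum_of_subset_of_nonneg hS fun _ _ _ => sq_nonneg _
  calc _ ≤ (∑ z ∈ S, ‖a z‖ * ‖T z‖) ^ 2 := pow_le_pow_left₀ (norm_nonneg _) h1 2
    _ ≤ (∑ z ∈ S, ‖a z‖ ^ 2) * ∑ z ∈ S, ‖T z‖ ^ 2 := sum_mul_sq_le_sq_mul_sq _ _ _
    _ ≤ _ := mul_le_mul h2 h3 (sum_nonneg fun _ _ => sq_nonneg _)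
      ((sum_nonneg fun _ _ => sq_nonneg _).trans h2)

theorem third_num {x c y : ℝ} (hy : 0 ≤ y) (h : x ^ 2 ≤ c * y ^ 2) : x ≤ Real.sqrt c * y := by
  have h1 := Real.le_sqrt_of_sq_le h
  rwa [Real.sqrt_mul' _ (sq_nonneg y), Real.sqrt_sq hy] at h1

variable [CharP k 5]

theorem third_F {d g r s : k[X]} {n : ℕ} (hn : 2 * d.natDegree + 2 ≤ n) (hg : g ∈ box k (n / 2))
    (hr : r.Monic) (h1 : 1 ≤ r.natDegree) :
    th d n g (Hq (n / 2) (r, s)) * ee (-(Hq (n / 2) (r, s) * g)) (X ^ (n / 2)) =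
      (∑ f ∈ mon k (n - 2 * d.natDegree), ee (s ^ 5 * (g * d ^ 4 * f ^ 2)) (r ^ 5)) *
        ee (-(s * g)) r := by
  have hm : 1 ≤ n / 2 := by omega
  have hg1 := mem_box.1 hg
  have hg2 : g.natDegree < n / 2 := by
    by_cases h : g = 0
    · rw [h, natDegree_zero]
      exact hm
    · exact (natDegree_lt_iff_degree_lt h).2 hg1
  rw [← mul_neg, ← mul_neg, ee_Hq hr h1 hm s (by rwa [degree_neg]), th]
  refine congrArg (· * ee (s * -g) r) (sum_congr rfl fun f hf => ?_)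
  rw [mul_assoc, ee_Hq_five hr h1 hm s]
  have h2 : (g * d ^ 4 * f ^ 2).natDegree ≤ g.natDegree + 4 * d.natDegree + 2 * f.natDegree :=
    natDegree_mul_le.trans (add_le_add (natDegree_mul_le.trans
      (add_le_add le_rfl natDegree_pow_le)) natDegree_pow_le)
  rw [(mem_mon.1 hf).2] at h2
  exact degree_le_natDegree.trans_lt (by exact_mod_cast (by omega))

theorem third_le {d : k[X]} (hd : d.Monic) {Y ρ n : ℕ} {ε : ℝ} (hε : 0 ≤ ε)
    (hY : d.natDegree ≤ Y) (h : ∑ p ∈ prs k Y, p.natDegree ≤ ρ)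
    (hη : eta0 k Y / VV k Y ≤ 1 / 2) (hn : 2 * d.natDegree + 2 ≤ n)
    (h5 : n - 2 * d.natDegree < 5 * ρ)
    (hM : ((((((box k (n / 2)).filter (Good d (5 * ρ - (n - 2 * d.natDegree)))) ×ˢ
            box k (5 * ρ - (n - 2 * d.natDegree))) ×ˢ
          (((box k (n / 2)).filter (Good d (5 * ρ - (n - 2 * d.natDegree)))) ×ˢ
            box k (5 * ρ - (n - 2 * d.natDegree)))).filter
        (fun p => Del d p.1.1 p.1.2 = Del d p.2.1 p.2.2)).card : ℝ) ≤
      ε * qq k ^ (2 * (n / 2) + (5 * ρ - (n - 2 * d.natDegree)))) :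
    ‖∑ g ∈ (box k (n / 2)).filter (Good d (5 * ρ - (n - 2 * d.natDegree))), ∑ H ∈ box k (n / 2),
        (((ng Y ρ (n / 2) g H : ℝ) * qq k ^ (n / 2) / (Fr k Y ρ).card : ℝ) : ℂ) *
          (th d n g H * ee (-(H * g)) (X ^ (n / 2)))‖ ≤
      (Real.sqrt (2 * ε / VV k Y) + 2 * Real.sqrt (2 * eta0 k Y) / VV k Y) *
        qq k ^ (n / 2 + n) := by
  obtain ⟨gam, om, hgam, hom, htr⟩ := theta_trans d h5
  have hDel := fun g l => degree_Del_lt (d := d) (g := g) (l := l) (n := n) (ρ := ρ) (by omega) h5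
  have hρ : 1 ≤ ρ := by omega
  have hq : 1 ≤ qq k := by linarith [two_le_qq (k := k)]
  have hq0 : 0 < qq k := by linarith
  have hV := VV_pos (k := k) Y
  have hL := card_Fr_ge h hη
  have e1 : qq k ^ (5 * ρ) =
      qq k ^ (n - 2 * d.natDegree) * qq k ^ (5 * ρ - (n - 2 * d.natDegree)) := by
    rw [← pow_add]
    congr 1
    omega
  have e2 : (qq k ^ (n / 2)) ^ 2 * (qq k ^ (n - 2 * d.natDegree) * qq k ^ d.natDegree) ≤
      (qq k ^ n) ^ 2 := by
    rw [← pow_mul, ← pow_mul, ← pow_add, ← pow_add]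
    exact pow_le_pow_right₀ hq (by omega)
  have hF := fun g r s => third_F (d := d) (g := g) (r := r) (s := s) hn
  generalize 5 * ρ - (n - 2 * d.natDegree) = lam at *
  generalize n - 2 * d.natDegree = n1 at *
  generalize n / 2 = m at *
  set G := (box k m).filter (Good d lam) with hG
  set T : k[X] → k[X] × k[X] → ℂ := fun g z => ∑ l ∈ box k lam, om l * ee (z.2 * Del d g l) z.1
    with hT
  set A : ℝ := qq k ^ m / (Fr k Y ρ).card / qq k ^ lam with hA
  have h1 : ∀ g ∈ G, ∑ H ∈ box k m,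
      (((ng Y ρ m g H : ℝ) * qq k ^ m / (Fr k Y ρ).card : ℝ) : ℂ) *
        (th d n g H * ee (-(H * g)) (X ^ m)) =
      A * (∑ z ∈ Fr k Y ρ, gam z.1 z.2 * T g z -
        ∑ z ∈ (Fr k Y ρ).filter (fun z => ¬ IsCoprime z.1 g), gam z.1 z.2 * T g z) := by
    intro g hg
    have a1 := sum_ng_mul Y ρ m g fun H => th d n g H * ee (-(H * g)) (X ^ m)
    have a2 := third_sum Y ρ g fun r s => th d n g (Hq m (r, s)) * ee (-(Hq m (r, s) * g)) (X ^ m)
    have a3 := third_sum Y ρ g fun r s => gam r s * T g (r, s)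
    have a4 := sum_filter_add_sum_filter_not (Fr k Y ρ) (fun z => IsCoprime z.1 g)
      fun z => gam z.1 z.2 * T g z
    rw [← a4, add_sub_cancel_right, a3, hA]
    rw [a2] at a1
    have a5 : ∀ r ∈ (Rg k Y ρ).filter (fun r => IsCoprime r g),
        ∑ s ∈ (box k ρ).filter (fun s => IsCoprime r s),
          th d n g (Hq m (r, s)) * ee (-(Hq m (r, s) * g)) (X ^ m) =
        ((qq k ^ lam : ℝ) : ℂ)⁻¹ *
          ∑ s ∈ (box k ρ).filter (fun s => IsCoprime r s), gam r s * T g (r, s) := by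
      intro r hr
      obtain ⟨b1, b2⟩ := mem_filter.1 hr
      have b3 := (mem_filter.1 b1).1
      obtain ⟨b4, b5⟩ := mem_mon.1 b3
      rw [← htr r b3 g (b2.mul_right (Rg_coprime b1 hd.ne_zero hY))]
      exact sum_congr rfl fun s _ => hF g r s (mem_filter.1 hg).1 b4 (by omega)
    rw [sum_congr rfl a5, ← mul_sum] at a1
    have a6 : ∀ H ∈ box k m, (((ng Y ρ m g H : ℝ) * qq k ^ m / (Fr k Y ρ).card : ℝ) : ℂ) *
        (th d n g H * ee (-(H * g)) (X ^ m)) = ((qq k ^ m / (Fr k Y ρ).card : ℝ) : ℂ) *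
          ((ng Y ρ m g H : ℂ) * (th d n g H * ee (-(H * g)) (X ^ m))) := fun H _ => by
      push_cast
      ring
    rw [sum_congr rfl a6, ← mul_sum, a1]
    push_cast
    ring
  have h2 : ‖∑ g ∈ G, ∑ z ∈ Fr k Y ρ, gam z.1 z.2 * T g z‖ ^ 2 ≤
      (Fr k Y ρ).card * qq k ^ (5 * ρ) *
        (qq k ^ (2 * ρ + d.natDegree) * (ε * qq k ^ (2 * m + lam))) := by
    have a1 := large_sieve (G ×ˢ box k lam) (fun p => Del d p.1 p.2) (fun p => om p.2) hρ
      (Nat.le_add_right _ d.natDegree)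
      (fun p hp => hDel _ _ (mem_filter.1 (mem_product.1 hp).1).1 (mem_product.1 hp).2)
      fun p _ => hom _
    rw [sum_comm]
    simp only [← mul_sum]
    refine (third_cs (Fr_subset Y ρ) (a := fun z => gam z.1 z.2) (fun z => hgam _ _)).trans
      (mul_le_mul_of_nonneg_left ?_ (by positivity))
    simp only [sum_product] at a1
    exact a1.trans (mul_le_mul_of_nonneg_left hM (by positivity))
  have h3 : ‖∑ g ∈ G, ∑ z ∈ (Fr k Y ρ).filter (fun z => ¬ IsCoprime z.1 g),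
      gam z.1 z.2 * T g z‖ ^ 2 ≤ qq k ^ m * (eta0 k Y * qq k ^ (m + 2 * ρ) *
        (qq k ^ (5 * ρ) * (qq k ^ (2 * ρ + d.natDegree) * (2 * qq k ^ lam)))) := by
    have a1 : ∀ g ∈ G, ‖∑ z ∈ (Fr k Y ρ).filter (fun z => ¬ IsCoprime z.1 g),
        gam z.1 z.2 * T g z‖ ^ 2 ≤ ((Fr k Y ρ).filter (fun z => ¬ IsCoprime z.1 g)).card *
          (qq k ^ (5 * ρ) * (qq k ^ (2 * ρ + d.natDegree) * (2 * qq k ^ lam))) := by
      intro g hg
      obtain ⟨b1, b2⟩ := mem_filter.1 hg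
      have b3 := large_sieve (box k lam) (fun l => Del d g l) om hρ
        (Nat.le_add_right _ d.natDegree) (fun l hl => hDel _ _ b1 hl) fun l _ => hom l
      rw [← mul_assoc]
      exact (third_cs ((filter_subset _ _).trans (Fr_subset Y ρ)) (a := fun z => gam z.1 z.2)
        (fun z => hgam _ _)).trans (mul_le_mul_of_nonneg_left
          (b3.trans (mul_le_mul_of_nonneg_left (card_pairs_good b2) (by positivity)))
          (by positivity))
    have a2 : (G.card : ℝ) ≤ qq k ^ m := by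
      rw [← card_box]
      exact_mod_cast card_filter_le _ _
    have a3 : G ⊆ (box k m).erase 0 := fun g hg =>
      mem_erase.2 ⟨(mem_filter.1 hg).2.1, (mem_filter.1 hg).1⟩
    have a4 := (sum_le_sum_of_subset_of_nonneg a3 fun _ _ _ => Nat.cast_nonneg _).trans
      (sum_not_coprime_le (k := k) Y ρ m)
    have a5 := sum_le_sum a1
    rw [← sum_mul] at a5
    refine (pow_le_pow_left₀ (norm_nonneg _) (norm_sum_le _ _) 2).trans
      (sq_sum_le_card_mul_sum_sq.trans (mul_le_mul a2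
        (a5.trans (mul_le_mul_of_nonneg_right a4 (by positivity)))
        (sum_nonneg fun _ _ => sq_nonneg _) (by positivity)))
  rw [sum_congr rfl h1, ← mul_sum, sum_sub_distrib, norm_mul, Complex.norm_real,
    Real.norm_of_nonneg (by positivity), add_mul]
  refine (mul_le_mul_of_nonneg_left (norm_sub_le _ _) (by positivity)).trans ?_
  have hη0 : 0 ≤ eta0 k Y := by
    unfold eta0
    positivity
  rw [mul_add, hA]
  simp only [pow_add, e1, mul_comm 2 m, pow_mul] at h2 h3 ⊢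
  simp only [← pow_mul (qq k) 2 ρ] at h2 h3
  have hw : 0 < qq k ^ (2 * ρ) := by positivity
  have ha : 0 < qq k ^ m := by positivity
  have hb : 0 < qq k ^ lam := by positivity
  have hN : 0 < qq k ^ n := by positivity
  have hL0 : (0 : ℝ) < (Fr k Y ρ).card := lt_of_lt_of_le (by positivity) hL
  have hu : qq k ^ (2 * ρ) / (Fr k Y ρ).card ≤ 2 / VV k Y := by
    rw [div_le_div_iff₀ hL0 hV]
    linarith
  have hc : 0 ≤ qq k ^ n1 := by positivity
  have he : 0 ≤ qq k ^ d.natDegree := by positivity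
  generalize ((Fr k Y ρ).card : ℝ) = L at *
  generalize qq k ^ (2 * ρ) = w at *
  generalize qq k ^ m = a at *
  generalize qq k ^ lam = b at *
  generalize qq k ^ n = N at *
  generalize qq k ^ n1 = c at *
  generalize qq k ^ d.natDegree = e at *
  refine add_le_add (third_num (by positivity) ?_) ?_
  · rw [mul_pow]
    calc _ ≤ (a / L / b) ^ 2 * (L * (c * b) * (w * e * (ε * (a ^ 2 * b)))) :=
          mul_le_mul_of_nonneg_left h2 (sq_nonneg _)
      _ = a ^ 2 * ε * (w / L * (a ^ 2 * (c * e))) := by field_simp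
      _ ≤ a ^ 2 * ε * (2 / VV k Y * N ^ 2) := by gcongr
      _ = _ := by ring
  · rw [show 2 * Real.sqrt (2 * eta0 k Y) / VV k Y * (a * N) =
      Real.sqrt (2 * eta0 k Y) * (2 / VV k Y * (a * N)) by ring]
    refine third_num (by positivity) ?_
    rw [mul_pow]
    calc _ ≤ (a / L / b) ^ 2 * (a * (eta0 k Y * (a * w) * (c * b * (w * e * (2 * b))))) :=
          mul_le_mul_of_nonneg_left h3 (sq_nonneg _)
      _ = a ^ 2 * (2 * eta0 k Y) * ((w / L) ^ 2 * (a ^ 2 * (c * e))) := by field_simp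
      _ ≤ a ^ 2 * (2 * eta0 k Y) * ((2 / VV k Y) ^ 2 * N ^ 2) := by gcongr
      _ = _ := by ring

end CL5
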