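import Pool.Agent.H92F.K
import Pool.Agent.H92F.Third
import Pool.Agent.H92F.PE0

/-! h92f: Proposition E (row PROPE). -/

set_option autoImplicit false
open Polynomial Finset UniqueFactorizationMonoid EuclideanDomain Filter Topology
open scoped Classical

noncomputable section
namespace CL5

variable {k : Type*} [Field k] [Fintype k]

theorem pe_qq_pos : 0 < qq k := lt_of_lt_of_le two_pos two_le_qq

/-- choice of the roughness level `Y = 12 j` -/
theorem pe_level (k : Type*) [Field k] [Fintype k] (e : ℕ) {K δ : ℝ} (hK : 0 < K) (hδ : 0 < δ) :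
    ∃ j : ℕ, e ≤ 12 * j ∧ eta0 k (12 * j) / VV k (12 * j) ≤ 1 / 2 ∧
      qq k ^ (3 * j) * Real.sqrt (8 * (eta0 k (12 * j) / VV k (12 * j))) ≤ δ ∧
      qq k ^ (3 * j) * (2 * (eta0 k (12 * j) / VV k (12 * j))) ≤ δ ∧
      (1 + 2 * (2 / VV k (12 * j))) * (K * (1 / qq k ^ j)) ≤ δ ∧
      2 * Real.sqrt (2 * eta0 k (12 * j)) / VV k (12 * j) ≤ δ := by
  have hq : (2 : ℝ) ≤ qq k := two_le_qq
  have hq0 : (0 : ℝ) < qq k := pe_qq_pos
  have hc : 0 < min (1 / 2) δ / (6000 * (K + 1)) := by positivity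
  obtain ⟨j, hj1, hj2⟩ := (((PE.tendsto_sq_div hq).eventually (gt_mem_nhds hc)).and
    (eventually_ge_atTop (e + 1))).exists
  set u : ℝ := (j : ℝ) ^ 2 / qq k ^ j with hu
  have hj : (1 : ℝ) ≤ j := by exact_mod_cast (by omega : 1 ≤ j)
  have hV := inv_VV_le (k := k) (Y := 12 * j) (by omega)
  have hV0 := VV_pos (k := k) (12 * j)
  set V := VV k (12 * j) with hVdef
  set W : ℝ := 1 / V with hW
  have hW0 : 0 ≤ W := by positivity
  have hW1 : W ≤ 1296 * (j : ℝ) ^ 2 := by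
    refine hV.trans (le_of_eq ?_); push_cast; ring
  set a : ℝ := 1 / qq k ^ j with ha
  have ha0 : 0 < a := by positivity
  have ha1 : a ≤ 1 := by
    rw [ha, div_le_one (by positivity)]; exact one_le_pow₀ (by linarith)
  have hua : u = (j : ℝ) ^ 2 * a := by rw [hu, ha]; ring
  have he : eta0 k (12 * j) = a ^ 12 := by
    rw [eta0, ha, one_div_pow, ← pow_mul, mul_comm j 12]
  have h3 : qq k ^ (3 * j) * a ^ 3 = 1 := by
    rw [ha, one_div_pow, ← pow_mul, mul_comm j 3]; field_simp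
  have hu0 : 0 ≤ u := by positivity
  have hu1 : 6000 * (K + 1) * u ≤ min (1 / 2) δ := by
    have := (lt_div_iff₀ (by positivity)).1 hj1
    linarith
  have hKu : 0 ≤ K * u := by positivity
  have huδ : 6000 * u + 6000 * (K * u) ≤ δ := by
    have := min_le_right (1 / 2 : ℝ) δ; linarith
  have huh : 6000 * u + 6000 * (K * u) ≤ 1 / 2 := by
    have := min_le_left (1 / 2 : ℝ) δ; linarith
  have hWa : W * a ≤ 1296 * u := by
    rw [hua]; nlinarith
  have hpow : ∀ s : ℕ, a ^ (s + 1) ≤ a := fun s => by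
    rw [pow_succ]; exact mul_le_of_le_one_left ha0.le (pow_le_one₀ ha0.le ha1)
  have hWs : ∀ s : ℕ, W * a ^ (s + 1) ≤ 1296 * u := fun s =>
    (mul_le_mul_of_nonneg_left (hpow s) hW0).trans hWa
  have hj2' : (1 : ℝ) ≤ (j : ℝ) ^ 2 := one_le_pow₀ hj
  have hau : a ≤ u := by rw [hua]; nlinarith
  have hdiv : eta0 k (12 * j) / V = W * a ^ 12 := by rw [he, hW]; ring
  refine ⟨j, by omega, ?_, ?_, ?_, ?_, ?_⟩
  · rw [hdiv]
    have : W * a ^ 12 ≤ 1296 * u := hWs 11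
    linarith
  · rw [hdiv]
    have h1 : Real.sqrt (8 * (W * a ^ 12)) ≤ 108 * j * a ^ 6 := by
      refine Real.sqrt_le_iff.2 ⟨by positivity, ?_⟩
      have h12 : 0 ≤ a ^ 12 := by positivity
      have : (108 * j * a ^ 6) ^ 2 = 11664 * (j : ℝ) ^ 2 * a ^ 12 := by ring
      rw [this]; nlinarith
    have h2 : qq k ^ (3 * j) * (108 * j * a ^ 6) = 108 * (j * a ^ 3) := by
      have : qq k ^ (3 * j) * (108 * j * a ^ 6) = 108 * (j * a ^ 3) * (qq k ^ (3 * j) * a ^ 3) := by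
        ring
      rw [this, h3, mul_one]
    have h4 : (j : ℝ) * a ^ 3 ≤ u := by
      rw [hua]
      exact mul_le_mul (by nlinarith) (hpow 2) (by positivity) (by positivity)
    calc _ ≤ qq k ^ (3 * j) * (108 * j * a ^ 6) := mul_le_mul_of_nonneg_left h1 (by positivity)
      _ ≤ δ := by rw [h2]; linarith
  · rw [hdiv]
    have : qq k ^ (3 * j) * (2 * (W * a ^ 12)) = 2 * (W * a ^ 9) * (qq k ^ (3 * j) * a ^ 3) := by
      ring
    rw [this, h3, mul_one]
    have : W * a ^ 9 ≤ 1296 * u := hWs 8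
    linarith
  · have h1 : (1 + 2 * (2 / V)) * (K * a) = K * a + 4 * (K * (W * a)) := by rw [hW]; ring
    rw [h1]
    have h2 := mul_le_mul_of_nonneg_left hWa hK.le
    have h4 := mul_le_mul_of_nonneg_left hau hK.le
    linarith
  · have h1 : Real.sqrt (2 * eta0 k (12 * j)) ≤ 2 * a ^ 6 := by
      refine Real.sqrt_le_iff.2 ⟨by positivity, ?_⟩
      have h12 : 0 ≤ a ^ 12 := by positivity
      have : (2 * a ^ 6) ^ 2 = 4 * a ^ 12 := by ring
      rw [this, he]; linarith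
    have h2 : 2 * Real.sqrt (2 * eta0 k (12 * j)) / V = 2 * (W * Real.sqrt (2 * eta0 k (12 * j))) := by
      rw [hW]; ring
    rw [h2]
    have h4 := mul_le_mul_of_nonneg_left h1 hW0
    have : W * a ^ 6 ≤ 1296 * u := hWs 5
    linarith

/-- `c / q ^ J` is small -/
theorem pe_small (k : Type*) [Field k] [Fintype k] (c : ℝ) {δ : ℝ} (hδ : 0 < δ) :
    ∃ J : ℕ, ∀ J' : ℕ, J ≤ J' → c / qq k ^ J' ≤ δ := by
  have hq : (2 : ℝ) ≤ qq k := two_le_qq
  have h := (tendsto_pow_atTop_atTop_of_one_lt (by linarith : 1 < qq k)).const_div_atTop c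
  exact eventually_atTop.1 (h.eventually (ge_mem_nhds hδ))

variable [CharP k 5]

/-- the estimate with all parameters free -/
theorem pe_core {d : k[X]} (hd : d.Monic) {Y ρ n Y' i0 : ℕ} {K ε1 ε2 : ℝ} (hε1 : 0 ≤ ε1)
    (hY : d.natDegree ≤ Y) (h : ∑ p ∈ prs k Y, p.natDegree ≤ ρ)
    (hη : eta0 k Y / VV k Y ≤ 1 / 2) (hn : 2 * d.natDegree + 2 ≤ n)
    (h5 : n - 2 * d.natDegree < 5 * ρ) (hm : n / 2 ≤ 2 * ρ) (h1 : Y' < ρ) (h2 : ρ + Y' < n / 2)
    (hK : ∑ g ∈ (box k (n / 2)).erase 0, ∑ H ∈ box k (n / 2) \ Maj k (n / 2) Y',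
        (if qq k ^ i0 < (kap d n g H : ℝ) then Real.sqrt (kap d n g H) else 0) ≤
      K * qq k ^ (2 * (n / 2)))
    (hbad : ((((box k (n / 2)).erase 0).filter
      (fun g => ¬ Good d (5 * ρ - (n - 2 * d.natDegree)) g)).card : ℝ) ≤ ε2 * qq k ^ (n / 2))
    (hM : ((((((box k (n / 2)).filter (Good d (5 * ρ - (n - 2 * d.natDegree)))) ×ˢ
            box k (5 * ρ - (n - 2 * d.natDegree))) ×ˢ
          (((box k (n / 2)).filter (Good d (5 * ρ - (n - 2 * d.natDegree)))) ×ˢ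
            box k (5 * ρ - (n - 2 * d.natDegree)))).filter
        (fun p => Del d p.1.1 p.1.2 = Del d p.2.1 p.2.2)).card : ℝ) ≤
      ε1 * qq k ^ (2 * (n / 2) + (5 * ρ - (n - 2 * d.natDegree)))) :
    ‖Ed d n Y'‖ ≤
      (Real.sqrt (qq k ^ i0) *
          (Real.sqrt (2 / (VV k Y * qq k ^ (2 * ρ - n / 2)) + 8 * (eta0 k Y / VV k Y)) +
            2 * (eta0 k Y / VV k Y)) +
        Real.sqrt (qq k ^ i0) * ε2 + (1 + 2 * (2 / VV k Y)) * K +
        (Real.sqrt (2 * ε1 / VV k Y) + 2 * Real.sqrt (2 * eta0 k Y) / VV k Y)) *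
        qq k ^ (n / 2 + n) := by
  have hq0 : (0 : ℝ) < qq k := pe_qq_pos
  have hV0 := VV_pos (k := k) Y
  have hL := card_Fr_ge h hη
  have hL0 : (0 : ℝ) < (Fr k Y ρ).card := lt_of_lt_of_le (by positivity) hL
  have hT := third_le hd hε1 hY h hη hn h5 hM
  have hmean := mean_one_sub h hη hm
  set m := n / 2 with hmdef
  set lam := 5 * ρ - (n - 2 * d.natDegree) with hlam
  set w : k[X] → k[X] → ℝ := fun g H => (ng Y ρ m g H : ℝ) * qq k ^ m / (Fr k Y ρ).card with hw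
  have hw0 : ∀ g H, 0 ≤ w g H := fun g H => by simp only [hw]; positivity
  have hs := PE.split ((box k m).erase 0) (box k m \ Maj k m Y') (Good d lam)
    (fun g H => th d n g H * ee (-(H * g)) (X ^ m)) w (fun g H => (kap d n g H : ℝ))
    (A := qq k ^ (n - m)) (T := qq k ^ i0) (B := 2 / VV k Y) (by positivity) (by positivity)
    hw0 (fun g H => ng_ratio_le h hη hm g H)
    (fun g _ H _ => by rw [norm_mul, norm_ee, mul_one]; exact norm_th_le hn g H)
  have e3 : ∑ g ∈ ((box k m).erase 0).filter (Good d lam), ∑ H ∈ box k m \ Maj k m Y',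
      (w g H : ℂ) * (th d n g H * ee (-(H * g)) (X ^ m)) =
      ∑ g ∈ (box k m).filter (Good d lam), ∑ H ∈ box k m,
        (w g H : ℂ) * (th d n g H * ee (-(H * g)) (X ^ m)) := by
    refine sum_congr ?_ fun g _ => ?_
    · ext g
      simp only [mem_filter, mem_erase]
      exact ⟨fun hg => ⟨hg.1.2, hg.2⟩, fun hg => ⟨⟨hg.2.1, hg.1⟩, hg.2⟩⟩
    · refine sum_subset sdiff_subset fun H hH hH' => ?_
      have hMaj : H ∈ Maj k m Y' := by
        by_contra hc; exact hH' (mem_sdiff.2 ⟨hH, hc⟩)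
      simp only [hw, ng_Maj h1 h2 g hMaj]
      simp
  have b1 : ∑ g ∈ (box k m).erase 0, ∑ H ∈ box k m \ Maj k m Y', |1 - w g H| ≤
      (Real.sqrt (2 / (VV k Y * qq k ^ (2 * ρ - m)) + 8 * (eta0 k Y / VV k Y)) +
        2 * (eta0 k Y / VV k Y)) * qq k ^ (2 * m) := by
    refine le_trans (sum_le_sum fun g _ => ?_) hmean
    exact sum_le_sum_of_subset_of_nonneg sdiff_subset fun _ _ _ => abs_nonneg _
  have b2 : ∑ g ∈ ((box k m).erase 0).filter (fun g => ¬ Good d lam g),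
      ∑ H ∈ box k m \ Maj k m Y', w g H ≤ ε2 * qq k ^ (2 * m) := by
    have : ∀ g, ∑ H ∈ box k m \ Maj k m Y', w g H ≤ qq k ^ m := by
      intro g
      refine (sum_le_sum_of_subset_of_nonneg sdiff_subset fun H _ _ => hw0 g H).trans ?_
      simp only [hw]
      rw [← sum_div, ← sum_mul, div_le_iff₀ hL0, mul_comm]
      exact mul_le_mul_of_nonneg_left (sum_ng_le Y ρ m g) (by positivity)
    refine (sum_le_sum fun g _ => this g).trans ?_
    rw [sum_const, nsmul_eq_mul, two_mul, pow_add, ← mul_assoc]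
    exact mul_le_mul_of_nonneg_right hbad (by positivity)
  have hpow : qq k ^ (n - m) * qq k ^ (2 * m) = qq k ^ (m + n) := by
    rw [← pow_add]; congr 1; omega
  rw [e3] at hs
  have hsq : 0 ≤ Real.sqrt (qq k ^ i0) := Real.sqrt_nonneg _
  refine hs.trans ?_
  refine (add_le_add (mul_le_mul_of_nonneg_left (add_le_add (add_le_add
    (mul_le_mul_of_nonneg_left b1 hsq) (mul_le_mul_of_nonneg_left b2 hsq))
    (mul_le_mul_of_nonneg_left hK (by positivity))) (by positivity)) hT).trans (le_of_eq ?_)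
  rw [← hpow]; ring

theorem propE {d : k[X]} (hd : d.Monic) {ε : ℝ} (hε : 0 < ε) :
    ∃ Y1 : ℕ, ∀ Y' : ℕ, Y1 ≤ Y' → ∀ᶠ n : ℕ in atTop,
      ‖Ed d n Y'‖ ≤ ε * qq k ^ (n / 2 + n) := by
  have hq : (2 : ℝ) ≤ qq k := two_le_qq
  have hq0 : (0 : ℝ) < qq k := pe_qq_pos
  obtain ⟨K, hK0, hK⟩ := lemmaK hd
  set δ := ε / 8 with hδdef
  have hδ : 0 < δ := by positivity
  obtain ⟨j, hY, hη, a1, a2, a3, a4⟩ := pe_level k d.natDegree hK0 hδ
  have hV0 := VV_pos (k := k) (12 * j)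
  set V := VV k (12 * j) with hV
  set Q := qq k ^ (3 * j) with hQ
  have hQ0 : 0 < Q := by positivity
  obtain ⟨J, hJ⟩ := pe_small k (2 / V) (δ := (δ / Q) ^ 2) (by positivity)
  obtain ⟨Z, hZ⟩ := pe_small k ((1 + 2 * (2 / V)) * K) hδ
  obtain ⟨m0, hm0⟩ := card_bad hd (5 + 10 * J + 4 * d.natDegree) (ε := δ / Q) (by positivity)
  obtain ⟨N0, hN0⟩ := card_coll hd (ε := δ ^ 2 * V / 2) (by positivity)
  refine ⟨2 * Z, fun Y' hY' => ?_⟩
  filter_upwards [eventually_ge_atTop (4 * (∑ p ∈ prs k (12 * j), p.natDegree) + 4 * Y' + 4 * J +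
    4 * N0 + 2 * m0 + 2 * d.natDegree + 20)] with n hn
  set ρ := (n / 2 + 1) / 2 + J with hρ
  have hcore := pe_core hd (Y := 12 * j) (ρ := ρ) (n := n) (Y' := Y') (i0 := 6 * j)
    (ε1 := δ ^ 2 * V / 2) (ε2 := δ / Q) (by positivity) hY (by omega) hη (by omega) (by omega)
    (by omega) (by omega) (by omega) (hK n Y' (6 * j) (by omega))
    (hm0 _ _ (by omega) (by omega)) (hN0 _ _ (by omega) (by omega))
  refine hcore.trans (mul_le_mul_of_nonneg_right ?_ (by positivity))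
  have s1 : Real.sqrt (qq k ^ (6 * j)) = Q := by
    rw [show 6 * j = 3 * j * 2 by ring, pow_mul, Real.sqrt_sq (by positivity)]
  have s2 : Real.sqrt (2 * (δ ^ 2 * V / 2) / V) = δ := by
    rw [show 2 * (δ ^ 2 * V / 2) / V = δ ^ 2 by field_simp, Real.sqrt_sq hδ.le]
  have s3 : qq k ^ (-((6 * j : ℕ) : ℝ) / 6) = 1 / qq k ^ j := by
    rw [show -((6 * j : ℕ) : ℝ) / 6 = -(j : ℝ) by push_cast; ring, Real.rpow_neg hq0.le,
      Real.rpow_natCast, one_div]
  have s4 : qq k ^ (-(Y' : ℝ) / 2) ≤ 1 / qq k ^ Z := by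
    rw [one_div, ← Real.rpow_natCast, ← Real.rpow_neg hq0.le]
    refine Real.rpow_le_rpow_of_exponent_le (by linarith) ?_
    have : ((2 * Z : ℕ) : ℝ) ≤ Y' := by exact_mod_cast hY'
    push_cast at this; linarith
  have s5 : Real.sqrt (2 / (V * qq k ^ (2 * ρ - n / 2)) + 8 * (eta0 k (12 * j) / V)) ≤
      δ / Q + Real.sqrt (8 * (eta0 k (12 * j) / V)) := by
    have h0 : 0 ≤ 8 * (eta0 k (12 * j) / V) := by unfold eta0; positivity
    have h1 : 2 / (V * qq k ^ (2 * ρ - n / 2)) ≤ (δ / Q) ^ 2 := by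
      rw [← _root_.div_div]; exact hJ _ (by omega)
    refine Real.sqrt_le_iff.2 ⟨by positivity, ?_⟩
    have h2 := Real.sq_sqrt h0
    have h3 : 0 ≤ δ / Q * Real.sqrt (8 * (eta0 k (12 * j) / V)) := by positivity
    nlinarith
  have s6 : Q * (δ / Q) = δ := by field_simp
  have s7 : (1 + 2 * (2 / V)) * (K * qq k ^ (-(Y' : ℝ) / 2)) ≤ δ := by
    refine le_trans ?_ (hZ Z le_rfl)
    rw [← mul_assoc, div_eq_mul_one_div ((1 + 2 * (2 / V)) * K)]
    exact mul_le_mul_of_nonneg_left s4 (by positivity)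
  rw [← hV, s1, s2, s3, s6]
  have s8 := mul_le_mul_of_nonneg_left s5 hQ0.le
  rw [mul_add Q, s6] at s8
  have s9 : ε = 8 * δ := by rw [hδdef]; ring
  rw [mul_add Q, mul_add K, mul_add (1 + 2 * (2 / V))]
  linarith

end CL5
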