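import Mathlib

/-! h92f: units of `k[X][y]/(y^2 - f)`, the descent (row UNIT). -/

set_option autoImplicit false
open Polynomial

namespace CL5.Alg

variable {k : Type*} [Field k]

lemma unit_norm {f : k[X]} (e : (QuadraticAlgebra k[X] f 0)ˣ) :
    ∃ c : k, c ≠ 0 ∧ e.val.re * e.val.re - f * e.val.im * e.val.im = C c := by
  have h : IsUnit (QuadraticAlgebra.norm e.val) := e.isUnit.map _
  obtain ⟨c, hc, h2⟩ := Polynomial.isUnit_iff.1 h
  refine ⟨c, hc.ne_zero, ?_⟩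
  rw [h2, QuadraticAlgebra.norm_def]; ring

lemma unit_const {f : k[X]} (e : (QuadraticAlgebra k[X] f 0)ˣ) (h : e.val.im = 0) :
    ∃ c : k, c ≠ 0 ∧ e.val = algebraMap k[X] (QuadraticAlgebra k[X] f 0) (C c) := by
  obtain ⟨c, hc, h1⟩ := unit_norm e
  rw [h, mul_zero, sub_zero] at h1
  have h3 : IsUnit e.val.re := by
    have h4 : IsUnit (e.val.re * e.val.re) := by
      rw [h1]; exact isUnit_C.2 hc.isUnit
    exact isUnit_of_mul_isUnit_left h4
  obtain ⟨d, hd, h2⟩ := Polynomial.isUnit_iff.1 h3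
  exact ⟨d, hd.ne_zero, QuadraticAlgebra.ext h2.symm h⟩

lemma unit_deg {f : k[X]} (hf : f.Monic) (h0 : 0 < f.natDegree)
    (e : (QuadraticAlgebra k[X] f 0)ˣ) (h : e.val.im ≠ 0) :
    e.val.re ≠ 0 ∧ 2 * e.val.re.natDegree = f.natDegree + 2 * e.val.im.natDegree ∧
      e.val.re.leadingCoeff * e.val.re.leadingCoeff =
        e.val.im.leadingCoeff * e.val.im.leadingCoeff := by
  obtain ⟨c, -, h1⟩ := unit_norm e
  set a := e.val.re
  set b := e.val.im
  have h2 : a * a = f * b * b + C c := by rw [← h1]; ring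
  have hfb : f * b ≠ 0 := mul_ne_zero hf.ne_zero h
  have hd : (f * b * b).natDegree = f.natDegree + 2 * b.natDegree := by
    rw [natDegree_mul hfb h, natDegree_mul hf.ne_zero h]; ring
  have hd2 : (a * a).natDegree = f.natDegree + 2 * b.natDegree := by
    rw [h2, natDegree_add_C, hd]
  have ha : a ≠ 0 := by
    intro ha
    rw [ha, mul_zero, natDegree_zero] at hd2
    omega
  refine ⟨ha, ?_, ?_⟩
  · rw [← hd2, natDegree_mul ha ha]; ring
  · have hlt : (C c).degree < (f * b * b).degree := by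
      apply lt_of_le_of_lt degree_C_le
      rw [← natDegree_pos_iff_degree_pos, hd]; omega
    rw [← leadingCoeff_mul, h2, leadingCoeff_add_of_degree_lt' hlt, leadingCoeff_mul,
      leadingCoeff_mul, hf.leadingCoeff, one_mul]

theorem unit_odd {f : k[X]} (hf : f.Monic) (_hs : Squarefree f) (hn : Odd f.natDegree)
    (e : (QuadraticAlgebra k[X] f 0)ˣ) :
    ∃ c : k, (e : QuadraticAlgebra k[X] f 0) =
      algebraMap k[X] (QuadraticAlgebra k[X] f 0) (C c) := by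
  by_cases h : e.val.im = 0
  · obtain ⟨c, -, hc⟩ := unit_const e h
    exact ⟨c, hc⟩
  · obtain ⟨-, h1, -⟩ := unit_deg hf hn.pos e h
    obtain ⟨m, hm⟩ := hn
    omega

lemma unit_add (h2 : (2 : k) ≠ 0) {p q : k[X]} (hp : p ≠ 0) (hd : p.natDegree = q.natDegree)
    (hl : p.leadingCoeff = q.leadingCoeff) :
    p + q ≠ 0 ∧ (p + q).natDegree = p.natDegree ∧ (p + q).leadingCoeff = 2 * p.leadingCoeff := by
  have hp' : p.leadingCoeff ≠ 0 := leadingCoeff_ne_zero.2 hp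
  have hq : q ≠ 0 := leadingCoeff_ne_zero.1 (hl ▸ hp')
  have hdeg : p.degree = q.degree := by
    rw [degree_eq_natDegree hp, degree_eq_natDegree hq, hd]
  have hne : p.leadingCoeff + q.leadingCoeff ≠ 0 := by
    rw [← hl, ← two_mul]; exact mul_ne_zero h2 hp'
  have h3 := leadingCoeff_add_of_degree_eq hdeg hne
  have h4 := degree_add_eq_of_leadingCoeff_add_ne_zero hne
  refine ⟨leadingCoeff_ne_zero.1 (h3 ▸ hne), ?_, by rw [h3, ← hl, two_mul]⟩
  rw [← hdeg, max_self] at h4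
  exact natDegree_eq_of_degree_eq h4

/-- A unit `a + b y` is positive if `b ≠ 0` and `a`, `b` have the same leading coefficient. -/
def unitPos {f : k[X]} (e : (QuadraticAlgebra k[X] f 0)ˣ) : Prop :=
  e.val.im ≠ 0 ∧ e.val.re.leadingCoeff = e.val.im.leadingCoeff

lemma unit_mul (h2 : (2 : k) ≠ 0) {f : k[X]} (hf : f.Monic) (h0 : 0 < f.natDegree)
    {u v : (QuadraticAlgebra k[X] f 0)ˣ} (hu : unitPos u) (hv : unitPos v) :
    unitPos (u * v) ∧ (u * v).val.re.natDegree = u.val.re.natDegree + v.val.re.natDegree := by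
  obtain ⟨ha, hda, -⟩ := unit_deg hf h0 u hu.1
  obtain ⟨ha', hda', -⟩ := unit_deg hf h0 v hv.1
  obtain ⟨hb, hl⟩ := hu
  obtain ⟨hb', hl'⟩ := hv
  have hre : (u * v).val.re = u.val.re * v.val.re + f * u.val.im * v.val.im := by
    simp [QuadraticAlgebra.re_mul]
  have him : (u * v).val.im = u.val.re * v.val.im + u.val.im * v.val.re := by
    simp [QuadraticAlgebra.im_mul]
  obtain ⟨-, r2, r3⟩ := unit_add h2 (p := u.val.re * v.val.re) (q := f * u.val.im * v.val.im)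
    (mul_ne_zero ha ha')
    (by rw [natDegree_mul ha ha', natDegree_mul (mul_ne_zero hf.ne_zero hb) hb',
      natDegree_mul hf.ne_zero hb]; omega)
    (by simp only [leadingCoeff_mul, hf.leadingCoeff, one_mul, hl, hl'])
  obtain ⟨i1, -, i3⟩ := unit_add h2 (p := u.val.re * v.val.im) (q := u.val.im * v.val.re)
    (mul_ne_zero ha hb')
    (by rw [natDegree_mul ha hb', natDegree_mul hb ha']; omega)
    (by simp only [leadingCoeff_mul, hl, hl'])
  refine ⟨⟨him ▸ i1, ?_⟩, ?_⟩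
  · rw [hre, him, r3, i3]; simp only [leadingCoeff_mul, hl']
  · rw [hre, r2, natDegree_mul ha ha']

lemma unit_tri {f : k[X]} (hf : f.Monic) (h0 : 0 < f.natDegree)
    (u : (QuadraticAlgebra k[X] f 0)ˣ) : u.val.im = 0 ∨ unitPos u ∨ unitPos u⁻¹ := by
  by_cases h : u.val.im = 0
  · exact Or.inl h
  right
  obtain ⟨-, -, hl⟩ := unit_deg hf h0 u h
  rcases mul_self_eq_mul_self_iff.1 hl with h1 | h1
  · exact Or.inl ⟨h, h1⟩
  right
  obtain ⟨c, hc, hn⟩ := unit_norm u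
  have hcc : C c⁻¹ * C c = (1 : k[X]) := by rw [← C_mul, inv_mul_cancel₀ hc, C_1]
  have hinv : (u⁻¹).val = ⟨C c⁻¹ * u.val.re, -(C c⁻¹ * u.val.im)⟩ := by
    apply Units.inv_eq_of_mul_eq_one_right
    apply QuadraticAlgebra.ext
    · simp only [QuadraticAlgebra.re_mul, QuadraticAlgebra.re_one]
      rw [← hcc, ← hn]; ring
    · simp only [QuadraticAlgebra.im_mul, QuadraticAlgebra.im_one]
      ring
  have hc' : C c⁻¹ ≠ (0 : k[X]) := C_ne_zero.2 (inv_ne_zero hc)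
  unfold unitPos
  rw [hinv]
  refine ⟨neg_ne_zero.2 (mul_ne_zero hc' h), ?_⟩
  simp only [leadingCoeff_neg, leadingCoeff_mul, h1, mul_neg]

lemma unit_descent (h2 : (2 : k) ≠ 0) {f : k[X]} (hf : f.Monic) (h0 : 0 < f.natDegree)
    (e0 : (QuadraticAlgebra k[X] f 0)ˣ) (hp : unitPos e0)
    (hmin : ∀ u : (QuadraticAlgebra k[X] f 0)ˣ, unitPos u →
      e0.val.re.natDegree ≤ u.val.re.natDegree) (n : ℕ) :
    ∀ u : (QuadraticAlgebra k[X] f 0)ˣ, unitPos u → u.val.re.natDegree = n →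
      ∃ j : ℤ, (u * (e0 ^ j)⁻¹).val.im = 0 := by
  induction n using Nat.strong_induction_on with
  | _ n ih =>
    intro u hu hn
    have hpos : ∀ w : (QuadraticAlgebra k[X] f 0)ˣ, unitPos w → 0 < w.val.re.natDegree := by
      intro w hw
      obtain ⟨-, h1, -⟩ := unit_deg hf h0 w hw.1
      omega
    rcases unit_tri hf h0 (u * e0⁻¹) with h | h | h
    · exact ⟨1, by rwa [zpow_one]⟩
    · have h1 := (unit_mul h2 hf h0 h hp).2
      rw [inv_mul_cancel_right] at h1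
      have h3 := hpos e0 hp
      obtain ⟨j, hj⟩ := ih _ (by omega) (u * e0⁻¹) h rfl
      refine ⟨j + 1, ?_⟩
      have : u * (e0 ^ (j + 1))⁻¹ = u * e0⁻¹ * (e0 ^ j)⁻¹ := by
        rw [zpow_add_one, mul_inv_rev, mul_assoc]
      rwa [this]
    · have h1 := (unit_mul h2 hf h0 h hu).2
      have h4 : (u * e0⁻¹)⁻¹ * u = e0 := by
        rw [mul_inv_rev, inv_inv, inv_mul_cancel_right]
      rw [h4] at h1
      have h3 := hpos _ h
      have h5 := hmin u hu
      omega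

theorem unit_struct (h2 : (2 : k) ≠ 0) {f : k[X]} (hf : f.Monic) (h0 : 0 < f.natDegree)
    (hex : ∃ e : (QuadraticAlgebra k[X] f 0)ˣ, (e : QuadraticAlgebra k[X] f 0).im ≠ 0) :
    ∃ e0 : (QuadraticAlgebra k[X] f 0)ˣ,
      (∀ a : k[X], (e0 : QuadraticAlgebra k[X] f 0) ≠
        algebraMap k[X] (QuadraticAlgebra k[X] f 0) a) ∧
      ∀ e : (QuadraticAlgebra k[X] f 0)ˣ, ∃ (c : k) (j : ℤ), (e : QuadraticAlgebra k[X] f 0) =
        algebraMap k[X] (QuadraticAlgebra k[X] f 0) (C c) *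
          ((e0 ^ j : (QuadraticAlgebra k[X] f 0)ˣ) : QuadraticAlgebra k[X] f 0) := by
  classical
  have hP : ∃ n : ℕ, ∃ u : (QuadraticAlgebra k[X] f 0)ˣ, unitPos u ∧ u.val.re.natDegree = n := by
    obtain ⟨e, he⟩ := hex
    rcases unit_tri hf h0 e with h | h | h
    · exact absurd h he
    · exact ⟨_, e, h, rfl⟩
    · exact ⟨_, e⁻¹, h, rfl⟩
  obtain ⟨e0, hp, hd⟩ := Nat.find_spec hP
  have hmin : ∀ u : (QuadraticAlgebra k[X] f 0)ˣ, unitPos u →
      e0.val.re.natDegree ≤ u.val.re.natDegree := fun u hu =>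
    hd ▸ Nat.find_min' hP ⟨u, hu, rfl⟩
  refine ⟨e0, fun a ha => hp.1 (by rw [ha]; rfl), fun e => ?_⟩
  have key : ∀ (u : (QuadraticAlgebra k[X] f 0)ˣ) (j : ℤ), (u * (e0 ^ j)⁻¹).val.im = 0 →
      ∃ c : k, u.val = algebraMap k[X] (QuadraticAlgebra k[X] f 0) (C c) * (e0 ^ j).val := by
    intro u j h
    obtain ⟨c, -, hc⟩ := unit_const _ h
    exact ⟨c, by rw [← hc, ← Units.val_mul, inv_mul_cancel_right]⟩
  rcases unit_tri hf h0 e with h | h | h
  · obtain ⟨c, hc⟩ := key e 0 (by simpa using h)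
    exact ⟨c, 0, hc⟩
  · obtain ⟨j, hj⟩ := unit_descent h2 hf h0 e0 hp hmin _ e h rfl
    obtain ⟨c, hc⟩ := key e j hj
    exact ⟨c, j, hc⟩
  · obtain ⟨j, hj⟩ := unit_descent h2 hf h0 e0 hp hmin _ e⁻¹ h rfl
    obtain ⟨c, hc0, hc⟩ := unit_const _ hj
    refine ⟨c⁻¹, -j, ?_⟩
    have h1 : e = (e⁻¹ * (e0 ^ j)⁻¹)⁻¹ * e0 ^ (-j) := by
      rw [mul_inv_rev, inv_inv, inv_inv, zpow_neg, mul_comm (e0 ^ j) e, mul_inv_cancel_right]
    have h3 : ((e⁻¹ * (e0 ^ j)⁻¹)⁻¹).val =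
        algebraMap k[X] (QuadraticAlgebra k[X] f 0) (C c⁻¹) := by
      apply Units.inv_eq_of_mul_eq_one_right
      rw [hc, ← map_mul, ← C_mul, mul_inv_cancel₀ hc0, C_1, map_one]
    rw [← h3, ← Units.val_mul, ← h1]

end CL5.Alg
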